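import Pool.Agent.S5.I.NdC
import Pool.Agent.S5.E.B2.Base

/-!
# Closed nodes: the data of a node, cells of the parameters

`Nd2`: an inner closed node in terms of its slots `bl`, `br` (the values `cos z` of the neighbours,
conjugated on `A` edges). `NdE`: the same for an end. `Cd`: numerical data of a cell of the
parameters; `CdOK`: the slopes and the critical point of the node satisfy these bounds.
-/

set_option autoImplicit false

namespace Pool.Agent.S5.K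

open Complex Pool.Agent.S5.G

/-- An inner node with two half twists. `E = exp (- i α)`, `K = cos α = bl br / (bl + br)`. -/
structure Nd2 (bl br k E ya yb la lb : ℂ) : Prop where
  al : |bl.arg| < Real.pi / 4
  ar : |br.arg| < Real.pi / 4
  bl0 : bl ≠ 0
  br0 : br ≠ 0
  kre : 0 < k.re
  karg : |k.arg| < Real.pi / 4
  Eim : E.im < 0
  kE : 2 * k ^ 2 = E * (bl + br)
  EE : (E ^ 2 + 1) * (bl + br) = 2 * (bl * br) * E
  Va : 1 + exp (-(2 * Real.pi * I * ya)) = 2 * bl * E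
  Vb : 1 + exp (-(2 * Real.pi * I * yb)) = 2 * br * E
  ya0 : 0 < ya.re
  ya1 : ya.re < 1 / 2
  yb0 : 0 < yb.re
  yb1 : yb.re < 1 / 2
  hla : la = 2 * (log bl - log k)
  hlb : lb = 2 * (log br - log k)
  sla : la = lcl ya yb
  slb : lb = lcl yb ya

/-- An end with two half twists. -/
structure NdE (b k y l : ℂ) : Prop where
  ab : |b.arg| < Real.pi / 4
  b0 : b ≠ 0
  kre : 0 < k.re
  karg : |k.arg| < Real.pi / 4
  kE : 2 * k ^ 2 = -I * b
  Vy : 1 + exp (-(2 * Real.pi * I * y)) = -(2 * I * b)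
  y0 : 0 < y.re
  y1 : y.re < 1 / 2
  hl : l = 2 * (log b - log k)
  sl : l = lcl y (1 / 2)

/-- The region of a slot `b`: `k0 ≤ |b| ≤ k1`, `t0 ≤ tan |arg b| ≤ t1` in units of `1 / 1000`, the
sign of the argument is `+` on `A` edges (`S = false`) and `-` on `S` edges. -/
def Pol (S : Bool) (k0 k1 t0 t1 : ℕ) (b : ℂ) : Prop :=
  0 < b.re ∧ ((k0 : ℝ) / 1000) ^ 2 ≤ b.re ^ 2 + b.im ^ 2 ∧ b.re ^ 2 + b.im ^ 2 ≤ ((k1 : ℝ) / 1000) ^ 2 ∧
    (t0 : ℝ) / 1000 * b.re ≤ (if S = true then -b.im else b.im) ∧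
      (if S = true then -b.im else b.im) ≤ (t1 : ℝ) / 1000 * b.re

/-- Numerical data of a cell. `p = (ia, ja, ib, jb)`: the reference point
`a0 = ia / 200 + i (ja - 50) / 200`, `b0` in the same way. `l1`, `l2`: the real and imaginary part of the
slope in the slot `a`, as `(l - 2^23) / 2^20`, `r1`, `r2` the radii in units of `2^(-20)`; `l3`, `l4`, `r3`,
`r4` for the slot `b`. `x1 ≤ Re ya ≤ x2` (`1 / 3200`), `x3 ≤ Re yb ≤ x4`,
`(e1 - 800) / 3200 ≤ Im ya ≤ (e2 - 800) / 3200`, the same with `e3`, `e4` for `yb`. -/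
structure Cd where
  ia : ℕ
  ja : ℕ
  ib : ℕ
  jb : ℕ
  l1 : ℕ
  l2 : ℕ
  l3 : ℕ
  l4 : ℕ
  r1 : ℕ
  r2 : ℕ
  r3 : ℕ
  r4 : ℕ
  x1 : ℕ
  x2 : ℕ
  x3 : ℕ
  x4 : ℕ
  e1 : ℕ
  e2 : ℕ
  e3 : ℕ
  e4 : ℕ

/-- The bounds of a cell hold. -/
structure CdOK (c : Cd) (ya yb la lb : ℂ) : Prop where
  l1 : |la.re * 1048576 + 8388608 - c.l1| ≤ c.r1
  l2 : |la.im * 1048576 + 8388608 - c.l2| ≤ c.r2
  l3 : |lb.re * 1048576 + 8388608 - c.l3| ≤ c.r3
  l4 : |lb.im * 1048576 + 8388608 - c.l4| ≤ c.r4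
  x1 : (c.x1 : ℝ) ≤ ya.re * 3200
  x2 : ya.re * 3200 ≤ c.x2
  x3 : (c.x3 : ℝ) ≤ yb.re * 3200
  x4 : yb.re * 3200 ≤ c.x4
  e1 : (c.e1 : ℝ) ≤ ya.im * 3200 + 800
  e2 : ya.im * 3200 + 800 ≤ c.e2
  e3 : (c.e3 : ℝ) ≤ yb.im * 3200 + 800
  e4 : yb.im * 3200 + 800 ≤ c.e4

/-! ### Statements (to be proved elsewhere)

K0: `HG.nd2` : the slots of an inner node with `a i = 2` give `Nd2`; `HG.ndE_zero`, `HG.ndE_last` for the
ends.

K2: a program `mk : Bool → ℕ → ℕ → ℕ → ℕ → Bool → ℕ → ℕ → ℕ → ℕ → ℕ → ℕ → ℕ → ℕ → Option Cd` (or in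
continuation passing style) with
`mk s k0 k1 t0 t1 s' k0' k1' t0' t1' ia ja ib jb = some c → Nd2 bl br k E ya yb la lb →
  Pol s k0 k1 t0 t1 bl → Pol s' k0' k1' t0' t1' br → CdOK c ya yb la lb`. -/

end Pool.Agent.S5.K
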