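import Pool.Agent.S5.K.Defs

/-!
# Closed nodes: `Nd2` and `NdE` from the critical point
-/

set_option autoImplicit false

namespace Pool.Agent.S5.K

open Complex Pool.Agent.H63.VC Pool.Agent.H63.VC3 Pool.Agent.S3 Pool.Agent.S5.G
open Pool.Agent.S3.G (Yy)
open scoped ComplexConjugate

/-- `exp (- i α)` of a closed node. -/
noncomputable def nE (p r : ℂ) : ℂ := -(I * cosh ((p + r) / 2)) / cosh ((p - r) / 2)

theorem nE_comm (p r : ℂ) : nE p r = nE r p := by
  unfold nE
  rw [add_comm p r, ← cosh_neg ((p - r) / 2)]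
  congr 2
  ring

/-- The position of a closed node. -/
theorem z_cl {p r z : ℂ} (hz : 2 * z = Real.pi + I * (p + r)) :
    sin z = cosh ((p + r) / 2) ∧ cos z = -(I * sinh ((p + r) / 2)) := by
  have e : z = Real.pi / 2 + (p + r) / 2 * I := by linear_combination hz / 2
  have e1 : cosh ((p + r) / 2) = cos ((p + r) / 2 * I) := (cos_mul_I _).symm
  have e2 : sinh ((p + r) / 2) * I = sin ((p + r) / 2 * I) := (sin_mul_I _).symm
  constructor
  · rw [e, add_comm, Complex.sin_add_pi_div_two, e1]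
  · rw [e, add_comm, Complex.cos_add_pi_div_two, ← e2, mul_comm]

variable {p r z b : ℂ}

/-- A slot of a closed node. -/
theorem slot_cl (hz : 2 * z = Real.pi + I * (p + r)) (hb : sinh p * cos z = b * sin z) :
    (b + I * cosh p) * cosh ((p + r) / 2) = I * cosh ((p - r) / 2) := by
  obtain ⟨e1, e2⟩ := z_cl hz
  have e3 : (p - r) / 2 = p - (p + r) / 2 := by ring
  rw [e1, e2] at hb
  rw [e3, cosh_sub]
  linear_combination -hb

theorem nE_mul (hz : 2 * z = Real.pi + I * (p + r)) (hb : sinh p * cos z = b * sin z)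
    (h0 : cosh ((p - r) / 2) ≠ 0) : nE p r * (b + I * cosh p) = 1 := by
  have h1 := slot_cl hz hb
  unfold nE
  rw [div_mul_eq_mul_div, div_eq_one_iff_eq h0]
  linear_combination (-I) * h1 - cosh ((p - r) / 2) * I_sq

/-- The number `cosh d` does not vanish. -/
theorem cosh_d_ne (hz : 2 * z = Real.pi + I * (p + r)) (hs : sin z ≠ 0)
    (hb : sinh p * cos z = b * sin z) (h0 : b + I * cosh p ≠ 0) : cosh ((p - r) / 2) ≠ 0 := by
  have h1 := slot_cl hz hb
  intro h2
  rw [h2, mul_zero, ← (z_cl hz).1] at h1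
  exact (mul_ne_zero h0 hs) h1

theorem sum_cl {bl br : ℂ} (hz : 2 * z = Real.pi + I * (p + r)) (hl : sinh p * cos z = bl * sin z)
    (hr : sinh r * cos z = br * sin z) (hs : sin z ≠ 0) (h0 : cosh ((p - r) / 2) ≠ 0) :
    2 * cos z ^ 2 = nE p r * (bl + br) ∧
      (nE p r ^ 2 + 1) * (bl + br) = 2 * (bl * br) * nE p r := by
  obtain ⟨e1, e2⟩ := z_cl hz
  rw [e1, e2] at hl hr
  rw [e1] at hs
  rw [e2]
  obtain ⟨h, hh⟩ : ∃ h, h = (p + r) / 2 := ⟨_, rfl⟩
  obtain ⟨d, hd⟩ : ∃ d, d = (p - r) / 2 := ⟨_, rfl⟩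
  have hp : p = h + d := by rw [hh, hd]; ring
  have hr' : r = h - d := by rw [hh, hd]; ring
  have hE : nE p r = -(I * cosh h) / cosh d := by rw [hh, hd]; rfl
  rw [← hh] at hl hr hs ⊢
  rw [← hd] at h0
  rw [hE]
  have s1 := cosh_sq h
  have s2 := cosh_sq d
  have a1 : bl * cosh h = -(I * sinh h) * (sinh h * cosh d + cosh h * sinh d) := by
    rw [← hl, hp, sinh_add]
    ring
  have a2 : br * cosh h = -(I * sinh h) * (sinh h * cosh d - cosh h * sinh d) := by
    rw [← hr, hr', sinh_sub]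
    ring
  constructor
  · rw [div_mul_eq_mul_div, eq_div_iff h0]
    linear_combination I * a1 + I * a2 + (2 * sinh h ^ 2 * cosh d - 2 * sinh h ^ 2 * cosh d) * I_sq
  · have a3 : (bl * cosh h) * (br * cosh h) = -(sinh h ^ 2) * (cosh h ^ 2 - cosh d ^ 2) := by
      rw [a1, a2]
      linear_combination (sinh h ^ 2 * (sinh h ^ 2 * cosh d ^ 2 - cosh h ^ 2 * sinh d ^ 2)) * I_sq +
        sinh h ^ 2 * cosh d ^ 2 * s1 - sinh h ^ 2 * cosh h ^ 2 * s2
    have e3 : (-(I * cosh h) / cosh d) ^ 2 + 1 = (cosh d ^ 2 - cosh h ^ 2) / cosh d ^ 2 := by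
      rw [div_pow, neg_sq, mul_pow, I_sq]
      field_simp
      ring
    rw [e3]
    have h1 : cosh d ^ 2 ≠ 0 := pow_ne_zero 2 h0
    rw [div_mul_eq_mul_div, div_eq_iff h1]
    have h2 : 2 * (bl * br) * (-(I * cosh h) / cosh d) * cosh d ^ 2 =
        -2 * I * (bl * br) * cosh h * cosh d := by
      field_simp
    rw [h2]
    have h3 : cosh h * ((cosh d ^ 2 - cosh h ^ 2) * (bl + br)) =
        cosh h * (-2 * I * (bl * br) * cosh h * cosh d) := by
      linear_combination (cosh d ^ 2 - cosh h ^ 2) * (a1 + a2) + 2 * I * cosh d * a3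
    exact mul_left_cancel₀ hs h3

/-! ### The slots -/

theorem Sd_im {s : Bool} {c q z : ℂ} (h : Sd s c q z) : 0 < (kp s c + I * cosh q).im := by
  rw [add_im, I_mul_im]
  cases s
  · have h1 : 0 < (cosh q).re := by
      rw [G.cosh_re]
      exact mul_pos (Real.cosh_pos _) (Real.cos_pos_of_mem_Ioo ⟨h.q1, h.q2⟩)
    have h2 := h.c1
    rw [kp_false, conj_im]
    linarith
  · have h1 := (h.ss rfl).2
    rw [add_im, I_mul_im] at h1
    rw [kp_true]
    exact h1

theorem Sd_V {s : Bool} {c q z : ℂ} (h : Sd s c q z) {E : ℂ} (hE : E * (kp s c + I * cosh q) = 1) :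
    1 + exp (-(2 * Real.pi * I * sy q z)) = 2 * kp s c * E := by
  have h1 := h.den
  have h2 := h.num
  rw [exp_neg, h.expY]
  unfold Yy
  have h3 : E = (kp s c + I * cosh q)⁻¹ := eq_inv_of_mul_eq_one_left hE
  rw [h3, inv_div]
  field_simp
  ring

theorem im_neg_of_mul {E w : ℂ} (h : E * w = 1) (hw : 0 < w.im) : E.im < 0 := by
  have h3 : E = w⁻¹ := eq_inv_of_mul_eq_one_left h
  rw [h3, inv_im]
  exact div_neg_of_neg_of_pos (by linarith) (normSq_pos.2 fun h0 => by
    rw [h0] at hw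
    simp at hw)

end Pool.Agent.S5.K

namespace Pool.Agent.S5

open Complex Pool.Agent.H63.VC Pool.Agent.H63.VC3 Pool.Agent.S3 Pool.Agent.S5.G Pool.Agent.S5.K
open scoped ComplexConjugate

variable {m : ℕ} {a : ℕ → ℕ} {S fl : ℕ → Bool} {z ql qr : ℕ → ℂ} {r : ℕ → ℤ} {K : Cn m}

theorem HG.kabs (h : HG m a S fl z ql qr r K) (s : Bool) (i : ℕ) (hi : i ≤ m) :
    |(kp s (cos (z i))).arg| < Real.pi / 4 :=
  abs_lt.2 (h.karg s i hi)

theorem HG.cl_lcl (h : HG m a S fl z ql qr r K) {i : ℕ} (hi : i ≤ m) (ha : a i = 2) :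
    ((slL m a S z ql i).ex = true →
      (slL m a S z ql i).lam = lcl (slL m a S z ql i).ys (slR m a S z qr i).ys) ∧
    ((slR m a S z qr i).ex = true →
      (slR m a S z qr i).lam = lcl (slR m a S z qr i).ys (slL m a S z ql i).ys) := by
  have hab := h.abs i hi
  have ht : tyG m r i = Ty.cl := tyG_two (by omega)
  have hF := (h.frame i hi).2.2
  rw [ha, ht] at hF
  obtain ⟨p1, p2⟩ := h.sy_pos hi
  obtain ⟨e1, e2⟩ := cl_slopes hF p1 p2
  exact ⟨fun hx => (h.slL_lam hi hx).trans e1, fun hx => (h.slR_lam hx).trans e2⟩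

/-- **Inner closed nodes.** -/
theorem HG.nd2 (h : HG m a S fl z ql qr r K) {i : ℕ} (h0 : 0 < i) (hi : i < m) (ha : a i = 2) :
    Nd2 (kp (S (i - 1)) (cos (z (i - 1)))) (kp (S i) (cos (z (i + 1)))) (cos (z i))
      (nE (ql i) (qr i)) (slL m a S z ql i).ys (slR m a S z qr i).ys (slL m a S z ql i).lam
      (slR m a S z qr i).lam := by
  obtain ⟨j, rfl⟩ : ∃ j, i = j + 1 := ⟨i - 1, by omega⟩
  have dl := h.sdl j (by omega)
  have dr := h.sdr (j + 1) hi
  have hz : 2 * z (j + 1) = Real.pi + I * (ql (j + 1) + qr (j + 1)) := by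
    have h1 := h.crt.eq (j + 1) hi.le
    rw [ha] at h1
    push_cast at h1
    exact h1
  have hz' : 2 * z (j + 1) = Real.pi + I * (qr (j + 1) + ql (j + 1)) := by
    rw [hz, add_comm (ql (j + 1))]
  have hd := cosh_d_ne hz dl.sz dl.sn' dl.num
  have hd' := cosh_d_ne hz' dr.sz dr.sn' dr.num
  have m1 := nE_mul hz dl.sn' hd
  have m2 := nE_mul hz' dr.sn' hd'
  rw [nE_comm] at m2
  obtain ⟨s1, s2⟩ := sum_cl hz dl.sn' dr.sn' dl.sz hd
  obtain ⟨l1, l2⟩ := h.cl_lcl hi.le ha
  rw [Nat.add_sub_cancel]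
  exact {
    al := h.kabs _ _ (by omega)
    ar := h.kabs _ _ (by omega)
    bl0 := dl.k_ne
    br0 := dr.k_ne
    kre := (h.crt.cosz (j + 1) hi.le).1
    karg := by
      have := h.kabs true (j + 1) hi.le
      rwa [kp_true] at this
    Eim := im_neg_of_mul m1 (Sd_im dl)
    kE := s1
    EE := s2
    Va := Sd_V dl m1
    Vb := Sd_V dr m2
    ya0 := dl.slot.sy_re.1
    ya1 := dl.re_lt
    yb0 := dr.slot.sy_re.1
    yb1 := dr.re_lt
    hla := by
      show 2 * (log (kp (S (j + 1 - 1)) (cos (z (j + 1 - 1)))) - log (cos (z (j + 1)))) = _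
      rw [Nat.add_sub_cancel]
    hlb := rfl
    sla := l1 (decide_eq_true h0)
    slb := l2 (decide_eq_true hi) }

/-- **The first node, with two half twists.** -/
theorem HG.ndE_zero (h : HG m a S fl z ql qr r K) (ha : a 0 = 2) :
    NdE (kp (S 0) (cos (z 1))) (cos (z 0)) (slR m a S z qr 0).ys (slR m a S z qr 0).lam := by
  have hm : 0 < m := h.crt.hR
  have dr := h.sdr 0 hm
  have hz : 2 * z 0 = Real.pi + I * (qr 0 + ql 0) := by
    have h1 := h.crt.eq 0 hm.le
    rw [ha] at h1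
    push_cast at h1
    rw [h1, add_comm (ql 0)]
  have hl0 := h.crt.l0
  have hd := cosh_d_ne hz dr.sz dr.sn' dr.num
  have m1 := nE_mul hz dr.sn' hd
  have hE : nE (qr 0) (ql 0) = -I := by
    unfold nE
    rw [hl0, sub_zero] at hd
    rw [hl0, add_zero, sub_zero]
    field_simp
  have hsn : sinh (ql 0) * cos (z 0) = 0 * sin (z 0) := by rw [hl0, sinh_zero, zero_mul, zero_mul]
  obtain ⟨s1, -⟩ := sum_cl hz dr.sn' hsn dr.sz hd
  rw [hE] at m1 s1
  obtain ⟨-, l2⟩ := h.cl_lcl hm.le ha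
  exact {
    ab := h.kabs _ _ (by omega)
    b0 := dr.k_ne
    kre := (h.crt.cosz 0 hm.le).1
    karg := by
      have := h.kabs true 0 hm.le
      rwa [kp_true] at this
    kE := by rw [s1, add_zero]
    Vy := by
      have := Sd_V dr m1
      rw [show (slR m a S z qr 0).ys = sy (qr 0) (z 0) from rfl, this]
      ring
    y0 := dr.slot.sy_re.1
    y1 := dr.re_lt
    hl := rfl
    sl := by
      have h2 := l2 (decide_eq_true hm)
      rwa [h.slL_zero] at h2 }

/-- **The last node, with two half twists.** -/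
theorem HG.ndE_last (h : HG m a S fl z ql qr r K) (ha : a m = 2) :
    NdE (kp (S (m - 1)) (cos (z (m - 1)))) (cos (z m)) (slL m a S z ql m).ys
      (slL m a S z ql m).lam := by
  have hm : 0 < m := h.crt.hR
  obtain ⟨j, rfl⟩ : ∃ j, m = j + 1 := ⟨m - 1, by omega⟩
  have dl := h.sdl j (by omega)
  have hz : 2 * z (j + 1) = Real.pi + I * (ql (j + 1) + qr (j + 1)) := by
    have h1 := h.crt.eq (j + 1) le_rfl
    rw [ha] at h1
    push_cast at h1
    exact h1
  have hr0 := h.crt.rR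
  have hd := cosh_d_ne hz dl.sz dl.sn' dl.num
  have m1 := nE_mul hz dl.sn' hd
  have hE : nE (ql (j + 1)) (qr (j + 1)) = -I := by
    unfold nE
    rw [hr0, sub_zero] at hd
    rw [hr0, add_zero, sub_zero]
    field_simp
  have hsn : sinh (qr (j + 1)) * cos (z (j + 1)) = 0 * sin (z (j + 1)) := by
    rw [hr0, sinh_zero, zero_mul, zero_mul]
  obtain ⟨s1, -⟩ := sum_cl hz dl.sn' hsn dl.sz hd
  rw [hE] at m1 s1
  obtain ⟨l1, -⟩ := h.cl_lcl le_rfl ha
  rw [Nat.add_sub_cancel]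
  exact {
    ab := h.kabs _ _ (by omega)
    b0 := dl.k_ne
    kre := (h.crt.cosz (j + 1) le_rfl).1
    karg := by
      have := h.kabs true (j + 1) le_rfl
      rwa [kp_true] at this
    kE := by rw [s1, add_zero]
    Vy := by
      have := Sd_V dl m1
      rw [show (slL (j + 1) a S z ql (j + 1)).ys = sy (ql (j + 1)) (z (j + 1)) from rfl, this]
      ring
    y0 := dl.slot.sy_re.1
    y1 := dl.re_lt
    hl := by
      show 2 * (log (kp (S (j + 1 - 1)) (cos (z (j + 1 - 1)))) - log (cos (z (j + 1)))) = _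
      rw [Nat.add_sub_cancel]
    sl := by
      have h2 := l1 (decide_eq_true hm)
      rwa [h.slR_last] at h2 }

end Pool.Agent.S5
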