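import Mathlib

/-!
# Complex estimates: exponentials and logarithms of small numbers
-/

set_option autoImplicit false

namespace Pool.Agent.S5.K

open Complex Set

theorem exp_sub2 {z : ℂ} (h : ‖z‖ ≤ 1) : ‖exp z - 1 - z‖ ≤ 3 / 4 * ‖z‖ ^ 2 := by
  have h1 := Complex.exp_bound h (n := 2) (by norm_num)
  simp only [Finset.sum_range_succ, Finset.sum_range_zero, pow_zero, pow_one, Nat.factorial,
    Nat.cast_one, Nat.succ_eq_add_one, zero_add, Nat.reduceAdd, Nat.reduceMul, Nat.cast_ofNat,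
    div_one] at h1
  have e : exp z - 1 - z = exp z - (1 + z) := by ring
  rw [e]
  refine h1.trans (le_of_eq ?_)
  norm_num
  ring

theorem exp_sub1 {z : ℂ} (h : ‖z‖ ≤ 1) : ‖exp z - 1‖ ≤ ‖z‖ + 3 / 4 * ‖z‖ ^ 2 := by
  have h1 := exp_sub2 h
  have h2 : ‖exp z - 1‖ ≤ ‖exp z - 1 - z‖ + ‖z‖ := by
    have := norm_add_le (exp z - 1 - z) z
    rwa [sub_add_cancel] at this
  linarith

theorem exp_sub3 {z : ℂ} (h : ‖z‖ ≤ 1) : ‖exp z - 1 - z - z ^ 2 / 2‖ ≤ 2 / 9 * ‖z‖ ^ 3 := by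
  have h1 := Complex.exp_bound h (n := 3) (by norm_num)
  simp only [Finset.sum_range_succ, Finset.sum_range_zero, pow_zero, pow_one, Nat.factorial,
    Nat.cast_one, Nat.succ_eq_add_one, zero_add, Nat.reduceAdd, Nat.reduceMul, Nat.cast_ofNat,
    div_one] at h1
  have e : exp z - 1 - z - z ^ 2 / 2 = exp z - (1 + z + z ^ 2 / 2) := by ring
  rw [e]
  refine h1.trans (le_of_eq ?_)
  norm_num
  ring

theorem exp_sub4 {z : ℂ} (h : ‖z‖ ≤ 1) :
    ‖exp z - (1 + z + z ^ 2 / 2 + z ^ 3 / 6)‖ ≤ 5 / 96 * ‖z‖ ^ 4 := by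
  have h1 := Complex.exp_bound h (n := 4) (by norm_num)
  simp only [Finset.sum_range_succ, Finset.sum_range_zero, pow_zero, pow_one, Nat.factorial,
    Nat.cast_one, Nat.succ_eq_add_one, zero_add, Nat.reduceAdd, Nat.reduceMul, Nat.cast_ofNat,
    div_one] at h1
  refine h1.trans (le_of_eq ?_)
  norm_num
  ring

theorem tanh_half {z : ℂ} (h : ‖z‖ ≤ 1 / 2) :
    2 * ‖exp z - 1‖ ≤ ‖z‖ * (1 + ‖z‖ ^ 2 / 4) * ‖exp z + 1‖ := by
  set n := ‖z‖ with hn
  have hn0 : 0 ≤ n := norm_nonneg z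
  have h1 := exp_sub4 (z := z) (by linarith)
  have h2 := exp_sub1 (z := z) (by linarith)
  rw [← hn] at h1 h2
  set R := exp z - (1 + z + z ^ 2 / 2 + z ^ 3 / 6) with hR
  have e1 : 2 * (exp z - 1) = z * (exp z + 1) + (-(z ^ 3 / 6) - z ^ 4 / 6 + 2 * R - z * R) := by
    have : exp z = R + (1 + z + z ^ 2 / 2 + z ^ 3 / 6) := by rw [hR]; ring
    rw [this]
    ring
  have h3 : ‖-(z ^ 3 / 6) - z ^ 4 / 6 + 2 * R - z * R‖ ≤
      n ^ 3 / 6 + n ^ 4 / 6 + 2 * (5 / 96 * n ^ 4) + n * (5 / 96 * n ^ 4) := by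
    have a1 : ‖-(z ^ 3 / 6)‖ = n ^ 3 / 6 := by
      rw [norm_neg, norm_div, norm_pow, ← hn]
      norm_num
    have a2 : ‖z ^ 4 / 6‖ = n ^ 4 / 6 := by
      rw [norm_div, norm_pow, ← hn]
      norm_num
    have a3 : ‖2 * R‖ ≤ 2 * (5 / 96 * n ^ 4) := by
      rw [norm_mul]
      norm_num
      linarith
    have a4 : ‖z * R‖ ≤ n * (5 / 96 * n ^ 4) := by
      rw [norm_mul, ← hn]
      exact mul_le_mul_of_nonneg_left h1 hn0
    calc ‖-(z ^ 3 / 6) - z ^ 4 / 6 + 2 * R - z * R‖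
        ≤ ‖-(z ^ 3 / 6) - z ^ 4 / 6 + 2 * R‖ + ‖z * R‖ := norm_sub_le _ _
      _ ≤ ‖-(z ^ 3 / 6) - z ^ 4 / 6‖ + ‖2 * R‖ + ‖z * R‖ := by
          gcongr
          exact norm_add_le _ _
      _ ≤ ‖-(z ^ 3 / 6)‖ + ‖z ^ 4 / 6‖ + ‖2 * R‖ + ‖z * R‖ := by
          gcongr
          exact norm_sub_le _ _
      _ ≤ _ := by rw [a1, a2]; linarith
  have h4 : 2 - (n + 3 / 4 * n ^ 2) ≤ ‖exp z + 1‖ := by
    have h5 : ‖(2 : ℂ)‖ ≤ ‖exp z + 1‖ + ‖exp z - 1‖ := by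
      have := norm_sub_le (exp z + 1) (exp z - 1)
      rwa [show exp z + 1 - (exp z - 1) = 2 by ring] at this
    rw [show ‖(2 : ℂ)‖ = 2 by norm_num] at h5
    linarith
  have h6 : 2 * ‖exp z - 1‖ ≤ n * ‖exp z + 1‖ +
      (n ^ 3 / 6 + n ^ 4 / 6 + 2 * (5 / 96 * n ^ 4) + n * (5 / 96 * n ^ 4)) := by
    have : 2 * ‖exp z - 1‖ = ‖2 * (exp z - 1)‖ := by
      rw [norm_mul]
      norm_num
    rw [this, e1]
    refine (norm_add_le _ _).trans ?_
    rw [norm_mul, ← hn]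
    linarith
  have h7 : n ^ 3 / 6 + n ^ 4 / 6 + 2 * (5 / 96 * n ^ 4) + n * (5 / 96 * n ^ 4) ≤
      n * (n ^ 2 / 4) * ‖exp z + 1‖ := by
    have h8 : n * (n ^ 2 / 4) * (2 - (n + 3 / 4 * n ^ 2)) ≤ n * (n ^ 2 / 4) * ‖exp z + 1‖ :=
      mul_le_mul_of_nonneg_left h4 (by positivity)
    refine le_trans ?_ h8
    have h9 : n ^ 3 * (1 / 6 + n / 6 + 5 / 48 * n + 5 / 96 * n ^ 2) ≤
        n ^ 3 * ((2 - (n + 3 / 4 * n ^ 2)) / 4) := by
      apply mul_le_mul_of_nonneg_left _ (by positivity)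
      nlinarith
    linarith
  nlinarith

theorem log_sub1 {z : ℂ} {r : ℝ} (h : ‖z‖ ≤ r) (hr : r < 1) :
    ‖log (1 + z) - z‖ ≤ r ^ 2 / (2 * (1 - r)) := by
  have h1 := Complex.norm_log_one_add_sub_self_le (z := z) (by linarith)
  refine h1.trans ?_
  have h2 : (1 - ‖z‖)⁻¹ ≤ (1 - r)⁻¹ := inv_anti₀ (by linarith) (by linarith)
  have h3 : ‖z‖ ^ 2 ≤ r ^ 2 := pow_le_pow_left₀ (norm_nonneg z) h 2
  have h4 : 0 < (1 - r)⁻¹ := inv_pos.2 (by linarith)
  calc ‖z‖ ^ 2 * (1 - ‖z‖)⁻¹ / 2 ≤ r ^ 2 * (1 - r)⁻¹ / 2 := by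
        have : ‖z‖ ^ 2 * (1 - ‖z‖)⁻¹ ≤ r ^ 2 * (1 - r)⁻¹ :=
          mul_le_mul h3 h2 (inv_nonneg.2 (by linarith)) (by positivity)
        linarith
    _ = r ^ 2 / (2 * (1 - r)) := by
        rw [div_eq_mul_inv, div_eq_mul_inv, mul_inv]
        ring

theorem log_sub2 {z : ℂ} {r : ℝ} (h : ‖z‖ ≤ r) (hr : r < 1) :
    ‖log (1 + z) - z + z ^ 2 / 2‖ ≤ r ^ 3 / (3 * (1 - r)) := by
  have h1 := Complex.norm_log_sub_logTaylor_le 2 (z := z) (by linarith)
  have e : logTaylor (2 + 1) z = z - z ^ 2 / 2 := by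
    simp [logTaylor_succ, logTaylor_zero]
    ring
  rw [e, ← sub_add] at h1
  refine h1.trans ?_
  have h2 : (1 - ‖z‖)⁻¹ ≤ (1 - r)⁻¹ := inv_anti₀ (by linarith) (by linarith)
  have h3 : ‖z‖ ^ 3 ≤ r ^ 3 := pow_le_pow_left₀ (norm_nonneg z) h 3
  have h4 : 0 < (1 - r)⁻¹ := inv_pos.2 (by linarith)
  have h0 : 0 ≤ r := (norm_nonneg z).trans h
  calc ‖z‖ ^ (2 + 1) * (1 - ‖z‖)⁻¹ / ((2 : ℕ) + 1) ≤ r ^ 3 * (1 - r)⁻¹ / 3 := by
        have : ‖z‖ ^ 3 * (1 - ‖z‖)⁻¹ ≤ r ^ 3 * (1 - r)⁻¹ :=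
          mul_le_mul h3 h2 (inv_nonneg.2 (by linarith)) (by positivity)
        norm_num
        linarith
    _ = r ^ 3 / (3 * (1 - r)) := by
        rw [div_eq_mul_inv, div_eq_mul_inv, mul_inv]
        ring

/-- `log (1 + a (exp d - 1))` minus its linear part. -/
theorem rho_bound {a d : ℂ} {D h M F : ℝ} (hd : ‖d‖ ≤ D) (hD : D ≤ 1 / 2) (hh : ‖a - 1 / 2‖ ≤ h)
    (hM : ‖a * (1 - a)‖ ≤ M) (h1 : h * ((1 + D ^ 2 / 4) * D) < 1)
    (h2 : (1 / 2 + h) * (D + 3 / 4 * D ^ 2) < 1)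
    (hF : 1 + D ^ 2 / 4 ≤ F * (1 - h * ((1 + D ^ 2 / 4) * D))) :
    ‖log (1 + a * (exp d - 1)) - a * d‖ ≤ M * F * D ^ 2 / 2 := by
  have hD0 : 0 ≤ D := (norm_nonneg d).trans hd
  have hh0 : 0 ≤ h := (norm_nonneg _).trans hh
  have hM0 : 0 ≤ M := (norm_nonneg _).trans hM
  have hF0 : 0 ≤ F := by
    by_contra hF1
    push Not at hF1
    have : F * (1 - h * ((1 + D ^ 2 / 4) * D)) < 0 := mul_neg_of_neg_of_pos hF1 (by linarith)
    nlinarith
  have ha : ‖a‖ ≤ 1 / 2 + h := by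
    have := norm_add_le (a - 1 / 2) (1 / 2)
    rw [sub_add_cancel] at this
    have h3 : ‖(1 / 2 : ℂ)‖ = 1 / 2 := by norm_num
    linarith
  -- on the segment
  have key : ∀ z : ℂ, ‖z‖ ≤ D → ‖a * (exp z - 1)‖ < 1 ∧
      ‖a * (1 - a) * (exp z - 1) / (1 + a * (exp z - 1))‖ ≤ M * F * ‖z‖ := by
    intro z hz
    have hz0 : 0 ≤ ‖z‖ := norm_nonneg z
    have k1 := exp_sub1 (z := z) (by linarith)
    have k2 := tanh_half (z := z) (by linarith)
    have k3 : ‖a * (exp z - 1)‖ < 1 := by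
      rw [norm_mul]
      refine lt_of_le_of_lt ?_ h2
      apply mul_le_mul ha _ (norm_nonneg _) (by linarith)
      nlinarith
    refine ⟨k3, ?_⟩
    set T := 1 + D ^ 2 / 4 with hT
    have hT0 : 0 < T := by positivity
    have k4 : ‖z‖ ^ 2 ≤ D ^ 2 := pow_le_pow_left₀ hz0 hz 2
    have k5 : 2 * ‖exp z - 1‖ ≤ ‖z‖ * T * ‖exp z + 1‖ := by
      refine k2.trans ?_
      have : ‖z‖ * (1 + ‖z‖ ^ 2 / 4) ≤ ‖z‖ * T := mul_le_mul_of_nonneg_left (by linarith) hz0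
      exact mul_le_mul_of_nonneg_right this (norm_nonneg _)
    have k6 : ‖exp z + 1‖ / 2 ≤ ‖1 + a * (exp z - 1)‖ + h * ‖exp z - 1‖ := by
      have e : (exp z + 1) / 2 = (1 + a * (exp z - 1)) - (a - 1 / 2) * (exp z - 1) := by ring
      have : ‖(exp z + 1) / 2‖ ≤ ‖1 + a * (exp z - 1)‖ + ‖(a - 1 / 2) * (exp z - 1)‖ := by
        rw [e]
        exact norm_sub_le _ _
      rw [norm_div, norm_mul] at this
      have h7 : ‖(2 : ℂ)‖ = 2 := by norm_num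
      rw [h7] at this
      have := mul_le_mul_of_nonneg_right hh (norm_nonneg (exp z - 1))
      linarith
    set q := ‖exp z - 1‖ with hq
    have hq0 : 0 ≤ q := norm_nonneg _
    set s := ‖1 + a * (exp z - 1)‖ with hs
    have k7 : q ≤ ‖z‖ * T * (s + h * q) := by
      have : ‖z‖ * T * (‖exp z + 1‖ / 2) ≤ ‖z‖ * T * (s + h * q) :=
        mul_le_mul_of_nonneg_left k6 (by positivity)
      linarith
    have k8 : q * (1 - h * (T * D)) ≤ ‖z‖ * T * s := by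
      have : ‖z‖ * T * (h * q) ≤ D * T * (h * q) := by
        apply mul_le_mul_of_nonneg_right _ (by positivity)
        exact mul_le_mul_of_nonneg_right hz hT0.le
      linarith
    have k9 : q ≤ ‖z‖ * F * s := by
      have hp : 0 < 1 - h * (T * D) := by linarith
      have : q * (1 - h * (T * D)) ≤ ‖z‖ * F * s * (1 - h * (T * D)) := by
        refine k8.trans ?_
        have h9 : ‖z‖ * s * T ≤ ‖z‖ * s * (F * (1 - h * (T * D))) :=
          mul_le_mul_of_nonneg_left hF (by positivity)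
        linarith
      exact le_of_mul_le_mul_right this hp
    have hs0 : 0 < s := by
      have := norm_sub_le (1 + a * (exp z - 1)) (a * (exp z - 1))
      rw [add_sub_cancel_right] at this
      have h10 : ‖(1 : ℂ)‖ = 1 := by norm_num
      rw [h10] at this
      linarith
    rw [norm_div, norm_mul, ← hq, ← hs, div_le_iff₀ hs0]
    calc ‖a * (1 - a)‖ * q ≤ M * (‖z‖ * F * s) := mul_le_mul hM k9 hq0 hM0
      _ = M * F * ‖z‖ * s := by ring
  -- the path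
  set f : ℝ → ℂ := fun t => log (1 + a * (exp (t * d) - 1)) - a * (t * d) with hf
  have hder : ∀ t ∈ Icc (0 : ℝ) 1, HasDerivAt f
      (d * (a * (1 - a) * (exp (t * d) - 1) / (1 + a * (exp (t * d) - 1)))) t := by
    intro t ht
    have hz : ‖(t : ℂ) * d‖ ≤ D := by
      rw [norm_mul, norm_real, Real.norm_eq_abs, abs_of_nonneg ht.1]
      nlinarith [ht.2, norm_nonneg d]
    obtain ⟨k1, _⟩ := key _ hz
    have hsl : 1 + a * (exp ((t : ℂ) * d) - 1) ∈ slitPlane := mem_slitPlane_of_norm_lt_one k1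
    have hne : 1 + a * (exp ((t : ℂ) * d) - 1) ≠ 0 := slitPlane_ne_zero hsl
    have hl : HasDerivAt (fun t : ℝ => (t : ℂ) * d) d t := by
      have := (ofRealCLM.hasDerivAt (x := t)).mul_const d
      simpa using this
    have he : HasDerivAt (fun t : ℝ => 1 + a * (exp ((t : ℂ) * d) - 1))
        (a * (exp ((t : ℂ) * d) * d)) t := by
      have h1 := (HasDerivAt.cexp hl).sub_const 1
      exact (h1.const_mul a).const_add 1
    have h3 := he.clog_real hsl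
    have h4 := h3.sub (hl.const_mul a)
    refine h4.congr_deriv ?_
    field_simp
    ring
  have hB : ∀ t : ℝ, HasDerivAt (fun t : ℝ => M * F * D ^ 2 / 2 * t ^ 2) (M * F * D ^ 2 * t) t := by
    intro t
    have := (hasDerivAt_pow 2 t).const_mul (M * F * D ^ 2 / 2)
    refine this.congr_deriv ?_
    ring
  have h0 : ‖f 0‖ ≤ M * F * D ^ 2 / 2 * (0 : ℝ) ^ 2 := by
    rw [hf]
    simp
  have := image_norm_le_of_norm_deriv_right_le_deriv_boundary (f := f)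
    (f' := fun t => d * (a * (1 - a) * (exp (t * d) - 1) / (1 + a * (exp (t * d) - 1))))
    (a := 0) (b := 1) (fun t ht => (hder t ht).continuousAt.continuousWithinAt)
    (fun t ht => (hder t ⟨ht.1, ht.2.le⟩).hasDerivWithinAt) h0 hB (by
      intro t ht
      have hz : ‖(t : ℂ) * d‖ ≤ D := by
        rw [norm_mul, norm_real, Real.norm_eq_abs, abs_of_nonneg ht.1]
        nlinarith [ht.2, norm_nonneg d]
      obtain ⟨_, k2⟩ := key _ hz
      rw [norm_mul]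
      have h5 : ‖(t : ℂ) * d‖ ≤ t * D := by
        rw [norm_mul, norm_real, Real.norm_eq_abs, abs_of_nonneg ht.1]
        exact mul_le_mul_of_nonneg_left hd ht.1
      calc ‖d‖ * ‖a * (1 - a) * (exp (t * d) - 1) / (1 + a * (exp (t * d) - 1))‖
          ≤ D * (M * F * (t * D)) := by
            apply mul_le_mul hd _ (norm_nonneg _) hD0
            exact k2.trans (mul_le_mul_of_nonneg_left h5 (by positivity))
        _ = M * F * D ^ 2 * t := by ring) (right_mem_Icc.2 zero_le_one)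
  rw [hf] at this
  simp only [ofReal_one, one_mul, one_pow, mul_one] at this
  exact this

end Pool.Agent.S5.K
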