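import Pool.Agent.S5.K.An1

/-!
# Complex estimates: the equation `E + 1 / E = 2 K` near a solution
-/

set_option autoImplicit false

namespace Pool.Agent.S5.K

open Complex Set

theorem x_apriori {E0 E x q : ℂ} (hE0 : E0.im < 0) (hE : E.im < 0) (hx : E = E0 * (1 + x))
    (hq : x * (E0 ^ 2 - 1) + x ^ 2 / (1 + x) = q) : ‖x‖ * (‖E0‖ * (-E0.im)) ≤ ‖q‖ := by
  have hn0 : E0 ≠ 0 := by
    intro h
    rw [h] at hE0
    simp at hE0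
  have hn : E ≠ 0 := by
    intro h
    rw [h] at hE
    simp at hE
  have hn1 : 1 + x ≠ 0 := by
    intro h
    rw [h, mul_zero] at hx
    exact hn hx
  have e1 : q = x * (E0 * (E0 - E⁻¹)) := by
    rw [← hq, hx]
    field_simp
    ring
  rw [e1, norm_mul, norm_mul]
  apply mul_le_mul_of_nonneg_left _ (norm_nonneg x)
  apply mul_le_mul_of_nonneg_left _ (norm_nonneg E0)
  have h1 : (E0 - E⁻¹).im ≤ E0.im := by
    rw [sub_im, inv_im]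
    have : 0 ≤ -E.im / normSq E := div_nonneg (by linarith) (normSq_nonneg E)
    linarith
  have h2 := abs_im_le_norm (E0 - E⁻¹)
  have h3 := neg_abs_le (E0 - E⁻¹).im
  linarith

theorem norm_sq_div {x : ℂ} {X : ℝ} (h : ‖x‖ ≤ X) (hX : X < 1) : ‖x ^ 2 / (1 + x)‖ ≤ X ^ 2 / (1 - X) := by
  have h1 : 1 - X ≤ ‖1 + x‖ := by
    have := norm_sub_le (1 + x) x
    rw [add_sub_cancel_right] at this
    have h3 : ‖(1 : ℂ)‖ = 1 := by norm_num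
    rw [h3] at this
    linarith
  rw [norm_div, norm_pow]
  have h0 : 0 ≤ ‖x‖ := norm_nonneg x
  exact div_le_div₀ (by positivity) (pow_le_pow_left₀ h0 h 2) (by linarith) h1

theorem norm_cube_div {x : ℂ} {X : ℝ} (h : ‖x‖ ≤ X) (hX : X < 1) :
    ‖x ^ 3 / (1 + x)‖ ≤ X ^ 3 / (1 - X) := by
  have h1 : 1 - X ≤ ‖1 + x‖ := by
    have := norm_sub_le (1 + x) x
    rw [add_sub_cancel_right] at this
    have h3 : ‖(1 : ℂ)‖ = 1 := by norm_num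
    rw [h3] at this
    linarith
  rw [norm_div, norm_pow]
  have h0 : 0 ≤ ‖x‖ := norm_nonneg x
  exact div_le_div₀ (pow_nonneg (h0.trans h) 3) (pow_le_pow_left₀ h0 h 3) (by linarith) h1

theorem x_step {E0 x q : ℂ} {X e2 Q Y : ℝ} (hq : x * (E0 ^ 2 - 1) + x ^ 2 / (1 + x) = q)
    (h : ‖x‖ ≤ X) (hX : X < 1) (he : 0 < e2) (he2 : e2 ≤ ‖E0 ^ 2 - 1‖) (hQ : ‖q‖ ≤ Q)
    (hY : Q + X ^ 2 / (1 - X) ≤ Y * e2) : ‖x‖ ≤ Y := by
  have e1 : x * (E0 ^ 2 - 1) = q - x ^ 2 / (1 + x) := by rw [← hq]; ring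
  have h1 : ‖x‖ * ‖E0 ^ 2 - 1‖ ≤ Q + X ^ 2 / (1 - X) := by
    rw [← norm_mul, e1]
    exact (norm_sub_le _ _).trans (add_le_add hQ (norm_sq_div h hX))
  have h2 : ‖x‖ * e2 ≤ ‖x‖ * ‖E0 ^ 2 - 1‖ := mul_le_mul_of_nonneg_left he2 (norm_nonneg x)
  exact le_of_mul_le_mul_right (by linarith) he

/-- `log (1 + x)` is nearly `g κ`. -/
theorem e_bound {E0 x κ δ g : ℂ} {χ X e2 G d R : ℝ}
    (hx : x * (E0 ^ 2 - 1) + x ^ 2 / (1 + x) = (E0 ^ 2 + 1) * (exp κ - 1) + δ)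
    (hg : g * (E0 ^ 2 - 1) = E0 ^ 2 + 1) (hδ : ‖δ‖ ≤ d) (hκ : ‖κ‖ ≤ χ) (hχ : χ ≤ 1)
    (hX : ‖x‖ ≤ X) (hX1 : X < 1) (he : 0 < e2) (he2 : e2 ≤ ‖E0 ^ 2 - 1‖) (hG : ‖g‖ ≤ G)
    (hR : G / 2 * (χ ^ 2 + X ^ 2) + 2 / 9 * G * χ ^ 3 + X ^ 3 / (1 - X) / e2 +
      X ^ 3 / (3 * (1 - X)) + d / e2 ≤ R) :
    ‖log (1 + x) - g * κ‖ ≤ R := by
  have hn : E0 ^ 2 - 1 ≠ 0 := by
    intro h
    rw [h, norm_zero] at he2
    linarith
  have h0 : 0 ≤ ‖x‖ := norm_nonneg x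
  have hχ0 : 0 ≤ χ := (norm_nonneg κ).trans hκ
  have hG0 : 0 ≤ G := (norm_nonneg g).trans hG
  have e1 : x - x ^ 2 / 2 - g * κ = g * (exp κ - 1 - κ - κ ^ 2 / 2) + g / 2 * (κ ^ 2 - x ^ 2) +
      x ^ 3 / (1 + x) / (E0 ^ 2 - 1) + δ / (E0 ^ 2 - 1) := by
    have hx1 : 1 + x ≠ 0 := by
      intro h
      have h2 : ‖x‖ = 1 := by
        rw [show x = -1 by linear_combination h]
        norm_num
      linarith
    have e2 : x = g * (exp κ - 1) + δ / (E0 ^ 2 - 1) - x ^ 2 / (1 + x) / (E0 ^ 2 - 1) := by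
      apply mul_right_cancel₀ hn
      have e3 : x ^ 2 / (1 + x) / (E0 ^ 2 - 1) * (E0 ^ 2 - 1) = x ^ 2 / (1 + x) :=
        div_mul_cancel₀ _ hn
      have e3' : δ / (E0 ^ 2 - 1) * (E0 ^ 2 - 1) = δ := div_mul_cancel₀ _ hn
      linear_combination hx + e3 - e3' - (exp κ - 1) * hg
    have e4 : x ^ 2 / (1 + x) = x ^ 2 - x ^ 3 / (1 + x) := by
      field_simp
      ring
    have e5 : g / 2 = 1 / (E0 ^ 2 - 1) + 1 / 2 := by
      field_simp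
      linear_combination hg
    have e6 : x ^ 2 / (1 + x) / (E0 ^ 2 - 1) = x ^ 2 * (g / 2 - 1 / 2) -
        x ^ 3 / (1 + x) / (E0 ^ 2 - 1) := by
      rw [e4, e5]
      ring
    linear_combination e2 - e6
  have h1 := exp_sub3 (z := κ) (by linarith)
  have h2 := log_sub2 hX hX1
  have e7 : log (1 + x) - g * κ = (log (1 + x) - x + x ^ 2 / 2) + (x - x ^ 2 / 2 - g * κ) := by ring
  rw [e7, e1]
  have b1 : ‖g * (exp κ - 1 - κ - κ ^ 2 / 2)‖ ≤ G * (2 / 9 * χ ^ 3) := by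
    rw [norm_mul]
    apply mul_le_mul hG _ (norm_nonneg _) hG0
    refine h1.trans ?_
    have : ‖κ‖ ^ 3 ≤ χ ^ 3 := pow_le_pow_left₀ (norm_nonneg κ) hκ 3
    linarith
  have b2 : ‖g / 2 * (κ ^ 2 - x ^ 2)‖ ≤ G / 2 * (χ ^ 2 + X ^ 2) := by
    rw [norm_mul, norm_div]
    have h3 : ‖(2 : ℂ)‖ = 2 := by norm_num
    rw [h3]
    apply mul_le_mul (by linarith) _ (norm_nonneg _) (by linarith)
    refine (norm_sub_le _ _).trans ?_
    rw [norm_pow, norm_pow]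
    exact add_le_add (pow_le_pow_left₀ (norm_nonneg κ) hκ 2) (pow_le_pow_left₀ h0 hX 2)
  have b3 : ‖x ^ 3 / (1 + x) / (E0 ^ 2 - 1)‖ ≤ X ^ 3 / (1 - X) / e2 := by
    rw [norm_div]
    have := norm_cube_div hX hX1
    exact div_le_div₀ ((norm_nonneg _).trans this) this he he2
  have b4 : ‖δ / (E0 ^ 2 - 1)‖ ≤ d / e2 := by
    rw [norm_div]
    exact div_le_div₀ ((norm_nonneg _).trans hδ) hδ he he2
  calc ‖(log (1 + x) - x + x ^ 2 / 2) + (g * (exp κ - 1 - κ - κ ^ 2 / 2) + g / 2 * (κ ^ 2 - x ^ 2) +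
        x ^ 3 / (1 + x) / (E0 ^ 2 - 1) + δ / (E0 ^ 2 - 1))‖
      ≤ ‖log (1 + x) - x + x ^ 2 / 2‖ + (‖g * (exp κ - 1 - κ - κ ^ 2 / 2)‖ +
        ‖g / 2 * (κ ^ 2 - x ^ 2)‖ + ‖x ^ 3 / (1 + x) / (E0 ^ 2 - 1)‖ + ‖δ / (E0 ^ 2 - 1)‖) := by
        refine (norm_add_le _ _).trans ?_
        gcongr
        refine (norm_add_le _ _).trans ?_
        gcongr
        refine (norm_add_le _ _).trans ?_
        gcongr
        exact norm_add_le _ _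
    _ ≤ R := by linarith

end Pool.Agent.S5.K
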