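import Pool.Agent.S5.K.An2
import Pool.Agent.S5.K.Defs

/-!
# Closed nodes near a base point
-/

set_option autoImplicit false

namespace Pool.Agent.S5.K

open Complex Set Pool.Agent.S5.G Pool.Agent.H63.VC3 Pool.Agent.S3

/-! ### Branches -/

theorem branch_int {z w : ℂ} {n : ℤ} (h : z = w + n * (2 * Real.pi * I)) (hz : |(z - w).im| < 2 * Real.pi) :
    z = w := by
  have hpi := Real.pi_pos
  have h1 : (z - w).im = 2 * Real.pi * n := by
    rw [h]
    simp only [add_sub_cancel_left, mul_im, mul_re, intCast_re, intCast_im, ofReal_re, ofReal_im,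
      I_re, I_im, re_ofNat, im_ofNat]
    ring
  rw [h1, abs_mul, abs_of_pos (by positivity : 0 < 2 * Real.pi)] at hz
  have h2 : |(n : ℝ)| < 1 := by
    by_contra h3
    push Not at h3
    linarith only [hz, mul_nonneg (sub_nonneg.2 hpi.le) (sub_nonneg.2 h3)]
  have h3 : n = 0 := by
    have : |n| < 1 := by exact_mod_cast h2
    exact Int.abs_lt_one_iff.1 this
  rw [h, h3]
  simp

theorem exp_branch {z z0 τ : ℂ} {t : ℝ} (h : exp z = exp z0 * (1 + τ)) (hτ : ‖τ‖ ≤ t)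
    (ht : t ≤ 1 / 2) (h1 : |z.im| < Real.pi) (h2 : |z0.im| + 2 * t ≤ Real.pi) : ‖z - z0‖ ≤ 2 * t := by
  have h0 : 0 ≤ t := (norm_nonneg τ).trans hτ
  have hl := log_sub1 hτ (by linarith only [ht])
  have hl2 : ‖log (1 + τ)‖ ≤ 2 * t := by
    have h3 := norm_add_le (log (1 + τ) - τ) τ
    rw [sub_add_cancel] at h3
    have h4 : t ^ 2 / (2 * (1 - t)) ≤ t := by
      rw [div_le_iff₀ (by linarith only [ht])]
      (refine le_of_not_gt fun hng => ?_; linarith only [hng, h0,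
        mul_nonneg (sub_nonneg.2 hng.le) (sub_nonneg.2 h0),
        mul_nonneg (sq_nonneg (t)) (sub_nonneg.2 ht)])
    linarith only [h4, h3, hl, hτ]
  have hne : 1 + τ ≠ 0 := by
    intro h3
    have h4 : ‖τ‖ = 1 := by
      rw [show τ = -1 by linear_combination h3]
      norm_num
    linarith only [h4, ht, hτ]
  rw [← exp_log hne, ← exp_add, exp_eq_exp_iff_exists_int] at h
  obtain ⟨n, hn⟩ := h
  have h5 := branch_int hn (by
    rw [sub_im, add_im]
    have h6 := abs_im_le_norm (log (1 + τ))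
    have h7 := abs_le.1 (h6.trans hl2)
    have h8 := abs_lt.1 h1
    have h9 := abs_le.1 (show |z0.im| ≤ Real.pi - 2 * t by linarith only [h2])
    rw [abs_lt]
    constructor <;> linarith)
  rw [h5, add_sub_cancel_left]
  exact hl2

theorem exp_branch' {z z0 ν : ℂ} (h : exp z = exp z0 * (1 + ν)) (hν : ‖ν‖ < 1)
    (h1 : |(z - z0).im| ≤ Real.pi) : z = z0 + log (1 + ν) := by
  have hpi := Real.pi_pos
  have hsl : 1 + ν ∈ slitPlane := mem_slitPlane_of_norm_lt_one hν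
  rw [← exp_log (slitPlane_ne_zero hsl), ← exp_add, exp_eq_exp_iff_exists_int] at h
  obtain ⟨n, hn⟩ := h
  refine branch_int hn ?_
  have h2 : |(log (1 + ν)).im| < Real.pi := by
    rw [log_im, abs_lt]
    refine ⟨neg_pi_lt_arg _, lt_of_le_of_ne (arg_le_pi _) ?_⟩
    exact (mem_slitPlane_iff_arg.1 hsl).1
  have h3 : (z - (z0 + log (1 + ν))).im = (z - z0).im - (log (1 + ν)).im := by
    rw [sub_im, sub_im, add_im]
    ring
  rw [h3]
  have h4 := abs_le.1 h1
  have h5 := abs_lt.1 h2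
  rw [abs_lt]
  constructor <;> linarith

/-! ### The slope as a function of the exponentials -/

theorem exp_lcl {a b : ℂ} (ha0 : 0 < a.re) (ha1 : a.re < 1 / 2) (hb0 : 0 < b.re) (hb1 : b.re ≤ 1 / 2) :
    exp (lcl a b) * (exp (-(2 * Real.pi * I * a)) * exp (-(2 * Real.pi * I * b)) - 1) =
      (1 + exp (-(2 * Real.pi * I * a))) ^ 2 := by
  have h1 : exp (hh (1 / 2 - a)) = 2 * sin (Real.pi * (1 / 2 - a)) := by
    apply exp_hh
    · rw [sub_re]
      norm_num
      linarith only [ha1]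
    · rw [sub_re]
      norm_num
      linarith only [ha0]
  have h2 : exp (hh (a + b)) = 2 * sin (Real.pi * (a + b)) := by
    apply exp_hh
    · rw [add_re]
      linarith only [hb0, ha0]
    · rw [add_re]
      linarith only [hb1, ha1]
  -- exponentials
  set A := exp (Real.pi * I * a) with hA
  set B := exp (Real.pi * I * b) with hB
  have hA0 : A ≠ 0 := exp_ne_zero _
  have hB0 : B ≠ 0 := exp_ne_zero _
  have eA : exp (-(2 * Real.pi * I * a)) = (A ^ 2)⁻¹ := by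
    rw [exp_neg, hA, ← exp_nat_mul]
    congr 2
    push_cast
    ring
  have eB : exp (-(2 * Real.pi * I * b)) = (B ^ 2)⁻¹ := by
    rw [exp_neg, hB, ← exp_nat_mul]
    congr 2
    push_cast
    ring
  have hi : exp (Real.pi * I / 2) = I := by
    rw [show (Real.pi : ℂ) * I / 2 = Real.pi / 2 * I by ring, exp_pi_div_two_mul_I]
  have e1 : 2 * sin (Real.pi * (1 / 2 - a)) = A⁻¹ + A := by
    have e3 : sin (Real.pi * (1 / 2 - a)) = cos (Real.pi * a) := by
      rw [show (Real.pi : ℂ) * (1 / 2 - a) = Real.pi / 2 - Real.pi * a by ring, sin_pi_div_two_sub]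
    rw [e3, Complex.cos, show (Real.pi : ℂ) * a * I = Real.pi * I * a by ring,
      show -((Real.pi : ℂ) * a) * I = -(Real.pi * I * a) by ring, exp_neg, ← hA]
    ring
  have e2 : 2 * sin (Real.pi * (a + b)) = ((A * B)⁻¹ - A * B) * I := by
    rw [Complex.sin, show (Real.pi : ℂ) * (a + b) * I = Real.pi * I * a + Real.pi * I * b by ring,
      show -(Real.pi * (a + b) : ℂ) * I = -(Real.pi * I * a + Real.pi * I * b) by ring, exp_neg,
      exp_add, ← hA, ← hB]
    ring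
  have e3 : exp (lcl a b) * exp (hh (a + b)) * A = (A⁻¹ + A) ^ 2 * (B * I) := by
    have e4 : (A⁻¹ + A) ^ 2 = exp (2 * hh (1 / 2 - a)) := by
      rw [show 2 * hh (1 / 2 - a) = hh (1 / 2 - a) + hh (1 / 2 - a) by ring, exp_add, h1, e1]
      ring
    rw [e4, ← hi, hA, hB, ← exp_add, ← exp_add, ← exp_add, ← exp_add]
    congr 1
    unfold lcl
    ring
  rw [h2, e2] at e3
  rw [eA, eB]
  have hI : (I : ℂ) ≠ 0 := I_ne_zero
  have e5 : exp (lcl a b) * ((A * B)⁻¹ - A * B) * A = (A⁻¹ + A) ^ 2 * B := by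
    apply mul_right_cancel₀ hI
    linear_combination e3
  field_simp at e5 ⊢
  linear_combination e5

/-! ### Second order -/

/-- The fixed point iteration for the bound of `x`. -/
def Itr (Q e2 X0 X : ℝ) : Prop :=
  ∀ r : ℝ, (∀ Y Z : ℝ, r ≤ Y → Y < 1 → Q + Y ^ 2 / (1 - Y) ≤ Z * e2 → r ≤ Z) → r ≤ X0 → r ≤ X

theorem Itr.refl (Q e2 X : ℝ) : Itr Q e2 X X := fun _ _ h => h

theorem Itr.step {Q e2 X0 X Y : ℝ} (h : Itr Q e2 X0 X) (hX : X < 1)
    (hY : Q + X ^ 2 / (1 - X) ≤ Y * e2) : Itr Q e2 X0 Y :=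
  fun r h1 h2 => h1 X Y (h r h1 h2) hX hY

/-- The bounds for the second order terms at a base point. -/
structure Nb (E0 om g : ℂ) (D h M F R1 χ Q X0 X e2 G R2 d : ℝ) : Prop where
  D2 : D ≤ 1 / 2
  hh : ‖om - 1 / 2‖ ≤ h
  hM : ‖om * (1 - om)‖ ≤ M
  h1 : h * ((1 + D ^ 2 / 4) * D) < 1
  h2 : (1 / 2 + h) * (D + 3 / 4 * D ^ 2) < 1
  hF : 1 + D ^ 2 / 4 ≤ F * (1 - h * ((1 + D ^ 2 / 4) * D))
  hR1 : M * F * D ^ 2 / 2 ≤ R1
  hχ : χ ≤ 1
  hQ : ‖E0 ^ 2 + 1‖ * (χ + 3 / 4 * χ ^ 2) + d ≤ Q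
  hX0 : Q ≤ X0 * (‖E0‖ * (-E0.im))
  hX : Itr Q e2 X0 X
  X1 : X < 1
  e0 : 0 < e2
  he2 : e2 ≤ ‖E0 ^ 2 - 1‖
  hg : g * (E0 ^ 2 - 1) = E0 ^ 2 + 1
  hG : ‖g‖ ≤ G
  hR2 : G / 2 * (χ ^ 2 + X ^ 2) + 2 / 9 * G * χ ^ 3 + X ^ 3 / (1 - X) / e2 +
      X ^ 3 / (3 * (1 - X)) + d / e2 ≤ R2
  hE0 : E0.im < 0

theorem node_core {Bl Br k E ya yb la lb : ℂ} (nd : Nd2 Bl Br k E ya yb la lb) {bl br E0 om g : ℂ}
    {D h M F R1 χ Q X0 X e2 G R2 d : ℝ} (nb : Nb E0 om g D h M F R1 χ Q X0 X e2 G R2 d)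
    (hbl : bl ≠ 0) (hbr : br ≠ 0) (hs : bl + br ≠ 0) (hom : om * (bl + br) = bl)
    (hd : 3 * ‖2 * bl * br * E0 / (bl + br) - (E0 ^ 2 + 1)‖ ≤ d) {u v : ℂ}
    (hu : exp u = Bl / bl) (hv : exp v = Br / br) (hD : ‖v - u‖ ≤ D)
    (hc : ‖(1 - om) * u + om * v‖ + R1 ≤ χ) :
    ∃ w e : ℂ, ‖w - (om * u + (1 - om) * v)‖ ≤ R1 ∧ ‖e - g * (u + v - w)‖ ≤ R2 ∧
      exp w * (bl + br) = Bl + Br ∧ E = E0 * exp e := by
  obtain ⟨D2, hh, hM, h1, h2, hF, hR1, hχ, hQ, hX0, hX, X1, e0, he2, hg, hG, hR2, hE0⟩ := nb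
  have hE0n : E0 ≠ 0 := by
    intro h
    rw [h] at hE0
    simp at hE0
  have hEn : E ≠ 0 := by
    intro h
    have := nd.Eim
    rw [h] at this
    simp at this
  have hD0 : 0 ≤ D := (norm_nonneg _).trans hD
  have hh0 : 0 ≤ h := (norm_nonneg _).trans hh
  have hχ0 : 0 ≤ χ := by
    have h3 : 0 ≤ M := (norm_nonneg _).trans hM
    have h4 : 0 ≤ F := by
      by_contra hF1
      push Not at hF1
      have : F * (1 - h * ((1 + D ^ 2 / 4) * D)) < 0 := mul_neg_of_neg_of_pos hF1 (by linarith only [h1])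
      linarith only [this, hF, sq_nonneg (1 * D)]
    have h5 : 0 ≤ M * F * D ^ 2 / 2 := by positivity
    have := norm_nonneg ((1 - om) * u + om * v)
    linarith only [this, h5, hR1, hc]
  -- w
  have hh' : ‖(1 - om) - 1 / 2‖ ≤ h := by
    rw [show (1 - om) - 1 / 2 = -(om - 1 / 2) by ring, norm_neg]
    exact hh
  have hM' : ‖(1 - om) * (1 - (1 - om))‖ ≤ M := by
    rw [show (1 - om) * (1 - (1 - om)) = om * (1 - om) by ring]
    exact hM
  have hr := rho_bound hD D2 hh' hM' h1 h2 hF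
  set w := u + log (1 + (1 - om) * (exp (v - u) - 1)) with hw
  have hne : 1 + (1 - om) * (exp (v - u) - 1) ≠ 0 := by
    have k1 := exp_sub1 (z := v - u) (by linarith only [D2, hD])
    have ha : ‖1 - om‖ ≤ 1 / 2 + h := by
      have := norm_add_le ((1 - om) - 1 / 2) (1 / 2)
      rw [sub_add_cancel] at this
      have h3 : ‖(1 / 2 : ℂ)‖ = 1 / 2 := by norm_num
      linarith only [h3, this, hh']
    have k3 : ‖(1 - om) * (exp (v - u) - 1)‖ < 1 := by
      rw [norm_mul]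
      refine lt_of_le_of_lt ?_ h2
      apply mul_le_mul ha _ (norm_nonneg _) (by linarith only [hh0])
      have h6 := norm_nonneg (v - u)
      linarith only [k1, hD, mul_nonneg (sub_nonneg.2 hD) (sub_nonneg.2 h6),
        mul_nonneg (sub_nonneg.2 hD) (sub_nonneg.2 hD0)]
    exact slitPlane_ne_zero (mem_slitPlane_of_norm_lt_one k3)
  have hexpw : exp w * (bl + br) = Bl + Br := by
    rw [hw, exp_add, exp_log hne]
    have e1 : exp (v - u) = exp v / exp u := exp_sub v u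
    have e2 : exp u * bl = Bl := by rw [hu]; field_simp
    have e3 : exp v * br = Br := by rw [hv]; field_simp
    have e4 : exp u * exp (v - u) = exp v := by
      rw [← exp_add]
      congr 1
      ring
    have hom2 : (1 - om) * (bl + br) = br := by linear_combination -hom
    linear_combination e2 + e3 + (exp u * exp (v - u) - exp u) * hom2 + br * e4
  have hwr : ‖w - (om * u + (1 - om) * v)‖ ≤ R1 := by
    have e : w - (om * u + (1 - om) * v) =
        log (1 + (1 - om) * (exp (v - u) - 1)) - (1 - om) * (v - u) := by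
      rw [hw]
      ring
    rw [e]
    linarith only [hr, hR1]
  -- κ
  set κ := u + v - w with hκ
  have hκn : ‖κ‖ ≤ χ := by
    have e : κ = ((1 - om) * u + om * v) - (w - (om * u + (1 - om) * v)) := by
      rw [hκ]
      ring
    rw [e]
    exact (norm_sub_le _ _).trans (by linarith only [hwr, hc])
  -- x
  set x := E / E0 - 1 with hx
  have hEx : E = E0 * (1 + x) := by
    rw [hx]
    field_simp
    ring
  have hx1 : 1 + x ≠ 0 := by
    intro h
    rw [h, mul_zero] at hEx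
    exact hEn hEx
  set δ := (2 * bl * br * E0 / (bl + br) - (E0 ^ 2 + 1)) * exp κ with hδ
  have hxq : x * (E0 ^ 2 - 1) + x ^ 2 / (1 + x) = (E0 ^ 2 + 1) * (exp κ - 1) + δ := by
    have hS : Bl + Br ≠ 0 := by
      rw [← hexpw]
      exact mul_ne_zero (exp_ne_zero _) hs
    have e1 : (E0 ^ 2 + 1) * (exp κ - 1) + δ = 2 * bl * br * E0 / (bl + br) * exp κ -
        (E0 ^ 2 + 1) := by
      rw [hδ]
      ring
    have e2 : exp κ = Bl / bl * (Br / br) * ((bl + br) / (Bl + Br)) := by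
      rw [hκ, exp_sub, exp_add, hu, hv, ← hexpw]
      field_simp
    have hE := nd.EE
    have e3 : 2 * bl * br * E0 / (bl + br) * exp κ = 2 * (Bl * Br) * E0 / (Bl + Br) := by
      rw [e2]
      field_simp
    have e4 : (E ^ 2 + 1) / (1 + x) = 2 * (Bl * Br) * E0 / (Bl + Br) := by
      rw [div_eq_div_iff hx1 hS, hE, hEx]
      ring
    rw [e1, e3, ← e4, hEx]
    field_simp
    ring
  have hqn : ‖(E0 ^ 2 + 1) * (exp κ - 1) + δ‖ ≤ Q := by
    have k1 := exp_sub1 (z := κ) (by linarith only [hκn, hχ])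
    have hδn : ‖δ‖ ≤ d := by
      rw [hδ, norm_mul]
      have k2 : ‖exp κ‖ ≤ 3 := by
        have := norm_add_le (exp κ - 1) 1
        rw [sub_add_cancel] at this
        have h3 : ‖(1 : ℂ)‖ = 1 := by norm_num
        have h4 : ‖κ‖ ≤ 1 := by linarith only [hκn, hχ]
        linarith only [h3, this, k1, hκn, hχ,
          mul_nonneg (sub_nonneg.2 hκn) (sub_nonneg.2 (norm_nonneg κ)),
          mul_nonneg (sub_nonneg.2 hχ) (sub_nonneg.2 (norm_nonneg κ))]
      have := norm_nonneg (2 * bl * br * E0 / (bl + br) - (E0 ^ 2 + 1))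
      linarith only [hd, mul_nonneg (sub_nonneg.2 k2) (sub_nonneg.2 this)]
    refine (norm_add_le _ _).trans ?_
    rw [norm_mul]
    have k3 : ‖exp κ - 1‖ ≤ χ + 3 / 4 * χ ^ 2 := by
      have := norm_nonneg κ
      linarith only [k1, hκn, mul_nonneg (sub_nonneg.2 hκn) (sub_nonneg.2 this),
        mul_nonneg (sub_nonneg.2 hχ0) (sub_nonneg.2 hκn)]
    have := mul_le_mul_of_nonneg_left k3 (norm_nonneg (E0 ^ 2 + 1))
    linarith only [this, hδn, hQ]
  have hδn : ‖δ‖ ≤ d := by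
    rw [hδ, norm_mul]
    have k1 := exp_sub1 (z := κ) (by linarith only [hκn, hχ])
    have k2 : ‖exp κ‖ ≤ 3 := by
      have := norm_add_le (exp κ - 1) 1
      rw [sub_add_cancel] at this
      have h3 : ‖(1 : ℂ)‖ = 1 := by norm_num
      have h4 : ‖κ‖ ≤ 1 := by linarith only [hκn, hχ]
      linarith only [h3, this, k1, hκn, hχ,
        mul_nonneg (sub_nonneg.2 hκn) (sub_nonneg.2 (norm_nonneg κ)),
        mul_nonneg (sub_nonneg.2 hχ) (sub_nonneg.2 (norm_nonneg κ))]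
    have := norm_nonneg (2 * bl * br * E0 / (bl + br) - (E0 ^ 2 + 1))
    linarith only [hd, mul_nonneg (sub_nonneg.2 k2) (sub_nonneg.2 this)]
  have hxn : ‖x‖ ≤ X := by
    apply hX
    · intro Y Z h3 h4 h5
      exact x_step hxq h3 h4 e0 he2 hqn h5
    · have h3 := x_apriori hE0 nd.Eim hEx hxq
      have h4 : 0 < ‖E0‖ * (-E0.im) := mul_pos (norm_pos_iff.2 hE0n) (by linarith only [hE0])
      exact le_of_mul_le_mul_right (by linarith only [h3, hqn, hX0]) h4
  refine ⟨w, log (1 + x), hwr, ?_, hexpw, ?_⟩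
  · exact e_bound hxq hg hδn hκn hχ hxn X1 e0 he2 hG hR2
  · rw [exp_log hx1]
    exact hEx

end Pool.Agent.S5.K
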