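import Pool.Agent.S5.K.Fi
import Pool.Agent.S5.I.NumSe

/-!
# The exponentials at the points of the grid
-/

set_option autoImplicit false

namespace Pool.Agent.S5.K

open Complex Pool.Agent.S5.Num

/-- The point of the grid. -/
noncomputable def gp (ia ja : ℕ) : ℂ :=
  (((ia : ℝ) / 200 : ℝ) : ℂ) + ((((ja : ℝ) - 50) / 200 : ℝ) : ℂ) * I

/-- A number in units of `2^(-24)`. -/
noncomputable def tc (x y : ℤ) : ℂ :=
  (((x : ℝ) / 16777216 : ℝ) : ℂ) + (((y : ℝ) / 16777216 : ℝ) : ℂ) * I

theorem gp_re (ia ja : ℕ) : (gp ia ja).re = (ia : ℝ) / 200 := by simp [gp]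

theorem gp_im (ia ja : ℕ) : (gp ia ja).im = ((ja : ℝ) - 50) / 200 := by simp [gp]

theorem tc_re (x y : ℤ) : (tc x y).re = (x : ℝ) / 16777216 := by simp [tc]

theorem tc_im (x y : ℤ) : (tc x y).im = (y : ℝ) / 16777216 := by simp [tc]

/-- The approximation of `exp (-2 π i a0)`. -/
def vst (ia ja : ℕ) (K : ℤ → ℤ → Bool) : Bool :=
  cond (Nat.ble ia 100) (cond (Nat.ble ja 110) (cond (Nat.ble ja 50)
    (wst ia (Nat.sub 50 ja) 200 (fun c d =>
      bd (Int.ediv (Int.sub (Int.ofNat c) 4503599627370496) 16777216) (fun x =>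
      bd (Int.ediv (Int.sub 4503599627370496 (Int.ofNat d)) 16777216) (fun y => K x y))))
    (wst ia (Nat.sub ja 50) 200 (fun c d =>
      bd (Int.sub (Int.ofNat c) 4503599627370496) (fun p =>
      bd (Int.sub (Int.ofNat d) 4503599627370496) (fun q =>
      bd (Int.add (Int.mul p p) (Int.mul q q)) (fun n =>
      bd (Int.ediv (Int.mul 4722366482869645213696 p) n) (fun x =>
      bd (Int.ediv (Int.mul (-4722366482869645213696) q) n) (fun y =>
      bd (Int.sub (Int.sub (Int.mul x p) (Int.mul y q)) 4722366482869645213696) (fun e =>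
      bd (Int.add (Int.mul x q) (Int.mul y p)) (fun f =>
      cond (leI (Int.add (Int.mul e e) (Int.mul f f)) (Int.mul 9 n)) (K x y) false))))))))))
    false) false

theorem ww_conj (x s : ℝ) : exp (-(2 * Real.pi * I * ((x : ℂ) + ((-s : ℝ) : ℂ) * I))) =
    (starRingEnd ℂ) (ww x s) := by
  unfold ww
  rw [← exp_conj]
  congr 1
  simp only [map_mul, map_add, conj_I, conj_ofReal, map_ofNat]
  push_cast
  ring

theorem ww_inv (x s : ℝ) : exp (-(2 * Real.pi * I * ((x : ℂ) + (s : ℂ) * I))) * ww x s = 1 := by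
  unfold ww
  rw [← exp_add, neg_add_cancel, exp_zero]

theorem floor_err {z : ℤ} : |(z : ℝ) / 16777216 - ((Int.ediv z 16777216 : ℤ) : ℝ)| ≤ 1 := by
  rw [iediv]
  have h1 := Int.lt_ediv_add_one_mul_self z (show (0 : ℤ) < 16777216 by norm_num)
  have h2 := Int.ediv_mul_le z (show (16777216 : ℤ) ≠ 0 by norm_num)
  have h1' : (z : ℝ) < (((z / 16777216 : ℤ) : ℝ) + 1) * 16777216 := by exact_mod_cast h1
  have h2' : ((z / 16777216 : ℤ) : ℝ) * 16777216 ≤ z := by exact_mod_cast h2
  rw [abs_le]
  constructor
  · rw [neg_le_sub_iff_le_add, ← sub_le_iff_le_add, le_div_iff₀ (by norm_num)]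
    linarith
  · rw [sub_le_iff_le_add, div_le_iff₀ (by norm_num)]
    linarith

theorem vst_ok {ia ja : ℕ} {K : ℤ → ℤ → Bool} (h : vst ia ja K = true) :
    ∃ x y : ℤ, K x y = true ∧ ia ≤ 100 ∧ ja ≤ 110 ∧
      ‖exp (-(2 * Real.pi * I * gp ia ja)) - tc x y‖ ≤ 1 / 4194304 := by
  unfold vst at h
  obtain ⟨h1, h⟩ := cond_ok h
  obtain ⟨h2, h⟩ := cond_ok h
  have hia : ia ≤ 100 := Nat.ble_eq.mp h1
  have hja : ja ≤ 110 := Nat.ble_eq.mp h2
  rcases hc : Nat.ble ja 50 with _ | _
  · rw [hc] at h
    have h50 : 50 < ja := by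
      by_contra h3
      rw [Nat.ble_eq.mpr (by omega)] at hc
      exact absurd hc (by simp)
    rw [cond_false] at h
    have h' : wst ia (Nat.sub ja 50) 200 (fun c d =>
      bd (Int.sub (Int.ofNat c) 4503599627370496) (fun p =>
      bd (Int.sub (Int.ofNat d) 4503599627370496) (fun q =>
      bd (Int.add (Int.mul p p) (Int.mul q q)) (fun n =>
      bd (Int.ediv (Int.mul 4722366482869645213696 p) n) (fun x =>
      bd (Int.ediv (Int.mul (-4722366482869645213696) q) n) (fun y =>
      bd (Int.sub (Int.sub (Int.mul x p) (Int.mul y q)) 4722366482869645213696) (fun e =>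
      bd (Int.add (Int.mul x q) (Int.mul y p)) (fun f =>
      cond (leI (Int.add (Int.mul e e) (Int.mul f f)) (Int.mul 9 n)) (K x y) false)))))))) = true := h
    obtain ⟨c, d, e1, hAp⟩ := wst_sound (X := ia) (S := Nat.sub ja 50) (D := 200) (by norm_num)
      (by omega) (by
        rw [Nat.sub_eq]
        omega) (fun c d =>
      bd (Int.sub (Int.ofNat c) 4503599627370496) (fun p =>
      bd (Int.sub (Int.ofNat d) 4503599627370496) (fun q =>
      bd (Int.add (Int.mul p p) (Int.mul q q)) (fun n =>
      bd (Int.ediv (Int.mul 4722366482869645213696 p) n) (fun x =>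
      bd (Int.ediv (Int.mul (-4722366482869645213696) q) n) (fun y =>
      bd (Int.sub (Int.sub (Int.mul x p) (Int.mul y q)) 4722366482869645213696) (fun e =>
      bd (Int.add (Int.mul x q) (Int.mul y p)) (fun f =>
      cond (leI (Int.add (Int.mul e e) (Int.mul f f)) (Int.mul 9 n)) (K x y) false))))))))
    rw [e1] at h'
    obtain ⟨p, hp, h'⟩ := bd_ok h'
    obtain ⟨q, hq, h'⟩ := bd_ok h'
    obtain ⟨n, hn, h'⟩ := bd_ok h'
    obtain ⟨x, hx, h'⟩ := bd_ok h'
    obtain ⟨y, hy, h'⟩ := bd_ok h'
    obtain ⟨e, he, h'⟩ := bd_ok h'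
    obtain ⟨f, hf, h'⟩ := bd_ok h'
    obtain ⟨hr, h'⟩ := cond_ok h'
    refine ⟨x, y, h', hia, hja, ?_⟩
    have hr2 : e * e + f * f ≤ 9 * n := by
      have := leI_ok hr
      simpa only [iadd, imul] using this
    have hn2 : n = p * p + q * q := by rw [hn, iadd, imul, imul]
    have he2 : e = x * p - y * q - 4722366482869645213696 := by rw [he, isub, isub, imul, imul]
    have hf2 : f = x * q + y * p := by rw [hf, iadd, imul, imul]
    have hp2 : (p : ℝ) = (c : ℝ) - 4503599627370496 := by
      rw [hp]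
      rw [isub, iofNat]
      push_cast
      ring
    have hq2 : (q : ℝ) = (d : ℝ) - 4503599627370496 := by
      rw [hq]
      rw [isub, iofNat]
      push_cast
      ring
    set s : ℝ := ((Nat.sub ja 50 : ℕ) : ℝ) / ((200 : ℕ) : ℝ) with hs
    set X : ℝ := (ia : ℝ) / ((200 : ℕ) : ℝ) with hX
    have hs2 : s = ((ja : ℝ) - 50) / 200 := by
      have h3 : ((Nat.sub ja 50 : ℕ) : ℝ) = (ja : ℝ) - 50 := by
        rw [Nat.sub_eq, Nat.cast_sub (by omega)]
        norm_num
      rw [hs, h3]
      norm_num
    have hgp : gp ia ja = (X : ℂ) + (s : ℂ) * I := by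
      rw [gp, hs2, hX]
      norm_num
    set w := ww X s with hw
    have hwi : exp (-(2 * Real.pi * I * gp ia ja)) * w = 1 := by
      rw [hgp]
      exact ww_inv X s
    -- the approximation of w
    set W : ℂ := cx c d / UU with hW
    have hU0 : (UU : ℂ) ≠ 0 := by
      rw [Ne, ofReal_eq_zero]
      exact UU_pos.ne'
    have hwW : ‖w - W‖ ≤ 1 / 549755813888 := by
      have h3 : w - W = (w * UU - cx c d) / UU := by
        rw [hW]
        field_simp
      rw [h3, norm_div, norm_real, Real.norm_eq_abs, abs_of_pos UU_pos, div_le_iff₀ UU_pos]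
      unfold Ap at hAp
      unfold UU at hAp ⊢
      linarith
    have hWre : W.re = p / 281474976710656 := by
      rw [hW, div_ofReal_re, cx_re, hp2]
      norm_num [KK, UU]
    have hWim : W.im = q / 281474976710656 := by
      rw [hW, div_ofReal_im, cx_im, hq2]
      norm_num [KK, UU]
    have hWn : ‖W‖ ^ 2 = (n : ℝ) / 79228162514264337593543950336 := by
      rw [Complex.sq_norm, normSq_apply, hWre, hWim, hn2]
      push_cast
      ring
    -- the residual
    have hres : ‖tc x y * W - 1‖ ≤ 3 / 16777216 * ‖W‖ := by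
      have h3 : ‖tc x y * W - 1‖ ^ 2 ≤ (3 / 16777216 * ‖W‖) ^ 2 := by
        rw [Complex.sq_norm, normSq_apply, mul_pow, hWn]
        have h4 : (tc x y * W - 1).re = (e : ℝ) / 4722366482869645213696 := by
          rw [sub_re, mul_re, tc_re, tc_im, hWre, hWim, he2, one_re]
          push_cast
          ring
        have h5 : (tc x y * W - 1).im = (f : ℝ) / 4722366482869645213696 := by
          rw [sub_im, mul_im, tc_re, tc_im, hWre, hWim, hf2, one_im]
          push_cast
          ring
        rw [h4, h5]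
        have h6 : (e : ℝ) * e + f * f ≤ 9 * n := by exact_mod_cast hr2
        have h7 : (e : ℝ) / 4722366482869645213696 * (e / 4722366482869645213696) +
            f / 4722366482869645213696 * (f / 4722366482869645213696) =
              (e * e + f * f) / 22300745198530623141535718272648361505980416 := by ring
        rw [h7]
        have h8 : ((3 : ℝ) / 16777216) ^ 2 * (n / 79228162514264337593543950336) =
            9 * n / 22300745198530623141535718272648361505980416 := by
          ring
        rw [h8]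
        exact div_le_div_of_nonneg_right h6 (by norm_num)
      exact le_of_sq_le_sq h3 (by positivity)
    have hwn : ‖w‖ = Real.exp (-(2 * Real.pi * s)) := by
      rw [hw]
      exact ww_norm X s
    have hs3 : 0 ≤ s ∧ s ≤ 3 / 10 := by
      rw [hs2]
      have : (51 : ℝ) ≤ ja := by exact_mod_cast h50
      have : (ja : ℝ) ≤ 110 := by exact_mod_cast hja
      constructor <;> linarith
    have hw8 : 1 / 8 ≤ ‖w‖ := by
      rw [hwn, Real.exp_neg, ← one_div]
      apply one_div_le_one_div_of_le (Real.exp_pos _)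
      have h3 : 2 * Real.pi * s ≤ 1886 / 1000 := by
        have := Real.pi_lt_d6
        nlinarith [Real.pi_pos]
      have h4 : Real.exp (2 * Real.pi * s) ≤ Real.exp (1886 / 1000) := Real.exp_le_exp.2 h3
      have h5 : Real.exp (1886 / 1000) ≤ 8 := by
        have h6 : Real.exp (1886 / 1000) ≤ Real.exp 1 * Real.exp 1 := by
          rw [← Real.exp_add]
          exact Real.exp_le_exp.2 (by norm_num)
        have h7 := Real.exp_one_lt_d9
        have h8 := Real.exp_pos 1
        nlinarith
      linarith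
    have hw1 : ‖w‖ ≤ 1 := by
      rw [hwn]
      apply Real.exp_le_one_iff.2
      have := Real.pi_pos
      have : 0 ≤ 2 * Real.pi * s := by have := hs3.1; positivity
      linarith
    have hw0 : w ≠ 0 := by
      intro h3
      rw [h3, norm_zero] at hw8
      linarith
    have hWle : ‖W‖ ≤ ‖w‖ + 1 / 549755813888 := by
      have := norm_sub_le w (w - W)
      rw [sub_sub_cancel] at this
      linarith
    -- the norm of the approximation
    have htc : ‖tc x y‖ * ‖w‖ ≤ 2 := by
      have h3 : tc x y * w = 1 + (tc x y * W - 1) + tc x y * (w - W) := by ring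
      have h4 : ‖tc x y * w‖ ≤ 1 + 3 / 16777216 * ‖W‖ + ‖tc x y‖ * (1 / 549755813888) := by
        rw [h3]
        refine (norm_add₃_le).trans ?_
        rw [norm_mul (tc x y) (w - W)]
        have h5 : ‖(1 : ℂ)‖ = 1 := by norm_num
        rw [h5]
        have := mul_le_mul_of_nonneg_left hwW (norm_nonneg (tc x y))
        linarith
      rw [norm_mul] at h4
      have h6 : ‖tc x y‖ * (1 / 8) ≤ ‖tc x y‖ * ‖w‖ :=
        mul_le_mul_of_nonneg_left hw8 (norm_nonneg _)
      linarith
    have htc2 : ‖tc x y‖ ≤ 16 := by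
      have h6 : ‖tc x y‖ * (1 / 8) ≤ ‖tc x y‖ * ‖w‖ :=
        mul_le_mul_of_nonneg_left hw8 (norm_nonneg _)
      linarith
    have h9 : ‖(exp (-(2 * Real.pi * I * gp ia ja)) - tc x y) * w‖ ≤
        3 / 16777216 * ‖W‖ + 16 * (1 / 549755813888) := by
      have h3 : (exp (-(2 * Real.pi * I * gp ia ja)) - tc x y) * w =
          -(tc x y * W - 1) - tc x y * (w - W) := by
        linear_combination hwi
      rw [h3]
      refine (norm_sub_le _ _).trans ?_
      rw [norm_neg, norm_mul]
      have := mul_le_mul htc2 hwW (norm_nonneg _) (by norm_num)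
      linarith
    rw [norm_mul] at h9
    have h10 : ‖exp (-(2 * Real.pi * I * gp ia ja)) - tc x y‖ * ‖w‖ ≤ 1 / 4194304 * ‖w‖ := by
      refine h9.trans ?_
      linarith
    exact le_of_mul_le_mul_right h10 (by linarith)
  · rw [hc] at h
    have h50 : ja ≤ 50 := Nat.ble_eq.mp hc
    rw [cond_true] at h
    have h' : wst ia (Nat.sub 50 ja) 200 (fun c d =>
      bd (Int.ediv (Int.sub (Int.ofNat c) 4503599627370496) 16777216) (fun x =>
      bd (Int.ediv (Int.sub 4503599627370496 (Int.ofNat d)) 16777216) (fun y => K x y))) = true := h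
    obtain ⟨c, d, e1, hAp⟩ := wst_sound (X := ia) (S := Nat.sub 50 ja) (D := 200) (by norm_num)
      (by omega) (by
        rw [Nat.sub_eq]
        omega) (fun c d =>
      bd (Int.ediv (Int.sub (Int.ofNat c) 4503599627370496) 16777216) (fun x =>
      bd (Int.ediv (Int.sub 4503599627370496 (Int.ofNat d)) 16777216) (fun y => K x y)))
    rw [e1] at h'
    obtain ⟨x, hx, h'⟩ := bd_ok h'
    obtain ⟨y, hy, h'⟩ := bd_ok h'
    refine ⟨x, y, h', hia, hja, ?_⟩
    set s : ℝ := ((Nat.sub 50 ja : ℕ) : ℝ) / ((200 : ℕ) : ℝ) with hs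
    set X : ℝ := (ia : ℝ) / ((200 : ℕ) : ℝ) with hX
    have hs2 : s = (50 - (ja : ℝ)) / 200 := by
      have h3 : ((Nat.sub 50 ja : ℕ) : ℝ) = 50 - (ja : ℝ) := by
        rw [Nat.sub_eq, Nat.cast_sub h50]
        norm_num
      rw [hs, h3]
      norm_num
    have hgp : gp ia ja = (X : ℂ) + ((-s : ℝ) : ℂ) * I := by
      rw [gp, hs2, hX]
      push_cast
      ring
    have hV : exp (-(2 * Real.pi * I * gp ia ja)) = (starRingEnd ℂ) (ww X s) := by
      rw [hgp]
      exact ww_conj X s
    set w := ww X s with hw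
    rw [hV]
    have hU0 : (UU : ℂ) ≠ 0 := by
      rw [Ne, ofReal_eq_zero]
      exact UU_pos.ne'
    set W : ℂ := cx c d / UU with hW
    have hwW : ‖w - W‖ ≤ 1 / 549755813888 := by
      have h3 : w - W = (w * UU - cx c d) / UU := by
        rw [hW]
        field_simp
      rw [h3, norm_div, norm_real, Real.norm_eq_abs, abs_of_pos UU_pos, div_le_iff₀ UU_pos]
      unfold Ap at hAp
      unfold UU at hAp ⊢
      linarith
    have h3 : (starRingEnd ℂ) w - tc x y = (starRingEnd ℂ) (w - W) + ((starRingEnd ℂ) W - tc x y) := by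
      rw [map_sub]
      ring
    have h4 : ‖(starRingEnd ℂ) W - tc x y‖ ≤ 2 / 16777216 := by
      refine (Complex.norm_le_abs_re_add_abs_im _).trans ?_
      rw [sub_re, sub_im, conj_re, conj_im, tc_re, tc_im]
      have hWre : W.re = ((c : ℝ) - 4503599627370496) / 281474976710656 := by
        rw [hW, div_ofReal_re, cx_re]
        norm_num [KK, UU]
      have hWim : W.im = ((d : ℝ) - 4503599627370496) / 281474976710656 := by
        rw [hW, div_ofReal_im, cx_im]
        norm_num [KK, UU]
      rw [hWre, hWim]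
      have h5 := floor_err (z := Int.sub (Int.ofNat c) 4503599627370496)
      have h6 := floor_err (z := Int.sub 4503599627370496 (Int.ofNat d))
      rw [← hx] at h5
      rw [← hy] at h6
      have h7 : ((Int.sub (Int.ofNat c) 4503599627370496 : ℤ) : ℝ) = (c : ℝ) - 4503599627370496 := by
        rw [isub, iofNat]
        push_cast
        ring
      have h8 : ((Int.sub 4503599627370496 (Int.ofNat d) : ℤ) : ℝ) = 4503599627370496 - (d : ℝ) := by
        rw [isub, iofNat]
        push_cast
        ring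
      rw [h7] at h5
      rw [h8] at h6
      have a1 : ((c : ℝ) - 4503599627370496) / 281474976710656 - (x : ℝ) / 16777216 =
          (((c : ℝ) - 4503599627370496) / 16777216 - x) / 16777216 := by ring
      have a2 : -(((d : ℝ) - 4503599627370496) / 281474976710656) - (y : ℝ) / 16777216 =
          ((4503599627370496 - (d : ℝ)) / 16777216 - y) / 16777216 := by ring
      rw [a1, a2, abs_div, abs_div, abs_of_pos (show (0 : ℝ) < 16777216 by norm_num)]
      rw [← add_div]
      exact div_le_div_of_nonneg_right (by linarith) (by norm_num)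
    rw [h3]
    refine (norm_add_le _ _).trans ?_
    rw [norm_conj]
    linarith

end Pool.Agent.S5.K
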