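import Pool.Agent.S5.K.An3
import Pool.Agent.S5.K.Vst

/-!
# The slots of a closed node near a base point
-/

set_option autoImplicit false

namespace Pool.Agent.S5.K

open Complex Set

/-- The slope. -/
theorem slot_la {la la0 u v w e om g om' g' : ℂ} {R1 R2 G1 τ t : ℝ}
    (hw : ‖w - (om * u + (1 - om) * v)‖ ≤ R1) (he : ‖e - g * (u + v - w)‖ ≤ R2)
    (hla : ‖la - (la0 + (2 * u - e - w))‖ ≤ τ) (hG : ‖1 - g‖ ≤ G1)
    (ho : ‖om - om'‖ ≤ t) (hg : ‖g - g'‖ ≤ t) (h1 : ‖1 - om‖ ≤ 1) (h2 : ‖om‖ ≤ 1) (h3 : ‖g'‖ ≤ 1)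
    (huv : ‖u‖ + ‖v‖ ≤ 1) :
    ‖la - la0 - ((2 - om' - g' * (1 - om')) * u + (-(1 - om') - g' * om') * v)‖ ≤
      G1 * R1 + R2 + τ + 3 * t := by
  have ht : 0 ≤ t := (norm_nonneg _).trans ho
  have hR1 : 0 ≤ R1 := (norm_nonneg _).trans hw
  have e1 : la - la0 - ((2 - om' - g' * (1 - om')) * u + (-(1 - om') - g' * om') * v) =
      (la - (la0 + (2 * u - e - w))) - (1 - g) * (w - (om * u + (1 - om) * v)) -
        (e - g * (u + v - w)) + (-(om - om') - (g - g') * (1 - om) + g' * (om - om')) * u +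
          ((om - om') - (g - g') * om - g' * (om - om')) * v := by ring
  have b1 : ‖(1 - g) * (w - (om * u + (1 - om) * v))‖ ≤ G1 * R1 := by
    rw [norm_mul]
    exact mul_le_mul hG hw (norm_nonneg _) ((norm_nonneg _).trans hG)
  have b2 : ‖(-(om - om') - (g - g') * (1 - om) + g' * (om - om')) * u‖ ≤ 3 * t * ‖u‖ := by
    rw [norm_mul]
    apply mul_le_mul_of_nonneg_right _ (norm_nonneg u)
    refine (norm_add_le _ _).trans ?_
    have c1 : ‖-(om - om') - (g - g') * (1 - om)‖ ≤ t + t := by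
      refine (norm_sub_le _ _).trans ?_
      rw [norm_neg, norm_mul]
      have := mul_le_mul hg h1 (norm_nonneg _) ht
      linarith
    have c2 : ‖g' * (om - om')‖ ≤ t := by
      rw [norm_mul]
      have := mul_le_mul h3 ho (norm_nonneg _) zero_le_one
      linarith
    linarith
  have b3 : ‖((om - om') - (g - g') * om - g' * (om - om')) * v‖ ≤ 3 * t * ‖v‖ := by
    rw [norm_mul]
    apply mul_le_mul_of_nonneg_right _ (norm_nonneg v)
    refine (norm_sub_le _ _).trans ?_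
    have c1 : ‖(om - om') - (g - g') * om‖ ≤ t + t := by
      refine (norm_sub_le _ _).trans ?_
      rw [norm_mul]
      have := mul_le_mul hg h2 (norm_nonneg _) ht
      linarith
    have c2 : ‖g' * (om - om')‖ ≤ t := by
      rw [norm_mul]
      have := mul_le_mul h3 ho (norm_nonneg _) zero_le_one
      linarith
    linarith
  rw [e1]
  have b4 : 3 * t * ‖u‖ + 3 * t * ‖v‖ ≤ 3 * t := by nlinarith
  calc ‖(la - (la0 + (2 * u - e - w))) - (1 - g) * (w - (om * u + (1 - om) * v)) -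
        (e - g * (u + v - w)) + (-(om - om') - (g - g') * (1 - om) + g' * (om - om')) * u +
          ((om - om') - (g - g') * om - g' * (om - om')) * v‖
      ≤ ‖la - (la0 + (2 * u - e - w))‖ + ‖(1 - g) * (w - (om * u + (1 - om) * v))‖ +
        ‖e - g * (u + v - w)‖ + ‖(-(om - om') - (g - g') * (1 - om) + g' * (om - om')) * u‖ +
          ‖((om - om') - (g - g') * om - g' * (om - om')) * v‖ := by
        refine (norm_add_le _ _).trans ?_
        gcongr
        refine (norm_add_le _ _).trans ?_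
        gcongr
        refine (norm_sub_le _ _).trans ?_
        gcongr
        exact norm_sub_le _ _
    _ ≤ G1 * R1 + R2 + τ + 3 * t := by linarith

/-- The sum `u + e`. -/
theorem slot_s {u v w e om g om' g' : ℂ} {R1 R2 G t : ℝ}
    (hw : ‖w - (om * u + (1 - om) * v)‖ ≤ R1) (he : ‖e - g * (u + v - w)‖ ≤ R2) (hG : ‖g‖ ≤ G)
    (ho : ‖om - om'‖ ≤ t) (hg : ‖g - g'‖ ≤ t) (h1 : ‖1 - om‖ ≤ 1) (h2 : ‖om‖ ≤ 1) (h3 : ‖g'‖ ≤ 1)
    (huv : ‖u‖ + ‖v‖ ≤ 1) :
    ‖u + e - ((1 + g' * (1 - om')) * u + g' * om' * v)‖ ≤ G * R1 + R2 + 2 * t := by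
  have ht : 0 ≤ t := (norm_nonneg _).trans ho
  have e1 : u + e - ((1 + g' * (1 - om')) * u + g' * om' * v) =
      (e - g * (u + v - w)) - g * (w - (om * u + (1 - om) * v)) +
        ((g - g') * (1 - om) - g' * (om - om')) * u + ((g - g') * om + g' * (om - om')) * v := by
    ring
  have b1 : ‖g * (w - (om * u + (1 - om) * v))‖ ≤ G * R1 := by
    rw [norm_mul]
    exact mul_le_mul hG hw (norm_nonneg _) ((norm_nonneg _).trans hG)
  have c2 : ‖g' * (om - om')‖ ≤ t := by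
    rw [norm_mul]
    have := mul_le_mul h3 ho (norm_nonneg _) zero_le_one
    linarith
  have b2 : ‖((g - g') * (1 - om) - g' * (om - om')) * u‖ ≤ 2 * t * ‖u‖ := by
    rw [norm_mul]
    apply mul_le_mul_of_nonneg_right _ (norm_nonneg u)
    refine (norm_sub_le _ _).trans ?_
    rw [norm_mul]
    have := mul_le_mul hg h1 (norm_nonneg _) ht
    linarith
  have b3 : ‖((g - g') * om + g' * (om - om')) * v‖ ≤ 2 * t * ‖v‖ := by
    rw [norm_mul]
    apply mul_le_mul_of_nonneg_right _ (norm_nonneg v)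
    refine (norm_add_le _ _).trans ?_
    rw [norm_mul]
    have := mul_le_mul hg h2 (norm_nonneg _) ht
    linarith
  rw [e1]
  have b4 : 2 * t * ‖u‖ + 2 * t * ‖v‖ ≤ 2 * t := by nlinarith
  calc ‖(e - g * (u + v - w)) - g * (w - (om * u + (1 - om) * v)) +
        ((g - g') * (1 - om) - g' * (om - om')) * u + ((g - g') * om + g' * (om - om')) * v‖
      ≤ ‖e - g * (u + v - w)‖ + ‖g * (w - (om * u + (1 - om) * v))‖ +
        ‖((g - g') * (1 - om) - g' * (om - om')) * u‖ + ‖((g - g') * om + g' * (om - om')) * v‖ := by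
        refine (norm_add_le _ _).trans ?_
        gcongr
        refine (norm_add_le _ _).trans ?_
        gcongr
        exact norm_sub_le _ _
    _ ≤ G * R1 + R2 + 2 * t := by linarith

/-- The critical point of a slot: `V` is linear up to second order. -/
theorem slot_y {y a0 V0 C s L W : ℂ} {S r Wn N E t : ℝ} (hV0 : exp (-(2 * Real.pi * I * a0)) = V0)
    (hy : 1 + exp (-(2 * Real.pi * I * y)) = C * exp s) (hC : ‖C - (1 + V0)‖ ≤ t)
    (hW : ‖W * V0 - C‖ ≤ t) (hV : 1 / 2 ≤ ‖V0‖) (hs : ‖s‖ ≤ S) (hS : S ≤ 1) (hL : ‖s - L‖ ≤ r)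
    (hWn : ‖W‖ ≤ Wn) (hE : 1 / 2 * S ^ 2 + 2 / 9 * S ^ 3 ≤ E) (hN : Wn * (S + E) + 6 * t ≤ N)
    (hN1 : N < 1) (h0 : 0 < y.re) (h1 : y.re < 1 / 2) (g0 : 0 ≤ a0.re) (g1 : a0.re ≤ 1 / 2) :
    ∃ z : ℂ, y - a0 = I / (2 * Real.pi) * z ∧
      ‖z - W * L‖ ≤ Wn * (r + E) + N ^ 2 / (2 * (1 - N)) + 6 * t := by
  have hpi := Real.pi_pos
  have ht : 0 ≤ t := (norm_nonneg _).trans hC
  have hS0 : 0 ≤ S := (norm_nonneg _).trans hs
  have hWn0 : 0 ≤ Wn := (norm_nonneg _).trans hWn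
  have hV0n : V0 ≠ 0 := by
    intro h
    rw [h, norm_zero] at hV
    linarith
  -- the remainder of the exponential
  have k3 := exp_sub3 (z := s) (by linarith)
  have hs0 := norm_nonneg s
  have k4 : ‖exp s - 1 - s‖ ≤ E := by
    have e1 : exp s - 1 - s = (exp s - 1 - s - s ^ 2 / 2) + s ^ 2 / 2 := by ring
    rw [e1]
    refine (norm_add_le _ _).trans ?_
    have e2 : ‖s ^ 2 / 2‖ = ‖s‖ ^ 2 / 2 := by
      rw [norm_div, norm_pow]
      norm_num
    rw [e2]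
    have e3 : ‖s‖ ^ 2 ≤ S ^ 2 := pow_le_pow_left₀ hs0 hs 2
    have e4 : ‖s‖ ^ 3 ≤ S ^ 3 := pow_le_pow_left₀ hs0 hs 3
    linarith
  have hE0 : 0 ≤ E := (norm_nonneg _).trans k4
  have k5 : ‖exp s - 1‖ ≤ S + E := by
    have e1 : exp s - 1 = (exp s - 1 - s) + s := by ring
    rw [e1]
    refine (norm_add_le _ _).trans ?_
    linarith
  have k6 : ‖exp s - 1‖ ≤ 7 / 4 := by
    have k7 := exp_sub1 (z := s) (by linarith)
    nlinarith
  set ν := (C * exp s - 1 - V0) / V0 with hν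
  set θ := (C / V0 - W) * (exp s - 1) + (C - (1 + V0)) / V0 with hθ
  have e5 : ν = W * (exp s - 1) + θ := by
    rw [hν, hθ]
    field_simp
    ring
  have hθn : ‖θ‖ ≤ 6 * t := by
    have c1 : ‖C / V0 - W‖ ≤ 2 * t := by
      have c2 : C / V0 - W = -(W * V0 - C) / V0 := by
        field_simp
        ring
      rw [c2, norm_div, norm_neg, div_le_iff₀ (by linarith)]
      nlinarith
    have c3 : ‖(C - (1 + V0)) / V0‖ ≤ 2 * t := by
      rw [norm_div, div_le_iff₀ (by linarith)]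
      nlinarith
    rw [hθ]
    refine (norm_add_le _ _).trans ?_
    rw [norm_mul]
    have := mul_le_mul c1 k6 (norm_nonneg _) (by linarith)
    linarith
  have hνn : ‖ν‖ ≤ N := by
    rw [e5]
    refine (norm_add_le _ _).trans ?_
    rw [norm_mul]
    have := mul_le_mul hWn k5 (norm_nonneg _) hWn0
    linarith
  have hexp : exp (-(2 * Real.pi * I * y)) = exp (-(2 * Real.pi * I * a0)) * (1 + ν) := by
    rw [hV0, hν]
    field_simp
    linear_combination hy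
  have hb := exp_branch' hexp (by linarith) (by
    have e6 : (-(2 * Real.pi * I * y) - -(2 * Real.pi * I * a0)).im =
        2 * Real.pi * (a0.re - y.re) := by
      simp only [sub_im, neg_im, mul_im, mul_re, re_ofNat, im_ofNat, ofReal_re, ofReal_im, I_re,
        I_im]
      ring
    rw [e6, abs_mul, abs_of_pos (by positivity : 0 < 2 * Real.pi)]
    have e7 : |a0.re - y.re| ≤ 1 / 2 := by
      rw [abs_le]
      constructor <;> linarith
    nlinarith)
  refine ⟨log (1 + ν), ?_, ?_⟩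
  · have e8 : log (1 + ν) = -(2 * Real.pi * I) * (y - a0) := by
      linear_combination -hb
    rw [e8]
    have hpi2 : (Real.pi : ℂ) ≠ 0 := by exact_mod_cast hpi.ne'
    field_simp
    linear_combination (y - a0) * I_sq
  · have k8 := log_sub1 hνn hN1
    have e9 : log (1 + ν) - W * L = (log (1 + ν) - ν) + W * (exp s - 1 - s) + W * (s - L) + θ := by
      rw [e5]
      ring
    rw [e9]
    have b1 : ‖W * (exp s - 1 - s)‖ ≤ Wn * E := by
      rw [norm_mul]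
      exact mul_le_mul hWn k4 (norm_nonneg _) hWn0
    have b2 : ‖W * (s - L)‖ ≤ Wn * r := by
      rw [norm_mul]
      exact mul_le_mul hWn hL (norm_nonneg _) hWn0
    calc ‖(log (1 + ν) - ν) + W * (exp s - 1 - s) + W * (s - L) + θ‖
        ≤ ‖log (1 + ν) - ν‖ + ‖W * (exp s - 1 - s)‖ + ‖W * (s - L)‖ + ‖θ‖ := by
          refine (norm_add_le _ _).trans ?_
          gcongr
          exact norm_add₃_le
      _ ≤ _ := by linarith

/-- The slope at the base point. -/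
theorem tau_bound {bl E0 sg V0 V1 : ℂ} {t : ℝ} (h1 : ‖2 * bl * E0 - (1 + V0)‖ ≤ t)
    (h3 : ‖V0 * V1 - 1 - 2 * E0 ^ 3 * sg‖ ≤ t) (hb : ‖bl‖ ≤ 3 / 2) (hE : ‖E0‖ ≤ 5 / 4)
    (hE1 : 7 / 10 ≤ ‖E0‖) (hs : 9 / 10 ≤ ‖sg‖) (hV : 9 / 10 ≤ ‖1 + V0‖) (ht : t ≤ 1 / 100) :
    ‖2 * bl ^ 2 * (V0 * V1 - 1) / (E0 * sg * (1 + V0) ^ 2) - 1‖ ≤ 20 * t := by
  have ht0 : 0 ≤ t := (norm_nonneg _).trans h1
  set N1 := (1 + V0) - 2 * bl * E0 with hN1
  set N2 := V0 * V1 - 1 - 2 * E0 ^ 3 * sg with hN2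
  have hN1n : ‖N1‖ ≤ t := by
    rw [hN1, ← norm_neg, neg_sub]
    exact h1
  have hE0 : E0 ≠ 0 := by
    intro h
    rw [h, norm_zero] at hE1
    linarith
  have hs0 : sg ≠ 0 := by
    intro h
    rw [h, norm_zero] at hs
    linarith
  have hV0 : 1 + V0 ≠ 0 := by
    intro h
    rw [h, norm_zero] at hV
    linarith
  have e1 : 2 * bl ^ 2 * (V0 * V1 - 1) / (E0 * sg * (1 + V0) ^ 2) - 1 =
      2 * bl ^ 2 * N2 / (E0 * sg * (1 + V0) ^ 2) -
        N1 * (4 * bl * E0 + N1) / (1 + V0) ^ 2 := by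
    have e2 : V0 * V1 - 1 = N2 + 2 * E0 ^ 3 * sg := by rw [hN2]; ring
    rw [e2]
    field_simp
    rw [hN1]
    ring
  rw [e1]
  refine (norm_sub_le _ _).trans ?_
  have hV2 : (9 / 10) ^ 2 ≤ ‖1 + V0‖ ^ 2 := pow_le_pow_left₀ (by norm_num) hV 2
  have a1 : ‖2 * bl ^ 2 * N2 / (E0 * sg * (1 + V0) ^ 2)‖ ≤ 9 * t := by
    rw [norm_div, norm_mul, norm_mul, norm_mul, norm_mul, norm_pow, norm_pow]
    have c1 : ‖(2 : ℂ)‖ = 2 := by norm_num
    rw [c1]
    have c2 : ‖bl‖ ^ 2 ≤ (3 / 2) ^ 2 := pow_le_pow_left₀ (norm_nonneg _) hb 2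
    have c3 : 7 / 10 * (9 / 10) * (9 / 10) ^ 2 ≤ ‖E0‖ * ‖sg‖ * ‖1 + V0‖ ^ 2 := by
      apply mul_le_mul _ hV2 (by norm_num) (by positivity)
      exact mul_le_mul hE1 hs (by norm_num) (norm_nonneg _)
    have c4 : 2 * ‖bl‖ ^ 2 * ‖N2‖ ≤ 2 * (3 / 2) ^ 2 * t := by
      apply mul_le_mul _ h3 (norm_nonneg _) (by norm_num)
      linarith
    rw [div_le_iff₀ (by positivity)]
    have c5 : 9 * t * (7 / 10 * (9 / 10) * (9 / 10) ^ 2) ≤ 9 * t * (‖E0‖ * ‖sg‖ * ‖1 + V0‖ ^ 2) :=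
      mul_le_mul_of_nonneg_left c3 (by linarith)
    norm_num at c4 c5 ⊢
    linarith
  have a2 : ‖N1 * (4 * bl * E0 + N1) / (1 + V0) ^ 2‖ ≤ 11 * t := by
    rw [norm_div, norm_mul, norm_pow]
    have c1 : ‖4 * bl * E0 + N1‖ ≤ 4 * (3 / 2) * (5 / 4) + 1 / 100 := by
      refine (norm_add_le _ _).trans ?_
      rw [norm_mul, norm_mul]
      have c2 : ‖(4 : ℂ)‖ = 4 := by norm_num
      rw [c2]
      have c3 : 4 * ‖bl‖ * ‖E0‖ ≤ 4 * (3 / 2) * (5 / 4) :=
        mul_le_mul (by linarith) hE (norm_nonneg _) (by norm_num)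
      linarith
    have c4 : ‖N1‖ * ‖4 * bl * E0 + N1‖ ≤ t * (4 * (3 / 2) * (5 / 4) + 1 / 100) :=
      mul_le_mul hN1n c1 (norm_nonneg _) ht0
    rw [div_le_iff₀ (by positivity)]
    nlinarith
  linarith

end Pool.Agent.S5.K
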