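import Pool.Agent.S5.K.FW

/-!
# Closed nodes: second order bounds of the tangent defect
-/

set_option autoImplicit false

namespace Pool.Agent.S5.K

open Pool.Agent.H63.VC3 Pool.Agent.S3 Complex Set Pool.Agent.S5.Tb Pool.Agent.S5.Num

/-- The bound of the cotangent. -/
theorem cot_bd {z : ℂ} {D M : ℝ} (h : D ≤ Real.sin (Real.pi * z.re) ^ 2 +
    Real.sinh (Real.pi * z.im) ^ 2) (hD : 0 < D) (hM : Real.pi ^ 2 * (1 + 1 / D) ≤ M ^ 2)
    (hM0 : 0 ≤ M) : ‖Real.pi * cot (Real.pi * z)‖ ≤ M := by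
  set a := Real.pi * z.re with ha
  set b := Real.pi * z.im with hb
  have e1 : (Real.pi : ℂ) * z = (a : ℂ) + b * I := by
    apply Complex.ext
    · simp [ha]
    · simp [hb]
  have hs1 : (sin ((a : ℂ) + b * I)).re = Real.sin a * Real.cosh b := by
    rw [sin_add_mul_I, ← ofReal_sin, ← ofReal_cosh, ← ofReal_cos, ← ofReal_sinh]
    simp only [add_re, mul_re, ofReal_re, ofReal_im, mul_zero, sub_zero, I_re, I_im, mul_one,
      mul_im, zero_mul, add_zero]
  have hs2 : (sin ((a : ℂ) + b * I)).im = Real.cos a * Real.sinh b := by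
    rw [sin_add_mul_I, ← ofReal_sin, ← ofReal_cosh, ← ofReal_cos, ← ofReal_sinh]
    simp only [add_im, mul_re, ofReal_re, ofReal_im, mul_zero, sub_zero, I_re, I_im, mul_one,
      mul_im, zero_mul, add_zero, zero_add]
  have hc1 : (cos ((a : ℂ) + b * I)).re = Real.cos a * Real.cosh b := by
    rw [cos_add_mul_I, ← ofReal_sin, ← ofReal_cosh, ← ofReal_cos, ← ofReal_sinh]
    simp only [sub_re, mul_re, ofReal_re, ofReal_im, mul_zero, sub_zero, I_re, I_im, mul_one,
      mul_im, zero_mul, add_zero]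
  have hc2 : (cos ((a : ℂ) + b * I)).im = -(Real.sin a * Real.sinh b) := by
    rw [cos_add_mul_I, ← ofReal_sin, ← ofReal_cosh, ← ofReal_cos, ← ofReal_sinh]
    simp only [sub_im, mul_re, ofReal_re, ofReal_im, mul_zero, sub_zero, I_re, I_im, mul_one,
      mul_im, zero_mul, add_zero, zero_sub]
  have h1 := Real.cosh_sq b
  have h2 := Real.sin_sq_add_cos_sq a
  have ns : normSq (sin ((a : ℂ) + b * I)) = Real.sin a ^ 2 + Real.sinh b ^ 2 := by
    rw [normSq_apply, hs1, hs2]
    linear_combination (Real.sin a ^ 2) * h1 + (Real.sinh b ^ 2) * h2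
  have nc : normSq (cos ((a : ℂ) + b * I)) = 1 - Real.sin a ^ 2 + Real.sinh b ^ 2 := by
    rw [normSq_apply, hc1, hc2]
    linear_combination (Real.cos a ^ 2) * h1 + (Real.sinh b ^ 2) * h2 + h2
  set E := Real.sin a ^ 2 + Real.sinh b ^ 2 with hE
  have hE0 : 0 < E := lt_of_lt_of_le hD h
  have key : ‖Real.pi * cot (Real.pi * z)‖ ^ 2 ≤ M ^ 2 := by
    rw [norm_mul, mul_pow, norm_real, Real.norm_of_nonneg Real.pi_pos.le, ← normSq_eq_norm_sq]
    refine le_trans ?_ hM
    apply mul_le_mul_of_nonneg_left _ (by positivity)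
    rw [e1, Complex.cot, normSq_div, ns, nc, div_le_iff₀ hE0]
    have h3 : (1 + 1 / D) * E = E + E / D := by
      field_simp
    have h4 : 1 ≤ E / D := by
      rw [le_div_iff₀ hD]
      linarith
    have h5 : 0 ≤ Real.sin a ^ 2 := sq_nonneg _
    rw [h3]
    linarith
  exact (abs_le_of_sq_le_sq' key hM0).2

/-- The hypothesis of the second order bounds. -/
def Seg (p q : ℂ) (M : ℝ) : Prop := ∀ t : ℝ, 0 ≤ t → t ≤ 1 →
  0 < (p + t * (q - p)).re ∧ (p + t * (q - p)).re < 1 ∧
    ‖Real.pi * cot (Real.pi * (p + t * (q - p)))‖ ≤ M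

theorem hasDerivAt_seg (p d : ℂ) (t : ℝ) : HasDerivAt (fun t : ℝ => p + t * d) d t := by
  have h := ((Complex.ofRealCLM.hasDerivAt (x := t)).mul_const d).const_add p
  simpa using h

theorem Seg.hh_le {p q : ℂ} {M : ℝ} (h : Seg p q M) {t : ℝ} (h0 : 0 ≤ t) (h1 : t ≤ 1) :
    ‖hh (p + t * (q - p)) - hh p‖ ≤ M * ‖q - p‖ * t := by
  have hd : ∀ x ∈ Icc (0 : ℝ) 1, HasDerivAt (fun t : ℝ => hh (p + t * (q - p)))
      (Real.pi * cot (Real.pi * (p + x * (q - p))) * (q - p)) x := by
    intro x hx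
    obtain ⟨k1, k2, k3⟩ := h x hx.1 hx.2
    have h2 := hh_hasDerivAt (p + x * (q - p)) k1 k2
    have h4 := HasDerivAt.comp x h2 (hasDerivAt_seg p (q - p) x)
    exact h4
  have key := norm_image_sub_le_of_norm_deriv_right_le_segment
    (f := fun t : ℝ => hh (p + t * (q - p)))
    (f' := fun x => Real.pi * cot (Real.pi * (p + x * (q - p))) * (q - p)) (C := M * ‖q - p‖)
    (a := 0) (b := 1)
    (fun x hx => (hd x hx).continuousAt.continuousWithinAt)
    (fun x hx => (hd x ⟨hx.1, hx.2.le⟩).hasDerivWithinAt)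
    (fun x hx => by
      rw [norm_mul]
      exact mul_le_mul_of_nonneg_right (h x hx.1 hx.2.le).2.2 (norm_nonneg _)) t ⟨h0, h1⟩
  simpa using key

theorem Seg.hh_le' {p q : ℂ} {M : ℝ} (h : Seg p q M) : ‖hh q - hh p‖ ≤ M * ‖q - p‖ := by
  have := h.hh_le (t := 1) (by norm_num) le_rfl
  simpa using this

theorem Seg.Td_le {p q : ℂ} {M : ℝ} (h : Seg p q M) : |Td p q| ≤ M / 2 * ‖q - p‖ ^ 2 := by
  set d := q - p with hd
  have hg : ∀ x ∈ Icc (0 : ℝ) 1, HasDerivAt (fun t : ℝ => Td p (p + t * d))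
      (-(hh (p + x * d) * d).re + (hh p * d).re) x := by
    intro x hx
    obtain ⟨k1, k2, k3⟩ := h x hx.1 hx.2
    rw [← hd] at k1 k2
    have h2 := ff_hasDerivAt (p + x * d) k1 k2
    have h4 := HasDerivAt.comp x h2 (hasDerivAt_seg p d x)
    have h5 := (Complex.reCLM.hasFDerivAt.comp_hasDerivAt x h4).neg
    have h6 : HasDerivAt (fun t : ℝ => (hh p * (p + t * d - p)).re) (hh p * d).re x := by
      have h7 := ((hasDerivAt_seg p d x).sub_const p).const_mul (hh p)
      have h8 := Complex.reCLM.hasFDerivAt.comp_hasDerivAt x h7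
      exact h8
    have h7 := (h5.const_add (Rf p)).add h6
    have e : (fun t : ℝ => Td p (p + t * d)) =ᶠ[nhds x] fun t : ℝ =>
        (Rf p + -(ff (p + t * d)).re) + (hh p * (p + t * d - p)).re := by
      have hc : ContinuousAt (fun t : ℝ => (p + t * d).re) x :=
        (Complex.continuous_re.continuousAt).comp (hasDerivAt_seg p d x).continuousAt
      filter_upwards [hc.eventually (lt_mem_nhds k1), hc.eventually (gt_mem_nhds k2)] with t t1 t2
      unfold Td
      rw [Rf_eq_ff (z := p + t * d) t1 t2]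
      ring
    refine (h7.congr_of_eventuallyEq e).congr_deriv ?_
    simp
  have key := image_norm_le_of_norm_deriv_right_le_deriv_boundary
    (f := fun t : ℝ => Td p (p + t * d)) (f' := fun x => -(hh (p + x * d) * d).re + (hh p * d).re)
    (a := 0) (b := 1) (B := fun t => M * ‖d‖ ^ 2 * t ^ 2 / 2) (B' := fun t => M * ‖d‖ ^ 2 * t)
    (fun x hx => (hg x hx).continuousAt.continuousWithinAt)
    (fun x hx => (hg x ⟨hx.1, hx.2.le⟩).hasDerivWithinAt)
    (by simp [Td_self]) (fun x => by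
      have := ((hasDerivAt_id x).pow 2).const_mul (M * ‖d‖ ^ 2 / 2)
      refine (this.congr_deriv ?_).congr_of_eventuallyEq ?_
      · simp
        ring
      · apply Filter.Eventually.of_forall
        intro t
        simp
        ring) (fun x hx => by
      have e : -(hh (p + x * d) * d).re + (hh p * d).re =
          -((hh (p + x * d) - hh p) * d).re := by
        rw [sub_mul, sub_re]
        ring
      rw [e, norm_neg, Real.norm_eq_abs]
      refine (abs_re_le_norm _).trans ?_
      rw [norm_mul]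
      have h9 := h.hh_le hx.1 hx.2.le
      rw [← hd] at h9
      refine (mul_le_mul_of_nonneg_right h9 (norm_nonneg _)).trans (le_of_eq ?_)
      ring) (x := 1) ⟨by norm_num, le_rfl⟩
  simp only [ofReal_one, one_mul, Real.norm_eq_abs] at key
  rw [show p + d = q by rw [hd]; ring] at key
  linarith

end Pool.Agent.S5.K
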