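import Pool.Agent.S5.K.LFa

/-!
# Closed nodes: the trees of the rows
-/

set_option autoImplicit false

namespace Pool.Agent.S5.K

open Pool.Agent.S5.Num

/-- A statement on a product of two rectangles. -/
def OnR (P : ℝ → ℝ → ℝ → ℝ → Prop) (X1 X2 S1 S2 Y1 Y2 T1 T2 : ℕ) : Prop :=
  ∀ X S Y T : ℝ, (X1 : ℝ) ≤ X → X ≤ X2 → (S1 : ℝ) ≤ S → S ≤ S2 → (Y1 : ℝ) ≤ Y → Y ≤ Y2 →
    (T1 : ℝ) ≤ T → T ≤ T2 → P X S Y T

theorem bb_ok {lf : Nat → Nat → Nat → Nat → Nat → Nat → Nat → Nat → Bool}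
    {P : ℝ → ℝ → ℝ → ℝ → Prop}
    (hlf : ∀ X1 X2 S1 S2 Y1 Y2 T1 T2 : ℕ, Rcs X1 X2 S1 S2 → Rcs Y1 Y2 T1 T2 →
      lf X1 X2 S1 S2 Y1 Y2 T1 T2 = true → OnR P X1 X2 S1 S2 Y1 Y2 T1 T2) (n : ℕ) :
    ∀ (X1 X2 S1 S2 Y1 Y2 T1 T2 c : ℕ) (k : ℕ → Bool), Rcs X1 X2 S1 S2 → Rcs Y1 Y2 T1 T2 →
      bb lf n X1 X2 S1 S2 Y1 Y2 T1 T2 c k = true →
        (∃ c', k c' = true) ∧ OnR P X1 X2 S1 S2 Y1 Y2 T1 T2 := by
  induction n with
  | zero =>
    intro X1 X2 S1 S2 Y1 Y2 T1 T2 c k _ _ h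
    exact absurd h (by simp [bb])
  | succ n ih =>
    intro X1 X2 S1 S2 Y1 Y2 T1 T2 c k hA hB h
    have h' : fN (fun d => fN (fun c' =>
        cN (Nat.beq d 0) (cN (lf X1 X2 S1 S2 Y1 Y2 T1 T2) (k c') false)
          (cN (Nat.beq d 1)
            (fN (fun m => bb lf n X1 m S1 S2 Y1 Y2 T1 T2 c' (fun c'' =>
              bb lf n m X2 S1 S2 Y1 Y2 T1 T2 c'' k)) (Nat.div (Nat.add X1 X2) 2))
            (cN (Nat.beq d 2)
              (fN (fun m => bb lf n X1 X2 S1 m Y1 Y2 T1 T2 c' (fun c'' =>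
                bb lf n X1 X2 m S2 Y1 Y2 T1 T2 c'' k)) (Nat.div (Nat.add S1 S2) 2))
              (cN (Nat.beq d 3)
                (fN (fun m => bb lf n X1 X2 S1 S2 Y1 m T1 T2 c' (fun c'' =>
                  bb lf n X1 X2 S1 S2 m Y2 T1 T2 c'' k)) (Nat.div (Nat.add Y1 Y2) 2))
                (fN (fun m => bb lf n X1 X2 S1 S2 Y1 Y2 T1 m c' (fun c'' =>
                  bb lf n X1 X2 S1 S2 Y1 Y2 m T2 c'' k)) (Nat.div (Nat.add T1 T2) 2))))))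
        (Nat.div c 8)) (Nat.mod c 8) = true := h
    clear h
    revert h'
    obtain ⟨a1, a2, a3, a4, a5⟩ := hA
    obtain ⟨b1, b2, b3, b4, b5⟩ := hB
    rw [fN_eq, fN_eq]
    refine cN_split (P := fun r => r = true → _) (fun _ => ?_) (fun _ => ?_)
    · refine cN_split (P := fun r => r = true → _) (fun hl hk => ?_) (fun _ hf => absurd hf (by simp))
      exact ⟨⟨_, hk⟩, hlf _ _ _ _ _ _ _ _ ⟨a1, a2, a3, a4, a5⟩ ⟨b1, b2, b3, b4, b5⟩ hl⟩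
    refine cN_split (P := fun r => r = true → _) (fun _ => ?_) (fun _ => ?_)
    · rw [fN_eq]
      intro h
      obtain ⟨⟨c1, h1⟩, r1⟩ := ih _ _ _ _ _ _ _ _ _ _ ⟨by simp only [add_eq', div_eq']; omega,
        by simp only [add_eq', div_eq']; omega, a3, a4, a5⟩ ⟨b1, b2, b3, b4, b5⟩ h
      obtain ⟨h2, r2⟩ := ih _ _ _ _ _ _ _ _ _ _ ⟨by simp only [add_eq', div_eq']; omega,
        a2, a3, a4, a5⟩ ⟨b1, b2, b3, b4, b5⟩ h1
      refine ⟨h2, fun X S Y T g1 g2 g3 g4 g5 g6 g7 g8 => ?_⟩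
      rcases le_total X ((Nat.div (Nat.add X1 X2) 2 : ℕ) : ℝ) with g | g
      · exact r1 X S Y T g1 g g3 g4 g5 g6 g7 g8
      · exact r2 X S Y T g g2 g3 g4 g5 g6 g7 g8
    refine cN_split (P := fun r => r = true → _) (fun _ => ?_) (fun _ => ?_)
    · rw [fN_eq]
      intro h
      obtain ⟨⟨c1, h1⟩, r1⟩ := ih _ _ _ _ _ _ _ _ _ _ ⟨a1, a2, by simp only [add_eq', div_eq']; omega,
        a4, by simp only [add_eq', div_eq']; omega⟩ ⟨b1, b2, b3, b4, b5⟩ h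
      obtain ⟨h2, r2⟩ := ih _ _ _ _ _ _ _ _ _ _ ⟨a1, a2, by simp only [add_eq', div_eq']; omega,
        by simp only [add_eq', div_eq']; omega, a5⟩ ⟨b1, b2, b3, b4, b5⟩ h1
      refine ⟨h2, fun X S Y T g1 g2 g3 g4 g5 g6 g7 g8 => ?_⟩
      rcases le_total S ((Nat.div (Nat.add S1 S2) 2 : ℕ) : ℝ) with g | g
      · exact r1 X S Y T g1 g2 g3 g g5 g6 g7 g8
      · exact r2 X S Y T g1 g2 g g4 g5 g6 g7 g8
    refine cN_split (P := fun r => r = true → _) (fun _ => ?_) (fun _ => ?_)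
    · rw [fN_eq]
      intro h
      obtain ⟨⟨c1, h1⟩, r1⟩ := ih _ _ _ _ _ _ _ _ _ _ ⟨a1, a2, a3, a4, a5⟩
        ⟨by simp only [add_eq', div_eq']; omega,
        by simp only [add_eq', div_eq']; omega, b3, b4, b5⟩ h
      obtain ⟨h2, r2⟩ := ih _ _ _ _ _ _ _ _ _ _ ⟨a1, a2, a3, a4, a5⟩
        ⟨by simp only [add_eq', div_eq']; omega, b2, b3, b4, b5⟩ h1
      refine ⟨h2, fun X S Y T g1 g2 g3 g4 g5 g6 g7 g8 => ?_⟩
      rcases le_total Y ((Nat.div (Nat.add Y1 Y2) 2 : ℕ) : ℝ) with g | g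
      · exact r1 X S Y T g1 g2 g3 g4 g5 g g7 g8
      · exact r2 X S Y T g1 g2 g3 g4 g g6 g7 g8
    · rw [fN_eq]
      intro h
      obtain ⟨⟨c1, h1⟩, r1⟩ := ih _ _ _ _ _ _ _ _ _ _ ⟨a1, a2, a3, a4, a5⟩
        ⟨b1, b2, by simp only [add_eq', div_eq']; omega, b4,
        by simp only [add_eq', div_eq']; omega⟩ h
      obtain ⟨h2, r2⟩ := ih _ _ _ _ _ _ _ _ _ _ ⟨a1, a2, a3, a4, a5⟩
        ⟨b1, b2, by simp only [add_eq', div_eq']; omega,
        by simp only [add_eq', div_eq']; omega, b5⟩ h1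
      refine ⟨h2, fun X S Y T g1 g2 g3 g4 g5 g6 g7 g8 => ?_⟩
      rcases le_total T ((Nat.div (Nat.add T1 T2) 2 : ℕ) : ℝ) with g | g
      · exact r1 X S Y T g1 g2 g3 g4 g5 g6 g7 g
      · exact r2 X S Y T g1 g2 g3 g4 g5 g6 g g8

/-! ### The pieces -/

/-- The names of the pieces. -/
def nm : ℕ → Pc
  | 0 => .F
  | 1 => .H
  | 2 => .G
  | 3 => .L
  | 4 => .R
  | 5 => .T
  | 6 => .t
  | 7 => .U
  | 8 => .u
  | 9 => .P
  | 10 => .p
  | 11 => .Q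
  | 12 => .q
  | 13 => .re .far
  | _ => .rz .far

/-- The piece `p = 2 m + side`. -/
def InS (p : ℕ) (η : ℝ) (y : ℂ) (w : ℝ) : Prop :=
  (nm (p / 2)).In (3 / 20) η y w ∧
    (5 ≤ p / 2 → p / 2 ≤ 12 → (p % 2 = 0 → 0 ≤ y.im) ∧ (p % 2 = 1 → y.im ≤ 0)) ∧
      (p / 2 = 14 → 3 / 8 ≤ y.re)

/-- The coordinates. -/
def InR' (X1 X2 S1 S2 : ℕ) (y : ℂ) : Prop :=
  (X1 : ℝ) ≤ 200 * y.re + 50 ∧ 200 * y.re + 50 ≤ X2 ∧ (S1 : ℝ) ≤ 3200 * y.im + 960 ∧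
    3200 * y.im + 960 ≤ S2

/-- What `RP` gives. -/
def PcO (p : ℕ) (η : ℝ) (m : ℕ) (fz : Bool) (X1 X2 S1 S2 : ℕ) : Prop :=
  m = p / 2 ∧ fz = (nm m).box ∧ Rcs X1 X2 S1 S2 ∧
    ∀ (y : ℂ) (w : ℝ), InS p η y w → InR' X1 X2 S1 S2 y ∧
      w / 2 = (if fz = true then Real.pi * |y.im| else 0)

theorem w_zero {w : ℝ} (h : w = 0) : w / 2 = (if false = true then Real.pi * |(0 : ℝ)| else 0) := by
  rw [h]
  simp

theorem RF_ok {f1 f2 m p : ℕ} {η : ℝ} {k : Bool → ℕ → ℕ → ℕ → ℕ → Bool}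
    (h : RF f1 f2 m k false = true) (hp : p / 2 = m) (h1 : 480 ≤ f1) (h2 : f2 ≤ 1440)
    (g1 : m ≤ 4 → (f1 : ℝ) ≤ 3200 * η + 960) (g2 : m ≤ 4 → 3200 * η + 960 ≤ f2) :
    ∃ (fz : Bool) (X1 X2 S1 S2 : ℕ), k fz X1 X2 S1 S2 = true ∧ PcO p η m fz X1 X2 S1 S2 := by
  revert h
  unfold RF
  simp only [mn'_eq, mx'_eq]
  have ui : ∀ {y : ℂ}, m ≤ 4 → y.im ∈ Set.uIcc 0 η → ((min 960 f1 : ℕ) : ℝ) ≤ 3200 * y.im + 960 ∧
      3200 * y.im + 960 ≤ ((max 960 f2 : ℕ) : ℝ) := by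
    intro y hm hy
    have k1 := g1 hm
    have k2 := g2 hm
    have m1 : ((min 960 f1 : ℕ) : ℝ) ≤ 960 := by exact_mod_cast min_le_left _ _
    have m2 : ((min 960 f1 : ℕ) : ℝ) ≤ f1 := by exact_mod_cast min_le_right _ _
    have m3 : (960 : ℝ) ≤ ((max 960 f2 : ℕ) : ℝ) := by exact_mod_cast le_max_left _ _
    have m4 : (f2 : ℝ) ≤ ((max 960 f2 : ℕ) : ℝ) := by exact_mod_cast le_max_right _ _
    rcases Set.mem_uIcc.1 hy with ⟨u1, u2⟩ | ⟨u1, u2⟩ <;> constructor <;> linarith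
  have r4 : m ≤ 4 → f1 ≤ f2 := by
    intro hm
    exact_mod_cast (g1 hm).trans (g2 hm)
  refine cN_split (P := fun r => r = true → _) (fun hm hk => ?_) (fun _ => ?_)
  · have hm : m = 0 := Nat.eq_of_beq_eq_true hm
    subst hm
    refine ⟨_, _, _, _, _, hk, hp.symm, rfl, ⟨by norm_num, by norm_num, r4 (by norm_num), h1, h2⟩, ?_⟩
    rintro y w ⟨hy, -, -⟩
    rw [hp] at hy
    obtain ⟨w0, y1, y2, y3⟩ := hy
    have k1 := g1 (by norm_num)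
    have k2 := g2 (by norm_num)
    exact ⟨⟨by push_cast; linarith, by push_cast; linarith, by rw [y1]; exact k1, by rw [y1]; exact k2⟩,
      by rw [w0]; simp⟩
  refine cN_split (P := fun r => r = true → _) (fun hm hk => ?_) (fun _ => ?_)
  · have hm : m = 1 := Nat.eq_of_beq_eq_true hm
    subst hm
    refine ⟨_, _, _, _, _, hk, hp.symm, rfl, ⟨by norm_num, by norm_num, r4 (by norm_num), h1, h2⟩, ?_⟩
    rintro y w ⟨hy, -, -⟩
    rw [hp] at hy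
    obtain ⟨w0, y1, y2, y3⟩ := hy
    have k1 := g1 (by norm_num)
    have k2 := g2 (by norm_num)
    exact ⟨⟨by push_cast; linarith, by push_cast; linarith, by rw [y1]; exact k1, by rw [y1]; exact k2⟩,
      by rw [w0]; simp⟩
  refine cN_split (P := fun r => r = true → _) (fun hm hk => ?_) (fun _ => ?_)
  · have hm : m = 2 := Nat.eq_of_beq_eq_true hm
    subst hm
    refine ⟨_, _, _, _, _, hk, hp.symm, rfl, ⟨by norm_num, by norm_num, r4 (by norm_num), h1, h2⟩, ?_⟩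
    rintro y w ⟨hy, -, -⟩
    rw [hp] at hy
    obtain ⟨w0, y1, y2, y3⟩ := hy
    have k1 := g1 (by norm_num)
    have k2 := g2 (by norm_num)
    exact ⟨⟨by push_cast; linarith, by push_cast; linarith, by rw [y1]; exact k1, by rw [y1]; exact k2⟩,
      by rw [w0]; simp⟩
  refine cN_split (P := fun r => r = true → _) (fun hm hk => ?_) (fun _ => ?_)
  · have hm : m = 3 := Nat.eq_of_beq_eq_true hm
    subst hm
    have := r4 (by norm_num)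
    refine ⟨_, _, _, _, _, hk, hp.symm, rfl, ⟨by norm_num, by norm_num, by omega, by omega, by omega⟩, ?_⟩
    rintro y w ⟨hy, -, -⟩
    rw [hp] at hy
    obtain ⟨w0, y1, y2⟩ := hy
    obtain ⟨k1, k2⟩ := ui (by norm_num) y2
    exact ⟨⟨by push_cast; linarith, by push_cast; linarith, k1, k2⟩, by rw [w0]; simp⟩
  refine cN_split (P := fun r => r = true → _) (fun hm hk => ?_) (fun _ => ?_)
  · have hm : m = 4 := Nat.eq_of_beq_eq_true hm
    subst hm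
    have := r4 (by norm_num)
    refine ⟨_, _, _, _, _, hk, hp.symm, rfl, ⟨by norm_num, by norm_num, by omega, by omega, by omega⟩, ?_⟩
    rintro y w ⟨hy, -, -⟩
    rw [hp] at hy
    obtain ⟨w0, y1, y2⟩ := hy
    obtain ⟨k1, k2⟩ := ui (by norm_num) y2
    exact ⟨⟨by push_cast; linarith, by push_cast; linarith, k1, k2⟩, by rw [w0]; simp⟩
  refine cN_split (P := fun r => r = true → _) (fun hm hk => ?_) (fun _ => ?_)
  · have hm : m = 13 := Nat.eq_of_beq_eq_true hm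
    subst hm
    refine ⟨_, _, _, _, _, hk, hp.symm, rfl, ⟨by norm_num, by norm_num, by norm_num, by norm_num,
      by norm_num⟩, ?_⟩
    rintro y w ⟨hy, -, -⟩
    rw [hp] at hy
    obtain ⟨w0, y1, y2, y3⟩ := hy
    exact ⟨⟨by push_cast; linarith, by push_cast; linarith, by rw [y1]; norm_num,
      by rw [y1]; norm_num⟩, by rw [w0]; simp⟩
  refine cN_split (P := fun r => r = true → _) (fun hm hk => ?_) (fun _ hk => absurd hk (by simp))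
  · have hm : m = 14 := Nat.eq_of_beq_eq_true hm
    subst hm
    refine ⟨_, _, _, _, _, hk, hp.symm, rfl, ⟨by norm_num, by norm_num, by norm_num, by norm_num,
      by norm_num⟩, ?_⟩
    rintro y w ⟨hy, -, hz⟩
    have hz := hz hp
    rw [hp] at hy
    obtain ⟨w0, y1, y2, y3⟩ := hy
    exact ⟨⟨by push_cast; linarith, by push_cast; linarith, by rw [y1]; norm_num,
      by rw [y1]; norm_num⟩, by rw [w0]; simp⟩

end Pool.Agent.S5.K
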