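import Pool.Agent.S5.K.BBa

/-!
# Closed nodes: the pieces of the rectangle
-/

set_option autoImplicit false

namespace Pool.Agent.S5.K

open Pool.Agent.S5.Num

/-- The pieces of the rectangle; `t` is `1440` or `480`. -/
theorem RB_ok {m t a b p : ℕ} {η : ℝ} {k : Bool → ℕ → ℕ → ℕ → ℕ → Bool}
    (h : RB m t a b k false = true) (hp : p / 2 = m)
    (hs : (p % 2 = 0 ∧ t = 1440 ∧ a = 960 ∧ b = 1440) ∨ (p % 2 = 1 ∧ t = 480 ∧ a = 480 ∧ b = 960)) :
    ∃ (fz : Bool) (X1 X2 S1 S2 : ℕ), k fz X1 X2 S1 S2 = true ∧ PcO p η m fz X1 X2 S1 S2 := by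
  revert h
  unfold RB
  have ht : 480 ≤ t ∧ t ≤ 1440 := by omega
  have hab : 480 ≤ a ∧ a ≤ b ∧ b ≤ 1440 := by omega
  -- the horizontal sides
  have hz : ∀ y : ℂ, |y.im| = 3 / 20 → ((p % 2 = 0 → 0 ≤ y.im) ∧ (p % 2 = 1 → y.im ≤ 0)) →
      3200 * y.im + 960 = t := by
    intro y h1 h2
    rcases hs with ⟨e, et, -, -⟩ | ⟨e, et, -, -⟩
    · rw [abs_of_nonneg (h2.1 e)] at h1
      rw [h1, et]
      norm_num
    · rw [abs_of_nonpos (h2.2 e)] at h1
      have : y.im = -(3 / 20) := by linarith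
      rw [this, et]
      norm_num
  -- the vertical sides
  have hv : ∀ y : ℂ, |y.im| ≤ 3 / 20 → ((p % 2 = 0 → 0 ≤ y.im) ∧ (p % 2 = 1 → y.im ≤ 0)) →
      (a : ℝ) ≤ 3200 * y.im + 960 ∧ 3200 * y.im + 960 ≤ b := by
    intro y h1 h2
    obtain ⟨h3, h4⟩ := abs_le.1 h1
    rcases hs with ⟨e, -, ea, eb⟩ | ⟨e, -, ea, eb⟩
    · have := h2.1 e
      rw [ea, eb]
      push_cast
      constructor <;> linarith
    · have := h2.2 e
      rw [ea, eb]
      push_cast
      constructor <;> linarith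
  refine cN_split (P := fun r => r = true → _) (fun _ hk => absurd hk (by simp)) (fun g1 => ?_)
  refine cN_split (P := fun r => r = true → _) (fun _ hk => absurd hk (by simp)) (fun g2 => ?_)
  have g1 := ble_f g1
  have g2 := ble_f g2
  refine cN_split (P := fun r => r = true → _) (fun g3 hk => ?_) (fun g3 => ?_)
  · have g3 := ble_t g3
    obtain rfl | rfl : m = 5 ∨ m = 6 := by omega
    · refine ⟨_, _, _, _, _, hk, hp.symm, rfl, ⟨by norm_num, by norm_num, le_rfl, ht.1, ht.2⟩, ?_⟩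
      rintro y w ⟨hy, hsd, -⟩
      rw [hp] at hy hsd
      obtain ⟨w0, y1, y2, y3, y4⟩ := hy
      have e := hz y y1 (hsd (by norm_num) (by norm_num))
      exact ⟨⟨by push_cast; linarith, by push_cast; linarith, e.ge, e.le⟩, by
        rw [w0, if_pos rfl, y1]
        ring⟩
    · refine ⟨_, _, _, _, _, hk, hp.symm, rfl, ⟨by norm_num, by norm_num, le_rfl, ht.1, ht.2⟩, ?_⟩
      rintro y w ⟨hy, hsd, -⟩
      rw [hp] at hy hsd
      obtain ⟨w0, y1, y2, y3, y4⟩ := hy
      have e := hz y y1 (hsd (by norm_num) (by norm_num))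
      exact ⟨⟨by push_cast; linarith, by push_cast; linarith, e.ge, e.le⟩, by
        rw [w0, if_pos rfl, y1]
        ring⟩
  have g3 := ble_f g3
  refine cN_split (P := fun r => r = true → _) (fun g4 hk => ?_) (fun g4 => ?_)
  · have g4 := ble_t g4
    obtain rfl | rfl : m = 7 ∨ m = 8 := by omega
    · refine ⟨_, _, _, _, _, hk, hp.symm, rfl, ⟨by norm_num, by norm_num, le_rfl, ht.1, ht.2⟩, ?_⟩
      rintro y w ⟨hy, hsd, -⟩
      rw [hp] at hy hsd
      obtain ⟨w0, y1, y2, y3, y4⟩ := hy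
      have e := hz y y1 (hsd (by norm_num) (by norm_num))
      exact ⟨⟨by push_cast; linarith, by push_cast; linarith, e.ge, e.le⟩, by
        rw [w0, if_pos rfl, y1]
        ring⟩
    · refine ⟨_, _, _, _, _, hk, hp.symm, rfl, ⟨by norm_num, by norm_num, le_rfl, ht.1, ht.2⟩, ?_⟩
      rintro y w ⟨hy, hsd, -⟩
      rw [hp] at hy hsd
      obtain ⟨w0, y1, y2, y3, y4⟩ := hy
      have e := hz y y1 (hsd (by norm_num) (by norm_num))
      exact ⟨⟨by push_cast; linarith, by push_cast; linarith, e.ge, e.le⟩, by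
        rw [w0, if_pos rfl, y1]
        ring⟩
  have g4 := ble_f g4
  refine cN_split (P := fun r => r = true → _) (fun g5 hk => ?_) (fun g5 hk => ?_)
  · have g5 := ble_t g5
    obtain rfl | rfl : m = 9 ∨ m = 10 := by omega
    · refine ⟨_, _, _, _, _, hk, hp.symm, rfl, ⟨by norm_num, by norm_num, hab.2.1, hab.1, hab.2.2⟩, ?_⟩
      rintro y w ⟨hy, hsd, -⟩
      rw [hp] at hy hsd
      obtain ⟨w0, y1, y2, y3⟩ := hy
      obtain ⟨e1, e2⟩ := hv y y2 (hsd (by norm_num) (by norm_num))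
      exact ⟨⟨by push_cast; linarith, by push_cast; linarith, e1, e2⟩, by
        rw [w0, if_pos rfl]
        ring⟩
    · refine ⟨_, _, _, _, _, hk, hp.symm, rfl, ⟨by norm_num, by norm_num, hab.2.1, hab.1, hab.2.2⟩, ?_⟩
      rintro y w ⟨hy, hsd, -⟩
      rw [hp] at hy hsd
      obtain ⟨w0, y1, y2, y3⟩ := hy
      obtain ⟨e1, e2⟩ := hv y y2 (hsd (by norm_num) (by norm_num))
      exact ⟨⟨by push_cast; linarith, by push_cast; linarith, e1, e2⟩, by
        rw [w0, if_pos rfl]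
        ring⟩
  · have g5 := ble_f g5
    obtain rfl | rfl : m = 11 ∨ m = 12 := by omega
    · refine ⟨_, _, _, _, _, hk, hp.symm, rfl, ⟨by norm_num, by norm_num, hab.2.1, hab.1, hab.2.2⟩, ?_⟩
      rintro y w ⟨hy, hsd, -⟩
      rw [hp] at hy hsd
      obtain ⟨w0, y1, y2, y3⟩ := hy
      obtain ⟨e1, e2⟩ := hv y y2 (hsd (by norm_num) (by norm_num))
      exact ⟨⟨by push_cast; linarith, by push_cast; linarith, e1, e2⟩, by
        rw [w0, if_pos rfl]
        ring⟩
    · refine ⟨_, _, _, _, _, hk, hp.symm, rfl, ⟨by norm_num, by norm_num, hab.2.1, hab.1, hab.2.2⟩, ?_⟩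
      rintro y w ⟨hy, hsd, -⟩
      rw [hp] at hy hsd
      obtain ⟨w0, y1, y2, y3⟩ := hy
      obtain ⟨e1, e2⟩ := hv y y2 (hsd (by norm_num) (by norm_num))
      exact ⟨⟨by push_cast; linarith, by push_cast; linarith, e1, e2⟩, by
        rw [w0, if_pos rfl]
        ring⟩

/-- `η` is in the range of the cell. -/
structure EtO (e1 e2 : ℕ) (η : ℝ) : Prop where
  a : (e1 : ℝ) ≤ η * 3200 + 800
  b : η * 3200 + 800 ≤ e2
  c : |η| ≤ 3 / 20

theorem RP_ok {e1 e2 p : ℕ} {η : ℝ} {k : ℕ → Bool → ℕ → ℕ → ℕ → ℕ → Bool} (he : EtO e1 e2 η)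
    (h : RP e1 e2 p k false = true) :
    ∃ (m : ℕ) (fz : Bool) (X1 X2 S1 S2 : ℕ), k m fz X1 X2 S1 S2 = true ∧
      PcO p η m fz X1 X2 S1 S2 := by
  obtain ⟨ha, hb, hc⟩ := he
  obtain ⟨c1, c2⟩ := abs_le.1 hc
  revert h
  unfold RP
  rw [fN_eq]
  simp only [mn'_eq, mx'_eq, add_eq', div_eq']
  refine cN_split (P := fun r => r = true → _) (fun g1 hk => ?_) (fun g1 => ?_)
  · have g1 := ble_t g1
    -- `RF 0 0`
    revert hk
    unfold RF
    refine cN_split (P := fun r => r = true → _) (fun hm => absurd (Nat.eq_of_beq_eq_true hm)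
      (by omega)) (fun _ => ?_)
    refine cN_split (P := fun r => r = true → _) (fun hm => absurd (Nat.eq_of_beq_eq_true hm)
      (by omega)) (fun _ => ?_)
    refine cN_split (P := fun r => r = true → _) (fun hm => absurd (Nat.eq_of_beq_eq_true hm)
      (by omega)) (fun _ => ?_)
    refine cN_split (P := fun r => r = true → _) (fun hm => absurd (Nat.eq_of_beq_eq_true hm)
      (by omega)) (fun _ => ?_)
    refine cN_split (P := fun r => r = true → _) (fun hm => absurd (Nat.eq_of_beq_eq_true hm)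
      (by omega)) (fun _ => ?_)
    refine cN_split (P := fun r => r = true → _) (fun hm hk => ?_) (fun _ => ?_)
    · have hm : p / 2 = 13 := Nat.eq_of_beq_eq_true hm
      rw [hm] at hk
      refine ⟨_, _, _, _, _, _, hk, hm.symm, rfl, ⟨by norm_num, by norm_num, by norm_num,
        by norm_num, by norm_num⟩, ?_⟩
      rintro y w ⟨hy, -, -⟩
      rw [hm] at hy
      obtain ⟨w0, y1, y2, y3⟩ := hy
      exact ⟨⟨by push_cast; linarith, by push_cast; linarith, by rw [y1]; norm_num,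
        by rw [y1]; norm_num⟩, by rw [w0]; simp⟩
    refine cN_split (P := fun r => r = true → _) (fun hm hk => ?_)
      (fun _ hk => absurd hk (by simp))
    · have hm : p / 2 = 14 := Nat.eq_of_beq_eq_true hm
      rw [hm] at hk
      refine ⟨_, _, _, _, _, _, hk, hm.symm, rfl, ⟨by norm_num, by norm_num, by norm_num,
        by norm_num, by norm_num⟩, ?_⟩
      rintro y w ⟨hy, -, hz⟩
      have hz := hz hm
      rw [hm] at hy
      obtain ⟨w0, y1, y2, y3⟩ := hy
      exact ⟨⟨by push_cast; linarith, by push_cast; linarith, by rw [y1]; norm_num,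
        by rw [y1]; norm_num⟩, by rw [w0]; simp⟩
  refine cN_split (P := fun r => r = true → _) (fun g2 hk => ?_) (fun g2 => ?_)
  · have h1 : (480 : ℝ) ≤ 3200 * η + 960 := by linarith
    have h2 : 3200 * η + 960 ≤ 1440 := by linarith
    obtain ⟨fz, X1, X2, S1, S2, k1, k2⟩ := RF_ok (p := p) (η := η) hk rfl (le_max_left _ _)
      (min_le_left _ _) (fun _ => by
        push_cast
        apply max_le h1
        linarith) (fun _ => by
        push_cast
        apply le_min h2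
        linarith)
    exact ⟨_, _, _, _, _, _, k1, k2⟩
  refine cN_split (P := fun r => r = true → _) (fun g3 hk => ?_) (fun g3 hk => ?_)
  · have g3 : p % 2 = 0 := Nat.eq_of_beq_eq_true g3
    obtain ⟨fz, X1, X2, S1, S2, k1, k2⟩ := RB_ok (p := p) (η := η) hk rfl
      (Or.inl ⟨g3, rfl, rfl, rfl⟩)
    exact ⟨_, _, _, _, _, _, k1, k2⟩
  · have g3 : p % 2 ≠ 0 := Nat.ne_of_beq_eq_false g3
    obtain ⟨fz, X1, X2, S1, S2, k1, k2⟩ := RB_ok (p := p) (η := η) hk rfl
      (Or.inr ⟨by omega, rfl, rfl, rfl⟩)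
    exact ⟨_, _, _, _, _, _, k1, k2⟩

end Pool.Agent.S5.K
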