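import Pool.Agent.S5.K.Vst

/-!
# The base point of a closed node: program
-/

set_option autoImplicit false

namespace Pool.Agent.S5.K

open Complex

/-- The data of a base point, in units of `2 ^ (-24)`: `E0`, `bl`, `br`, `om = bl / (bl + br)`,
`g = (E0 ^ 2 + 1) / (E0 ^ 2 - 1)`, `W = 2 bl E0 / V0`, `Z = 2 br E0 / V1`. -/
structure BD where
  ex : ℤ
  ey : ℤ
  lx : ℤ
  ly : ℤ
  rx : ℤ
  ry : ℤ
  ox : ℤ
  oy : ℤ
  gx : ℤ
  gy : ℤ
  wx : ℤ
  wy : ℤ
  zx : ℤ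
  zy : ℤ

/-- Approximation of a quotient. -/
def cdv (ax ay bx b2 : ℤ) (K : ℤ → ℤ → Bool) : Bool :=
  bd (bx * bx + b2 * b2) (fun n =>
  bd ((ax * bx + ay * b2) * 16777216 / n) (fun x =>
  bd ((ay * bx - ax * b2) * 16777216 / n) (fun y => K x y)))

theorem cdv_ok {ax ay bx b2 : ℤ} {K : ℤ → ℤ → Bool} (h : cdv ax ay bx b2 K = true) :
    ∃ x y, K x y = true := by
  unfold cdv at h
  obtain ⟨_, _, h⟩ := bd_ok h
  obtain ⟨x, _, h⟩ := bd_ok h
  obtain ⟨y, _, h⟩ := bd_ok h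
  exact ⟨x, y, h⟩

/-- Approximation of `E0`, `E0 ^ 2 = (V0 V1 - 1) / (2 + V0 + V1)`. -/
def e0a (vx vy wx wy : ℤ) (K : ℤ → ℤ → Bool) : Bool :=
  cdv (vx * wx - vy * wy - 281474976710656) (vx * wy + vy * wx) (16777216 * (33554432 + vx + wx))
    (16777216 * (vy + wy)) (fun zx zy =>
  bd (Int.ofNat (rt (Int.toNat (zx * zx + zy * zy)))) (fun r =>
  bd (Int.ofNat (rt (Int.toNat ((r - zx) * 8388608)))) (fun s =>
  bd (-(zy * 8388608 / s)) (fun ex => K ex (-s)))))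

theorem e0a_ok {vx vy wx wy : ℤ} {K : ℤ → ℤ → Bool} (h : e0a vx vy wx wy K = true) :
    ∃ x y, K x y = true := by
  unfold e0a at h
  obtain ⟨zx, zy, h⟩ := cdv_ok h
  obtain ⟨r, _, h⟩ := bd_ok h
  obtain ⟨s, _, h⟩ := bd_ok h
  obtain ⟨ex, _, h⟩ := bd_ok h
  exact ⟨ex, -s, h⟩

/-- Both parts are at most `T`. -/
def rs (x y T : ℤ) : Bool := cond (leI (abI x) T) (leI (abI y) T) false

theorem rs_ok {x y T : ℤ} (h : rs x y T = true) : |(x : ℝ)| ≤ T ∧ |(y : ℝ)| ≤ T := by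
  obtain ⟨h1, h2⟩ := cond_ok h
  have g1 := leI_ok h1
  have g2 := leI_ok h2
  rw [abI_eq] at g1 g2
  exact ⟨by exact_mod_cast g1, by exact_mod_cast g2⟩

/-- The checks of one side. -/
def chA (ex ey lx ly vx vy wx wy : ℤ) : Bool :=
  bd (2 * (lx * ex - ly * ey)) (fun cx => bd (2 * (lx * ey + ly * ex)) (fun cy =>
  cond (rs (cx - 16777216 * (16777216 + vx)) (cy - 16777216 * vy) 268435456)
  (cond (rs (wx * vx - wy * vy - cx) (wx * vy + wy * vx - cy) 268435456)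
  (cond (leI 70368744177664 (lx * lx + ly * ly))
  (cond (leI (lx * lx + ly * ly) 633318697598976)
  (cond (leI 73183493944770 (vx * vx + vy * vy))
  (cond (leI 230809480902738 ((16777216 + vx) * (16777216 + vx) + vy * vy))
  (cond (leI (vx * vx + vy * vy) 2533274790395904)
  (leI (wx * wx + wy * wy) 4503599627370496) false) false) false) false) false) false) false))

/-- The checks of the pair. -/
def chB (ex ey lx ly rx ry ox oy gx gy vx vy wx wy : ℤ) : Bool :=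
  bd (ex * ex - ey * ey) (fun qx => bd (2 * (ex * ey)) (fun qy =>
  bd (lx + rx) (fun sx => bd (ly + ry) (fun sy =>
  bd (ex * sx - ey * sy) (fun px => bd (ex * sy + ey * sx) (fun py =>
  bd (lx * rx - ly * ry) (fun bx => bd (lx * ry + ly * rx) (fun b2 =>
  cond (rs (281474976710656 * (vx * wx - vy * wy) - 79228162514264337593543950336 -
      2 * (qx * px - qy * py)) (281474976710656 * (vx * wy + vy * wx) - 2 * (qx * py + qy * px))
      75557863725914323419136)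
  (cond (rs (ox * sx - oy * sy - 16777216 * lx) (ox * sy + oy * sx - 16777216 * ly) 268435456)
  (cond (rs (gx * (qx - 281474976710656) - gy * qy - 16777216 * (qx + 281474976710656))
      (gx * qy + gy * (qx - 281474976710656) - 16777216 * qy) 4503599627370496)
  (cond (rs (2 * (bx * ex - b2 * ey) - ((qx + 281474976710656) * sx - qy * sy))
      (2 * (bx * ey + b2 * ex) - ((qx + 281474976710656) * sy + qy * sx)) 4503599627370496)
  (cond (leI 137922738588222 (ex * ex + ey * ey))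
  (cond (leI (ex * ex + ey * ey) 439804651110400)
  (cond (leI 227994731135632 (sx * sx + sy * sy))
  (cond (leI 79228162514264337593543950336 ((qx - 281474976710656) * (qx - 281474976710656) + qy * qy))
  (ltI ey 0) false) false) false) false) false) false) false) false))))))))

/-- The base point. -/
def bas (ia ja ib jb : ℕ) (K : BD → Bool) : Bool :=
  vst ia ja (fun vx vy => vst ib jb (fun wx wy =>
  e0a vx vy wx wy (fun ex ey =>
  cdv (16777216 + vx) vy (2 * ex) (2 * ey) (fun lx ly =>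
  cdv (16777216 + wx) wy (2 * ex) (2 * ey) (fun rx ry =>
  bd (lx + rx) (fun sx => bd (ly + ry) (fun sy =>
  cdv lx ly sx sy (fun ox oy =>
  bd (ex * ex - ey * ey) (fun qx => bd (2 * (ex * ey)) (fun qy =>
  cdv (qx + 281474976710656) qy (qx - 281474976710656) qy (fun gx gy =>
  cdv (16777216 + vx) vy vx vy (fun ux uy =>
  cdv (16777216 + wx) wy wx wy (fun zx zy =>
  cond (chA ex ey lx ly vx vy ux uy)
  (cond (chA ex ey rx ry wx wy zx zy)
  (cond (chB ex ey lx ly rx ry ox oy gx gy vx vy wx wy)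
  (K ⟨ex, ey, lx, ly, rx, ry, ox, oy, gx, gy, ux, uy, zx, zy⟩) false) false) false)))))))))))))

/-- The data are right. -/
structure BOK (V0 V1 : ℂ) (B : BD) : Prop where
  c1 : ‖2 * tc B.lx B.ly * tc B.ex B.ey - (1 + V0)‖ ≤ 1 / 262144
  c2 : ‖2 * tc B.rx B.ry * tc B.ex B.ey - (1 + V1)‖ ≤ 1 / 262144
  c3 : ‖tc B.wx B.wy * V0 - 2 * tc B.lx B.ly * tc B.ex B.ey‖ ≤ 1 / 262144
  c4 : ‖tc B.zx B.zy * V1 - 2 * tc B.rx B.ry * tc B.ex B.ey‖ ≤ 1 / 262144
  c5 : ‖V0 * V1 - 1 - 2 * tc B.ex B.ey ^ 3 * (tc B.lx B.ly + tc B.rx B.ry)‖ ≤ 1 / 262144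
  c6 : ‖tc B.ox B.oy * (tc B.lx B.ly + tc B.rx B.ry) - tc B.lx B.ly‖ ≤ 1 / 524288
  c7 : ‖tc B.gx B.gy * (tc B.ex B.ey ^ 2 - 1) - (tc B.ex B.ey ^ 2 + 1)‖ ≤ 1 / 524288
  c8 : ‖2 * tc B.lx B.ly * tc B.rx B.ry * tc B.ex B.ey -
    (tc B.ex B.ey ^ 2 + 1) * (tc B.lx B.ly + tc B.rx B.ry)‖ ≤ 1 / 524288
  l0 : 1 / 2 ≤ ‖tc B.lx B.ly‖
  l1 : ‖tc B.lx B.ly‖ ≤ 3 / 2
  r0 : 1 / 2 ≤ ‖tc B.rx B.ry‖
  r1 : ‖tc B.rx B.ry‖ ≤ 3 / 2
  e0 : 7 / 10 ≤ ‖tc B.ex B.ey‖
  e1 : ‖tc B.ex B.ey‖ ≤ 5 / 4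
  s0 : 9 / 10 ≤ ‖tc B.lx B.ly + tc B.rx B.ry‖
  q0 : 1 ≤ ‖tc B.ex B.ey ^ 2 - 1‖
  v0 : 1 / 2 ≤ ‖V0‖
  v1 : 1 / 2 ≤ ‖V1‖
  u0 : 9 / 10 ≤ ‖1 + V0‖
  u1 : 9 / 10 ≤ ‖1 + V1‖
  ey : B.ey < 0

/-! ### Soundness -/

theorem norm_parts {z : ℂ} {a : ℝ} (h1 : |z.re| ≤ a) (h2 : |z.im| ≤ a) : ‖z‖ ≤ 3 / 2 * a := by
  have h0 : 0 ≤ a := (abs_nonneg _).trans h1
  apply le_of_sq_le_sq _ (by positivity)
  rw [Complex.sq_norm, normSq_apply]
  have g1 := sq_le_sq' (by linarith [(abs_le.1 h1).1]) (abs_le.1 h1).2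
  have g2 := sq_le_sq' (by linarith [(abs_le.1 h2).1]) (abs_le.1 h2).2
  nlinarith

theorem abs_div_le {x T a : ℝ} {U : ℝ} (hU : 0 < U) (h : |x| ≤ T) (hT : T ≤ a * U) : |x / U| ≤ a := by
  rw [abs_div, abs_of_pos hU, div_le_iff₀ hU]
  linarith

theorem tc_normSq (x y : ℤ) : ‖tc x y‖ ^ 2 = ((x * x + y * y : ℤ) : ℝ) / 281474976710656 := by
  rw [Complex.sq_norm, normSq_apply, tc_re, tc_im]
  push_cast
  ring

theorem tc_norm_ge {x y : ℤ} {a : ℝ} {n : ℤ} (h : n ≤ x * x + y * y) (ha : a ^ 2 * 281474976710656 ≤ n) :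
    a ≤ ‖tc x y‖ := by
  apply le_of_sq_le_sq _ (norm_nonneg _)
  rw [tc_normSq, le_div_iff₀ (by norm_num)]
  exact ha.trans (by exact_mod_cast h)

theorem tc_norm_le {x y : ℤ} {a : ℝ} {n : ℤ} (h : x * x + y * y ≤ n) (ha : (n : ℝ) ≤ a ^ 2 * 281474976710656)
    (ha0 : 0 ≤ a) : ‖tc x y‖ ≤ a := by
  apply le_of_sq_le_sq _ ha0
  rw [tc_normSq, div_le_iff₀ (by norm_num)]
  exact le_trans (by exact_mod_cast h) ha

theorem chA_ok {ex ey lx ly vx vy wx wy : ℤ} (h : chA ex ey lx ly vx vy wx wy = true) {V0 : ℂ}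
    (hV : ‖V0 - tc vx vy‖ ≤ 1 / 4194304) :
    ‖2 * tc lx ly * tc ex ey - (1 + V0)‖ ≤ 1 / 262144 ∧
    ‖tc wx wy * V0 - 2 * tc lx ly * tc ex ey‖ ≤ 1 / 262144 ∧
    1 / 2 ≤ ‖tc lx ly‖ ∧ ‖tc lx ly‖ ≤ 3 / 2 ∧ 1 / 2 ≤ ‖V0‖ ∧ 9 / 10 ≤ ‖1 + V0‖ ∧
    ‖tc vx vy‖ ≤ 3 := by
  unfold chA at h
  obtain ⟨cx, hcx, h⟩ := bd_ok h
  obtain ⟨cy, hcy, h⟩ := bd_ok h
  obtain ⟨h1, h⟩ := cond_ok h
  obtain ⟨h2, h⟩ := cond_ok h
  obtain ⟨h3, h⟩ := cond_ok h
  obtain ⟨h4, h⟩ := cond_ok h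
  obtain ⟨h5, h⟩ := cond_ok h
  obtain ⟨h6, h⟩ := cond_ok h
  obtain ⟨h8, h7⟩ := cond_ok h
  obtain ⟨a1, a2⟩ := rs_ok h1
  obtain ⟨a3, a4⟩ := rs_ok h2
  have k8 := leI_ok h8
  have k3 := leI_ok h3
  have k4 := leI_ok h4
  have k5 := leI_ok h5
  have k6 := leI_ok h6
  have k7 := leI_ok h7
  rw [hcx] at a1 a3
  rw [hcy] at a2 a4
  push_cast at a1 a2 a3 a4
  have d1 : ‖2 * tc lx ly * tc ex ey - (1 + tc vx vy)‖ ≤ 3 / 2 * (1 / 1048576) := by
    apply norm_parts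
    · have e : (2 * tc lx ly * tc ex ey - (1 + tc vx vy)).re =
          (2 * ((lx : ℝ) * ex - ly * ey) - 16777216 * (16777216 + vx)) / 281474976710656 := by
        simp only [sub_re, add_re, mul_re, mul_im, re_ofNat, im_ofNat, tc_re, tc_im, one_re]
        ring
      rw [e]
      exact abs_div_le (by norm_num) a1 (by norm_num)
    · have e : (2 * tc lx ly * tc ex ey - (1 + tc vx vy)).im =
          (2 * ((lx : ℝ) * ey + ly * ex) - 16777216 * vy) / 281474976710656 := by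
        simp only [sub_im, add_im, mul_re, mul_im, re_ofNat, im_ofNat, tc_re, tc_im, one_im]
        ring
      rw [e]
      exact abs_div_le (by norm_num) a2 (by norm_num)
  have d2 : ‖tc wx wy * tc vx vy - 2 * tc lx ly * tc ex ey‖ ≤ 3 / 2 * (1 / 1048576) := by
    apply norm_parts
    · have e : (tc wx wy * tc vx vy - 2 * tc lx ly * tc ex ey).re =
          ((wx : ℝ) * vx - wy * vy - 2 * (lx * ex - ly * ey)) / 281474976710656 := by
        simp only [sub_re, mul_re, mul_im, re_ofNat, im_ofNat, tc_re, tc_im]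
        ring
      rw [e]
      exact abs_div_le (by norm_num) a3 (by norm_num)
    · have e : (tc wx wy * tc vx vy - 2 * tc lx ly * tc ex ey).im =
          ((wx : ℝ) * vy + wy * vx - 2 * (lx * ey + ly * ex)) / 281474976710656 := by
        simp only [sub_im, mul_re, mul_im, re_ofNat, im_ofNat, tc_re, tc_im]
        ring
      rw [e]
      exact abs_div_le (by norm_num) a4 (by norm_num)
  have d3 : ‖tc wx wy‖ ≤ 4 := tc_norm_le k7 (by norm_num) (by norm_num)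
  have d4 : 50990 / 100000 ≤ ‖tc vx vy‖ := tc_norm_ge k5 (by norm_num)
  have d5 : 90550 / 100000 ≤ ‖1 + tc vx vy‖ := by
    have e : 1 + tc vx vy = tc (16777216 + vx) vy := by
      unfold tc
      push_cast
      ring
    rw [e]
    exact tc_norm_ge k6 (by norm_num)
  refine ⟨?_, ?_, tc_norm_ge k3 (by norm_num), tc_norm_le k4 (by norm_num) (by norm_num), ?_, ?_,
    tc_norm_le k8 (by norm_num) (by norm_num)⟩
  · have e : 2 * tc lx ly * tc ex ey - (1 + V0) =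
        (2 * tc lx ly * tc ex ey - (1 + tc vx vy)) - (V0 - tc vx vy) := by ring
    rw [e]
    refine (norm_sub_le _ _).trans ?_
    norm_num at d1 hV ⊢
    linarith
  · have e : tc wx wy * V0 - 2 * tc lx ly * tc ex ey =
        (tc wx wy * tc vx vy - 2 * tc lx ly * tc ex ey) + tc wx wy * (V0 - tc vx vy) := by ring
    rw [e]
    refine (norm_add_le _ _).trans ?_
    rw [norm_mul]
    have := mul_le_mul d3 hV (norm_nonneg _) (by norm_num)
    norm_num at d2 this ⊢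
    linarith
  · have := norm_sub_le V0 (V0 - tc vx vy)
    rw [sub_sub_cancel] at this
    linarith
  · have := norm_sub_le (1 + V0) (V0 - tc vx vy)
    rw [show 1 + V0 - (V0 - tc vx vy) = 1 + tc vx vy by ring] at this
    linarith

theorem chB_ok {ex ey lx ly rx ry ox oy gx gy vx vy wx wy : ℤ}
    (h : chB ex ey lx ly rx ry ox oy gx gy vx vy wx wy = true) {V0 V1 : ℂ}
    (hV : ‖V0 - tc vx vy‖ ≤ 1 / 4194304) (hW : ‖V1 - tc wx wy‖ ≤ 1 / 4194304)
    (hV0 : ‖V0‖ ≤ 4) (hV1 : ‖tc wx wy‖ ≤ 4) :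
    ‖V0 * V1 - 1 - 2 * tc ex ey ^ 3 * (tc lx ly + tc rx ry)‖ ≤ 1 / 262144 ∧
    ‖tc ox oy * (tc lx ly + tc rx ry) - tc lx ly‖ ≤ 1 / 524288 ∧
    ‖tc gx gy * (tc ex ey ^ 2 - 1) - (tc ex ey ^ 2 + 1)‖ ≤ 1 / 524288 ∧
    ‖2 * tc lx ly * tc rx ry * tc ex ey - (tc ex ey ^ 2 + 1) * (tc lx ly + tc rx ry)‖ ≤ 1 / 524288 ∧
    7 / 10 ≤ ‖tc ex ey‖ ∧ ‖tc ex ey‖ ≤ 5 / 4 ∧ 9 / 10 ≤ ‖tc lx ly + tc rx ry‖ ∧
    1 ≤ ‖tc ex ey ^ 2 - 1‖ ∧ ey < 0 := by
  unfold chB at h
  obtain ⟨qx, hqx, h⟩ := bd_ok h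
  obtain ⟨qy, hqy, h⟩ := bd_ok h
  obtain ⟨sx, hsx, h⟩ := bd_ok h
  obtain ⟨sy, hsy, h⟩ := bd_ok h
  obtain ⟨px, hpx, h⟩ := bd_ok h
  obtain ⟨py, hpy, h⟩ := bd_ok h
  obtain ⟨bx, hbx, h⟩ := bd_ok h
  obtain ⟨b2, hb2, h⟩ := bd_ok h
  obtain ⟨h1, h⟩ := cond_ok h
  obtain ⟨h2, h⟩ := cond_ok h
  obtain ⟨h3, h⟩ := cond_ok h
  obtain ⟨h4, h⟩ := cond_ok h
  obtain ⟨h5, h⟩ := cond_ok h
  obtain ⟨h6, h⟩ := cond_ok h
  obtain ⟨h7, h⟩ := cond_ok h
  obtain ⟨h8, h9⟩ := cond_ok h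
  obtain ⟨a1, a2⟩ := rs_ok h1
  obtain ⟨a3, a4⟩ := rs_ok h2
  obtain ⟨a5, a6⟩ := rs_ok h3
  obtain ⟨a7, a8⟩ := rs_ok h4
  have k5 := leI_ok h5
  have k6 := leI_ok h6
  have k7 := leI_ok h7
  have k8 := leI_ok h8
  have k9 := ltI_ok h9
  subst hqx hqy hsx hsy hpx hpy hbx hb2
  push_cast at a1 a2 a3 a4 a5 a6 a7 a8
  have d1 : ‖tc vx vy * tc wx wy - 1 - 2 * tc ex ey ^ 3 * (tc lx ly + tc rx ry)‖ ≤
      3 / 2 * (1 / 1048576) := by
    apply norm_parts
    · have e : (tc vx vy * tc wx wy - 1 - 2 * tc ex ey ^ 3 * (tc lx ly + tc rx ry)).re =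
          (281474976710656 * ((vx : ℝ) * wx - vy * wy) - 79228162514264337593543950336 -
            2 * ((ex * ex - ey * ey) * (ex * (lx + rx) - ey * (ly + ry)) -
              2 * (ex * ey) * (ex * (ly + ry) + ey * (lx + rx)))) /
                79228162514264337593543950336 := by
        simp only [sub_re, add_re, add_im, mul_re, mul_im, re_ofNat, im_ofNat, tc_re, tc_im, one_re,
          pow_succ, pow_zero, one_mul]
        ring
      rw [e]
      exact abs_div_le (by norm_num) a1 (by norm_num)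
    · have e : (tc vx vy * tc wx wy - 1 - 2 * tc ex ey ^ 3 * (tc lx ly + tc rx ry)).im =
          (281474976710656 * ((vx : ℝ) * wy + vy * wx) -
            2 * ((ex * ex - ey * ey) * (ex * (ly + ry) + ey * (lx + rx)) +
              2 * (ex * ey) * (ex * (lx + rx) - ey * (ly + ry)))) /
                79228162514264337593543950336 := by
        simp only [sub_im, add_re, add_im, mul_re, mul_im, re_ofNat, im_ofNat, tc_re, tc_im, one_im,
          pow_succ, pow_zero, one_mul]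
        ring
      rw [e]
      exact abs_div_le (by norm_num) a2 (by norm_num)
  have d2 : ‖tc ox oy * (tc lx ly + tc rx ry) - tc lx ly‖ ≤ 3 / 2 * (1 / 1048576) := by
    apply norm_parts
    · have e : (tc ox oy * (tc lx ly + tc rx ry) - tc lx ly).re =
          ((ox : ℝ) * (lx + rx) - oy * (ly + ry) - 16777216 * lx) / 281474976710656 := by
        simp only [sub_re, add_re, add_im, mul_re, tc_re, tc_im]
        ring
      rw [e]
      exact abs_div_le (by norm_num) a3 (by norm_num)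
    · have e : (tc ox oy * (tc lx ly + tc rx ry) - tc lx ly).im =
          ((ox : ℝ) * (ly + ry) + oy * (lx + rx) - 16777216 * ly) / 281474976710656 := by
        simp only [sub_im, add_re, add_im, mul_im, tc_re, tc_im]
        ring
      rw [e]
      exact abs_div_le (by norm_num) a4 (by norm_num)
  have d3 : ‖tc gx gy * (tc ex ey ^ 2 - 1) - (tc ex ey ^ 2 + 1)‖ ≤ 3 / 2 * (1 / 1048576) := by
    apply norm_parts
    · have e : (tc gx gy * (tc ex ey ^ 2 - 1) - (tc ex ey ^ 2 + 1)).re =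
          ((gx : ℝ) * ((ex * ex - ey * ey) - 281474976710656) - gy * (2 * (ex * ey)) -
            16777216 * ((ex * ex - ey * ey) + 281474976710656)) / 4722366482869645213696 := by
        simp only [sub_re, sub_im, add_re, mul_re, mul_im, tc_re, tc_im, one_re, one_im, pow_two]
        ring
      rw [e]
      exact abs_div_le (by norm_num) a5 (by norm_num)
    · have e : (tc gx gy * (tc ex ey ^ 2 - 1) - (tc ex ey ^ 2 + 1)).im =
          ((gx : ℝ) * (2 * (ex * ey)) + gy * ((ex * ex - ey * ey) - 281474976710656) -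
            16777216 * (2 * (ex * ey))) / 4722366482869645213696 := by
        simp only [sub_re, sub_im, add_im, mul_re, mul_im, tc_re, tc_im, one_re, one_im, pow_two]
        ring
      rw [e]
      exact abs_div_le (by norm_num) a6 (by norm_num)
  have d4 : ‖2 * tc lx ly * tc rx ry * tc ex ey -
      (tc ex ey ^ 2 + 1) * (tc lx ly + tc rx ry)‖ ≤ 3 / 2 * (1 / 1048576) := by
    apply norm_parts
    · have e : (2 * tc lx ly * tc rx ry * tc ex ey -
          (tc ex ey ^ 2 + 1) * (tc lx ly + tc rx ry)).re =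
          (2 * (((lx : ℝ) * rx - ly * ry) * ex - (lx * ry + ly * rx) * ey) -
            (((ex * ex - ey * ey) + 281474976710656) * (lx + rx) - 2 * (ex * ey) * (ly + ry))) /
              4722366482869645213696 := by
        simp only [sub_re, add_re, add_im, mul_re, mul_im, re_ofNat, im_ofNat, tc_re, tc_im, one_re,
          one_im, pow_two]
        ring
      rw [e]
      exact abs_div_le (by norm_num) a7 (by norm_num)
    · have e : (2 * tc lx ly * tc rx ry * tc ex ey -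
          (tc ex ey ^ 2 + 1) * (tc lx ly + tc rx ry)).im =
          (2 * (((lx : ℝ) * rx - ly * ry) * ey + (lx * ry + ly * rx) * ex) -
            (((ex * ex - ey * ey) + 281474976710656) * (ly + ry) + 2 * (ex * ey) * (lx + rx))) /
              4722366482869645213696 := by
        simp only [sub_im, add_re, add_im, mul_re, mul_im, re_ofNat, im_ofNat, tc_re, tc_im, one_re,
          one_im, pow_two]
        ring
      rw [e]
      exact abs_div_le (by norm_num) a8 (by norm_num)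
  refine ⟨?_, by norm_num at d2 ⊢; linarith, by norm_num at d3 ⊢; linarith,
    by norm_num at d4 ⊢; linarith, tc_norm_ge k5 (by norm_num),
    tc_norm_le k6 (by norm_num) (by norm_num), ?_, ?_, k9⟩
  · have e : V0 * V1 - 1 - 2 * tc ex ey ^ 3 * (tc lx ly + tc rx ry) =
        (tc vx vy * tc wx wy - 1 - 2 * tc ex ey ^ 3 * (tc lx ly + tc rx ry)) +
          V0 * (V1 - tc wx wy) + (V0 - tc vx vy) * tc wx wy := by ring
    rw [e]
    refine (norm_add₃_le).trans ?_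
    rw [norm_mul, norm_mul]
    have g1 := mul_le_mul hV0 hW (norm_nonneg _) (by norm_num)
    have g2 := mul_le_mul hV hV1 (norm_nonneg _) (by norm_num)
    norm_num at d1 g1 g2 ⊢
    linarith
  · have e : tc lx ly + tc rx ry = tc (lx + rx) (ly + ry) := by
      unfold tc
      push_cast
      ring
    rw [e]
    exact tc_norm_ge k7 (by norm_num)
  · apply le_of_sq_le_sq _ (norm_nonneg _)
    rw [Complex.sq_norm, normSq_apply]
    have e1 : (tc ex ey ^ 2 - 1).re =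
        (((ex : ℝ) * ex - ey * ey) - 281474976710656) / 281474976710656 := by
      simp only [sub_re, mul_re, tc_re, tc_im, one_re, pow_two]
      ring
    have e2 : (tc ex ey ^ 2 - 1).im = (2 * ((ex : ℝ) * ey)) / 281474976710656 := by
      simp only [sub_im, mul_im, tc_re, tc_im, one_im, pow_two]
      ring
    rw [e1, e2]
    have g : (79228162514264337593543950336 : ℝ) ≤
        (((ex : ℝ) * ex - ey * ey) - 281474976710656) * (((ex : ℝ) * ex - ey * ey) - 281474976710656) +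
          2 * (ex * ey) * (2 * (ex * ey)) := by exact_mod_cast k8
    rw [div_mul_div_comm, div_mul_div_comm, ← add_div, le_div_iff₀ (by norm_num)]
    norm_num at g ⊢
    linarith

theorem bas_ok {ia ja ib jb : ℕ} {K : BD → Bool} (h : bas ia ja ib jb K = true) :
    ia ≤ 100 ∧ ja ≤ 110 ∧ ib ≤ 100 ∧ jb ≤ 110 ∧ ∃ B : BD, K B = true ∧
      BOK (exp (-(2 * Real.pi * I * gp ia ja))) (exp (-(2 * Real.pi * I * gp ib jb))) B := by
  unfold bas at h
  obtain ⟨vx, vy, h, i1, i2, hV⟩ := vst_ok h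
  obtain ⟨wx, wy, h, i3, i4, hW⟩ := vst_ok h
  obtain ⟨ex, ey, h⟩ := e0a_ok h
  obtain ⟨lx, ly, h⟩ := cdv_ok h
  obtain ⟨rx, ry, h⟩ := cdv_ok h
  obtain ⟨sx, _, h⟩ := bd_ok h
  obtain ⟨sy, _, h⟩ := bd_ok h
  obtain ⟨ox, oy, h⟩ := cdv_ok h
  obtain ⟨qx, _, h⟩ := bd_ok h
  obtain ⟨qy, _, h⟩ := bd_ok h
  obtain ⟨gx, gy, h⟩ := cdv_ok h
  obtain ⟨ux, uy, h⟩ := cdv_ok h
  obtain ⟨zx, zy, h⟩ := cdv_ok h
  obtain ⟨h1, h⟩ := cond_ok h
  obtain ⟨h2, h⟩ := cond_ok h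
  obtain ⟨h3, h⟩ := cond_ok h
  refine ⟨i1, i2, i3, i4, _, h, ?_⟩
  obtain ⟨a1, a2, a3, a4, a5, a6, a7⟩ := chA_ok h1 hV
  obtain ⟨b1, b2, b3, b4, b5, b6, b7⟩ := chA_ok h2 hW
  set V0 := exp (-(2 * Real.pi * I * gp ia ja)) with hV0
  set V1 := exp (-(2 * Real.pi * I * gp ib jb)) with hV1
  have hn : ‖V0‖ ≤ 4 := by
    have := norm_add_le (V0 - tc vx vy) (tc vx vy)
    rw [sub_add_cancel] at this
    linarith
  obtain ⟨c5, c6, c7, c8, e0, e1, s0, q0, ey0⟩ := chB_ok h3 hV hW hn (by linarith)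
  exact ⟨a1, b1, a2, b2, c5, c6, c7, c8, a3, a4, b3, b4, e0, e1, s0, q0, a5, b5, a6, b6, ey0⟩

end Pool.Agent.S5.K
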