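import Pool.Agent.S5.K.Fi
import Pool.Agent.S5.K.Defs

/-!
# The rectangle of the logarithm of a slot

`rect`: centre and radius of the rectangle of `log (b / β)` for `b` in a region `Pol`.
-/

set_option autoImplicit false

namespace Pool.Agent.S5.K

open Complex

/-! ### Two elementary functions -/

theorem nonneg_of_deriv {f f' : ℝ → ℝ} {c : ℝ} (h0 : f 0 = 0)
    (hd : ∀ x, 0 ≤ x → x ≤ c → HasDerivAt f (f' x) x) (hn : ∀ x, 0 ≤ x → x ≤ c → 0 ≤ f' x) {x : ℝ}
    (hx0 : 0 ≤ x) (hx : x ≤ c) : 0 ≤ f x := by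
  have hm : MonotoneOn f (Set.Icc 0 c) := by
    refine monotoneOn_of_deriv_nonneg (convex_Icc 0 c) ?_ ?_ ?_
    · intro y hy
      exact (hd y hy.1 hy.2).continuousAt.continuousWithinAt
    · intro y hy
      rw [interior_Icc] at hy
      exact (hd y hy.1.le hy.2.le).differentiableAt.differentiableWithinAt
    · intro y hy
      rw [interior_Icc] at hy
      rw [(hd y hy.1.le hy.2.le).deriv]
      exact hn y hy.1.le hy.2.le
  have := hm (Set.left_mem_Icc.2 (hx0.trans hx)) ⟨hx0, hx⟩ hx0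
  rwa [h0] at this

/-- The inverse hyperbolic tangent. -/
noncomputable def aht (s : ℝ) : ℝ := (Real.log (1 + s) - Real.log (1 - s)) / 2

theorem aht_deriv {s : ℝ} (h0 : -1 < s) (h1 : s < 1) :
    HasDerivAt aht ((1 / (1 + s) + 1 / (1 - s)) / 2) s := by
  have a1 : HasDerivAt (fun s : ℝ => Real.log (1 + s)) (1 / (1 + s)) s :=
    ((hasDerivAt_id s).const_add 1).log (by simp; linarith only [h0])
  have a2 : HasDerivAt (fun s : ℝ => Real.log (1 - s)) (-1 / (1 - s)) s :=
    ((hasDerivAt_id s).const_sub 1).log (by simp; linarith only [h1])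
  have a3 := (a1.sub a2).div_const 2
  have e : (1 / (1 + s) - -1 / (1 - s)) / 2 = (1 / (1 + s) + 1 / (1 - s)) / 2 := by ring
  rw [e] at a3
  exact a3

theorem aht_pos {s : ℝ} (h0 : 0 ≤ s) (h1 : s ≤ 2 / 5) :
    s + s ^ 3 / 3 ≤ aht s ∧ aht s ≤ s + s ^ 3 / 3 + s ^ 5 / 4 := by
  constructor
  · have h := nonneg_of_deriv (f := fun s => aht s - (s + s ^ 3 / 3))
      (f' := fun s => (1 / (1 + s) + 1 / (1 - s)) / 2 - (1 + s ^ 2)) (c := 2 / 5)
      (by simp [aht]) ?_ ?_ h0 h1
    · linarith only [h]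
    · intro x hx0 hx1
      have h2 := (aht_deriv (s := x) (by linarith only [hx0]) (by linarith only [hx1])).sub
        ((hasDerivAt_id x).add ((hasDerivAt_pow 3 x).div_const 3))
      exact h2.congr_deriv (by simp)
    · intro x hx0 hx1
      have e : (1 / (1 + x) + 1 / (1 - x)) / 2 - (1 + x ^ 2) = x ^ 4 / (1 - x ^ 2) := by
        have p1 : 1 + x ≠ 0 := by linarith only [hx0]
        have p2 : 1 - x ≠ 0 := by linarith only [hx1]
        have p3 : 1 - x ^ 2 ≠ 0 := by linarith only [hx1,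
                                        mul_nonneg (sub_nonneg.2 hx0) (sub_nonneg.2 hx1)]
        field_simp
        ring
      rw [e]
      exact div_nonneg (by positivity) (by linarith only [hx1,
                                             mul_nonneg (sub_nonneg.2 hx0) (sub_nonneg.2 hx1)])
  · have h := nonneg_of_deriv (f := fun s => s + s ^ 3 / 3 + s ^ 5 / 4 - aht s)
      (f' := fun s => 1 + s ^ 2 + 5 * s ^ 4 / 4 - (1 / (1 + s) + 1 / (1 - s)) / 2) (c := 2 / 5)
      (by simp [aht]) ?_ ?_ h0 h1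
    · linarith only [h]
    · intro x hx0 hx1
      have h2 := (((hasDerivAt_id x).add ((hasDerivAt_pow 3 x).div_const 3)).add
        ((hasDerivAt_pow 5 x).div_const 4)).sub (aht_deriv (s := x) (by linarith only [hx0]) (by linarith only [hx1]))
      exact h2.congr_deriv (by simp)
    · intro x hx0 hx1
      have e : 1 + x ^ 2 + 5 * x ^ 4 / 4 - (1 / (1 + x) + 1 / (1 - x)) / 2 =
          x ^ 4 * (1 / 4 - 5 * x ^ 2 / 4) / (1 - x ^ 2) := by
        have p1 : 1 + x ≠ 0 := by linarith only [hx0]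
        have p2 : 1 - x ≠ 0 := by linarith only [hx1]
        have p3 : 1 - x ^ 2 ≠ 0 := by linarith only [hx1,
                                        mul_nonneg (sub_nonneg.2 hx0) (sub_nonneg.2 hx1)]
        field_simp
        ring
      rw [e]
      have h3 : 0 ≤ 1 / 4 - 5 * x ^ 2 / 4 := by linarith only [hx1,
                                                  mul_nonneg (sub_nonneg.2 hx0) (sub_nonneg.2 hx1)]
      exact div_nonneg (by positivity) (by linarith only [h3])

theorem aht_neg (s : ℝ) : aht (-s) = -aht s := by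
  unfold aht
  rw [sub_neg_eq_add, ← sub_eq_add_neg]
  ring

theorem aht_bd {s : ℝ} (h : |s| ≤ 2 / 5) : |aht s - (s + s ^ 3 / 3)| ≤ |s| ^ 5 / 4 := by
  rcases le_total 0 s with h0 | h0
  · rw [abs_of_nonneg h0] at h ⊢
    obtain ⟨h1, h2⟩ := aht_pos h0 h
    rw [abs_le]
    constructor
    · have : 0 ≤ s ^ 5 := by positivity
      linarith only [h2, h1]
    · linarith only [h2]
  · rw [abs_of_nonpos h0] at h ⊢
    obtain ⟨h1, h2⟩ := aht_pos (s := -s) (by linarith only [h0]) h
    rw [aht_neg] at h1 h2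
    have e3 : (-s) ^ 3 = -s ^ 3 := by ring
    rw [e3] at h1 h2
    rw [abs_le]
    constructor
    · linarith only [h2]
    · have : 0 ≤ (-s) ^ 5 := by
        have : 0 ≤ -s := by linarith only [h0]
        positivity
      linarith only [h2, h1]

theorem aht_mono {s t : ℝ} (hs : -1 < s) (hst : s ≤ t) (ht : t < 1) : aht s ≤ aht t := by
  unfold aht
  have h1 : Real.log (1 + s) ≤ Real.log (1 + t) := Real.log_le_log (by linarith only [hs]) (by linarith only [hst])
  have h2 : Real.log (1 - t) ≤ Real.log (1 - s) := Real.log_le_log (by linarith only [ht]) (by linarith only [hst])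
  linarith only [h2, h1]

theorem aht_log {n m : ℝ} (hn : 0 < n) (hm : 0 < m) :
    aht ((n - m) / (n + m)) = Real.log (n / m) / 2 := by
  unfold aht
  have hp : n + m ≠ 0 := by positivity
  have e1 : 1 + (n - m) / (n + m) = 2 * n / (n + m) := by
    field_simp
    ring
  have e2 : 1 - (n - m) / (n + m) = 2 * m / (n + m) := by
    field_simp
    ring
  rw [e1, e2, Real.log_div (by positivity) hp, Real.log_div (by positivity) hp,
    Real.log_mul (by norm_num) hn.ne', Real.log_mul (by norm_num) hm.ne',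
    Real.log_div hn.ne' hm.ne']
  ring

theorem atn_pos {z : ℝ} (h0 : 0 ≤ z) :
    z - z ^ 3 / 3 ≤ Real.arctan z ∧ Real.arctan z ≤ z - z ^ 3 / 3 + z ^ 5 / 5 := by
  constructor
  · have h := nonneg_of_deriv (f := fun z => Real.arctan z - (z - z ^ 3 / 3))
      (f' := fun z => 1 / (1 + z ^ 2) - (1 - z ^ 2)) (c := z) (by simp) ?_ ?_ h0 le_rfl
    · linarith only [h]
    · intro x hx0 hx1
      have h2 := (Real.hasDerivAt_arctan x).sub
        ((hasDerivAt_id x).sub ((hasDerivAt_pow 3 x).div_const 3))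
      exact h2.congr_deriv (by simp)
    · intro x hx0 hx1
      have e : 1 / (1 + x ^ 2) - (1 - x ^ 2) = x ^ 4 / (1 + x ^ 2) := by
        field_simp
        ring
      rw [e]
      positivity
  · have h := nonneg_of_deriv (f := fun z => z - z ^ 3 / 3 + z ^ 5 / 5 - Real.arctan z)
      (f' := fun z => 1 - z ^ 2 + z ^ 4 - 1 / (1 + z ^ 2)) (c := z) (by simp) ?_ ?_ h0 le_rfl
    · linarith only [h]
    · intro x hx0 hx1
      have h2 := (((hasDerivAt_id x).sub ((hasDerivAt_pow 3 x).div_const 3)).add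
        ((hasDerivAt_pow 5 x).div_const 5)).sub (Real.hasDerivAt_arctan x)
      exact h2.congr_deriv (by simp)
    · intro x hx0 hx1
      have e : 1 - x ^ 2 + x ^ 4 - 1 / (1 + x ^ 2) = x ^ 6 / (1 + x ^ 2) := by
        field_simp
        ring
      rw [e]
      positivity

theorem atn_bd (z : ℝ) : |Real.arctan z - (z - z ^ 3 / 3)| ≤ |z| ^ 5 / 5 := by
  rcases le_total 0 z with h0 | h0
  · rw [abs_of_nonneg h0]
    obtain ⟨h1, h2⟩ := atn_pos h0
    rw [abs_le]
    constructor
    · have : 0 ≤ z ^ 5 := by positivity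
      linarith only [h2, h1]
    · linarith only [h2]
  · rw [abs_of_nonpos h0]
    obtain ⟨h1, h2⟩ := atn_pos (z := -z) (by linarith only [h0])
    rw [Real.arctan_neg] at h1 h2
    have e3 : (-z) ^ 3 = -z ^ 3 := by ring
    rw [e3] at h1 h2
    rw [abs_le]
    constructor
    · linarith only [h2]
    · have : 0 ≤ (-z) ^ 5 := by
        have : 0 ≤ -z := by linarith only [h0]
        positivity
      linarith only [h2, h1]

/-! ### The programs -/

/-- `a / b` rounded down (to be used with `0 < b`). -/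
def dnI (a b : ℤ) : ℤ := Int.ediv a b

theorem dnI_okR {a b : ℤ} (hb : 0 < b) : (dnI a b : ℝ) * b ≤ a := by
  have h : dnI a b * b ≤ a := Int.ediv_mul_le a hb.ne'
  exact_mod_cast h

/-- `|s|⁵`. -/
def p5 (s : ℤ) (k : ℤ → Bool) : Bool :=
  bd (Int.mul s s) (fun q => bd (abI s) (fun a => bd (Int.mul (Int.mul q q) a) k))

theorem p5_ok {s : ℤ} {k : ℤ → Bool} (h : p5 s k = true) :
    ∃ f : ℤ, (f : ℝ) = |(s : ℝ)| ^ 5 ∧ k f = true := by
  unfold p5 at h
  rw [bd_eq, bd_eq, bd_eq] at h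
  refine ⟨_, ?_, h⟩
  rw [imul, imul, imul, abI_eq]
  push_cast
  have e : (s : ℝ) * s = |(s : ℝ)| * |(s : ℝ)| := (abs_mul_abs_self _).symm
  rw [e]
  ring

/-- A lower bound of `aht (s / U)`. -/
def ahL (s : ℤ) (k : ℤ → Bool) : Bool :=
  p5 s (fun f => bd (Int.mul s (Int.mul s s)) (fun c =>
    bd (Int.sub (Int.add s (dnI c 844424930131968)) (upI f 316912650057057350374175801344)) k))

/-- An upper bound of `aht (s / U)`. -/
def ahU (s : ℤ) (k : ℤ → Bool) : Bool :=
  p5 s (fun f => bd (Int.mul s (Int.mul s s)) (fun c =>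
    bd (Int.add (Int.add s (upI c 844424930131968)) (upI f 316912650057057350374175801344)) k))

/-- A lower bound of `arctan (s / U)`. -/
def anL (s : ℤ) (k : ℤ → Bool) : Bool :=
  p5 s (fun f => bd (Int.mul s (Int.mul s s)) (fun c =>
    bd (Int.sub (Int.sub s (upI c 844424930131968)) (upI f 396140812571321687967719751680)) k))

/-- An upper bound of `arctan (s / U)`. -/
def anU (s : ℤ) (k : ℤ → Bool) : Bool :=
  p5 s (fun f => bd (Int.mul s (Int.mul s s)) (fun c =>
    bd (Int.add (Int.sub s (dnI c 844424930131968)) (upI f 396140812571321687967719751680)) k))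

/-- Centre and radius of `[L, H]`. -/
def mid (L H : ℤ) (k : ℤ → ℤ → Bool) : Bool :=
  cond (leI L H) (bd (dnI (Int.add L H) 2) (fun c => bd (upI (Int.sub H L) 2) (fun r => k c r))) false

theorem mid_ok {L H : ℤ} {k : ℤ → ℤ → Bool} (h : mid L H k = true) :
    ∃ c r : ℤ, 0 ≤ r ∧ k c r = true ∧ ∀ x : ℝ, (L : ℝ) ≤ x → x ≤ H → |x - c| ≤ r := by
  unfold mid at h
  obtain ⟨h1, h⟩ := cond_ok h
  rw [bd_eq, bd_eq] at h
  have h2 := leI_ok h1
  have e1 : dnI (Int.add L H) 2 = (L + H) / 2 := rfl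
  have e2 : upI (Int.sub H L) 2 = (H - L) / 2 + 1 := rfl
  refine ⟨_, _, ?_, h, ?_⟩
  · rw [e2]
    omega
  · intro x hx1 hx2
    have h3 : L - ((H - L) / 2 + 1) ≤ L - ((H - L) / 2 + 1) := le_rfl
    have a1 : H - (L + H) / 2 ≤ (H - L) / 2 + 1 := by omega
    have a2 : (L + H) / 2 - L ≤ (H - L) / 2 + 1 := by omega
    have b1 : (H : ℝ) - (dnI (Int.add L H) 2 : ℤ) ≤ (upI (Int.sub H L) 2 : ℤ) := by
      rw [e1, e2]
      exact_mod_cast a1
    have b2 : ((dnI (Int.add L H) 2 : ℤ) : ℝ) - L ≤ (upI (Int.sub H L) 2 : ℤ) := by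
      rw [e1, e2]
      exact_mod_cast a2
    rw [abs_le]
    constructor <;> linarith

/-- The end points `T0`, `T1` of the interval of `1000 tan (arg b)`. -/
def tEnd (S : Bool) (t0 t1 : ℕ) (k : ℤ → ℤ → Bool) : Bool :=
  cond S (bd (Int.neg (Int.ofNat t1)) (fun a => bd (Int.neg (Int.ofNat t0)) (fun b => k a b)))
    (k (Int.ofNat t0) (Int.ofNat t1))

/-- **The rectangle of `log (b / β)`**, `β = (x + i y) / U`. -/
def rect (S : Bool) (k0 k1 t0 t1 : ℕ) (x y : ℤ) (K : ℤ → ℤ → ℤ → ℤ → Bool) : Bool :=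
  cond (ltI 0 (Int.ofNat k0)) (
  bd (Int.mul 1000000 (Int.add (Int.mul x x) (Int.mul y y))) (fun m =>
  bd (Int.mul 281474976710656 (Int.ofNat (Nat.mul k0 k0))) (fun n0 =>
  bd (Int.mul 281474976710656 (Int.ofNat (Nat.mul k1 k1))) (fun n1 =>
  bd (dnI (Int.mul 16777216 (Int.sub n0 m)) (Int.add n0 m)) (fun sl =>
  bd (upI (Int.mul 16777216 (Int.sub n1 m)) (Int.add n1 m)) (fun sh =>
  cond (leI (Int.mul 5 (abI sl)) 33554432) (
  cond (leI (Int.mul 5 (abI sh)) 33554432) (
  ahL sl (fun L => ahU sh (fun H => mid L H (fun cx rx =>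
  tEnd S t0 t1 (fun T0 T1 =>
  bd (Int.add (Int.mul 1000 x) (Int.mul T0 y)) (fun d0 =>
  bd (Int.add (Int.mul 1000 x) (Int.mul T1 y)) (fun d1 =>
  cond (ltI 0 d0) (cond (ltI 0 d1) (
  bd (dnI (Int.mul 16777216 (Int.sub (Int.mul T0 x) (Int.mul 1000 y))) d0) (fun zl =>
  bd (upI (Int.mul 16777216 (Int.sub (Int.mul T1 x) (Int.mul 1000 y))) d1) (fun zh =>
  anL zl (fun L => anU zh (fun H => mid L H (fun cy ry => K cx rx cy ry)))))) false) false)))))))
  false) false)))))) false

/-! ### Soundness -/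

theorem scale3 (s c : ℝ) (hc : c = s * (s * s)) : c / 844424930131968 =
    16777216 * ((s / 16777216) ^ 3 / 3) := by
  rw [hc]
  ring

theorem scale4 (s f : ℝ) (hf : f = |s| ^ 5) : f / 316912650057057350374175801344 =
    16777216 * (|s / 16777216| ^ 5 / 4) := by
  rw [hf, abs_div, abs_of_pos (show (0 : ℝ) < 16777216 by norm_num)]
  ring

theorem scale5 (s f : ℝ) (hf : f = |s| ^ 5) : f / 396140812571321687967719751680 =
    16777216 * (|s / 16777216| ^ 5 / 5) := by
  rw [hf, abs_div, abs_of_pos (show (0 : ℝ) < 16777216 by norm_num)]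
  ring

theorem dnI_le {a b : ℤ} (hb : 0 < b) : (dnI a b : ℝ) ≤ a / b := by
  rw [le_div_iff₀ (by exact_mod_cast hb)]
  exact dnI_okR hb

theorem le_upI {a b : ℤ} (hb : 0 < b) : (a : ℝ) / b ≤ upI a b := by
  rw [div_le_iff₀ (by exact_mod_cast hb)]
  exact upI_okR hb

theorem ahL_ok {s : ℤ} {k : ℤ → Bool} (h : ahL s k = true) (hs : |(s : ℝ) / 16777216| ≤ 2 / 5) :
    ∃ L : ℤ, k L = true ∧ (L : ℝ) ≤ 16777216 * aht (s / 16777216) := by
  unfold ahL at h
  obtain ⟨f, hf, h⟩ := p5_ok h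
  rw [bd_eq, bd_eq] at h
  refine ⟨_, h, ?_⟩
  have h1 := (abs_le.1 (aht_bd hs)).1
  have c1 := dnI_le (a := Int.mul s (Int.mul s s)) (b := 844424930131968) (by norm_num)
  have c2 := le_upI (a := f) (b := 316912650057057350374175801344) (by norm_num)
  have e1 := scale3 s ((Int.mul s (Int.mul s s) : ℤ) : ℝ) (by rw [imul, imul]; push_cast; ring)
  have e2 := scale4 s f hf
  push_cast at c1 c2
  rw [e1] at c1
  rw [e2] at c2
  rw [isub, iadd]
  push_cast
  linarith only [c2, c1, h1]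

theorem ahU_ok {s : ℤ} {k : ℤ → Bool} (h : ahU s k = true) (hs : |(s : ℝ) / 16777216| ≤ 2 / 5) :
    ∃ H : ℤ, k H = true ∧ 16777216 * aht (s / 16777216) ≤ H := by
  unfold ahU at h
  obtain ⟨f, hf, h⟩ := p5_ok h
  rw [bd_eq, bd_eq] at h
  refine ⟨_, h, ?_⟩
  have h1 := (abs_le.1 (aht_bd hs)).2
  have c1 := le_upI (a := Int.mul s (Int.mul s s)) (b := 844424930131968) (by norm_num)
  have c2 := le_upI (a := f) (b := 316912650057057350374175801344) (by norm_num)
  have e1 := scale3 s ((Int.mul s (Int.mul s s) : ℤ) : ℝ) (by rw [imul, imul]; push_cast; ring)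
  have e2 := scale4 s f hf
  push_cast at c1 c2
  rw [e1] at c1
  rw [e2] at c2
  rw [iadd, iadd]
  push_cast
  linarith only [c2, c1, h1]

theorem anL_ok {s : ℤ} {k : ℤ → Bool} (h : anL s k = true) :
    ∃ L : ℤ, k L = true ∧ (L : ℝ) ≤ 16777216 * Real.arctan (s / 16777216) := by
  unfold anL at h
  obtain ⟨f, hf, h⟩ := p5_ok h
  rw [bd_eq, bd_eq] at h
  refine ⟨_, h, ?_⟩
  have h1 := (abs_le.1 (atn_bd ((s : ℝ) / 16777216))).1
  have c1 := le_upI (a := Int.mul s (Int.mul s s)) (b := 844424930131968) (by norm_num)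
  have c2 := le_upI (a := f) (b := 396140812571321687967719751680) (by norm_num)
  have e1 := scale3 s ((Int.mul s (Int.mul s s) : ℤ) : ℝ) (by rw [imul, imul]; push_cast; ring)
  have e2 := scale5 s f hf
  push_cast at c1 c2
  rw [e1] at c1
  rw [e2] at c2
  rw [isub, isub]
  push_cast
  linarith only [c2, c1, h1]

theorem anU_ok {s : ℤ} {k : ℤ → Bool} (h : anU s k = true) :
    ∃ H : ℤ, k H = true ∧ 16777216 * Real.arctan (s / 16777216) ≤ H := by
  unfold anU at h
  obtain ⟨f, hf, h⟩ := p5_ok h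
  rw [bd_eq, bd_eq] at h
  refine ⟨_, h, ?_⟩
  have h1 := (abs_le.1 (atn_bd ((s : ℝ) / 16777216))).2
  have c1 := dnI_le (a := Int.mul s (Int.mul s s)) (b := 844424930131968) (by norm_num)
  have c2 := le_upI (a := f) (b := 396140812571321687967719751680) (by norm_num)
  have e1 := scale3 s ((Int.mul s (Int.mul s s) : ℤ) : ℝ) (by rw [imul, imul]; push_cast; ring)
  have e2 := scale5 s f hf
  push_cast at c1 c2
  rw [e1] at c1
  rw [e2] at c2
  rw [iadd, isub]
  push_cast
  linarith only [c2, c1, h1]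

theorem tEnd_ok {S : Bool} {t0 t1 : ℕ} {k : ℤ → ℤ → Bool} (h : tEnd S t0 t1 k = true) :
    ∃ T0 T1 : ℤ, k T0 T1 = true ∧ ∀ k0 k1 b, Pol S k0 k1 t0 t1 b →
      T0 * b.re ≤ 1000 * b.im ∧ 1000 * b.im ≤ T1 * b.re := by
  unfold tEnd at h
  cases S
  · rw [cond_false] at h
    refine ⟨_, _, h, ?_⟩
    rintro k0 k1 b ⟨-, -, -, h1, h2⟩
    simp only [Bool.false_eq_true, if_false] at h1 h2
    rw [iofNat, iofNat]
    push_cast
    constructor <;> linarith
  · rw [cond_true, bd_eq, bd_eq] at h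
    refine ⟨_, _, h, ?_⟩
    rintro k0 k1 b ⟨-, -, -, h1, h2⟩
    simp only [if_true] at h1 h2
    rw [ineg, ineg, iofNat, iofNat]
    push_cast
    constructor <;> linarith

theorem abI5 {s : ℤ} (h : leI (Int.mul 5 (abI s)) 33554432 = true) : |(s : ℝ) / 16777216| ≤ 2 / 5 := by
  have h1 := leI_ok h
  rw [imul, abI_eq] at h1
  have h2 : (5 : ℝ) * |(s : ℝ)| ≤ 33554432 := by exact_mod_cast h1
  rw [abs_div, abs_of_pos (show (0 : ℝ) < 16777216 by norm_num), div_le_iff₀ (by norm_num)]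
  linarith only [h2]

/-- The logarithm of a quotient in the right half plane. -/
theorem log_q {b β : ℂ} (hβ : β ≠ 0) (hr : 0 < b.re * β.re + b.im * β.im) :
    ∃ u : ℂ, exp u * β = b ∧ u.re = Real.log ((b.re ^ 2 + b.im ^ 2) / (β.re ^ 2 + β.im ^ 2)) / 2 ∧
      u.im = Real.arctan ((b.im * β.re - b.re * β.im) / (b.re * β.re + b.im * β.im)) := by
  have hN : 0 < β.re ^ 2 + β.im ^ 2 := by
    have := normSq_pos.2 hβ
    rw [normSq_apply] at this
    linarith only [this]
  have hq1 : (b / β).re = (b.re * β.re + b.im * β.im) / (β.re ^ 2 + β.im ^ 2) := by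
    rw [div_re, normSq_apply]
    field_simp
  have hq2 : (b / β).im = (b.im * β.re - b.re * β.im) / (β.re ^ 2 + β.im ^ 2) := by
    rw [div_im, normSq_apply]
    field_simp
  have hpos : 0 < (b / β).re := by
    rw [hq1]
    positivity
  have hne : b / β ≠ 0 := by
    intro h0
    rw [h0] at hpos
    simp at hpos
  have hb : b ≠ 0 := by
    intro h0
    rw [h0] at hne
    simp at hne
  refine ⟨log (b / β), ?_, ?_, ?_⟩
  · rw [exp_log hne, div_mul_cancel₀ _ hβ]
  · have hnb : 0 < b.re ^ 2 + b.im ^ 2 := by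
      have := normSq_pos.2 hb
      rw [normSq_apply] at this
      linarith only [this]
    rw [log_re]
    have h1 : ‖b / β‖ ^ 2 = (b.re ^ 2 + b.im ^ 2) / (β.re ^ 2 + β.im ^ 2) := by
      rw [norm_div, div_pow, Complex.sq_norm, Complex.sq_norm, normSq_apply, normSq_apply]
      congr 1 <;> ring
    rw [← h1, Real.log_pow]
    push_cast
    ring
  · rw [log_im]
    have h1 : Real.tan (arg (b / β)) =
        (b.im * β.re - b.re * β.im) / (b.re * β.re + b.im * β.im) := by
      rw [tan_arg, hq1, hq2]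
      field_simp
    rw [← h1]
    have h2 := abs_arg_lt_pi_div_two_iff.2 (Or.inl hpos)
    rw [abs_lt] at h2
    exact (Real.arctan_tan h2.1 h2.2).symm

theorem rect_ok {S : Bool} {k0 k1 t0 t1 : ℕ} {x y : ℤ} {K : ℤ → ℤ → ℤ → ℤ → Bool}
    (h : rect S k0 k1 t0 t1 x y K = true) :
    ∃ cx rx cy ry : ℤ, 0 ≤ rx ∧ 0 ≤ ry ∧ K cx rx cy ry = true ∧
      ((((x : ℝ) / 16777216 : ℝ) : ℂ) + (((y : ℝ) / 16777216 : ℝ) : ℂ) * I) ≠ 0 ∧
      ∀ b : ℂ, Pol S k0 k1 t0 t1 b → ∃ u : ℂ,
        exp u * ((((x : ℝ) / 16777216 : ℝ) : ℂ) + (((y : ℝ) / 16777216 : ℝ) : ℂ) * I) = b ∧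
        |u.re * 16777216 - cx| ≤ rx ∧ |u.im * 16777216 - cy| ≤ ry := by
  unfold rect at h
  obtain ⟨hk0, h⟩ := cond_ok h
  obtain ⟨m, hm, h⟩ := bd_ok h
  obtain ⟨n0, hn0, h⟩ := bd_ok h
  obtain ⟨n1, hn1, h⟩ := bd_ok h
  obtain ⟨sl, hsl, h⟩ := bd_ok h
  obtain ⟨sh, hsh, h⟩ := bd_ok h
  obtain ⟨b1, h⟩ := cond_ok h
  obtain ⟨b2, h⟩ := cond_ok h
  obtain ⟨L, h, hL⟩ := ahL_ok h (abI5 b1)
  obtain ⟨H, h, hH⟩ := ahU_ok h (abI5 b2)
  obtain ⟨cx, rx, hrx, h, hcx⟩ := mid_ok h
  obtain ⟨T0, T1, h, hT⟩ := tEnd_ok h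
  obtain ⟨d0, hd0, h⟩ := bd_ok h
  obtain ⟨d1, hd1, h⟩ := bd_ok h
  obtain ⟨p0, h⟩ := cond_ok h
  obtain ⟨p1, h⟩ := cond_ok h
  obtain ⟨zl, hzl, h⟩ := bd_ok h
  obtain ⟨zh, hzh, h⟩ := bd_ok h
  obtain ⟨L', h, hL'⟩ := anL_ok h
  obtain ⟨H', h, hH'⟩ := anU_ok h
  obtain ⟨cy, ry, hry, h, hcy⟩ := mid_ok h
  have q0 : (0 : ℝ) < d0 := by exact_mod_cast ltI_ok p0
  have q1 : (0 : ℝ) < d1 := by exact_mod_cast ltI_ok p1
  have hk0' : (0 : ℝ) < k0 := by
    have := ltI_ok hk0
    rw [iofNat] at this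
    exact_mod_cast this
  have ed0 : (d0 : ℝ) = 1000 * x + T0 * y := by
    rw [hd0, iadd, imul, imul]
    push_cast
    ring
  have ed1 : (d1 : ℝ) = 1000 * x + T1 * y := by
    rw [hd1, iadd, imul, imul]
    push_cast
    ring
  have em : (m : ℝ) = 1000000 * ((x : ℝ) ^ 2 + y ^ 2) := by
    rw [hm, imul, iadd, imul, imul]
    push_cast
    ring
  have en0 : (n0 : ℝ) = 281474976710656 * (k0 : ℝ) ^ 2 := by
    rw [hn0, imul, iofNat]
    show (((281474976710656 * ((k0 * k0 : ℕ) : ℤ)) : ℤ) : ℝ) = _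
    push_cast
    ring
  have en1 : (n1 : ℝ) = 281474976710656 * (k1 : ℝ) ^ 2 := by
    rw [hn1, imul, iofNat]
    show (((281474976710656 * ((k1 * k1 : ℕ) : ℤ)) : ℤ) : ℝ) = _
    push_cast
    ring
  have hxy : (0 : ℝ) < (x : ℝ) ^ 2 + y ^ 2 := by
    by_contra hc
    have h1 : (x : ℝ) ^ 2 + y ^ 2 = 0 := le_antisymm (not_lt.1 hc) (by positivity)
    have h2 : (x : ℝ) = 0 := by nlinarith [sq_nonneg (x : ℝ), sq_nonneg (y : ℝ)]
    have h3 : (y : ℝ) = 0 := by nlinarith [sq_nonneg (x : ℝ), sq_nonneg (y : ℝ)]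
    rw [ed0, h2, h3] at q0
    simp at q0
  have hβre : ((((x : ℝ) / 16777216 : ℝ) : ℂ) + (((y : ℝ) / 16777216 : ℝ) : ℂ) * I).re =
      (x : ℝ) / 16777216 := by simp
  have hβim : ((((x : ℝ) / 16777216 : ℝ) : ℂ) + (((y : ℝ) / 16777216 : ℝ) : ℂ) * I).im =
      (y : ℝ) / 16777216 := by simp
  have hβ : ((((x : ℝ) / 16777216 : ℝ) : ℂ) + (((y : ℝ) / 16777216 : ℝ) : ℂ) * I) ≠ 0 := by
    intro h0
    rw [h0] at hβre hβim
    simp only [zero_re, zero_im] at hβre hβim
    have h2 : (x : ℝ) = 0 := by linarith only [hβre]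
    have h3 : (y : ℝ) = 0 := by linarith only [hβim]
    rw [h2, h3] at hxy
    simp at hxy
  have hm0 : (0 : ℝ) < m := by rw [em]; positivity
  have hn00 : (0 : ℝ) < n0 := by rw [en0]; positivity
  refine ⟨cx, rx, cy, ry, hrx, hry, h, hβ, ?_⟩
  intro b hb
  obtain ⟨T2, T3⟩ := hT k0 k1 b hb
  obtain ⟨hre, hk1, hk2, -, -⟩ := hb
  have hn : (0 : ℝ) < b.re ^ 2 + b.im ^ 2 := by positivity
  have hk1' : (n0 : ℝ) ≤ 281474976710656 * (1000000 * (b.re ^ 2 + b.im ^ 2)) := by
    rw [en0]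
    linarith only [hk1]
  have hk2' : 281474976710656 * (1000000 * (b.re ^ 2 + b.im ^ 2)) ≤ (n1 : ℝ) := by
    rw [en1]
    linarith only [hk2]
  -- the real part of the quotient
  have hD : (0 : ℝ) < b.re * x + b.im * y := by
    rcases le_total 0 (y : ℝ) with hy | hy
    · have h1 : T0 * b.re * y ≤ 1000 * b.im * y := mul_le_mul_of_nonneg_right T2 hy
      have h2 : 0 < (1000 * x + T0 * y) * b.re := by rw [← ed0]; positivity
      linarith only [h2, h1]
    · have h1 : T1 * b.re * y ≤ 1000 * b.im * y := mul_le_mul_of_nonpos_right T3 hy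
      have h2 : 0 < (1000 * x + T1 * y) * b.re := by rw [← ed1]; positivity
      linarith only [h2, h1]
  obtain ⟨u, hu, hure, huim⟩ := log_q (b := b) hβ (by rw [hβre, hβim]; linarith only [hD])
  refine ⟨u, hu, ?_, ?_⟩
  · rw [hβre, hβim] at hure
    have e : (b.re ^ 2 + b.im ^ 2) / (((x : ℝ) / 16777216) ^ 2 + ((y : ℝ) / 16777216) ^ 2) =
        281474976710656 * (1000000 * (b.re ^ 2 + b.im ^ 2)) / m := by
      rw [em]
      field_simp
      norm_num
    obtain ⟨n, hn'⟩ : ∃ n : ℝ, n = 281474976710656 * (1000000 * (b.re ^ 2 + b.im ^ 2)) := ⟨_, rfl⟩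
    rw [e, ← hn'] at hure
    rw [← hn'] at hk1' hk2'
    have hnp : 0 < n := by linarith only [hk1', hn00]
    rw [← aht_log hnp hm0] at hure
    have hn1p : (0 : ℝ) < n1 := by linarith only [hk2, hk1, hn00, en1, en0]
    have s1 : (sl : ℝ) / 16777216 ≤ (n - m) / (n + m) := by
      have c1 : (sl : ℝ) ≤ (16777216 * (n0 - m)) / (n0 + m) := by
        have := dnI_le (a := Int.mul 16777216 (Int.sub n0 m)) (b := Int.add n0 m) (by
          rw [iadd]
          have : (0 : ℝ) < ((n0 + m : ℤ) : ℝ) := by push_cast; linarith only [hn00, hxy, em]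
          exact_mod_cast this)
        rw [← hsl, imul, isub, iadd] at this
        push_cast at this
        exact this
      have c2 : ((n0 : ℝ) - m) / (n0 + m) ≤ (n - m) / (n + m) := by
        rw [div_le_div_iff₀ (by linarith only [hn00, hxy, em]) (by linarith only [hk1', hn00, hxy,
                                                                     em])]
        linarith only [mul_nonneg (sub_nonneg.2 em.le) (sub_nonneg.2 hk2'),
          mul_nonneg (sub_nonneg.2 em.ge) (sub_nonneg.2 hk2'),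
          mul_nonneg (sub_nonneg.2 em.le) (sub_nonneg.2 en1.le),
          mul_nonneg (sub_nonneg.2 em.ge) (sub_nonneg.2 en1.le),
          mul_nonneg (sub_nonneg.2 em.le) (sub_nonneg.2 en0.le),
          mul_nonneg (sub_nonneg.2 em.ge) (sub_nonneg.2 en0.le),
          mul_nonneg (sq_nonneg (↑k0)) (sub_nonneg.2 em.le),
          mul_nonneg (sq_nonneg (↑k0)) (sub_nonneg.2 em.ge),
          mul_nonneg (sq_nonneg (↑k1)) (sub_nonneg.2 em.le),
          mul_nonneg (sq_nonneg (↑k1)) (sub_nonneg.2 em.ge),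
          mul_nonneg (sq_nonneg (↑y)) (sub_nonneg.2 hk1'),
          mul_nonneg (sq_nonneg (↑x)) (sub_nonneg.2 hk1')]
      have c3 : (16777216 * ((n0 : ℝ) - m)) / (n0 + m) = 16777216 * (((n0 : ℝ) - m) / (n0 + m)) := by
        ring
      rw [c3] at c1
      linarith only [c2, c1]
    have s2 : (n - m) / (n + m) ≤ (sh : ℝ) / 16777216 := by
      have c1 : (16777216 * ((n1 : ℝ) - m)) / (n1 + m) ≤ (sh : ℝ) := by
        have := le_upI (a := Int.mul 16777216 (Int.sub n1 m)) (b := Int.add n1 m) (by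
          rw [iadd]
          have : (0 : ℝ) < ((n1 + m : ℤ) : ℝ) := by push_cast; linarith only [hk2, hk1, hn00, hxy,
                                                                 en1, en0, em]
          exact_mod_cast this)
        rw [← hsh, imul, isub, iadd] at this
        push_cast at this
        exact this
      have c2 : (n - m) / (n + m) ≤ ((n1 : ℝ) - m) / (n1 + m) := by
        rw [div_le_div_iff₀ (by linarith only [hk1', hn00, hxy, em]) (by linarith only [hk2, hk1,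
                                                                           hn00, hxy, en1, en0, em])]
        linarith only [mul_nonneg (sub_nonneg.2 em.le) (sub_nonneg.2 hk2'),
          mul_nonneg (sub_nonneg.2 em.ge) (sub_nonneg.2 hk2'),
          mul_nonneg (sq_nonneg (↑y)) (sub_nonneg.2 hk2'),
          mul_nonneg (sq_nonneg (↑x)) (sub_nonneg.2 hk2')]
      have c3 : (16777216 * ((n1 : ℝ) - m)) / (n1 + m) = 16777216 * (((n1 : ℝ) - m) / (n1 + m)) := by
        ring
      rw [c3] at c1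
      linarith only [c2, c1]
    have r1 := abs_le.1 (abI5 b1)
    have r2 := abs_le.1 (abI5 b2)
    have a1 := aht_mono (by linarith only [r1.1]) s1 (by linarith only [r2.2, s2])
    have a2 := aht_mono (by linarith only [r1.1, s1]) s2 (by linarith only [r2.2])
    rw [hure]
    exact hcx _ (by linarith only [a1, hL]) (by linarith only [a2, hH])
  · rw [hβre, hβim] at huim
    have e : (b.im * ((x : ℝ) / 16777216) - b.re * ((y : ℝ) / 16777216)) /
        (b.re * ((x : ℝ) / 16777216) + b.im * ((y : ℝ) / 16777216)) =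
          (b.im * x - b.re * y) / (b.re * x + b.im * y) := by
      have h1 : b.re * ((x : ℝ) / 16777216) + b.im * ((y : ℝ) / 16777216) ≠ 0 := by
        have : b.re * ((x : ℝ) / 16777216) + b.im * ((y : ℝ) / 16777216) =
          (b.re * x + b.im * y) / 16777216 := by ring
        rw [this]
        positivity
      rw [div_eq_div_iff h1 hD.ne']
      ring
    rw [e] at huim
    have z1 : (zl : ℝ) / 16777216 ≤ (b.im * x - b.re * y) / (b.re * x + b.im * y) := by
      have c1 : (zl : ℝ) ≤ 16777216 * (T0 * x - 1000 * y) / d0 := by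
        have := dnI_le (a := Int.mul 16777216 (Int.sub (Int.mul T0 x) (Int.mul 1000 y))) (b := d0)
          (ltI_ok p0)
        rw [← hzl, imul, isub, imul, imul] at this
        push_cast at this
        exact this
      have c2 : (T0 * x - 1000 * y) / (d0 : ℝ) ≤ (b.im * x - b.re * y) / (b.re * x + b.im * y) := by
        rw [div_le_div_iff₀ q0 hD, ed0]
        linarith only [mul_nonneg (sq_nonneg (↑y)) (sub_nonneg.2 T2),
          mul_nonneg (sq_nonneg (↑x)) (sub_nonneg.2 T2)]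
      have c3 : 16777216 * (T0 * x - 1000 * y) / (d0 : ℝ) = 16777216 * ((T0 * x - 1000 * y) / (d0 : ℝ)) := by
        ring
      rw [c3] at c1
      linarith only [c2, c1]
    have z2 : (b.im * x - b.re * y) / (b.re * x + b.im * y) ≤ (zh : ℝ) / 16777216 := by
      have c1 : 16777216 * (T1 * x - 1000 * y) / (d1 : ℝ) ≤ zh := by
        have := le_upI (a := Int.mul 16777216 (Int.sub (Int.mul T1 x) (Int.mul 1000 y))) (b := d1)
          (ltI_ok p1)
        rw [← hzh, imul, isub, imul, imul] at this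
        push_cast at this
        exact this
      have c2 : (b.im * x - b.re * y) / (b.re * x + b.im * y) ≤ (T1 * x - 1000 * y) / (d1 : ℝ) := by
        rw [div_le_div_iff₀ hD q1, ed1]
        linarith only [mul_nonneg (sq_nonneg (↑y)) (sub_nonneg.2 T3),
          mul_nonneg (sq_nonneg (↑x)) (sub_nonneg.2 T3)]
      have c3 : 16777216 * (T1 * x - 1000 * y) / (d1 : ℝ) = 16777216 * ((T1 * x - 1000 * y) / (d1 : ℝ)) := by
        ring
      rw [c3] at c1
      linarith only [c2, c1]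
    have a1 := Real.arctan_strictMono.monotone z1
    have a2 := Real.arctan_strictMono.monotone z2
    rw [huim]
    exact hcy _ (by linarith only [a1, hL']) (by linarith only [a2, hH'])

end Pool.Agent.S5.K
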