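import Pool.Agent.S5.K.Ck0
import Pool.Agent.S5.K.Rt

/-!
# The data of a cell: the check

`ckC`: if the check of the record `c` is true, then the slopes and the critical point of a node with
two half twists, whose slots are in the two regions, satisfy the bounds of `c`.
-/

set_option autoImplicit false

namespace Pool.Agent.S5.K

open Complex Pool.Agent.S5.Num

/-- The check with the rectangles. -/
def ck1 (B : BD) (n : ND) (ux ur uy us vx vr vy vs : ℤ) (c : Cd) : Bool :=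
  nr2 ux ur uy us (fun um => nr2 vx vr vy vs (fun vm =>
  nr2 (vx - ux) (ur + vr) (vy - uy) (us + vs) (fun D =>
  sec n um vm D (fun R1 R2 => fin2 B n ux ur uy us vx vr vy vs um vm R1 R2 c))))

/-- The check of the data of a cell. -/
def ckC (s : Bool) (k0 k1 t0 t1 : ℕ) (s' : Bool) (k0' k1' t0' t1' : ℕ) (c : Cd) : Bool :=
  bas c.ia c.ja c.ib c.jb (fun B => nrm B (fun n =>
  rect s k0 k1 t0 t1 B.lx B.ly (fun ux ur uy us =>
  rect s' k0' k1' t0' t1' B.rx B.ry (fun vx vr vy vs => ck1 B n ux ur uy us vx vr vy vs c))))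

theorem ckC_ok {s : Bool} {k0 k1 t0 t1 : ℕ} {s' : Bool} {k0' k1' t0' t1' : ℕ} {c : Cd}
    (h : ckC s k0 k1 t0 t1 s' k0' k1' t0' t1' c = true) {Bl Br k E ya yb la lb : ℂ}
    (nd : Nd2 Bl Br k E ya yb la lb) (hl : Pol s k0 k1 t0 t1 Bl) (hr : Pol s' k0' k1' t0' t1' Br) :
    CdOK c ya yb la lb := by
  unfold ckC at h
  obtain ⟨_, _, _, _, B, h, b⟩ := bas_ok h
  obtain ⟨n, h, nk⟩ := nrm_ok h b
  obtain ⟨ux, ur, uy, us, _, _, h, _, hru⟩ := rect_ok h
  obtain ⟨vx, vr, vy, vs, _, _, h, _, hrv⟩ := rect_ok h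
  obtain ⟨u, hub, hu1, hu2⟩ := hru Bl hl
  obtain ⟨v, hvb, hv1, hv2⟩ := hrv Br hr
  have hu : Rc u ux ur uy us := ⟨hu1, hu2⟩
  have hv : Rc v vx vr vy vs := ⟨hv1, hv2⟩
  unfold ck1 at h
  obtain ⟨um, h, hum⟩ := nr2_ok h
  obtain ⟨vm, h, hvm⟩ := nr2_ok h
  obtain ⟨D, h, hD⟩ := nr2_ok h
  have hq0 : tc B.ex B.ey ^ 2 - 1 ≠ 0 := by
    intro h
    have := b.q0
    rw [h, norm_zero] at this
    linarith
  have hE : (tc B.ex B.ey).im < 0 := by
    rw [tc_im]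
    have : (B.ey : ℝ) < 0 := by exact_mod_cast b.ey
    linarith
  obtain ⟨huv, R1, R2, h, h', M, F, χ, Q, X0, X, nb, hc⟩ :=
    sec_ok h nk (div_mul_cancel₀ _ hq0) hE
  exact fin2_ok h nd b nk hu hv hub hvb (hum u hu) (hvm v hv) (hD _ (hu.sub hv)) huv nb hc

/-- The product of the cells of the tree. -/
theorem ckC_ok' {s s' : Bool} {k0 k1 t0 t1 k0' k1' t0' t1' : ℕ} {c : Cd}
    (h : ckC s k0 k1 t0 t1 s' k0' k1' t0' t1' c = true) {Bl Br k E ya yb la lb : ℂ}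
    (nd : Nd2 Bl Br k E ya yb la lb) : Pol s k0 k1 t0 t1 Bl → Pol s' k0' k1' t0' t1' Br →
      CdOK c ya yb la lb := fun hl hr => ckC_ok h nd hl hr

end Pool.Agent.S5.K
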