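import Pool.Agent.S5.K.Fi
import Pool.Agent.S5.K.Vst
import Pool.Agent.S5.I.TbX
import Pool.Agent.S5.I.Bw
import Pool.Agent.S5.I.NDefs

/-!
# Look-up of the slopes of closed nodes at the points of the grid
-/

set_option autoImplicit false

namespace Pool.Agent.S5.K

open Complex Pool.Agent.S5.Num Pool.Agent.S5.Tb Pool.Agent.S3 Pool.Agent.H63.VC3

/-- The values of `hh` at `i / 200 + I (j - 120) / 200`, `i ≤ 100`, in units of `2 ^ (-20)`. -/
def hz0 (i j : ℕ) (K : ℤ → ℤ → Bool) : Bool :=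
  cond (Nat.ble 120 j)
    (fN (fun e => bd (Int.sub (Int.ofNat (lE e)) 8388608) (fun l => bd (Int.ofNat (tE e)) (fun t => K l t)))
      (ent6 i (Nat.sub j 120)))
    (fN (fun e => bd (Int.sub (Int.ofNat (lE e)) 8388608) (fun l =>
      bd (Int.neg (Int.ofNat (tE e))) (fun t => K l t))) (ent6 i (Nat.sub 120 j)))

/-- The values of `hh` at `i / 200 + I (j - 120) / 200`, in units of `2 ^ (-20)`. -/
def hz (i j : ℕ) (K : ℤ → ℤ → Bool) : Bool :=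
  cond (Nat.ble 60 j) (cond (Nat.ble j 180) (cond (Nat.ble 1 i) (cond (Nat.ble i 199)
    (cond (Nat.ble i 100) (hz0 i j K) (hz0 (Nat.sub 200 i) (Nat.sub 240 j) K)) false) false) false)
    false

/-- The point. -/
noncomputable def zp (i j : ℕ) : ℂ :=
  (((i : ℝ) / 200 : ℝ) : ℂ) + ((((j : ℝ) - 120) / 200 : ℝ) : ℂ) * I

theorem lE_le (e : ℕ) : lE e < 16777216 := Nat.mod_lt _ (by norm_num)

theorem hz0_ok {i j : ℕ} {K : ℤ → ℤ → Bool} (h : hz0 i j K = true) (hi : 1 ≤ i) (hi2 : i ≤ 100)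
    (hj : 60 ≤ j) (hj2 : j ≤ 180) : ∃ l t : ℤ, K l t = true ∧
      |(hh (zp i j)).re * 1048576 - l| ≤ 4 ∧ |(hh (zp i j)).im * 1048576 - t| ≤ 4 := by
  unfold hz0 at h
  have hi0 : (0 : ℝ) < (i : ℝ) / 200 := by
    have : (1 : ℝ) ≤ i := by exact_mod_cast hi
    linarith
  have hi1 : (i : ℝ) / 200 < 1 := by
    have : (i : ℝ) ≤ 100 := by exact_mod_cast hi2
    linarith
  rcases hc : Nat.ble 120 j with _ | _
  · rw [hc, cond_false, fN_eq] at h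
    have hj3 : j < 120 := by
      by_contra h3
      rw [Nat.ble_eq.mpr (by omega)] at hc
      exact absurd hc (by simp)
    obtain ⟨l, hl, h⟩ := bd_ok h
    obtain ⟨t, ht, h⟩ := bd_ok h
    refine ⟨l, t, h, ?_⟩
    rw [Nat.sub_eq] at hl ht
    have ok := ent6_ok i (120 - j) hi2 (by omega) (by omega)
    set e := ent6 i (120 - j) with he
    have hz : zp i j = (starRingEnd ℂ) (pt i (120 - j)) := by
      unfold zp pt
      rw [map_add, map_mul, conj_I, conj_ofReal, conj_ofReal, Nat.cast_sub hj3.le]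
      push_cast
      ring
    have hcj : hh (zp i j) = (starRingEnd ℂ) (hh (pt i (120 - j))) := by
      rw [hz]
      apply hh_conj
      · simp [pt]
        linarith
      · simp [pt]
        linarith
    have hre : (hh (pt i (120 - j))).re = Lg (((120 - j : ℕ) : ℝ) / 200) ((i : ℝ) / 200) := by
      unfold pt
      exact hh_re' _ _
    rw [hcj, conj_re, conj_im, hre, hl, ht, isub, ineg, iofNat, iofNat]
    push_cast
    have h1 := ok.l
    have h2 := ok.t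
    rw [abs_le] at h1 h2 ⊢
    rw [abs_le]
    refine ⟨⟨by linarith [h1.1], by linarith [h1.2]⟩, ⟨by linarith [h2.2], by linarith [h2.1]⟩⟩
  · rw [hc, cond_true, fN_eq] at h
    have hj3 : 120 ≤ j := Nat.ble_eq.mp hc
    obtain ⟨l, hl, h⟩ := bd_ok h
    obtain ⟨t, ht, h⟩ := bd_ok h
    refine ⟨l, t, h, ?_⟩
    rw [Nat.sub_eq] at hl ht
    have ok := ent6_ok i (j - 120) hi2 (by omega) (by omega)
    set e := ent6 i (j - 120) with he
    have hz : zp i j = pt i (j - 120) := by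
      unfold zp pt
      rw [Nat.cast_sub hj3]
      push_cast
      ring
    have hre : (hh (pt i (j - 120))).re = Lg (((j - 120 : ℕ) : ℝ) / 200) ((i : ℝ) / 200) := by
      unfold pt
      exact hh_re' _ _
    rw [hz, hre, hl, ht, isub, iofNat, iofNat]
    push_cast
    have h1 := ok.l
    have h2 := ok.t
    rw [abs_le] at h1 h2 ⊢
    rw [abs_le]
    refine ⟨⟨by linarith [h1.1], by linarith [h1.2]⟩, ⟨by linarith [h2.1], by linarith [h2.2]⟩⟩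

theorem hz_ok {i j : ℕ} {K : ℤ → ℤ → Bool} (h : hz i j K = true) : 1 ≤ i ∧ i ≤ 199 ∧
    ∃ l t : ℤ, K l t = true ∧
      |(hh (zp i j)).re * 1048576 - l| ≤ 4 ∧ |(hh (zp i j)).im * 1048576 - t| ≤ 4 := by
  unfold hz at h
  obtain ⟨h1, h⟩ := cond_ok h
  obtain ⟨h2, h⟩ := cond_ok h
  obtain ⟨h3, h⟩ := cond_ok h
  obtain ⟨h4, h⟩ := cond_ok h
  have g1 : 60 ≤ j := Nat.ble_eq.mp h1
  have g2 : j ≤ 180 := Nat.ble_eq.mp h2
  have g3 : 1 ≤ i := Nat.ble_eq.mp h3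
  have g4 : i ≤ 199 := Nat.ble_eq.mp h4
  refine ⟨g3, g4, ?_⟩
  rcases hc : Nat.ble i 100 with _ | _
  · rw [hc, cond_false] at h
    have g5 : 100 < i := by
      by_contra h3
      rw [Nat.ble_eq.mpr (by omega)] at hc
      exact absurd hc (by simp)
    rw [Nat.sub_eq, Nat.sub_eq] at h
    have := hz0_ok h (by omega) (by omega) (by omega) (by omega)
    have e : zp (200 - i) (240 - j) = 1 - zp i j := by
      unfold zp
      rw [Nat.cast_sub (by omega), Nat.cast_sub (by omega)]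
      push_cast
      ring
    rw [e, hh_one_sub] at this
    exact this
  · rw [hc, cond_true] at h
    exact hz0_ok h g3 (Nat.ble_eq.mp hc) g1 g2

/-- The slope `lcl a0 b0`; `(l1, t1)` at `1 / 2 - a0`, `(l3, t3)` at `a0 + b0`. -/
def lk1 (ia ja ib jb : ℕ) (l1 t1 l3 t3 : ℤ) (K : ℤ → ℤ → Bool) : Bool :=
  bd (Int.add (Int.sub (Int.mul 2 l1) l3)
    (Int.ediv (Int.mul 3294199 (Int.sub (Int.ofNat ja) (Int.ofNat jb))) 200)) (fun p =>
  bd (Int.sub (Int.sub (Int.mul 2 t1) t3)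
    (Int.ediv (Int.mul 3294199 (Int.sub (Int.sub (Int.ofNat ia) (Int.ofNat ib)) 100)) 200)) (fun q =>
    K p q))

theorem lcl_re (a b : ℂ) : (lcl a b).re = 2 * (hh (1 / 2 - a)).re - (hh (a + b)).re +
    Real.pi * (a.im - b.im) := by
  unfold lcl
  simp only [sub_re, mul_re, re_ofNat, im_ofNat, ofReal_re, ofReal_im, I_re, I_im, mul_im, sub_im,
    div_ofNat_re, div_ofNat_im, one_re, one_im]
  ring

theorem lcl_im (a b : ℂ) : (lcl a b).im = 2 * (hh (1 / 2 - a)).im - (hh (a + b)).im -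
    Real.pi * (a.re - b.re - 1 / 2) := by
  unfold lcl
  simp only [sub_re, mul_re, re_ofNat, im_ofNat, ofReal_re, ofReal_im, I_re, I_im, mul_im, sub_im,
    div_ofNat_re, div_ofNat_im, one_re, one_im]
  ring

theorem pi_round {n : ℤ} (h : |(n : ℝ)| ≤ 200) :
    |Real.pi * ((n : ℝ) / 200) * 1048576 - ((3294199 * n / 200 : ℤ) : ℝ)| ≤ 2 := by
  have h1 := Int.lt_ediv_add_one_mul_self (3294199 * n) (show (0 : ℤ) < 200 by norm_num)
  have h2 := Int.ediv_mul_le (3294199 * n) (show (200 : ℤ) ≠ 0 by norm_num)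
  have h1' : 3294199 * (n : ℝ) < (((3294199 * n / 200 : ℤ) : ℝ) + 1) * 200 := by exact_mod_cast h1
  have h2' : ((3294199 * n / 200 : ℤ) : ℝ) * 200 ≤ 3294199 * (n : ℝ) := by exact_mod_cast h2
  have p1 := Real.pi_gt_d20
  have p2 := Real.pi_lt_d20
  set m : ℝ := ((3294199 * n / 200 : ℤ) : ℝ) with hm
  have h3 : |(Real.pi * 1048576 - 3294199) * n| ≤ 1 * 200 := by
    rw [abs_mul]
    apply mul_le_mul _ h (abs_nonneg _) (by norm_num)
    rw [abs_le]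
    constructor <;> linarith
  have h4 := abs_le.1 h3
  rw [abs_le]
  constructor <;> linarith [h4.1, h4.2]

theorem lk1_ok {ia ja ib jb : ℕ} {l1 t1 l3 t3 : ℤ} {K : ℤ → ℤ → Bool}
    (h : lk1 ia ja ib jb l1 t1 l3 t3 K = true) (hia : ia ≤ 100) (hib : ib ≤ 100) (hja : ja ≤ 110)
    (hjb : jb ≤ 110)
    (g1 : |(hh (1 / 2 - gp ia ja)).re * 1048576 - l1| ≤ 4)
    (g2 : |(hh (1 / 2 - gp ia ja)).im * 1048576 - t1| ≤ 4)
    (g3 : |(hh (gp ia ja + gp ib jb)).re * 1048576 - l3| ≤ 4)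
    (g4 : |(hh (gp ia ja + gp ib jb)).im * 1048576 - t3| ≤ 4) :
    ∃ p q : ℤ, K p q = true ∧ |(lcl (gp ia ja) (gp ib jb)).re * 1048576 - p| ≤ 14 ∧
      |(lcl (gp ia ja) (gp ib jb)).im * 1048576 - q| ≤ 14 := by
  unfold lk1 at h
  obtain ⟨p, hp, h⟩ := bd_ok h
  obtain ⟨q, hq, h⟩ := bd_ok h
  refine ⟨p, q, h, ?_⟩
  have c1 : (ia : ℝ) ≤ 100 := by exact_mod_cast hia
  have c2 : (ib : ℝ) ≤ 100 := by exact_mod_cast hib
  have c3 : (ja : ℝ) ≤ 110 := by exact_mod_cast hja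
  have c4 : (jb : ℝ) ≤ 110 := by exact_mod_cast hjb
  have c5 : (0 : ℝ) ≤ ia := Nat.cast_nonneg _
  have c6 : (0 : ℝ) ≤ ib := Nat.cast_nonneg _
  have c7 : (0 : ℝ) ≤ ja := Nat.cast_nonneg _
  have c8 : (0 : ℝ) ≤ jb := Nat.cast_nonneg _
  have r1 := pi_round (n := (ja : ℤ) - jb) (by
    push_cast
    rw [abs_le]
    constructor <;> linarith)
  have r2 := pi_round (n := (ia : ℤ) - ib - 100) (by
    push_cast
    rw [abs_le]
    constructor <;> linarith)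
  rw [iadd, isub, imul, imul, iediv, isub, iofNat, iofNat] at hp
  rw [isub, isub, imul, imul, iediv, isub, isub, iofNat, iofNat] at hq
  rw [lcl_re, lcl_im, gp_re, gp_re, gp_im, gp_im, hp, hq]
  set m1 : ℤ := 3294199 * ((ja : ℤ) - jb) / 200 with hm1
  set m2 : ℤ := 3294199 * ((ia : ℤ) - ib - 100) / 200 with hm2
  push_cast at r1 r2 ⊢
  rw [abs_le] at g1 g2 g3 g4 r1 r2
  rw [abs_le, abs_le]
  refine ⟨⟨?_, ?_⟩, ⟨?_, ?_⟩⟩ <;> linarith [g1.1, g1.2, g2.1, g2.2, g3.1, g3.2, g4.1, g4.2, r1.1, r1.2, r2.1, r2.2]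

/-- Both slopes. -/
def lk (ia ja ib jb : ℕ) (K : ℤ → ℤ → ℤ → ℤ → Bool) : Bool :=
  cond (Nat.ble ia 99) (cond (Nat.ble ib 99) (cond (Nat.ble ja 110) (cond (Nat.ble jb 110)
    (hz (Nat.sub 100 ia) (Nat.sub 170 ja) (fun l1 t1 =>
      hz (Nat.sub 100 ib) (Nat.sub 170 jb) (fun l2 t2 =>
        hz (Nat.add ia ib) (Nat.add (Nat.add ja jb) 20) (fun l3 t3 =>
          lk1 ia ja ib jb l1 t1 l3 t3 (fun p q => lk1 ib jb ia ja l2 t2 l3 t3 (fun p' q' =>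
            K p q p' q')))))) false) false) false) false

theorem zp_half {ia ja : ℕ} (h1 : ia ≤ 100) (h2 : ja ≤ 170) :
    zp (100 - ia) (170 - ja) = 1 / 2 - gp ia ja := by
  unfold zp gp
  rw [Nat.cast_sub h1, Nat.cast_sub h2]
  push_cast
  ring

theorem zp_add (ia ja ib jb : ℕ) : zp (ia + ib) (ja + jb + 20) = gp ia ja + gp ib jb := by
  unfold zp gp
  push_cast
  ring

theorem lk_ok {ia ja ib jb : ℕ} {K : ℤ → ℤ → ℤ → ℤ → Bool} (h : lk ia ja ib jb K = true) :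
    ia ≤ 99 ∧ ib ≤ 99 ∧ 1 ≤ ia + ib ∧ ∃ p q p' q' : ℤ, K p q p' q' = true ∧
      |(lcl (gp ia ja) (gp ib jb)).re * 1048576 - p| ≤ 14 ∧
      |(lcl (gp ia ja) (gp ib jb)).im * 1048576 - q| ≤ 14 ∧
      |(lcl (gp ib jb) (gp ia ja)).re * 1048576 - p'| ≤ 14 ∧
      |(lcl (gp ib jb) (gp ia ja)).im * 1048576 - q'| ≤ 14 := by
  unfold lk at h
  obtain ⟨h1, h⟩ := cond_ok h
  obtain ⟨h2, h⟩ := cond_ok h
  obtain ⟨h3, h⟩ := cond_ok h
  obtain ⟨h4, h⟩ := cond_ok h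
  have g1 : ia ≤ 99 := Nat.ble_eq.mp h1
  have g2 : ib ≤ 99 := Nat.ble_eq.mp h2
  have g3 : ja ≤ 110 := Nat.ble_eq.mp h3
  have g4 : jb ≤ 110 := Nat.ble_eq.mp h4
  obtain ⟨_, _, l1, t1, h, a1, a2⟩ := hz_ok h
  obtain ⟨_, _, l2, t2, h, a3, a4⟩ := hz_ok h
  obtain ⟨h5, _, l3, t3, h, a5, a6⟩ := hz_ok h
  rw [Nat.sub_eq, Nat.sub_eq, zp_half (by omega) (by omega)] at a1 a2 a3 a4
  rw [Nat.add_eq, Nat.add_eq, Nat.add_eq, zp_add] at a5 a6
  rw [Nat.add_eq] at h5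
  obtain ⟨p, q, h, b1, b2⟩ := lk1_ok h (by omega) (by omega) g3 g4 a1 a2 a5 a6
  rw [add_comm (gp ia ja)] at a5 a6
  obtain ⟨p', q', h, b3, b4⟩ := lk1_ok h (by omega) (by omega) g4 g3 a3 a4 a5 a6
  exact ⟨g1, g2, h5, p, q, p', q', h, b1, b2, b3, b4⟩

/-- The slope of an end: `b0 = 1 / 2`. -/
def lkE (ia ja : ℕ) (K : ℤ → ℤ → Bool) : Bool :=
  cond (Nat.ble ia 99) (cond (Nat.ble ja 110)
    (hz (Nat.sub 100 ia) (Nat.sub 170 ja) (fun l1 t1 =>
      hz (Nat.add ia 100) (Nat.add ja 70) (fun l3 t3 =>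
        lk1 ia ja 100 50 l1 t1 l3 t3 (fun p q => K p q)))) false) false

theorem gp_half : gp 100 50 = 1 / 2 := by
  unfold gp
  norm_num

theorem lkE_ok {ia ja : ℕ} {K : ℤ → ℤ → Bool} (h : lkE ia ja K = true) :
    ia ≤ 99 ∧ ∃ p q : ℤ, K p q = true ∧
      |(lcl (gp ia ja) (1 / 2)).re * 1048576 - p| ≤ 14 ∧
      |(lcl (gp ia ja) (1 / 2)).im * 1048576 - q| ≤ 14 := by
  unfold lkE at h
  obtain ⟨h1, h⟩ := cond_ok h
  obtain ⟨h3, h⟩ := cond_ok h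
  have g1 : ia ≤ 99 := Nat.ble_eq.mp h1
  have g3 : ja ≤ 110 := Nat.ble_eq.mp h3
  obtain ⟨_, _, l1, t1, h, a1, a2⟩ := hz_ok h
  obtain ⟨_, _, l3, t3, h, a5, a6⟩ := hz_ok h
  rw [Nat.sub_eq, Nat.sub_eq, zp_half (by omega) (by omega)] at a1 a2
  have e : zp (ia + 100) (ja + 70) = gp ia ja + gp 100 50 := by
    rw [← zp_add]
  rw [Nat.add_eq, Nat.add_eq, e] at a5 a6
  obtain ⟨p, q, h, b1, b2⟩ := lk1_ok h (by omega) (by omega) g3 (by omega) a1 a2 a5 a6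
  rw [gp_half] at b1 b2
  exact ⟨g1, p, q, h, b1, b2⟩

end Pool.Agent.S5.K
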