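import Pool.Agent.S5.K.Sy
import Pool.Agent.S5.K.Lk

/-!
# The data of a cell: the check without the rectangles
-/

set_option autoImplicit false

namespace Pool.Agent.S5.K

open Complex Pool.Agent.S5.Num

/-- The norm of a rectangle. -/
def nr2 (x r y s : ℤ) (K : ℕ → Bool) : Bool :=
  bd (abI x + r) (fun p => bd (abI y + s) (fun q => sqN (p * p + q * q) K))

theorem nr2_ok {x r y s : ℤ} {K : ℕ → Bool} (h : nr2 x r y s K = true) :
    ∃ m : ℕ, K m = true ∧ ∀ u : ℂ, Rc u x r y s → ‖u‖ ≤ sc m := by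
  unfold nr2 at h
  obtain ⟨p, hp, h⟩ := bd_ok h
  obtain ⟨q, hq, h⟩ := bd_ok h
  obtain ⟨m, hm, h⟩ := sqN_ok h
  refine ⟨m, h, ?_⟩
  intro u hu
  rw [abI_eq] at hp hq
  apply le_of_sq_le_sq _ (sc_nonneg m)
  rw [Complex.sq_norm, normSq_apply]
  have h1 : |u.re * 16777216| ≤ p := by
    have := abs_sub_abs_le_abs_sub (u.re * 16777216) x
    rw [hp]
    push_cast
    linarith [hu.re]
  have h2 : |u.im * 16777216| ≤ q := by
    have := abs_sub_abs_le_abs_sub (u.im * 16777216) y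
    rw [hq]
    push_cast
    linarith [hu.im]
  have h3 : (u.re * 16777216) ^ 2 ≤ (p : ℝ) ^ 2 := sq_le_sq' (by linarith [(abs_le.1 h1).1]) (abs_le.1 h1).2
  have h4 : (u.im * 16777216) ^ 2 ≤ (q : ℝ) ^ 2 := sq_le_sq' (by linarith [(abs_le.1 h2).1]) (abs_le.1 h2).2
  push_cast at hm
  unfold sc
  rw [div_pow, le_div_iff₀ (by norm_num)]
  nlinarith

theorem Rc.sub {u v : ℂ} {ux ur uy us vx vr vy vs : ℤ} (hu : Rc u ux ur uy us)
    (hv : Rc v vx vr vy vs) : Rc (v - u) (vx - ux) (ur + vr) (vy - uy) (us + vs) := by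
  have h1 := abs_le.1 hu.re
  have h2 := abs_le.1 hu.im
  have h3 := abs_le.1 hv.re
  have h4 := abs_le.1 hv.im
  constructor
  · rw [sub_re, abs_le]
    push_cast
    constructor <;> linarith [h1.1, h1.2, h3.1, h3.2]
  · rw [sub_im, abs_le]
    push_cast
    constructor <;> linarith [h2.1, h2.2, h4.1, h4.2]

/-- The last checks. -/
def fin2 (B : BD) (n : ND) (ux ur uy us vx vr vy vs : ℤ) (um vm R1 R2 : ℕ) (c : Cd) : Bool :=
  cond (Nat.ble 1 c.ia) (cond (Nat.ble 1 c.ib)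
  (cond (Nat.ble n.no 16777216) (cond (Nat.ble n.n1 16777216)
  (cond (Nat.ble (Nat.add n.G 64) 16777216)
  (lk c.ia c.ja c.ib c.jb (fun p q p' q' =>
  cond (sla B.ox B.oy B.gx B.gy ux ur uy us vx vr vy vs n.G1 R1 R2 p q c.l1 c.r1 c.l2 c.r2)
  (bd (16777216 - B.ox) (fun ox => bd (-B.oy) (fun oy =>
  cond (sla ox oy B.gx B.gy vx vr vy vs ux ur uy us n.G1 R1 R2 p' q' c.l3 c.r3 c.l4 c.r4)
  (cond (sly B.ox B.oy B.gx B.gy B.wx B.wy ux ur uy us vx vr vy vs um vm n.G R1 R2 c.ia c.ja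
    c.x1 c.x2 c.e1 c.e2)
  (sly ox oy B.gx B.gy B.zx B.zy vx vr vy vs ux ur uy us vm um n.G R1 R2 c.ib c.jb
    c.x3 c.x4 c.e3 c.e4) false) false))) false)) false) false) false) false) false

theorem exp_la {Bl Br k E ya yb la lb : ℂ} (nd : Nd2 Bl Br k E ya yb la lb) (hE : E ≠ 0)
    (hS : Bl + Br ≠ 0) : exp la = 2 * Bl ^ 2 / (E * (Bl + Br)) ∧
      exp lb = 2 * Br ^ 2 / (E * (Bl + Br)) := by
  have hk : k ≠ 0 := by
    intro h
    have := nd.kre
    rw [h] at this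
    simp at this
  have h1 := exp_log nd.bl0
  have h2 := exp_log nd.br0
  have h3 := exp_log hk
  have hkE := nd.kE
  have e1 : E * (Bl + Br) ≠ 0 := mul_ne_zero hE hS
  constructor
  · rw [nd.hla, show 2 * (log Bl - log k) = (log Bl - log k) + (log Bl - log k) by ring, exp_add,
      exp_sub, h1, h3, ← hkE]
    field_simp
  · rw [nd.hlb, show 2 * (log Br - log k) = (log Br - log k) + (log Br - log k) by ring, exp_add,
      exp_sub, h2, h3, ← hkE]
    field_simp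

/-- The slope at the actual node in terms of the slope at the base point. -/
theorem exp_la2 {bl E0 sg V0 V1 la la0 u w e Bl E S : ℂ} (h0 : exp la0 * (V0 * V1 - 1) = (1 + V0) ^ 2)
    (hla : exp la = 2 * Bl ^ 2 / (E * S)) (hB : exp u * bl = Bl) (hS : exp w * sg = S)
    (hE : E = E0 * exp e) (hE0 : E0 ≠ 0) (hsg : sg ≠ 0) (hV : 1 + V0 ≠ 0) :
    exp la = exp (la0 + (2 * u - e - w)) *
      (1 + (2 * bl ^ 2 * (V0 * V1 - 1) / (E0 * sg * (1 + V0) ^ 2) - 1)) := by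
  have e1 : exp (la0 + (2 * u - e - w)) = exp la0 * (exp u * exp u) / (exp e * exp w) := by
    rw [show la0 + (2 * u - e - w) = la0 + (u + u) - (e + w) by ring, exp_sub, exp_add, exp_add,
      exp_add]
  have h1 := exp_ne_zero e
  have h2 := exp_ne_zero w
  rw [hla, e1, ← hB, ← hS, hE]
  have e2 : exp la0 * (exp u * exp u) / (exp e * exp w) *
      (1 + (2 * bl ^ 2 * (V0 * V1 - 1) / (E0 * sg * (1 + V0) ^ 2) - 1)) =
      (exp la0 * (V0 * V1 - 1)) * (exp u * exp u) / (exp e * exp w) *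
        (2 * bl ^ 2 / (E0 * sg * (1 + V0) ^ 2)) := by ring
  rw [e2, h0]
  field_simp

theorem fin2_ok {B : BD} {n : ND} {ux ur uy us vx vr vy vs : ℤ} {um vm D R1 R2 : ℕ} {c : Cd}
    (h : fin2 B n ux ur uy us vx vr vy vs um vm R1 R2 c = true)
    {Bl Br k E ya yb la lb : ℂ} (nd : Nd2 Bl Br k E ya yb la lb)
    (b : BOK (exp (-(2 * Real.pi * I * gp c.ia c.ja))) (exp (-(2 * Real.pi * I * gp c.ib c.jb))) B)
    (nk : NOK B (tc B.lx B.ly / (tc B.lx B.ly + tc B.rx B.ry))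
      ((tc B.ex B.ey ^ 2 + 1) / (tc B.ex B.ey ^ 2 - 1)) n)
    {u v : ℂ} (hu : Rc u ux ur uy us) (hv : Rc v vx vr vy vs)
    (hub : exp u * tc B.lx B.ly = Bl) (hvb : exp v * tc B.rx B.ry = Br)
    (hum : ‖u‖ ≤ sc um) (hvm : ‖v‖ ≤ sc vm) (hD : ‖v - u‖ ≤ sc D) (huv : sc um + sc vm ≤ 1)
    {h' M F χ Q X0 X : ℝ} (nb : Nb (tc B.ex B.ey) (tc B.lx B.ly / (tc B.lx B.ly + tc B.rx B.ry))
      ((tc B.ex B.ey ^ 2 + 1) / (tc B.ex B.ey ^ 2 - 1)) (sc D) h' M F (sc R1) χ Q X0 X (sc n.e2)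
        (sc n.G) (sc R2) (1 / 131072)) (hc : sc n.n1 * sc um + sc n.no * sc vm + sc R1 ≤ χ) :
    CdOK c ya yb la lb := by
  unfold fin2 at h
  obtain ⟨c4, h⟩ := cond_ok h
  obtain ⟨c5, h⟩ := cond_ok h
  obtain ⟨c1, h⟩ := cond_ok h
  obtain ⟨c2, h⟩ := cond_ok h
  obtain ⟨c3, h⟩ := cond_ok h
  obtain ⟨i1, i2, i3, p, q, p', q', h, s1, s2, s3, s4⟩ := lk_ok h
  obtain ⟨a1, h⟩ := cond_ok h
  obtain ⟨ox, hox, h⟩ := bd_ok h
  obtain ⟨oy, hoy, h⟩ := bd_ok h
  obtain ⟨a2, h⟩ := cond_ok h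
  obtain ⟨a3, a4⟩ := cond_ok h
  set a0 := gp c.ia c.ja with ha0
  set b0 := gp c.ib c.jb with hb0
  set V0 := exp (-(2 * Real.pi * I * a0)) with hV0
  set V1 := exp (-(2 * Real.pi * I * b0)) with hV1
  set E0 := tc B.ex B.ey with hE0
  set bl := tc B.lx B.ly with hbl
  set br := tc B.rx B.ry with hbr
  set sg := bl + br with hsg
  set om := bl / sg with hom
  set g := (E0 ^ 2 + 1) / (E0 ^ 2 - 1) with hg
  have leU : ∀ m : ℕ, m ≤ 16777216 → sc m ≤ 1 := by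
    intro m hm
    unfold sc
    rw [div_le_one (by norm_num)]
    exact_mod_cast hm
  have no1 : ‖om‖ ≤ 1 := nk.no.trans (leU _ (Nat.ble_eq.mp c1))
  have n11 : ‖1 - om‖ ≤ 1 := nk.n1.trans (leU _ (Nat.ble_eq.mp c2))
  have g1 : ‖tc B.gx B.gy‖ ≤ 1 := by
    have k1 := leU _ (Nat.ble_eq.mp c3)
    rw [sc_add] at k1
    have k2 : sc 64 = 1 / 262144 := by
      unfold sc
      norm_num
    have := norm_sub_le g (g - tc B.gx B.gy)
    rw [sub_sub_cancel] at this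
    have := nk.G
    have := nk.gg
    linarith
  have hbl0 : bl ≠ 0 := by
    intro h
    have := b.l0
    rw [← hbl, h, norm_zero] at this
    linarith
  have hbr0 : br ≠ 0 := by
    intro h
    have := b.r0
    rw [← hbr, h, norm_zero] at this
    linarith
  have hsg0 : sg ≠ 0 := by
    intro h
    have := b.s0
    rw [← hbl, ← hbr, ← hsg, h, norm_zero] at this
    linarith
  have hE00 : E0 ≠ 0 := by
    intro h
    have := b.e0
    rw [← hE0, h, norm_zero] at this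
    linarith
  have hV0' : 1 + V0 ≠ 0 := by
    intro h
    have := b.u0
    rw [h, norm_zero] at this
    linarith
  have hV1' : 1 + V1 ≠ 0 := by
    intro h
    have := b.u1
    rw [h, norm_zero] at this
    linarith
  have hd : 3 * ‖2 * bl * br * E0 / (bl + br) - (E0 ^ 2 + 1)‖ ≤ 1 / 131072 := by
    have e1 : 2 * bl * br * E0 / (bl + br) - (E0 ^ 2 + 1) =
        (2 * bl * br * E0 - (E0 ^ 2 + 1) * (bl + br)) / (bl + br) := by
      have hsg1 : bl + br ≠ 0 := hsg0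
      rw [eq_div_iff hsg1, sub_mul, div_mul_cancel₀ _ hsg1]
    rw [e1, norm_div]
    have k1 := b.c8
    have k2 := b.s0
    have k3 : ‖2 * bl * br * E0 - (E0 ^ 2 + 1) * (bl + br)‖ / ‖bl + br‖ ≤
        1 / 524288 / (9 / 10) := div_le_div₀ (by norm_num) k1 (by norm_num) k2
    norm_num at k3 ⊢
    linarith
  have huv1 : ‖u‖ + ‖v‖ ≤ 1 := by linarith
  have hcc : ‖(1 - om) * u + om * v‖ + sc R1 ≤ χ := by
    have k1 : ‖(1 - om) * u‖ ≤ sc n.n1 * sc um := by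
      rw [norm_mul]
      exact mul_le_mul nk.n1 hum (norm_nonneg _) (sc_nonneg _)
    have k2 : ‖om * v‖ ≤ sc n.no * sc vm := by
      rw [norm_mul]
      exact mul_le_mul nk.no hvm (norm_nonneg _) (sc_nonneg _)
    have := norm_add_le ((1 - om) * u) (om * v)
    linarith
  have hu' : exp u = Bl / bl := by
    rw [eq_div_iff hbl0]
    exact hub
  have hv' : exp v = Br / br := by
    rw [eq_div_iff hbr0]
    exact hvb
  have hom' : om * (bl + br) = bl := by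
    rw [hom]
    exact div_mul_cancel₀ _ hsg0
  obtain ⟨w, e, hw, he, hws, hEe⟩ := node_core nd nb hbl0 hbr0 hsg0 hom' hd hu' hv' hD hcc
  have hEn : E ≠ 0 := by
    rw [hEe]
    exact mul_ne_zero hE00 (exp_ne_zero _)
  have hSn : Bl + Br ≠ 0 := by
    rw [← hws]
    exact mul_ne_zero (exp_ne_zero _) hsg0
  obtain ⟨x1, x2⟩ := exp_la nd hEn hSn
  -- the grid points
  have j0 : 0 < a0.re := by
    rw [ha0, gp_re]
    have : (1 : ℝ) ≤ (c.ia : ℝ) := by exact_mod_cast Nat.ble_eq.mp c4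
    linarith
  have j1 : a0.re < 1 / 2 := by
    rw [ha0, gp_re]
    have : (c.ia : ℝ) ≤ 99 := by exact_mod_cast i1
    linarith
  have j2 : 0 < b0.re := by
    rw [hb0, gp_re]
    have : (1 : ℝ) ≤ (c.ib : ℝ) := by exact_mod_cast Nat.ble_eq.mp c5
    linarith
  have j3 : b0.re < 1 / 2 := by
    rw [hb0, gp_re]
    have : (c.ib : ℝ) ≤ 99 := by exact_mod_cast i2
    linarith
  have z1 := exp_lcl j0 j1 j2 j3.le
  have z2 := exp_lcl j2 j3 j0 j1.le
  rw [← hV0, ← hV1] at z1 z2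
  have t1 := exp_la2 z1 x1 hub hws hEe hE00 hsg0 hV0'
  have t2 := exp_la2 z2 x2 hvb hws hEe hE00 hsg0 hV1'
  have r1 := tau_bound b.c1 b.c5 b.l1 b.e1 b.e0 b.s0 b.u0 (by norm_num)
  have c5' : ‖V1 * V0 - 1 - 2 * E0 ^ 3 * (bl + br)‖ ≤ 1 / 262144 := by
    rw [mul_comm V1]
    exact b.c5
  have r2 := tau_bound b.c2 c5' b.r1 b.e1 b.e0 b.s0 b.u1 (by norm_num)
  have hpi := Real.pi_pos
  have la_im : |la.im| < Real.pi := by
    rw [nd.hla]
    have k1 := abs_lt.1 nd.al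
    have k2 := abs_lt.1 nd.karg
    have e1 : (2 * (log Bl - log k)).im = 2 * (Bl.arg - k.arg) := by
      simp only [mul_im, re_ofNat, im_ofNat, sub_im, log_im]
      ring
    rw [e1, abs_lt]
    constructor <;> linarith [k1.1, k1.2, k2.1, k2.2]
  have lb_im : |lb.im| < Real.pi := by
    rw [nd.hlb]
    have k1 := abs_lt.1 nd.ar
    have k2 := abs_lt.1 nd.karg
    have e1 : (2 * (log Br - log k)).im = 2 * (Br.arg - k.arg) := by
      simp only [mul_im, re_ofNat, im_ofNat, sub_im, log_im]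
      ring
    rw [e1, abs_lt]
    constructor <;> linarith [k1.1, k1.2, k2.1, k2.2]
  have om2 : tc ox oy = 1 - tc B.ox B.oy := by
    rw [hox, hoy]
    unfold tc
    push_cast
    ring
  have hw2 : ‖w - ((1 - om) * v + (1 - (1 - om)) * u)‖ ≤ sc R1 := by
    rw [show (1 - om) * v + (1 - (1 - om)) * u = om * u + (1 - om) * v by ring]
    exact hw
  have he2 : ‖e - g * (v + u - w)‖ ≤ sc R2 := by
    rw [add_comm v u]
    exact he
  have ho2 : ‖(1 - om) - tc ox oy‖ ≤ 1 / 262144 := by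
    rw [om2, show (1 - om) - (1 - tc B.ox B.oy) = -(om - tc B.ox B.oy) by ring, norm_neg]
    exact nk.go
  have huv2 : ‖v‖ + ‖u‖ ≤ 1 := by linarith
  have n12 : ‖1 - (1 - om)‖ ≤ 1 := by
    rw [sub_sub_cancel]
    exact no1
  obtain ⟨f1, f2⟩ := sla_ok a1 hu hv hw he nk.G1 nk.go nk.gg n11 no1 g1 huv1 s1 s2 la_im t1 r1
  obtain ⟨f3, f4⟩ := sla_ok a2 hv hu hw2 he2 nk.G1 ho2 nk.gg n12 n11 g1 huv2 s3 s4 lb_im t2 r2
  have hVa : 1 + exp (-(2 * Real.pi * I * ya)) = 2 * bl * E0 * exp (u + e) := by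
    rw [nd.Va, hEe, ← hub, exp_add]
    ring
  have hVb : 1 + exp (-(2 * Real.pi * I * yb)) = 2 * br * E0 * exp (v + e) := by
    rw [nd.Vb, hEe, ← hvb, exp_add]
    ring
  obtain ⟨m1, m2, m3, m4⟩ := sly_ok a3 hu hv hw he nk.G nk.go nk.gg n11 no1 g1 hum hvm huv1 rfl hVa
    b.c1 b.c3 b.v0 nd.ya0 nd.ya1 (by omega)
  obtain ⟨m5, m6, m7, m8⟩ := sly_ok a4 hv hu hw2 he2 nk.G ho2 nk.gg n12 n11 g1 hvm hum huv2 rfl hVb
    b.c2 b.c4 b.v1 nd.yb0 nd.yb1 (by omega)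
  exact ⟨f1, f2, f3, f4, m1, m2, m5, m6, m3, m4, m7, m8⟩

end Pool.Agent.S5.K
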