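import Pool.Agent.S5.K.Ck

/-!
# The data of a cell: the check for the ends

`ckE`: if the check of the record `c` is true, then the slope and the critical point of an end with two
half twists, whose slot is in the region, satisfy the bounds of `c` (the other slot has `y = 1 / 2` and
slope `0`).
-/

set_option autoImplicit false

namespace Pool.Agent.S5.K

open Complex Pool.Agent.S5.Num

/-- The base point of an end. -/
def basE (ia ja : ℕ) (K : ℤ → ℤ → ℤ → ℤ → Bool) : Bool :=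
  vst ia ja (fun vx vy =>
  bd (Int.ediv (-vy) 2) (fun lx => bd (Int.ediv (16777216 + vx) 2) (fun ly =>
  cdv (16777216 + vx) vy vx vy (fun wx wy =>
  cond (chA 0 (-16777216) lx ly vx vy wx wy) (K lx ly wx wy) false))))

/-- The check of the data of a cell. -/
def ckE (s : Bool) (k0 k1 t0 t1 : ℕ) (c : Cd) : Bool :=
  cond (Nat.beq c.ib 100) (cond (Nat.beq c.jb 50)
  (cond (Nat.beq c.l3 8388608) (cond (Nat.beq c.l4 8388608)
  (cond (Nat.ble c.x3 1600) (cond (Nat.ble 1600 c.x4)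
  (cond (Nat.ble c.e3 800) (cond (Nat.ble 800 c.e4)
  (cond (Nat.ble 1 c.ia)
  (basE c.ia c.ja (fun lx ly wx wy =>
  rect s k0 k1 t0 t1 lx ly (fun ux ur uy us => nr2 ux ur uy us (fun um =>
  cond (Nat.ble um 16777216)
  (lkE c.ia c.ja (fun p q =>
  cond (sla 16777216 0 0 0 ux ur uy us 0 0 0 0 16777216 0 0 p q c.l1 c.r1 c.l2 c.r2)
  (sly 16777216 0 0 0 wx wy ux ur uy us 0 0 0 0 um 0 0 0 0 c.ia c.ja c.x1 c.x2 c.e1 c.e2)
  false)) false))))
  false) false) false) false) false) false) false) false) false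

theorem basE_ok {ia ja : ℕ} {K : ℤ → ℤ → ℤ → ℤ → Bool} (h : basE ia ja K = true) :
    ∃ lx ly wx wy : ℤ, K lx ly wx wy = true ∧ ia ≤ 100 ∧
      ‖2 * tc lx ly * (-I) - (1 + exp (-(2 * Real.pi * I * gp ia ja)))‖ ≤ 1 / 262144 ∧
      ‖tc wx wy * exp (-(2 * Real.pi * I * gp ia ja)) - 2 * tc lx ly * (-I)‖ ≤ 1 / 262144 ∧
      1 / 2 ≤ ‖exp (-(2 * Real.pi * I * gp ia ja))‖ ∧
      9 / 10 ≤ ‖1 + exp (-(2 * Real.pi * I * gp ia ja))‖ := by
  unfold basE at h
  obtain ⟨vx, vy, h, i1, -, hv⟩ := vst_ok h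
  obtain ⟨lx, -, h⟩ := bd_ok h
  obtain ⟨ly, -, h⟩ := bd_ok h
  obtain ⟨wx, wy, h⟩ := cdv_ok h
  obtain ⟨ha, h⟩ := cond_ok h
  obtain ⟨a1, a2, -, -, a5, a6, -⟩ := chA_ok ha hv
  have e : tc 0 (-16777216) = -I := by
    unfold tc
    push_cast
    norm_num
  rw [e] at a1 a2
  exact ⟨lx, ly, wx, wy, h, i1, a1, a2, a5, a6⟩

theorem ckE_ok {s : Bool} {k0 k1 t0 t1 : ℕ} {c : Cd} (h : ckE s k0 k1 t0 t1 c = true)
    {b k y l : ℂ} (nd : NdE b k y l) (hb : Pol s k0 k1 t0 t1 b) : CdOK c y (1 / 2) l 0 := by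
  unfold ckE at h
  obtain ⟨-, h⟩ := cond_ok h
  obtain ⟨-, h⟩ := cond_ok h
  obtain ⟨c3, h⟩ := cond_ok h
  obtain ⟨c4, h⟩ := cond_ok h
  obtain ⟨c5, h⟩ := cond_ok h
  obtain ⟨c6, h⟩ := cond_ok h
  obtain ⟨c7, h⟩ := cond_ok h
  obtain ⟨c8, h⟩ := cond_ok h
  obtain ⟨c9, h⟩ := cond_ok h
  obtain ⟨lx, ly, wx, wy, h, i1, b1, b2, b3, b4⟩ := basE_ok h
  obtain ⟨ux, ur, uy, us, _, _, h, _, hru⟩ := rect_ok h
  obtain ⟨um, h, hum⟩ := nr2_ok h
  obtain ⟨d1, h⟩ := cond_ok h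
  obtain ⟨i2, p, q, h, s1, s2⟩ := lkE_ok h
  obtain ⟨a1, a3⟩ := cond_ok h
  obtain ⟨u, hub, hu1, hu2⟩ := hru b hb
  have hu : Rc u ux ur uy us := ⟨hu1, hu2⟩
  have hub' : exp u * tc lx ly = b := hub
  have hz : Rc 0 0 0 0 0 := ⟨by simp, by simp⟩
  have hun := hum u hu
  have hun1 : ‖u‖ ≤ 1 := by
    have : sc um ≤ 1 := by
      unfold sc
      rw [div_le_one (by norm_num)]
      exact_mod_cast Nat.ble_eq.mp d1
    linarith
  set a0 := gp c.ia c.ja with ha0
  set V0 := exp (-(2 * Real.pi * I * a0)) with hV0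
  have hpi := Real.pi_pos
  -- the slope at the base point
  have j0 : 0 < a0.re := by
    rw [ha0, gp_re]
    have : (1 : ℝ) ≤ (c.ia : ℝ) := by exact_mod_cast Nat.ble_eq.mp c9
    linarith
  have j1 : a0.re < 1 / 2 := by
    rw [ha0, gp_re]
    have : (c.ia : ℝ) ≤ 99 := by exact_mod_cast i2
    linarith
  have hne : 1 + V0 ≠ 0 := by
    intro h
    rw [h, norm_zero] at b4
    linarith
  have z1 : exp (lcl a0 (1 / 2)) = -(1 + V0) := by
    have z2 := exp_lcl j0 j1 (b := 1 / 2) (by norm_num) (by norm_num)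
    have e : exp (-(2 * Real.pi * I * (1 / 2))) = -1 := by
      rw [show -(2 * (Real.pi : ℂ) * I * (1 / 2)) = -(Real.pi * I) by ring, exp_neg, exp_pi_mul_I]
      norm_num
    rw [e, ← hV0] at z2
    apply mul_right_cancel₀ hne
    linear_combination -z2
  -- the slope
  have hk : k ≠ 0 := by
    intro h
    have := nd.kre
    rw [h] at this
    simp at this
  have x1 : exp l = 2 * I * b := by
    have h1 := exp_log nd.b0
    have h3 := exp_log hk
    have hkE := nd.kE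
    rw [nd.hl, show 2 * (log b - log k) = (log b - log k) + (log b - log k) by ring, exp_add,
      exp_sub, h1, h3, div_mul_div_comm, div_eq_iff (mul_ne_zero hk hk)]
    linear_combination (-I * b) * hkE + b ^ 2 * I_sq
  have la_im : |l.im| < Real.pi := by
    rw [nd.hl]
    have k1 := abs_lt.1 nd.ab
    have k2 := abs_lt.1 nd.karg
    have e1 : (2 * (log b - log k)).im = 2 * (b.arg - k.arg) := by
      simp only [mul_im, re_ofNat, im_ofNat, sub_im, log_im]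
      ring
    rw [e1, abs_lt]
    constructor <;> linarith [k1.1, k1.2, k2.1, k2.2]
  set τ : ℂ := (2 * tc lx ly * (-I) - (1 + V0)) / (1 + V0) with hτ
  have t1 : exp l = exp (lcl a0 (1 / 2) + (2 * u - 0 - u)) * (1 + τ) := by
    have e : 1 + τ = 2 * tc lx ly * (-I) / (1 + V0) := by
      rw [hτ]
      field_simp
      ring
    rw [x1, ← hub', exp_add, z1, show 2 * u - 0 - u = u by ring, e]
    field_simp
  have r1 : ‖τ‖ ≤ 20 * (1 / 262144) := by
    rw [hτ, norm_div, div_le_iff₀ (by linarith)]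
    have : (20 : ℝ) * (1 / 262144) * (9 / 10) ≤ 20 * (1 / 262144) * ‖1 + V0‖ :=
      mul_le_mul_of_nonneg_left b4 (by norm_num)
    linarith
  have tc1 : tc 16777216 0 = 1 := by
    unfold tc
    push_cast
    norm_num
  have tc0 : tc 0 0 = 0 := by
    unfold tc
    push_cast
    norm_num
  have n0 : (0 : ℝ) ≤ sc 0 := sc_nonneg 0
  have hw : ‖u - (1 * u + (1 - 1) * 0)‖ ≤ sc 0 := by
    rw [show u - (1 * u + (1 - 1) * 0) = 0 by ring, norm_zero]
    exact n0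
  have he : ‖(0 : ℂ) - 0 * (u + 0 - u)‖ ≤ sc 0 := by
    rw [zero_mul, sub_zero, norm_zero]
    exact n0
  have hG1 : ‖(1 : ℂ) - 0‖ ≤ sc 16777216 := by
    unfold sc
    norm_num
  have hG0 : ‖(0 : ℂ)‖ ≤ sc 0 := by
    rw [norm_zero]
    exact n0
  have ho : ‖(1 : ℂ) - tc 16777216 0‖ ≤ 1 / 262144 := by
    rw [tc1, sub_self, norm_zero]
    norm_num
  have hg : ‖(0 : ℂ) - tc 0 0‖ ≤ 1 / 262144 := by
    rw [tc0, sub_self, norm_zero]
    norm_num
  have g0 : ‖tc 0 0‖ ≤ 1 := by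
    rw [tc0, norm_zero]
    norm_num
  have o1 : ‖(1 : ℂ) - 1‖ ≤ 1 := by
    rw [sub_self, norm_zero]
    norm_num
  have o2 : ‖(1 : ℂ)‖ ≤ 1 := by norm_num
  have huv : ‖u‖ + ‖(0 : ℂ)‖ ≤ 1 := by
    rw [norm_zero]
    linarith
  obtain ⟨f1, f2⟩ := sla_ok a1 hu hz hw he hG1 ho hg o1 o2 g0 huv s1 s2 la_im t1 r1
  have hVy : 1 + exp (-(2 * Real.pi * I * y)) = 2 * tc lx ly * (-I) * exp (u + 0) := by
    rw [nd.Vy, ← hub', add_zero]
    ring
  obtain ⟨m1, m2, m3, m4⟩ := sly_ok a3 hu hz hw he hG0 ho hg o1 o2 g0 hun hG0 huv rfl hVy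
    b1 b2 b3 nd.y0 nd.y1 (by omega)
  have k3 : c.l3 = 8388608 := Nat.eq_of_beq_eq_true c3
  have k4 : c.l4 = 8388608 := Nat.eq_of_beq_eq_true c4
  have k5 : (c.x3 : ℝ) ≤ 1600 := by exact_mod_cast Nat.ble_eq.mp c5
  have k6 : (1600 : ℝ) ≤ c.x4 := by exact_mod_cast Nat.ble_eq.mp c6
  have k7 : (c.e3 : ℝ) ≤ 800 := by exact_mod_cast Nat.ble_eq.mp c7
  have k8 : (800 : ℝ) ≤ c.e4 := by exact_mod_cast Nat.ble_eq.mp c8
  have y1 : (1 / 2 : ℂ).re = 1 / 2 := by norm_num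
  have y2 : (1 / 2 : ℂ).im = 0 := by norm_num
  exact
    { l1 := f1
      l2 := f2
      l3 := by
        rw [k3, zero_re]
        norm_num
      l4 := by
        rw [k4, zero_im]
        norm_num
      x1 := m1
      x2 := m2
      x3 := by
        rw [y1]
        linarith
      x4 := by
        rw [y1]
        linarith
      e1 := m3
      e2 := m4
      e3 := by
        rw [y2]
        linarith
      e4 := by
        rw [y2]
        linarith }

end Pool.Agent.S5.K
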