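import Pool.Agent.S5.K.RWa

/-!
# Closed nodes: the programs of the rows call their continuation
-/

set_option autoImplicit false

namespace Pool.Agent.S5.K

open Pool.Agent.S5.Num

theorem cN_ex {c : Bool} {t : Bool} (h : cN c t false = true) : t = true := by
  revert h
  exact cN_split (P := fun r => r = true → _) (fun _ h => h) (fun _ h => absurd h (by simp))

theorem fN_ex {f : ℕ → Bool} {n : ℕ} (h : fN f n = true) : ∃ m, f m = true := by
  rw [fN_eq] at h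
  exact ⟨n, h⟩

theorem bb_ex {lf : Nat → Nat → Nat → Nat → Nat → Nat → Nat → Nat → Bool} (n : ℕ) :
    ∀ (X1 X2 S1 S2 Y1 Y2 T1 T2 c : ℕ) (k : ℕ → Bool),
      bb lf n X1 X2 S1 S2 Y1 Y2 T1 T2 c k = true → ∃ c', k c' = true := by
  induction n with
  | zero =>
    intro X1 X2 S1 S2 Y1 Y2 T1 T2 c k h
    exact absurd h (by simp [bb])
  | succ n ih =>
    intro X1 X2 S1 S2 Y1 Y2 T1 T2 c k h
    have h' : fN (fun d => fN (fun c' =>
        cN (Nat.beq d 0) (cN (lf X1 X2 S1 S2 Y1 Y2 T1 T2) (k c') false)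
          (cN (Nat.beq d 1)
            (fN (fun m => bb lf n X1 m S1 S2 Y1 Y2 T1 T2 c' (fun c'' =>
              bb lf n m X2 S1 S2 Y1 Y2 T1 T2 c'' k)) (Nat.div (Nat.add X1 X2) 2))
            (cN (Nat.beq d 2)
              (fN (fun m => bb lf n X1 X2 S1 m Y1 Y2 T1 T2 c' (fun c'' =>
                bb lf n X1 X2 m S2 Y1 Y2 T1 T2 c'' k)) (Nat.div (Nat.add S1 S2) 2))
              (cN (Nat.beq d 3)
                (fN (fun m => bb lf n X1 X2 S1 S2 Y1 m T1 T2 c' (fun c'' =>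
                  bb lf n X1 X2 S1 S2 m Y2 T1 T2 c'' k)) (Nat.div (Nat.add Y1 Y2) 2))
                (fN (fun m => bb lf n X1 X2 S1 S2 Y1 Y2 T1 m c' (fun c'' =>
                  bb lf n X1 X2 S1 S2 Y1 Y2 m T2 c'' k)) (Nat.div (Nat.add T1 T2) 2))))))
        (Nat.div c 8)) (Nat.mod c 8) = true := h
    clear h
    revert h'
    rw [fN_eq, fN_eq]
    refine cN_split (P := fun r => r = true → _) (fun _ h => ⟨_, cN_ex h⟩) (fun _ => ?_)
    refine cN_split (P := fun r => r = true → _) (fun _ => ?_) (fun _ => ?_)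
    · rw [fN_eq]
      intro h
      obtain ⟨c1, h1⟩ := ih _ _ _ _ _ _ _ _ _ _ h
      exact ih _ _ _ _ _ _ _ _ _ _ h1
    refine cN_split (P := fun r => r = true → _) (fun _ => ?_) (fun _ => ?_)
    · rw [fN_eq]
      intro h
      obtain ⟨c1, h1⟩ := ih _ _ _ _ _ _ _ _ _ _ h
      exact ih _ _ _ _ _ _ _ _ _ _ h1
    refine cN_split (P := fun r => r = true → _) (fun _ => ?_) (fun _ => ?_)
    · rw [fN_eq]
      intro h
      obtain ⟨c1, h1⟩ := ih _ _ _ _ _ _ _ _ _ _ h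
      exact ih _ _ _ _ _ _ _ _ _ _ h1
    · rw [fN_eq]
      intro h
      obtain ⟨c1, h1⟩ := ih _ _ _ _ _ _ _ _ _ _ h
      exact ih _ _ _ _ _ _ _ _ _ _ h1

theorem RF_ex {f1 f2 m : ℕ} {k : Bool → ℕ → ℕ → ℕ → ℕ → Bool}
    (h : RF f1 f2 m k false = true) : ∃ a b c d e, k a b c d e = true := by
  revert h
  unfold RF
  refine cN_split (P := fun r => r = true → _) (fun _ h => ⟨_, _, _, _, _, h⟩) (fun _ => ?_)
  refine cN_split (P := fun r => r = true → _) (fun _ h => ⟨_, _, _, _, _, h⟩) (fun _ => ?_)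
  refine cN_split (P := fun r => r = true → _) (fun _ h => ⟨_, _, _, _, _, h⟩) (fun _ => ?_)
  refine cN_split (P := fun r => r = true → _) (fun _ h => ⟨_, _, _, _, _, h⟩) (fun _ => ?_)
  refine cN_split (P := fun r => r = true → _) (fun _ h => ⟨_, _, _, _, _, h⟩) (fun _ => ?_)
  refine cN_split (P := fun r => r = true → _) (fun _ h => ⟨_, _, _, _, _, h⟩) (fun _ => ?_)
  refine cN_split (P := fun r => r = true → _) (fun _ h => ⟨_, _, _, _, _, h⟩) (fun _ => ?_)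
  exact fun h => absurd h (by simp)

theorem RB_ex {m t a b : ℕ} {k : Bool → ℕ → ℕ → ℕ → ℕ → Bool}
    (h : RB m t a b k false = true) : ∃ a b c d e, k a b c d e = true := by
  revert h
  unfold RB
  refine cN_split (P := fun r => r = true → _) (fun _ h => absurd h (by simp)) (fun _ => ?_)
  refine cN_split (P := fun r => r = true → _) (fun _ h => absurd h (by simp)) (fun _ => ?_)
  refine cN_split (P := fun r => r = true → _) (fun _ h => ⟨_, _, _, _, _, h⟩) (fun _ => ?_)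
  refine cN_split (P := fun r => r = true → _) (fun _ h => ⟨_, _, _, _, _, h⟩) (fun _ => ?_)
  refine cN_split (P := fun r => r = true → _) (fun _ h => ⟨_, _, _, _, _, h⟩) (fun _ => ?_)
  exact fun h => ⟨_, _, _, _, _, h⟩

theorem RP_ex {e1 e2 p : ℕ} {k : ℕ → Bool → ℕ → ℕ → ℕ → ℕ → Bool}
    (h : RP e1 e2 p k false = true) : ∃ m a b c d e, k m a b c d e = true := by
  revert h
  unfold RP
  rw [fN_eq]
  refine cN_split (P := fun r => r = true → _) (fun _ h => ⟨_, RF_ex h⟩) (fun _ => ?_)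
  refine cN_split (P := fun r => r = true → _) (fun _ h => ⟨_, RF_ex h⟩) (fun _ => ?_)
  refine cN_split (P := fun r => r = true → _) (fun _ h => ⟨_, RB_ex h⟩) (fun _ h => ⟨_, RB_ex h⟩)

theorem RQ_ex {en : Bool} {e1 e2 p : ℕ} {k : ℕ → Bool → ℕ → ℕ → ℕ → ℕ → Bool}
    (h : RQ en e1 e2 p k false = true) : ∃ m a b c d e, k m a b c d e = true := by
  revert h
  unfold RQ
  exact cN_split (P := fun r => r = true → _) (fun _ h => ⟨_, _, _, _, _, _, h⟩)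
    (fun _ h => RP_ex h)

theorem rowsL_ex {en : Bool} {hkA dkA hkB dkB K0p K0n : ℕ} {A B : SD} {e1 e2 e3 e4 : ℕ}
    {fin : ℕ → ℕ → Bool} (n : ℕ) :
    ∀ mask c : ℕ, rowsL en hkA dkA hkB dkB K0p K0n A B e1 e2 e3 e4 fin n mask c = true →
      ∃ m c', fin m c' = true := by
  induction n with
  | zero => exact fun m c h => ⟨m, c, h⟩
  | succ n ih =>
    intro mask c h
    have h' : fN (fun id => fN (fun c1 =>
      RP e1 e2 (Nat.div id 32) (fun ma fa X1 X2 S1 S2 =>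
        RQ en e3 e4 (Nat.mod id 32) (fun mb fb Y1 Y2 T1 T2 =>
          fN (fun ha => fN (fun hb => fN (fun da => fN (fun db =>
            bb (fun X1 X2 S1 S2 Y1 Y2 T1 T2 =>
              LF en K0p K0n (ST A fa ha da X1 X2 S1 S2) (SB en B fb hb db Y1 Y2 T1 T2)
                X1 X2 S1 S2 Y1 Y2 T1 T2) 24 X1 X2 S1 S2 Y1 Y2 T1 T2 c1
              (fun c2 => rowsL en hkA dkA hkB dkB K0p K0n A B e1 e2 e3 e4 fin n
                (Nat.lor mask (Nat.shiftLeft 1 id)) c2))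
            (dC dkB mb)) (dC dkA ma)) (hC hkB mb)) (hC hkA ma)) false) false)
      (Nat.div c 1024)) (Nat.mod c 1024) = true := h
    obtain ⟨_, h'⟩ := fN_ex h'
    obtain ⟨_, h'⟩ := fN_ex h'
    obtain ⟨_, _, _, _, _, _, h'⟩ := RP_ex h'
    obtain ⟨_, _, _, _, _, _, h'⟩ := RQ_ex h'
    obtain ⟨_, h'⟩ := fN_ex h'
    obtain ⟨_, h'⟩ := fN_ex h'
    obtain ⟨_, h'⟩ := fN_ex h'
    obtain ⟨_, h'⟩ := fN_ex h'
    obtain ⟨_, h'⟩ := bb_ex _ _ _ _ _ _ _ _ _ _ _ h'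
    exact ih _ _ h'

theorem mkS_ex {cf ia ja lr li rr ri x1 x2 e1 e2 : ℕ} {k : SD → ℕ → ℕ → ℕ → ℕ → Bool}
    (h : mkS cf ia ja lr li rr ri x1 x2 e1 e2 k = true) : ∃ a b c d e, k a b c d e = true := by
  unfold mkS at h
  have h := cN_ex (cN_ex (cN_ex h))
  unfold kS at h
  obtain ⟨_, h⟩ := fN_ex h
  obtain ⟨_, h⟩ := fN_ex h
  obtain ⟨_, h⟩ := fN_ex h
  obtain ⟨_, h⟩ := fN_ex h
  have h := cN_ex h
  obtain ⟨_, h⟩ := fN_ex h
  obtain ⟨_, h⟩ := fN_ex h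
  obtain ⟨_, h⟩ := fN_ex h
  obtain ⟨_, h⟩ := fN_ex h
  obtain ⟨_, h⟩ := fN_ex h
  obtain ⟨_, h⟩ := fN_ex h
  obtain ⟨_, h⟩ := fN_ex h
  revert h
  exact cN_split (P := fun r => r = true → _) (fun _ h => ⟨_, _, _, _, _, h⟩)
    (fun _ h => ⟨_, _, _, _, _, h⟩)

theorem rowsN_ex {hkA dkA hkB dkB : ℕ}
    {ia ja ib jb l1 l2 l3 l4 r1 r2 r3 r4 x1 x2 x3 x4 e1 e2 e3 e4 : ℕ} {fin : ℕ → ℕ → Bool}
    {mask code : ℕ}
    (h : rowsN hkA dkA hkB dkB ia ja ib jb l1 l2 l3 l4 r1 r2 r3 r4 x1 x2 x3 x4 e1 e2 e3 e4 fin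
      mask code = true) : ∃ m c, fin m c = true := by
  unfold rowsN at h
  obtain ⟨_, _, _, _, _, h⟩ := mkS_ex h
  obtain ⟨_, _, _, _, _, h⟩ := mkS_ex h
  unfold kC at h
  obtain ⟨_, h⟩ := fN_ex h
  obtain ⟨_, h⟩ := fN_ex h
  obtain ⟨_, h⟩ := fN_ex h
  obtain ⟨_, h⟩ := fN_ex h
  obtain ⟨_, h⟩ := fN_ex h
  obtain ⟨_, h⟩ := fN_ex h
  have h := cN_ex (cN_ex (cN_ex h))
  obtain ⟨_, h⟩ := fN_ex h
  obtain ⟨_, h⟩ := fN_ex h
  obtain ⟨_, h⟩ := fN_ex h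
  obtain ⟨_, h⟩ := fN_ex h
  obtain ⟨_, h⟩ := fN_ex h
  exact rowsL_ex _ _ _ h

theorem rowsE_ex {hkA dkA ia ja l1 l2 r1 r2 x1 x2 e1 e2 : ℕ} {fin : ℕ → ℕ → Bool}
    {mask code : ℕ}
    (h : rowsE hkA dkA ia ja l1 l2 r1 r2 x1 x2 e1 e2 fin mask code = true) :
    ∃ m c, fin m c = true := by
  unfold rowsE at h
  obtain ⟨_, _, _, _, _, h⟩ := mkS_ex h
  obtain ⟨_, h⟩ := fN_ex h
  obtain ⟨_, h⟩ := fN_ex h
  obtain ⟨_, h⟩ := fN_ex h
  obtain ⟨_, h⟩ := fN_ex h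
  exact rowsL_ex _ _ _ h

end Pool.Agent.S5.K
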