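import Pool.Agent.S5.K.Defs
import Pool.Agent.S5.I.NumDef

/-!
# Closed nodes: trees over cells of the parameters

`run` reads a certificate (a natural number, from the low end) which describes a binary tree over a cell
`k0 k1 t0 t1, k0' k1' t0' t1'` of the two slots. At every node of the tree

* one bit: is there a record `Cd`? If yes, its 20 fields follow (`ia ja ib jb`: 8 bits, `l1 .. l4`,
  `r1 .. r4`: 24 bits, `x1 .. x4`, `e1 .. e4`: 12 bits, in this order, the lowest bits first); the record is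
  tested by `ck`, and `proc` (which may read from the certificate) replaces the mask by a new one;
* three bits: `0`: a leaf, tested by `fin` (only after a record); `1`, `2`, `3`, `4`: the cell is divided in
  the direction `k`, `t`, `k'`, `t'` at the number given by the next ten bits, first the lower half, then
  the upper half; `5`: the cell is empty by the test `dis`.
-/

set_option autoImplicit false

namespace Pool.Agent.S5.K

open Pool.Agent.S5.Num

/-! ### The program -/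

/-- Reads a number less than `w` (a power of two) from the certificate `c`. -/
@[reducible] def rd {α : Type} (w c : Nat) (k : Nat → Nat → α) : α :=
  fN (fun v => fN (fun c => k v c) (Nat.div c w)) (Nat.mod c w)

/-- Reads a record (320 bits). -/
def rdCd {α : Type} (c : Nat) (k : Cd → Nat → α) : α :=
  rd 2135987035920910082395021706169552114602704522356652769947041607822219725780640550022962086936576 c fun d c' =>
  rd 256 d fun ia d => rd 256 d fun ja d => rd 256 d fun ib d => rd 256 d fun jb d =>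
  rd 16777216 d fun l1 d => rd 16777216 d fun l2 d => rd 16777216 d fun l3 d =>
  rd 16777216 d fun l4 d => rd 16777216 d fun r1 d => rd 16777216 d fun r2 d =>
  rd 16777216 d fun r3 d => rd 16777216 d fun r4 d =>
  rd 4096 d fun x1 d => rd 4096 d fun x2 d => rd 4096 d fun x3 d => rd 4096 d fun x4 d =>
  rd 4096 d fun e1 d => rd 4096 d fun e2 d => rd 4096 d fun e3 d => fN (fun e4 =>
    k ⟨ia, ja, ib, jb, l1, l2, l3, l4, r1, r2, r3, r4, x1, x2, x3, x4, e1, e2, e3, e4⟩ c') d

/-- Programs on cells: `k0 k1 t0 t1 k0' k1' t0' t1' mask code K`. -/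
abbrev Run : Type :=
  Nat → Nat → Nat → Nat → Nat → Nat → Nat → Nat → Nat → Nat → (Nat → Bool) → Bool

/-- A node of the tree, after the record. -/
def body (dis : Nat → Nat → Nat → Nat → Nat → Nat → Nat → Nat → Bool) (ih : Run)
    (leaf : Nat → Bool) : Run := fun k0 k1 t0 t1 k0' k1' t0' t1' mask code K =>
  rd 8 code fun d c =>
    cond (Nat.beq d 0) (cond (leaf mask) (K c) false)
    (cond (Nat.beq d 5) (cond (dis k0 k1 t0 t1 k0' k1' t0' t1') (K c) false)
    (rd 1024 c fun m c =>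
      cond (Nat.beq d 1) (ih k0 m t0 t1 k0' k1' t0' t1' mask c fun c =>
        ih m k1 t0 t1 k0' k1' t0' t1' mask c K)
      (cond (Nat.beq d 2) (ih k0 k1 t0 m k0' k1' t0' t1' mask c fun c =>
        ih k0 k1 m t1 k0' k1' t0' t1' mask c K)
      (cond (Nat.beq d 3) (ih k0 k1 t0 t1 k0' m t0' t1' mask c fun c =>
        ih k0 k1 t0 t1 m k1' t0' t1' mask c K)
      (cond (Nat.beq d 4) (ih k0 k1 t0 t1 k0' k1' t0' m mask c fun c =>
        ih k0 k1 t0 t1 k0' k1' m t1' mask c K) false)))))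

/-- The tree, of depth at most `n`. -/
def run (ck : Nat → Nat → Nat → Nat → Nat → Nat → Nat → Nat → Cd → Bool)
    (proc : Cd → Nat → Nat → (Nat → Nat → Bool) → Bool) (fin : Cd → Nat → Bool)
    (dis : Nat → Nat → Nat → Nat → Nat → Nat → Nat → Nat → Bool) (n : Nat) : Run :=
  Nat.rec (fun _ _ _ _ _ _ _ _ _ _ _ => false)
    (fun _ ih k0 k1 t0 t1 k0' k1' t0' t1' mask code K =>
      rd 2 code fun h c =>
        cond (Nat.beq h 0)
          (body dis ih (fun _ => false) k0 k1 t0 t1 k0' k1' t0' t1' mask c K)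
          (rdCd c fun cd c =>
            cond (ck k0 k1 t0 t1 k0' k1' t0' t1' cd)
              (proc cd mask c fun m c => fN (fun m => fN (fun c =>
                body dis ih (fin cd) k0 k1 t0 t1 k0' k1' t0' t1' m c K) c) m)
              false)) n

/-- The test of a certificate. -/
def chk (ck : Nat → Nat → Nat → Nat → Nat → Nat → Nat → Nat → Cd → Bool)
    (proc : Cd → Nat → Nat → (Nat → Nat → Bool) → Bool) (fin : Cd → Nat → Bool)
    (dis : Nat → Nat → Nat → Nat → Nat → Nat → Nat → Nat → Bool)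
    (k0 k1 t0 t1 k0' k1' t0' t1' mask code : Nat) : Bool :=
  run ck proc fin dis 64 k0 k1 t0 t1 k0' k1' t0' t1' mask code fun _ => true

/-! ### Soundness -/

/-- A family of cells which can be divided. -/
structure Spl (P : ℕ → ℕ → ℕ → ℕ → Prop) : Prop where
  k : ∀ k0 k1 t0 t1 m, P k0 k1 t0 t1 → P k0 m t0 t1 ∨ P m k1 t0 t1
  t : ∀ k0 k1 t0 t1 m, P k0 k1 t0 t1 → P k0 k1 t0 m ∨ P k0 k1 m t1

theorem spl_pol (s : Bool) (b : ℂ) : Spl fun k0 k1 t0 t1 => Pol s k0 k1 t0 t1 b := by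
  constructor
  · rintro k0 k1 t0 t1 m ⟨h1, h2, h3, h4, h5⟩
    rcases le_total (b.re ^ 2 + b.im ^ 2) (((m : ℝ) / 1000) ^ 2) with h | h
    · exact Or.inl ⟨h1, h2, h, h4, h5⟩
    · exact Or.inr ⟨h1, h, h3, h4, h5⟩
  · rintro k0 k1 t0 t1 m ⟨h1, h2, h3, h4, h5⟩
    rcases le_total (if s = true then -b.im else b.im) ((m : ℝ) / 1000 * b.re) with h | h
    · exact Or.inl ⟨h1, h2, h3, h4, h⟩
    · exact Or.inr ⟨h1, h2, h3, h, h5⟩

theorem spl_true : Spl fun _ _ _ _ => True :=
  ⟨fun _ _ _ _ _ _ => Or.inl trivial, fun _ _ _ _ _ _ => Or.inl trivial⟩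

private theorem fN_eq {α : Type} (f : ℕ → α) (n : ℕ) : fN f n = f n := by
  cases n <;> rfl

theorem rd_eq {α : Type} (w c : ℕ) (k : ℕ → ℕ → α) : rd w c k = k (c % w) (c / w) := by
  unfold rd
  rw [fN_eq, fN_eq]
  rfl

theorem rdCd_ok {α : Type} (c : ℕ) (k : Cd → ℕ → α) : ∃ cd c', rdCd c k = k cd c' := by
  unfold rdCd
  simp only [fN_eq]
  exact ⟨_, _, rfl⟩

section

variable {P Q : ℕ → ℕ → ℕ → ℕ → Prop} {V : ℕ → Prop} {C : Cd → Prop} {G : Prop}
  {ck : ℕ → ℕ → ℕ → ℕ → ℕ → ℕ → ℕ → ℕ → Cd → Bool}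
  {proc : Cd → ℕ → ℕ → (ℕ → ℕ → Bool) → Bool} {fin : Cd → ℕ → Bool}
  {dis : ℕ → ℕ → ℕ → ℕ → ℕ → ℕ → ℕ → ℕ → Bool}

theorem body_ok (hP : Spl P) (hQ : Spl Q)
    (hdis : ∀ k0 k1 t0 t1 k0' k1' t0' t1', dis k0 k1 t0 t1 k0' k1' t0' t1' = true →
      P k0 k1 t0 t1 → Q k0' k1' t0' t1' → G) (ih : Run)
    (hih : ∀ k0 k1 t0 t1 k0' k1' t0' t1' mask code K,
      ih k0 k1 t0 t1 k0' k1' t0' t1' mask code K = true →
      ∃ c, K c = true ∧ (V mask → P k0 k1 t0 t1 → Q k0' k1' t0' t1' → G))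
    {leaf : ℕ → Bool} {k0 k1 t0 t1 k0' k1' t0' t1' mask code : ℕ} {K : ℕ → Bool}
    (hleaf : leaf mask = true → V mask → P k0 k1 t0 t1 → Q k0' k1' t0' t1' → G)
    (h : body dis ih leaf k0 k1 t0 t1 k0' k1' t0' t1' mask code K = true) :
    ∃ c, K c = true ∧ (V mask → P k0 k1 t0 t1 → Q k0' k1' t0' t1' → G) := by
  unfold body at h
  rw [rd_eq] at h
  generalize code % 8 = d at h
  generalize code / 8 = c at h
  cases e0 : Nat.beq d 0 with
  | true =>
    rw [e0, cond_true] at h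
    cases e1 : leaf mask with
    | true => rw [e1, cond_true] at h; exact ⟨c, h, hleaf e1⟩
    | false => rw [e1] at h; exact absurd h Bool.false_ne_true
  | false =>
  rw [e0, cond_false] at h
  cases e5 : Nat.beq d 5 with
  | true =>
    rw [e5, cond_true] at h
    cases e1 : dis k0 k1 t0 t1 k0' k1' t0' t1' with
    | true => rw [e1, cond_true] at h; exact ⟨c, h, fun _ => hdis _ _ _ _ _ _ _ _ e1⟩
    | false => rw [e1] at h; exact absurd h Bool.false_ne_true
  | false =>
  rw [e5, cond_false, rd_eq] at h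
  generalize c % 1024 = m at h
  generalize c / 1024 = c' at h
  cases e1 : Nat.beq d 1 with
  | true =>
    rw [e1, cond_true] at h
    obtain ⟨c1, h1, g1⟩ := hih _ _ _ _ _ _ _ _ _ _ _ h
    obtain ⟨c2, h2, g2⟩ := hih _ _ _ _ _ _ _ _ _ _ _ h1
    exact ⟨c2, h2, fun v p q => (hP.k _ _ _ _ m p).elim (fun p => g1 v p q) fun p => g2 v p q⟩
  | false =>
  rw [e1, cond_false] at h
  cases e2 : Nat.beq d 2 with
  | true =>
    rw [e2, cond_true] at h
    obtain ⟨c1, h1, g1⟩ := hih _ _ _ _ _ _ _ _ _ _ _ h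
    obtain ⟨c2, h2, g2⟩ := hih _ _ _ _ _ _ _ _ _ _ _ h1
    exact ⟨c2, h2, fun v p q => (hP.t _ _ _ _ m p).elim (fun p => g1 v p q) fun p => g2 v p q⟩
  | false =>
  rw [e2, cond_false] at h
  cases e3 : Nat.beq d 3 with
  | true =>
    rw [e3, cond_true] at h
    obtain ⟨c1, h1, g1⟩ := hih _ _ _ _ _ _ _ _ _ _ _ h
    obtain ⟨c2, h2, g2⟩ := hih _ _ _ _ _ _ _ _ _ _ _ h1
    exact ⟨c2, h2, fun v p q => (hQ.k _ _ _ _ m q).elim (fun q => g1 v p q) fun q => g2 v p q⟩
  | false =>
  rw [e3, cond_false] at h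
  cases e4 : Nat.beq d 4 with
  | true =>
    rw [e4, cond_true] at h
    obtain ⟨c1, h1, g1⟩ := hih _ _ _ _ _ _ _ _ _ _ _ h
    obtain ⟨c2, h2, g2⟩ := hih _ _ _ _ _ _ _ _ _ _ _ h1
    exact ⟨c2, h2, fun v p q => (hQ.t _ _ _ _ m q).elim (fun q => g1 v p q) fun q => g2 v p q⟩
  | false =>
  rw [e4] at h
  exact absurd h Bool.false_ne_true

/-- **Soundness.** `P`, `Q`: the point is in the cell; `V`: what the mask means at the point; `C`: the
record is correct at the point; `G`: the claim about the point. -/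
theorem run_ok (hP : Spl P) (hQ : Spl Q)
    (hck : ∀ k0 k1 t0 t1 k0' k1' t0' t1' c, ck k0 k1 t0 t1 k0' k1' t0' t1' c = true →
      P k0 k1 t0 t1 → Q k0' k1' t0' t1' → C c)
    (hproc : ∀ c m code (K : ℕ → ℕ → Bool), proc c m code K = true →
      ∃ m' code', K m' code' = true ∧ (C c → V m → V m'))
    (hfin : ∀ c m, fin c m = true → C c → V m → G)
    (hdis : ∀ k0 k1 t0 t1 k0' k1' t0' t1', dis k0 k1 t0 t1 k0' k1' t0' t1' = true →
      P k0 k1 t0 t1 → Q k0' k1' t0' t1' → G) (n : ℕ) :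
    ∀ k0 k1 t0 t1 k0' k1' t0' t1' mask code K,
      run ck proc fin dis n k0 k1 t0 t1 k0' k1' t0' t1' mask code K = true →
      ∃ c, K c = true ∧ (V mask → P k0 k1 t0 t1 → Q k0' k1' t0' t1' → G) := by
  induction n with
  | zero =>
    intro k0 k1 t0 t1 k0' k1' t0' t1' mask code K h
    exact absurd h Bool.false_ne_true
  | succ n ih =>
    intro k0 k1 t0 t1 k0' k1' t0' t1' mask code K h
    change (rd 2 code fun h c =>
        cond (Nat.beq h 0)
          (body dis (run ck proc fin dis n) (fun _ => false) k0 k1 t0 t1 k0' k1' t0' t1' mask c K)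
          (rdCd c fun cd c =>
            cond (ck k0 k1 t0 t1 k0' k1' t0' t1' cd)
              (proc cd mask c fun m c => fN (fun m => fN (fun c =>
                body dis (run ck proc fin dis n) (fin cd) k0 k1 t0 t1 k0' k1' t0' t1' m c K) c) m)
              false)) = true at h
    rw [rd_eq] at h
    generalize code % 2 = d at h
    generalize code / 2 = c at h
    cases e0 : Nat.beq d 0 with
    | true =>
      rw [e0, cond_true] at h
      exact body_ok hP hQ hdis _ ih (fun h => absurd h Bool.false_ne_true) h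
    | false =>
      rw [e0, cond_false] at h
      obtain ⟨cd, c', h'⟩ := rdCd_ok c fun cd c =>
            cond (ck k0 k1 t0 t1 k0' k1' t0' t1' cd)
              (proc cd mask c fun m c => fN (fun m => fN (fun c =>
                body dis (run ck proc fin dis n) (fin cd) k0 k1 t0 t1 k0' k1' t0' t1' m c K) c) m)
              false
      rw [h'] at h
      cases e1 : ck k0 k1 t0 t1 k0' k1' t0' t1' cd with
      | false => rw [e1] at h; exact absurd h Bool.false_ne_true
      | true =>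
        rw [e1, cond_true] at h
        obtain ⟨m', code', h1, h2⟩ := hproc _ _ _ _ h
        rw [fN_eq, fN_eq] at h1
        obtain ⟨c2, h3, h4⟩ := body_ok (V := V) (G := C cd → G) hP hQ
          (fun _ _ _ _ _ _ _ _ hd p q _ => hdis _ _ _ _ _ _ _ _ hd p q) _
          (fun _ _ _ _ _ _ _ _ _ _ _ hr => by
            obtain ⟨c3, h5, h6⟩ := ih _ _ _ _ _ _ _ _ _ _ _ hr
            exact ⟨c3, h5, fun v p q _ => h6 v p q⟩)
          (fun hl v _ _ hc => hfin _ _ hl hc v) h1
        exact ⟨c2, h3, fun v p q => by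
          have hc := hck _ _ _ _ _ _ _ _ _ e1 p q
          exact h4 (h2 hc v) p q hc⟩

theorem chk_ok (hP : Spl P) (hQ : Spl Q)
    (hck : ∀ k0 k1 t0 t1 k0' k1' t0' t1' c, ck k0 k1 t0 t1 k0' k1' t0' t1' c = true →
      P k0 k1 t0 t1 → Q k0' k1' t0' t1' → C c)
    (hproc : ∀ c m code (K : ℕ → ℕ → Bool), proc c m code K = true →
      ∃ m' code', K m' code' = true ∧ (C c → V m → V m'))
    (hfin : ∀ c m, fin c m = true → C c → V m → G)
    (hdis : ∀ k0 k1 t0 t1 k0' k1' t0' t1', dis k0 k1 t0 t1 k0' k1' t0' t1' = true →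
      P k0 k1 t0 t1 → Q k0' k1' t0' t1' → G)
    {k0 k1 t0 t1 k0' k1' t0' t1' mask code : ℕ}
    (h : chk ck proc fin dis k0 k1 t0 t1 k0' k1' t0' t1' mask code = true)
    (hV : V mask) (p : P k0 k1 t0 t1) (q : Q k0' k1' t0' t1') : G := by
  obtain ⟨c, _, h2⟩ := run_ok hP hQ hck hproc hfin hdis 64 _ _ _ _ _ _ _ _ _ _ _ h
  exact h2 hV p q

end

/-! ### Regions -/

theorem Pol.mono {s : Bool} {k0 k1 t0 t1 k0' k1' t0' t1' : ℕ} {b : ℂ} (h : Pol s k0 k1 t0 t1 b)
    (h1 : k0' ≤ k0) (h2 : k1 ≤ k1') (h3 : t0' ≤ t0) (h4 : t1 ≤ t1') : Pol s k0' k1' t0' t1' b := by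
  obtain ⟨g1, g2, g3, g4, g5⟩ := h
  have c1 : (k0' : ℝ) ≤ k0 := by exact_mod_cast h1
  have c2 : (k1 : ℝ) ≤ k1' := by exact_mod_cast h2
  have c3 : (t0' : ℝ) ≤ t0 := by exact_mod_cast h3
  have c4 : (t1 : ℝ) ≤ t1' := by exact_mod_cast h4
  refine ⟨g1, le_trans ?_ g2, g3.trans ?_, le_trans ?_ g4, g5.trans ?_⟩
  · exact pow_le_pow_left₀ (by positivity) (by linarith) 2
  · exact pow_le_pow_left₀ (by positivity) (by linarith) 2
  · exact mul_le_mul_of_nonneg_right (by linarith) g1.le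
  · exact mul_le_mul_of_nonneg_right (by linarith) g1.le

/-- The region of a slot from the region of the value `κ` of the neighbour. -/
theorem pol_of_inR {r : E.B2.Rg} (S : Bool) {κ : ℂ} (h : E.B2.InR r κ.re (-κ.im)) (h0 : 0 < κ.re) :
    Pol S r.k0 r.k1 r.t0 r.t1 (G.kp S κ) := by
  have e1 : (G.kp S κ).re = κ.re := by
    unfold G.kp
    split_ifs <;> simp
  have e2 : (if S = true then -(G.kp S κ).im else (G.kp S κ).im) = -κ.im := by
    unfold G.kp
    split_ifs <;> simp
  have e3 : (G.kp S κ).re ^ 2 + (G.kp S κ).im ^ 2 = κ.re ^ 2 + (-κ.im) ^ 2 := by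
    unfold G.kp
    split_ifs <;> simp
  refine ⟨by rw [e1]; exact h0, by rw [e3]; exact h.lo, by rw [e3]; exact h.hi, ?_, ?_⟩
  · rw [e1, e2]; exact h.a0
  · rw [e1, e2]; exact h.a1

end Pool.Agent.S5.K
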