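import Pool.Agent.S5.K.Fnd
import Pool.Agent.S5.K.Rex
import Pool.Agent.S5.K.Tree
import Pool.Agent.S5.K.Ck

/-!
# Closed inner nodes: the certificate proves the rows

`chkN .. = true` (a certificate for a pair of regions) proves `GoN`: all rows of the node except the
pairs of two flats, the two rows for low edges, and `|Im ys| ≤ 3 / 20` for both slots.
-/

set_option autoImplicit false

namespace Pool.Agent.S5.K

open Pool.Agent.H63.VC3 Pool.Agent.S3 Complex Set Pool.Agent.S5.Tb Pool.Agent.S5.Num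

/-- What a certificate of an inner node proves. -/
structure GoN (n : Nt) (sa sb : Slt) : Prop where
  ia : |sa.ys.im| ≤ 3 / 20
  ib : |sb.ys.im| ≤ 3 / 20
  U : ∀ (a b : ℂ) (wa wb : ℝ) (pa pb : Pc), pa.free → pb.free → sa.In pa a wa → sb.In pb b wb →
    ¬ (Pc.isF pa ∧ Pc.isF pb) →
    Ecl sa.ys sb.ys a b + sa.e n pa a wa + sb.e n pb b wb < 0
  Ta : ∀ (a b : ℂ) (wa wb : ℝ) (pb : Pc), sa.ex = true → (sb.ex = true → pb.frcT) →
    sa.In .lo a wa → sb.In pb b wb → 0 ≤ (a + b).re →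
    Ecl sa.ys sb.ys a b + sa.e n .lo a wa + sb.e n pb b wb < 0
  Tb : ∀ (a b : ℂ) (wa wb : ℝ) (pa : Pc), sb.ex = true → (sa.ex = true → pa.frcT) →
    sa.In pa a wa → sb.In .lo b wb → 0 ≤ (a + b).re →
    Ecl sa.ys sb.ys a b + sa.e n pa a wa + sb.e n .lo b wb < 0

theorem im_le {e1 e2 : ℕ} {t : ℝ} (g1 : 320 ≤ e1) (g2 : e2 ≤ 1280) (h1 : (e1 : ℝ) ≤ t * 3200 + 800)
    (h2 : t * 3200 + 800 ≤ e2) : |t| ≤ 3 / 20 := by
  have g1' : (320 : ℝ) ≤ e1 := by exact_mod_cast g1
  have g2' : (e2 : ℝ) ≤ 1280 := by exact_mod_cast g2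
  rw [abs_le]
  constructor <;> linarith

/-- The test of a leaf, with the heights. -/
def finN' (kA kB : Nat) (sA sB : Bool) (c : Cd) (mask : Nat) : Bool :=
  cN (Nat.ble 320 c.e1) (cN (Nat.ble c.e2 1280) (cN (Nat.ble 320 c.e3) (cN (Nat.ble c.e4 1280)
    (finN kA kB sA sB c mask) false) false) false) false

theorem finN_ok {n : Nt} {sa sb : Slt} {c : Cd} {mask : ℕ}
    (h : finN' (kkN sa.x) (kkN sb.x) sa.S sb.S c mask = true)
    (hc : CdOK c sa.ys sb.ys sa.lam sb.lam) (hla : sa.lam = lcl sa.ys sb.ys)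
    (hlb : sb.lam = lcl sb.ys sa.ys) (ha : sa.ex = true) (hb : sb.ex = true)
    (za : 3 / 8 ≤ sa.z1) (zb : 3 / 8 ≤ sb.z1)
    (hm : ∀ id, mask.testBit id = true →
      RoN sa.S sb.S n sa.x sb.x sa.lam sb.lam sa.ys sb.ys id) : GoN n sa sb := by
  unfold finN' at h
  revert h
  refine cN_split (P := fun r => r = true → _) (fun g1 => ?_) (fun _ hf => absurd hf (by simp))
  refine cN_split (P := fun r => r = true → _) (fun g2 => ?_) (fun _ hf => absurd hf (by simp))
  refine cN_split (P := fun r => r = true → _) (fun g3 => ?_) (fun _ hf => absurd hf (by simp))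
  refine cN_split (P := fun r => r = true → _) (fun g4 => ?_) (fun _ hf => absurd hf (by simp))
  unfold finN
  rw [fN_eq]
  refine cN_split (P := fun r => r = true → _) (fun g5 h => ?_) (fun _ hf => absurd hf (by simp))
  obtain ⟨hTa, hTb⟩ := loC_ok (n := n) h hc hla hlb ha hb
  refine ⟨im_le (ble_t g1) (ble_t g2) hc.e1 hc.e2, im_le (ble_t g3) (ble_t g4) hc.e3 hc.e4,
    ?_, hTa, hTb⟩
  intro a b wa wb pa pb fa fb ya yb hn
  unfold Slt.In at ya yb
  rw [if_pos ha] at ya
  rw [if_pos hb] at yb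
  obtain ⟨p, p1, p2, p3, p4, p5⟩ := piece_id hc.e1 hc.e2 za fa ya
  obtain ⟨q, q1, q2, q3, q4, q5⟩ := piece_id hc.e3 hc.e4 zb fb yb
  have hq : (if p ≤ 4 then Nat.sub (MA (kkN sb.x) c.e3 c.e4) 21 else
      MA (kkN sb.x) c.e3 c.e4).testBit q = true := by
    split_ifs with hp
    · have hq4 : ¬ q ≤ 4 := fun h => hn ⟨p5.1 hp, q5.1 h⟩
      have e : ∀ M : ℕ, M.testBit 0 = true → M.testBit 2 = true → M.testBit 4 = true →
          4 < q → M.testBit q = true → (Nat.sub M 21).testBit q = true := by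
        intro M m0 m2 m4 hq4 hq
        have h1 : M % 2 = 1 := by
          have := m0
          rw [Nat.testBit_eq_decide_div_mod_eq, decide_eq_true_eq] at this
          simpa using this
        have h2 : M / 4 % 2 = 1 := by
          have := m2
          rw [Nat.testBit_eq_decide_div_mod_eq, decide_eq_true_eq] at this
          simpa using this
        have h3 : M / 16 % 2 = 1 := by
          have := m4
          rw [Nat.testBit_eq_decide_div_mod_eq, decide_eq_true_eq] at this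
          simpa using this
        have h4 : (M - 21) / 32 = M / 32 := by omega
        have h5 : 32 * 2 ^ (q - 5) = 2 ^ q := by
          rw [show 32 = 2 ^ 5 by norm_num, ← pow_add]
          congr 1
          omega
        have h6 : (M - 21).testBit q = M.testBit q := by
          rw [Nat.testBit_eq_decide_div_mod_eq, Nat.testBit_eq_decide_div_mod_eq, ← h5,
            ← Nat.div_div_eq_div_mul, ← Nat.div_div_eq_div_mul, h4]
        exact h6.trans hq
      exact e _ (MA_std (kkN_val _) (by norm_num)) (MA_std (kkN_val _) (by norm_num))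
        (MA_std (kkN_val _) (by norm_num)) (by omega) q2
    · exact q2
  have hid := fnL_ok 30 g5 p p1 p2 q hq
  have key := hm _ hid
  unfold RoN at key
  have e1 : (32 * p + q) / 32 = p := by omega
  have e2 : (32 * p + q) % 32 = q := by omega
  rw [e1, e2, p3, q3] at key
  have key := key a b wa wb p4 q4
  unfold Slt.e
  rw [if_pos ha, if_pos hb]
  exact key

theorem procN_ok {hkA dkA hkB dkB : ℕ} {sA sB : Bool} {n xA xB : Nt} {la lb ya yb : ℂ}
    (hla : la = lcl ya yb) (hlb : lb = lcl yb ya)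
    (hTA : TbO sA n xA hkA dkA) (hTB : TbO sB n xB hkB dkB)
    (ya0 : 0 < ya.re) (ya1 : ya.re < 1 / 2) (yb0 : 0 < yb.re) (yb1 : yb.re < 1 / 2)
    (c : Cd) (m code : ℕ) (K : ℕ → ℕ → Bool) (h : procN hkA dkA hkB dkB c m code K = true) :
    ∃ m' code', K m' code' = true ∧ (CdOK c ya yb la lb →
      (∀ id, m.testBit id = true → RoN sA sB n xA xB la lb ya yb id) →
        ∀ id, m'.testBit id = true → RoN sA sB n xA xB la lb ya yb id) := by
  unfold procN at h
  revert h
  refine cN_split (P := fun r => r = true → _) (fun g1 => ?_) (fun _ hf => absurd hf (by simp))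
  refine cN_split (P := fun r => r = true → _) (fun g2 => ?_) (fun _ hf => absurd hf (by simp))
  refine cN_split (P := fun r => r = true → _) (fun g3 => ?_) (fun _ hf => absurd hf (by simp))
  refine cN_split (P := fun r => r = true → _) (fun g4 => ?_) (fun _ hf => absurd hf (by simp))
  refine cN_split (P := fun r => r = true → _) (fun g5 h => ?_) (fun _ hf => absurd hf (by simp))
  by_cases hc : CdOK c ya yb la lb ∧
      ∀ id, m.testBit id = true → RoN sA sB n xA xB la lb ya yb id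
  · obtain ⟨hc, hm⟩ := hc
    have i1 := ble_t g5
    obtain ⟨m', c', h1, h2⟩ := rowsN_ok hla hlb hTA hTB (by omega) ya0 ya1 yb0 yb1 hc
      (im_le (ble_t g1) (ble_t g2) hc.e1 hc.e2) (im_le (ble_t g3) (ble_t g4) hc.e3 hc.e4) h hm
    exact ⟨m', c', h1, fun _ _ => h2⟩
  · obtain ⟨m', c', h1⟩ := rowsN_ex h
    exact ⟨m', c', h1, fun k1 k2 => absurd ⟨k1, k2⟩ hc⟩

/-- The test of a certificate of a pair of slots. -/
noncomputable def chkN (dis : Nat → Nat → Nat → Nat → Nat → Nat → Nat → Nat → Bool)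
    (sA sB : Bool) (hkA dkA hkB dkB kA kB : Nat)
    (k0 k1 t0 t1 k0' k1' t0' t1' code : Nat) : Bool :=
  chk (fun k0 k1 t0 t1 k0' k1' t0' t1' c => ckC sA k0 k1 t0 t1 sB k0' k1' t0' t1' c)
    (procN hkA dkA hkB dkB) (finN' kA kB sA sB) dis k0 k1 t0 t1 k0' k1' t0' t1' 0 code

/-- **Soundness of the certificates of inner nodes.** -/
theorem chkN_ok {dis : Nat → Nat → Nat → Nat → Nat → Nat → Nat → Nat → Bool} {n : Nt} {sa sb : Slt}
    {hkA dkA hkB dkB k0 k1 t0 t1 k0' k1' t0' t1' code : ℕ} {bl br k E : ℂ}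
    (h : chkN dis sa.S sb.S hkA dkA hkB dkB (kkN sa.x) (kkN sb.x)
      k0 k1 t0 t1 k0' k1' t0' t1' code = true)
    (nd : Nd2 bl br k E sa.ys sb.ys sa.lam sb.lam)
    (hdis : ∀ k0 k1 t0 t1 k0' k1' t0' t1', dis k0 k1 t0 t1 k0' k1' t0' t1' = true →
      Pol sa.S k0 k1 t0 t1 bl → Pol sb.S k0' k1' t0' t1' br → GoN n sa sb)
    (pa : Pol sa.S k0 k1 t0 t1 bl) (pb : Pol sb.S k0' k1' t0' t1' br)
    (hTA : TbO sa.S n sa.x hkA dkA) (hTB : TbO sb.S n sb.x hkB dkB)
    (ha : sa.ex = true) (hb : sb.ex = true) (za : 3 / 8 ≤ sa.z1) (zb : 3 / 8 ≤ sb.z1) :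
    GoN n sa sb := by
  refine chk_ok (P := fun k0 k1 t0 t1 => Pol sa.S k0 k1 t0 t1 bl)
    (Q := fun k0 k1 t0 t1 => Pol sb.S k0 k1 t0 t1 br)
    (V := fun m => ∀ id, m.testBit id = true →
      RoN sa.S sb.S n sa.x sb.x sa.lam sb.lam sa.ys sb.ys id)
    (C := fun c => CdOK c sa.ys sb.ys sa.lam sb.lam) (spl_pol _ _) (spl_pol _ _)
    (fun _ _ _ _ _ _ _ _ c hc p q => ckC_ok hc nd p q)
    (fun c m code K hp => procN_ok nd.sla nd.slb hTA hTB nd.ya0 nd.ya1 nd.yb0 nd.yb1 c m code K hp)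
    (fun c m hf hc hm => finN_ok hf hc nd.sla nd.slb ha hb za zb hm) hdis h
    (fun id hid => absurd hid (by simp)) pa pb

end Pool.Agent.S5.K
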