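import Pool.Agent.S5.K.FW

/-!
# Closed nodes: the linear bounds of `-Rf`, interpolation
-/

set_option autoImplicit false

namespace Pool.Agent.S5.K

open Pool.Agent.H63.VC3 Pool.Agent.S3 Complex Set Pool.Agent.S5.Tb Pool.Agent.S5.Num

theorem fN_eq {α : Type} (f : Nat → α) (n : Nat) : fN f n = f n := by
  cases n <;> rfl

theorem cN_true {α : Type} (t f : α) : cN true t f = t := rfl

theorem cN_false {α : Type} (t f : α) : cN false t f = f := rfl

theorem mx'_eq (a b : ℕ) : mx' a b = max a b := by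
  unfold mx'
  rcases Nat.lt_or_ge b a with h | h
  · have h1 : Nat.ble a b = false := by
      rw [← Bool.not_eq_true, Nat.ble_eq]
      omega
    rw [h1, max_eq_left h.le]
    rfl
  · have h1 : Nat.ble a b = true := by
      rw [Nat.ble_eq]
      exact h
    rw [h1, max_eq_right h]
    rfl

theorem mn'_eq (a b : ℕ) : mn' a b = min a b := by
  unfold mn'
  rcases Nat.lt_or_ge b a with h | h
  · have h1 : Nat.ble a b = false := by
      rw [← Bool.not_eq_true, Nat.ble_eq]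
      omega
    rw [h1, min_eq_right h.le]
  · have h1 : Nat.ble a b = true := by
      rw [Nat.ble_eq]
      exact h
    rw [h1, min_eq_left h]

theorem ds'_eq (a b : ℕ) : ((ds' a b : ℕ) : ℝ) = |(a : ℝ) - b| := by
  unfold ds'
  simp only [Nat.add_eq, Nat.sub_eq]
  rcases le_total a b with h | h
  · rw [Nat.sub_eq_zero_of_le h, zero_add, Nat.cast_sub h, abs_of_nonpos]
    · ring
    · have : (a : ℝ) ≤ b := by exact_mod_cast h
      linarith
  · rw [Nat.sub_eq_zero_of_le h, add_zero, Nat.cast_sub h, abs_of_nonneg]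
    have : (b : ℝ) ≤ a := by exact_mod_cast h
    linarith

theorem ble_t {a b : ℕ} (h : Nat.ble a b = true) : a ≤ b := Nat.le_of_ble_eq_true h

theorem ble_f {a b : ℕ} (h : Nat.ble a b = false) : b < a := by
  rw [← Bool.not_eq_true, Nat.ble_eq] at h
  omega

theorem cast_sub_le (a b : ℕ) : (a : ℝ) - b ≤ ((a - b : ℕ) : ℝ) := by
  have : a ≤ a - b + b := by omega
  have : (a : ℝ) ≤ ((a - b : ℕ) : ℝ) + b := by exact_mod_cast this
  linarith

/-- The case distinction of a program. -/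
theorem cN_split {α : Type} {c : Bool} {t f : α} {P : α → Prop} (h1 : c = true → P t)
    (h2 : c = false → P f) : P (cN c t f) := by
  cases c
  · exact h2 rfl
  · exact h1 rfl

/-- A linear bound of `G` on the rectangle. -/
def UpG (G : ℝ → ℝ → ℝ) (KO1 KO KO2 S1 Sc S2 vp vn xp xn sp sn e : ℕ) (ε : ℝ) : Prop :=
  ∀ K S : ℝ, (KO1 : ℝ) ≤ K → K ≤ KO2 → (S1 : ℝ) ≤ S → S ≤ S2 →
    G K S ≤ ((vp : ℝ) - vn) + ((xp : ℝ) - xn) * (K - KO) + ((sp : ℝ) - sn) * (S - Sc) + e + ε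

/-- The rectangle and its centre. -/
structure Rct (KO1 KO KO2 S1 Sc S2 : ℕ) : Prop where
  a : KO1 ≤ KO
  b : KO ≤ KO2
  c : S1 ≤ Sc
  d : 2 * Sc ≤ S1 + S2
  e : S2 ≤ 1920
  f : KO2 ≤ 300

theorem Rct.c2 {KO1 KO KO2 S1 Sc S2 : ℕ} (h : Rct KO1 KO KO2 S1 Sc S2) : Sc ≤ S2 := by
  have := h.c
  have := h.d
  omega

/-- A linear bound for `100 ≤ K ≤ 200`. -/
def UpA (KO1 KO KO2 S1 Sc S2 vp vn xp xn sp sn e : ℕ) : Prop :=
  ∀ K S : ℝ, (KO1 : ℝ) ≤ K → K ≤ KO2 → (S1 : ℝ) ≤ S → S ≤ S2 → 100 ≤ K → K ≤ 200 →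
    FW K S ≤ ((vp : ℝ) - vn) + ((xp : ℝ) - xn) * (K - KO) + ((sp : ℝ) - sn) * (S - Sc) + e + 110080

/-- The tangent line in `K` at a grid point. -/
theorem tan_grid {K : ℝ} {w J : ℕ} (h0 : 0 < w) (hw : w ≤ 100) (hJ : J ≤ 120) (hK0 : 100 ≤ K)
    (hK1 : K ≤ 200) : FW K (16 * J) ≤ (tq w J : ℝ) +
      (134217728 - 16 * (tl w J : ℝ)) * (K - (w + 100)) + 108800 := by
  have hw0 : (0 : ℝ) < w := by exact_mod_cast h0
  have hw1 : (w : ℝ) ≤ 100 := by exact_mod_cast hw
  have h1 := FW_tanK (K := K) (K0 := (w : ℝ) + 100) (16 * J) hK0 hK1 (by linarith) (by linarith)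
  have h2 := (abs_le.1 (tb_q hw hJ)).2
  have h3 := tb_l h0 hw hJ
  set L := Lg ((16 * (J : ℝ) - 960) / 3200) (((w : ℝ) + 100 - 100) / 200) with hL
  have h4 : |((L + 8) * 1048576 - tl w J) * (K - (w + 100))| ≤ 4 * 100 := by
    rw [abs_mul]
    apply mul_le_mul h3 _ (abs_nonneg _) (by norm_num)
    rw [abs_le]
    constructor <;> linarith
  have h5 := abs_le.1 h4
  nlinarith [h5.1, h5.2]

theorem FA1_ok {α : Type} {KO1 KO KO2 KP S1 Sc S2 J1 J2 w : ℕ}
    (k : Nat → Nat → Nat → Nat → Nat → Nat → Nat → α) (z : α) (h : Rct KO1 KO KO2 S1 Sc S2)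
    (hw0 : 0 < w) (hw : w ≤ 100) (hKP : KP = w + 100) (hJ : J1 < J2) (hJ2 : J2 ≤ 120)
    (g1 : 16 * J1 ≤ S1) (g2 : S2 ≤ 16 * J2) :
    FA1 KO1 KO KO2 KP (16 * (J2 - J1)) (Sc - 16 * J1) (S2 - Sc) (tq w J1) (tl w J1) (tq w J2)
        (tl w J2) k z = z ∨
      ∃ vp vn xp xn sp sn e : ℕ,
        FA1 KO1 KO KO2 KP (16 * (J2 - J1)) (Sc - 16 * J1) (S2 - Sc) (tq w J1) (tl w J1) (tq w J2)
          (tl w J2) k z = k vp vn xp xn sp sn e ∧ UpA KO1 KO KO2 S1 Sc S2 vp vn xp xn sp sn e := by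
  obtain ⟨ha, hb, hc, hd, he, hf⟩ := h
  set M := 16 * (J2 - J1) with hM
  have hM0 : 0 < M := by omega
  set st := Sc - 16 * J1 with hst
  set rs := S2 - Sc with hrs
  set q1 := tq w J1 with hq1
  set q2 := tq w J2 with hq2
  set l1 := tl w J1 with hl1
  set l2 := tl w J2 with hl2
  unfold FA1
  simp only [fN_eq, add_eq', sub_eq', mul_eq', div_eq', mx'_eq]
  refine cN_split (P := fun r => r = z ∨ ∃ vp vn xp xn sp sn e : ℕ, r = k vp vn xp xn sp sn e ∧
    UpA KO1 KO KO2 S1 Sc S2 vp vn xp xn sp sn e) (fun hg => ?_) (fun _ => Or.inl rfl)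
  have hg := ble_t hg
  right
  set ps := (q2 + 1073741824 * M - q1) / M with hps
  set lc := ((M - st) * l1 + st * l2) / M with hlc
  refine ⟨_, _, _, _, _, _, _, rfl, ?_⟩
  intro K S h1 h2 h3 h4 h5 h6
  -- the real data
  have rM : (M : ℝ) = 16 * (J2 - J1) := by
    rw [hM]
    push_cast [hJ.le]
    ring
  have rM0 : (0 : ℝ) < M := by exact_mod_cast hM0
  have rst : (st : ℝ) = Sc - 16 * J1 := by
    rw [hst]
    push_cast [show 16 * J1 ≤ Sc by omega]
    ring
  have rrs : (rs : ℝ) = S2 - Sc := by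
    rw [hrs]
    push_cast [show Sc ≤ S2 by omega]
    ring
  have r1 : (16 : ℝ) * J1 ≤ S1 := by exact_mod_cast g1
  have r2 : (S2 : ℝ) ≤ 16 * J2 := by exact_mod_cast g2
  have r3 : (S1 : ℝ) ≤ Sc := by exact_mod_cast hc
  have r4 : 2 * (Sc : ℝ) ≤ S1 + S2 := by exact_mod_cast hd
  have stM : st ≤ M := by omega
  -- the point
  set x := S - 16 * (J1 : ℝ) with hx
  have x0 : 0 ≤ x := by rw [hx]; linarith
  have x1 : x ≤ M := by rw [hx, rM]; linarith
  set θ := x / M with hθ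
  have θ0 : 0 ≤ θ := by positivity
  have θ1 : θ ≤ 1 := by
    rw [hθ, div_le_one rM0]
    exact x1
  have hS : S = (1 - θ) * (16 * (J1 : ℝ)) + θ * (16 * (J2 : ℝ)) := by
    have e : θ * M = x := by
      rw [hθ]
      field_simp
    rw [rM] at e
    rw [hx] at e
    linarith
  have c1 := FW_convS h5 h6 (a := 1 - θ) (b := θ) (s := 16 * (J1 : ℝ)) (t := 16 * (J2 : ℝ))
    (by linarith) θ0 (by ring)
  rw [← hS] at c1
  have t1 := tan_grid (K := K) hw0 hw (show J1 ≤ 120 by omega) h5 h6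
  have t2 := tan_grid (K := K) hw0 hw hJ2 h5 h6
  rw [← hq1, ← hl1] at t1
  rw [← hq2, ← hl2] at t2
  have rKP : (KP : ℝ) = w + 100 := by
    rw [hKP]
    push_cast
    ring
  rw [← rKP] at t1 t2
  have t1' := mul_le_mul_of_nonneg_left t1 (by linarith : 0 ≤ 1 - θ)
  have t2' := mul_le_mul_of_nonneg_left t2 θ0
  -- the value
  have hps1 : (q2 : ℝ) - q1 ≤ ((ps : ℝ) - 1073741824 + 1) * M := by
    have h7 := Nat.lt_div_mul_add hM0 (a := q2 + 1073741824 * M - q1)
    rw [← hps] at h7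
    have h8 : q2 + 1073741824 * M < ps * M + M + q1 := by omega
    have h9 : (q2 : ℝ) + 1073741824 * M < ps * M + M + q1 := by exact_mod_cast h8
    linarith
  have v1 : θ * ((q2 : ℝ) - q1) ≤ ((ps : ℝ) - 1073741824) * x + M := by
    have h7 := mul_le_mul_of_nonneg_left hps1 θ0
    have e : θ * (((ps : ℝ) - 1073741824 + 1) * M) = ((ps : ℝ) - 1073741824) * x + x := by
      rw [hθ]
      field_simp
    rw [e] at h7
    linarith
  -- the slope
  have hl0 : (lc : ℝ) * M ≤ (M - st) * l1 + st * l2 ∧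
      ((M : ℝ) - st) * l1 + st * l2 < (lc + 1) * M := by
    have h7 := Nat.div_mul_le_self ((M - st) * l1 + st * l2) M
    have h8 := Nat.lt_div_mul_add hM0 (a := (M - st) * l1 + st * l2)
    rw [← hlc] at h7 h8
    have c : ((M - st : ℕ) : ℝ) = (M : ℝ) - st := by
      push_cast [stM]
      ring
    constructor
    · have : ((lc * M : ℕ) : ℝ) ≤ (((M - st) * l1 + st * l2 : ℕ) : ℝ) := by exact_mod_cast h7
      push_cast at this
      rw [c] at this
      linarith
    · have : (((M - st) * l1 + st * l2 : ℕ) : ℝ) < ((lc * M + M : ℕ) : ℝ) := by exact_mod_cast h8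
      push_cast at this
      rw [c] at this
      linarith
  set dl := ((ds' l1 l2 : ℕ) : ℝ) with hdl
  have hdl' : dl = |(l1 : ℝ) - l2| := ds'_eq l1 l2
  set E := ds' l1 l2 * rs / M with hE
  have hE1 : dl * rs < (E + 1) * M := by
    have h8 := Nat.lt_div_mul_add hM0 (a := ds' l1 l2 * rs)
    rw [← hE] at h8
    have : ((ds' l1 l2 * rs : ℕ) : ℝ) < ((E * M + M : ℕ) : ℝ) := by exact_mod_cast h8
    push_cast at this
    linarith
  have w1 : |((1 - θ) * l1 + θ * l2) - lc| ≤ E + 2 := by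
    have e1 : (((1 - θ) * l1 + θ * l2) - lc) * M =
        (((M - st) * l1 + st * l2) - lc * M) + (x - st) * (l2 - l1) := by
      rw [hθ]
      field_simp
      ring
    have e2 : |(x - st) * ((l2 : ℝ) - l1)| ≤ dl * rs := by
      rw [abs_mul, hdl', abs_sub_comm (l2 : ℝ), mul_comm]
      apply mul_le_mul_of_nonneg_left _ (abs_nonneg _)
      rw [hx, rst, rrs, abs_le]
      constructor <;> linarith
    have e3 := abs_le.1 e2
    have e4 : |(((1 - θ) * l1 + θ * l2) - lc) * M| ≤ (E + 2) * M := by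
      have m1 := hl0.1
      have m2 := hl0.2
      have m3 := e3.1
      have m4 := e3.2
      rw [e1, abs_le]
      constructor
      · linarith only [m1, m2, m3, m4, hE1, rM0]
      · linarith only [m1, m2, m3, m4, hE1, rM0]
    rw [abs_mul, abs_of_pos rM0] at e4
    exact le_of_mul_le_mul_right e4 rM0
  set RX := max (KO2 - KP) (KP - KO1) with hRX
  have w2 : |K - KP| ≤ RX := by
    have m1 : ((KO2 - KP : ℕ) : ℝ) ≤ RX := by exact_mod_cast le_max_left _ _
    have m2 : ((KP - KO1 : ℕ) : ℝ) ≤ RX := by exact_mod_cast le_max_right _ _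
    have m3 := cast_sub_le KO2 KP
    have m4 := cast_sub_le KP KO1
    rw [abs_le]
    constructor <;> linarith
  have w3 : -(16 * ((((1 - θ) * l1 + θ * l2) - lc) * (K - KP))) ≤ 16 * ((E + 2) * RX) := by
    have h7 : |(((1 - θ) * l1 + θ * l2) - lc) * (K - KP)| ≤ (E + 2) * RX := by
      rw [abs_mul]
      exact mul_le_mul w1 w2 (abs_nonneg _) (by positivity)
    have := (abs_le.1 h7).1
    linarith
  push_cast
  rw [rst]
  have key : FW K S ≤ (q1 : ℝ) + θ * (q2 - q1) + (134217728 - 16 * lc) * (K - KP) +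
      -(16 * ((((1 - θ) * l1 + θ * l2) - lc) * (K - KP))) + 108800 := by
    refine c1.trans ((add_le_add t1' t2').trans (le_of_eq ?_))
    ring
  refine key.trans ?_
  have e : ((ps : ℝ) - 1073741824) * x = (ps - 1073741824) * (S - 16 * J1) := by rw [hx]
  rw [e] at v1
  linarith only [v1, w3]

theorem FA_ok {α : Type} {KO1 KO KO2 S1 Sc S2 : ℕ}
    (k : Nat → Nat → Nat → Nat → Nat → Nat → Nat → α) (z : α) (h : Rct KO1 KO KO2 S1 Sc S2) :
    FA KO1 KO KO2 S1 Sc S2 k z = z ∨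
      ∃ vp vn xp xn sp sn e : ℕ,
        FA KO1 KO KO2 S1 Sc S2 k z = k vp vn xp xn sp sn e ∧
          UpA KO1 KO KO2 S1 Sc S2 vp vn xp xn sp sn e := by
  unfold FA
  simp only [fN_eq, add_eq', sub_eq', mul_eq', div_eq', mx'_eq, mn'_eq]
  set KP := max 101 (min KO 200) with hKP
  set J1 := S1 / 16 with hJ1
  set J2 := (S2 + 15) / 16 with hJ2
  have he := h.e
  have hc := h.c
  have hc2 := h.c2
  refine cN_split (P := fun r => r = z ∨ ∃ vp vn xp xn sp sn e : ℕ, r = k vp vn xp xn sp sn e ∧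
    UpA KO1 KO KO2 S1 Sc S2 vp vn xp xn sp sn e) (fun hg => ?_) (fun hg => ?_)
  · have hg := ble_t hg
    right
    refine ⟨_, _, _, _, _, _, _, rfl, ?_⟩
    intro K S h1 h2 h3 h4 h5 h6
    have r1 : (16 : ℝ) * J1 ≤ S1 := by exact_mod_cast (by omega : 16 * J1 ≤ S1)
    have r2 : (S2 : ℝ) ≤ 16 * J1 := by exact_mod_cast (by omega : S2 ≤ 16 * J1)
    have r3 : (Sc : ℝ) = 16 * J1 := by exact_mod_cast (by omega : Sc = 16 * J1)
    have hS : S = 16 * J1 := by linarith
    have t1 := tan_grid (K := K) (w := KP - 100) (J := J1) (by omega) (by omega) (by omega) h5 h6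
    have c : ((KP - 100 : ℕ) : ℝ) = (KP : ℝ) - 100 := by
      push_cast [show 100 ≤ KP by omega]
      ring
    rw [c] at t1
    rw [hS, r3]
    push_cast
    set l := ((tl (KP - 100) J1 : ℕ) : ℝ) with hl
    set q := ((tq (KP - 100) J1 : ℕ) : ℝ) with hq
    nlinarith
  · have hg := ble_f hg
    exact FA1_ok k z h (w := KP - 100) (by omega) (by omega) (by omega) hg (by omega) (by omega)
      (by omega)

end Pool.Agent.S5.K
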