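import Pool.Agent.S5.K.FTa

/-!
# Closed nodes: the linear bounds of `-Rf`, chords and the whole function
-/

set_option autoImplicit false

namespace Pool.Agent.S5.K

open Pool.Agent.H63.VC3 Pool.Agent.S3 Complex Set Pool.Agent.S5.Tb Pool.Agent.S5.Num

/-- The sign of the tangent line. -/
noncomputable def sgJ (J : ℕ) : ℝ := if 60 ≤ J then 1 else -1

theorem TG_ok {α : Type} (w J0 S : ℕ) (k : ℕ → ℕ → α) : ∃ Gn Gp : ℕ, TG w J0 S k = k Gn Gp ∧
    (Gp : ℝ) - Gn = tq w J0 + sgJ J0 * tt w J0 * (S - 16 * J0) := by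
  unfold TG sgJ
  simp only [add_eq', mul_eq']
  refine cN_split (P := fun r => ∃ Gn Gp : ℕ, r = k Gn Gp ∧ (Gp : ℝ) - Gn = _)
    (fun hg => ⟨_, _, rfl, ?_⟩) (fun hg => ⟨_, _, rfl, ?_⟩)
  · rw [if_pos (ble_t hg)]
    push_cast
    ring
  · rw [if_neg (not_le.2 (ble_f hg))]
    push_cast
    ring

/-- The tangent line is a lower bound. -/
theorem TG_lo {w J0 S Gn Gp : ℕ} (hw : w ≤ 100) (hJ : J0 ≤ 120)
    (h : (Gp : ℝ) - Gn = tq w J0 + sgJ J0 * tt w J0 * (S - 16 * J0)) {s : ℝ} (h0 : 0 ≤ s)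
    (h1 : s ≤ 1920) : (Gp : ℝ) - Gn + sgJ J0 * tt w J0 * (s - S) - 110080 ≤ FW (w + 100) s := by
  obtain ⟨k1, k2⟩ := tb_lo hw hJ s
  have hJ' : (J0 : ℝ) ≤ 120 := by exact_mod_cast hJ
  have hJ0 : (0 : ℝ) ≤ J0 := by positivity
  have ha : |s - 16 * J0| ≤ 1920 := by
    rw [abs_le]
    constructor <;> linarith
  unfold sgJ at *
  split_ifs at * with h60
  · have := k1 h60
    linarith
  · have := k2 (by omega)
    linarith

theorem FB_ok {α : Type} {KO1 KO KO2 S1 Sc S2 w1 w2 : ℕ} (G : ℝ → ℝ → ℝ)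
    (k : Nat → Nat → Nat → Nat → Nat → Nat → Nat → α) (z : α) (h : Rct KO1 KO KO2 S1 Sc S2)
    (hw1 : w1 ≤ 100) (hw2 : w2 ≤ 100)
    (hG : ∀ S θ : ℝ, 0 ≤ θ → θ ≤ 1 → G (KO1 + θ * (KO2 - KO1)) S ≤
      (1 - θ) * G KO1 S + θ * G KO2 S)
    (h1 : ∀ S, G KO1 S ≤ -FW (w1 + 100) S) (h2 : ∀ S, G KO2 S ≤ -FW (w2 + 100) S) :
    FB KO1 KO KO2 Sc S2 w1 w2 ((Sc + 8) / 16) k z = z ∨
      ∃ vp vn xp xn sp sn e : ℕ,
        FB KO1 KO KO2 Sc S2 w1 w2 ((Sc + 8) / 16) k z = k vp vn xp xn sp sn e ∧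
          UpG G KO1 KO KO2 S1 Sc S2 vp vn xp xn sp sn e 110080 := by
  obtain ⟨ha, hb, hc, hd, he, hf⟩ := h
  set J0 := (Sc + 8) / 16 with hJ0
  have hJ : J0 ≤ 120 := by omega
  have rS1 : (0 : ℝ) ≤ S1 := by positivity
  have rS2 : (S2 : ℝ) ≤ 1920 := by exact_mod_cast he
  have r3 : (S1 : ℝ) ≤ Sc := by exact_mod_cast hc
  have r4 : 2 * (Sc : ℝ) ≤ S1 + S2 := by exact_mod_cast hd
  unfold FB
  obtain ⟨Gn1, Gp1, e1, v1⟩ := TG_ok w1 J0 Sc (fun Gn1 Gp1 =>
    cN (Nat.ble KO2 KO1)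
      (cN (Nat.ble 60 J0) (k Gn1 Gp1 0 0 0 (tt w1 J0) 0) (k Gn1 Gp1 0 0 (tt w1 J0) 0 0))
      (TG w2 J0 Sc (fun Gn2 Gp2 =>
        cN (Nat.ble (Nat.add Gn1 Gp2) (Nat.add (Nat.add Gp1 Gn2)
            (Nat.mul 1099511627776 (Nat.sub KO2 KO1))))
          (fN (fun xs => fN (fun tm => fN (fun e =>
            cN (Nat.ble 60 J0)
              (k (Nat.add Gn1 (Nat.mul xs (Nat.sub KO KO1)))
                (Nat.add Gp1 (Nat.mul 1099511627776 (Nat.sub KO KO1))) xs 1099511627776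
                0 tm e)
              (k (Nat.add Gn1 (Nat.mul xs (Nat.sub KO KO1)))
                (Nat.add Gp1 (Nat.mul 1099511627776 (Nat.sub KO KO1))) xs 1099511627776
                tm 0 e))
            (Nat.add (Nat.sub KO2 KO1) (Nat.mul (Nat.add (Nat.div (ds' (tt w1 J0) (tt w2 J0)) 2) 1)
              (Nat.sub S2 Sc))))
            (Nat.div (Nat.add (tt w1 J0) (tt w2 J0)) 2))
            (Nat.div (Nat.sub (Nat.add (Nat.add Gp1 Gn2) (Nat.mul 1099511627776 (Nat.sub KO2 KO1)))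
              (Nat.add Gn1 Gp2)) (Nat.sub KO2 KO1))) z)))
  rw [e1]
  have l1 : ∀ S : ℝ, (S1 : ℝ) ≤ S → S ≤ S2 →
      G KO1 S ≤ (Gn1 : ℝ) - Gp1 - sgJ J0 * tt w1 J0 * (S - Sc) + 110080 := by
    intro S g1 g2
    have := TG_lo hw1 hJ v1 (s := S) (by linarith) (by linarith)
    have := h1 S
    linarith
  refine cN_split (P := fun r => r = z ∨ ∃ vp vn xp xn sp sn e : ℕ, r = k vp vn xp xn sp sn e ∧
    UpG G KO1 KO KO2 S1 Sc S2 vp vn xp xn sp sn e 110080) (fun hg => ?_) (fun hg => ?_)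
  · have hg := ble_t hg
    have q1 : KO = KO1 := by omega
    have q2 : KO2 = KO1 := by omega
    right
    have fin : ∀ sp sn : ℕ, (sp : ℝ) - sn = -(sgJ J0 * tt w1 J0) →
        UpG G KO1 KO KO2 S1 Sc S2 Gn1 Gp1 0 0 sp sn 0 110080 := by
      intro sp sn hs K S g1 g2 g3 g4
      have hK : K = KO1 := by
        rw [q2] at g2
        exact le_antisymm g2 g1
      rw [hK, hs]
      have := l1 S g3 g4
      push_cast
      linarith
    refine cN_split (P := fun r => ∃ vp vn xp xn sp sn e : ℕ, r = k vp vn xp xn sp sn e ∧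
      UpG G KO1 KO KO2 S1 Sc S2 vp vn xp xn sp sn e 110080)
      (fun hg => ⟨_, _, _, _, _, _, _, rfl, fin _ _ ?_⟩)
      (fun hg => ⟨_, _, _, _, _, _, _, rfl, fin _ _ ?_⟩)
    · unfold sgJ
      rw [if_pos (ble_t hg)]
      push_cast
      ring
    · unfold sgJ
      rw [if_neg (not_le.2 (ble_f hg))]
      push_cast
      ring
  · have hg := ble_f hg
    obtain ⟨Gn2, Gp2, e2, v2⟩ := TG_ok w2 J0 Sc (fun Gn2 Gp2 =>
        cN (Nat.ble (Nat.add Gn1 Gp2) (Nat.add (Nat.add Gp1 Gn2)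
            (Nat.mul 1099511627776 (Nat.sub KO2 KO1))))
          (fN (fun xs => fN (fun tm => fN (fun e =>
            cN (Nat.ble 60 J0)
              (k (Nat.add Gn1 (Nat.mul xs (Nat.sub KO KO1)))
                (Nat.add Gp1 (Nat.mul 1099511627776 (Nat.sub KO KO1))) xs 1099511627776
                0 tm e)
              (k (Nat.add Gn1 (Nat.mul xs (Nat.sub KO KO1)))
                (Nat.add Gp1 (Nat.mul 1099511627776 (Nat.sub KO KO1))) xs 1099511627776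
                tm 0 e))
            (Nat.add (Nat.sub KO2 KO1) (Nat.mul (Nat.add (Nat.div (ds' (tt w1 J0) (tt w2 J0)) 2) 1)
              (Nat.sub S2 Sc))))
            (Nat.div (Nat.add (tt w1 J0) (tt w2 J0)) 2))
            (Nat.div (Nat.sub (Nat.add (Nat.add Gp1 Gn2) (Nat.mul 1099511627776 (Nat.sub KO2 KO1)))
              (Nat.add Gn1 Gp2)) (Nat.sub KO2 KO1))) z)
    rw [e2]
    have l2 : ∀ S : ℝ, (S1 : ℝ) ≤ S → S ≤ S2 →
        G KO2 S ≤ (Gn2 : ℝ) - Gp2 - sgJ J0 * tt w2 J0 * (S - Sc) + 110080 := by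
      intro S g1 g2
      have := TG_lo hw2 hJ v2 (s := S) (by linarith) (by linarith)
      have := h2 S
      linarith
    simp only [fN_eq, add_eq', sub_eq', mul_eq', div_eq']
    refine cN_split (P := fun r => r = z ∨ ∃ vp vn xp xn sp sn e : ℕ, r = k vp vn xp xn sp sn e ∧
      UpG G KO1 KO KO2 S1 Sc S2 vp vn xp xn sp sn e 110080) (fun hg2 => ?_) (fun _ => Or.inl rfl)
    have hg2 := ble_t hg2
    right
    set n := KO2 - KO1 with hn
    have hn0 : 0 < n := by omega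
    set xs := (Gp1 + Gn2 + 1099511627776 * n - (Gn1 + Gp2)) / n with hxs
    set tm := (tt w1 J0 + tt w2 J0) / 2 with htm
    set dt := ds' (tt w1 J0) (tt w2 J0) with hdt
    have rn : (n : ℝ) = KO2 - KO1 := by
      rw [hn]
      push_cast [hg.le]
      ring
    have rn0 : (0 : ℝ) < n := by exact_mod_cast hn0
    have rKO : ((KO - KO1 : ℕ) : ℝ) = (KO : ℝ) - KO1 := by
      push_cast [ha]
      ring
    have hx : ((Gp1 : ℝ) - Gn1) - (Gp2 - Gn2) ≤ ((xs : ℝ) - 1099511627776 + 1) * n := by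
      have h7 := Nat.lt_div_mul_add hn0 (a := Gp1 + Gn2 + 1099511627776 * n - (Gn1 + Gp2))
      rw [← hxs] at h7
      have h8 : Gp1 + Gn2 + 1099511627776 * n < xs * n + n + (Gn1 + Gp2) := by omega
      have h9 : (Gp1 : ℝ) + Gn2 + 1099511627776 * n < xs * n + n + (Gn1 + Gp2) := by
        exact_mod_cast h8
      linarith
    have ht : |(tt w1 J0 : ℝ) - tm| ≤ dt / 2 + 1 / 2 ∧ |(tt w2 J0 : ℝ) - tm| ≤ dt / 2 + 1 / 2 := by
      have q : (dt : ℝ) = |(tt w1 J0 : ℝ) - tt w2 J0| := ds'_eq _ _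
      have k1 : 2 * (tm : ℝ) ≤ tt w1 J0 + tt w2 J0 := by
        exact_mod_cast (by omega : 2 * tm ≤ tt w1 J0 + tt w2 J0)
      have k2 : (tt w1 J0 : ℝ) + tt w2 J0 ≤ 2 * tm + 1 := by
        exact_mod_cast (by omega : tt w1 J0 + tt w2 J0 ≤ 2 * tm + 1)
      have k3 := le_abs_self ((tt w1 J0 : ℝ) - tt w2 J0)
      have k4 := neg_abs_le ((tt w1 J0 : ℝ) - tt w2 J0)
      rw [← q] at k3 k4
      constructor <;> rw [abs_le] <;> constructor <;> linarith
    have hdt2 : (dt : ℝ) / 2 + 1 / 2 ≤ ((dt / 2 : ℕ) : ℝ) + 1 := by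
      have : (dt : ℝ) ≤ 2 * ((dt / 2 : ℕ) : ℝ) + 1 := by
        exact_mod_cast (by omega : dt ≤ 2 * (dt / 2) + 1)
      linarith
    have rs : ((S2 - Sc : ℕ) : ℝ) = (S2 : ℝ) - Sc := by
      push_cast [show Sc ≤ S2 by omega]
      ring
    have fin : ∀ sp sn : ℕ, (sp : ℝ) - sn = -(sgJ J0 * tm) →
        UpG G KO1 KO KO2 S1 Sc S2 (Gn1 + xs * (KO - KO1)) (Gp1 + 1099511627776 * (KO - KO1)) xs
          1099511627776 sp sn (n + (dt / 2 + 1) * (S2 - Sc)) 110080 := by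
      intro sp sn hs K S g1 g2 g3 g4
      have m1 := l1 S g3 g4
      have m2 := l2 S g3 g4
      set θ := (K - KO1) / n with hθ
      have θn : θ * n = K - KO1 := by
        rw [hθ]
        field_simp
      have θ0 : 0 ≤ θ := div_nonneg (by linarith) rn0.le
      have θ1 : θ ≤ 1 := by
        rw [hθ, div_le_one rn0, rn]
        linarith
      have m3 := hG S θ θ0 θ1
      rw [show (KO1 : ℝ) + θ * (KO2 - KO1) = K by rw [← rn, θn]; ring] at m3
      have m1' := mul_le_mul_of_nonneg_left m1 (by linarith : 0 ≤ 1 - θ)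
      have m2' := mul_le_mul_of_nonneg_left m2 θ0
      have hx' := mul_le_mul_of_nonneg_left hx θ0
      have e3 : θ * (((xs : ℝ) - 1099511627776 + 1) * n) =
          ((xs : ℝ) - 1099511627776) * (K - KO1) + (K - KO1) := by
        rw [← θn]
        ring
      rw [e3] at hx'
      -- the slope in `S`
      set c := (S - Sc : ℝ) with hcc
      have hc1 : |c| ≤ (S2 - Sc : ℕ) := by
        rw [rs, hcc, abs_le]
        constructor <;> linarith
      have hsg : |sgJ J0| = 1 := by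
        unfold sgJ
        split_ifs <;> norm_num
      have q1 : ∀ t : ℝ, |t - tm| ≤ dt / 2 + 1 / 2 →
          -(sgJ J0 * t * c) ≤ -(sgJ J0 * tm * c) + (((dt / 2 : ℕ) : ℝ) + 1) * (S2 - Sc : ℕ) := by
        intro t ht'
        have h7 : |sgJ J0 * (t - tm) * c| ≤ (((dt / 2 : ℕ) : ℝ) + 1) * (S2 - Sc : ℕ) := by
          rw [abs_mul, abs_mul, hsg, one_mul]
          exact mul_le_mul (ht'.trans hdt2) hc1 (abs_nonneg _) (by positivity)
        have := (abs_le.1 h7).1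
        linarith
      have n1 := mul_le_mul_of_nonneg_left (q1 _ ht.1) (by linarith : 0 ≤ 1 - θ)
      have n2 := mul_le_mul_of_nonneg_left (q1 _ ht.2) θ0
      set u := (((dt / 2 : ℕ) : ℝ) + 1) * (S2 - Sc : ℕ) with hu
      have hKn : K - KO1 ≤ n := by
        rw [rn]
        linarith
      have tot : G K S ≤ (Gn1 : ℝ) - Gp1 + ((xs : ℝ) - 1099511627776) * (K - KO1) + n -
          sgJ J0 * tm * c + u + 110080 := by
        refine m3.trans ((add_le_add m1' m2').trans ?_)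
        have e4 : (1 - θ) * ((Gn1 : ℝ) - Gp1 - sgJ J0 * tt w1 J0 * c + 110080) +
            θ * ((Gn2 : ℝ) - Gp2 - sgJ J0 * tt w2 J0 * c + 110080) =
            (Gn1 : ℝ) - Gp1 + θ * (((Gp1 : ℝ) - Gn1) - (Gp2 - Gn2)) + 110080 +
              ((1 - θ) * -(sgJ J0 * tt w1 J0 * c) + θ * -(sgJ J0 * tt w2 J0 * c)) := by ring
        rw [e4]
        have e5 : (1 - θ) * (-(sgJ J0 * tm * c) + u) + θ * (-(sgJ J0 * tm * c) + u) =
            -(sgJ J0 * tm * c) + u := by ring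
        linarith only [n1, n2, e5, hx', hKn]
      rw [hs]
      push_cast [rKO]
      rw [hu] at tot
      linarith only [tot]
    refine cN_split (P := fun r => ∃ vp vn xp xn sp sn e : ℕ, r = k vp vn xp xn sp sn e ∧
      UpG G KO1 KO KO2 S1 Sc S2 vp vn xp xn sp sn e 110080)
      (fun hg => ⟨_, _, _, _, _, _, _, rfl, fin _ _ ?_⟩)
      (fun hg => ⟨_, _, _, _, _, _, _, rfl, fin _ _ ?_⟩)
    · unfold sgJ
      rw [if_pos (ble_t hg)]
      push_cast
      ring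
    · unfold sgJ
      rw [if_neg (not_le.2 (ble_f hg))]
      push_cast
      ring

end Pool.Agent.S5.K
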