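import Pool.Agent.S5.K.FTb

/-!
# Closed nodes: the linear bounds of `-Rf`
-/

set_option autoImplicit false

namespace Pool.Agent.S5.K

open Pool.Agent.H63.VC3 Pool.Agent.S3 Complex Set Pool.Agent.S5.Tb Pool.Agent.S5.Num

theorem pi_lo : (3294198 : ℝ) ≤ 1048576 * Real.pi := by
  have := Real.pi_gt_d20
  linarith

theorem pi_hi : 1048576 * Real.pi ≤ 3294199 := by
  have := Real.pi_lt_d20
  linarith

theorem pi_hi2 : 524288 * Real.pi ≤ 1647100 := by
  have := Real.pi_lt_d20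
  linarith

/-! ### The absolute value -/

theorem AB_ok {α : Type} {S1 Sc S2 : ℕ} (k : ℕ → ℕ → ℕ → ℕ → α) : ∃ a b c d : ℕ,
    AB S1 Sc S2 k = k a b c d ∧ ∀ S : ℝ, (S1 : ℝ) ≤ S → S ≤ S2 →
      |S - 960| ≤ ((a : ℝ) - b) + ((c : ℝ) - d) * (S - Sc) := by
  unfold AB
  simp only [sub_eq', mx'_eq]
  refine cN_split (P := fun r => ∃ a b c d : ℕ, r = k a b c d ∧ ∀ S : ℝ, (S1 : ℝ) ≤ S → S ≤ S2 →
      |S - 960| ≤ ((a : ℝ) - b) + ((c : ℝ) - d) * (S - Sc)) (fun hg => ?_) (fun _ => ?_)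
  · refine ⟨_, _, _, _, rfl, fun S h1 h2 => ?_⟩
    have : (960 : ℝ) ≤ S1 := by exact_mod_cast ble_t hg
    rw [abs_of_nonneg (by linarith)]
    push_cast
    linarith
  · refine cN_split (P := fun r => ∃ a b c d : ℕ, r = k a b c d ∧ ∀ S : ℝ, (S1 : ℝ) ≤ S → S ≤ S2 →
      |S - 960| ≤ ((a : ℝ) - b) + ((c : ℝ) - d) * (S - Sc)) (fun hg => ?_) (fun _ => ?_)
    · refine ⟨_, _, _, _, rfl, fun S h1 h2 => ?_⟩
      have : (S2 : ℝ) ≤ 960 := by exact_mod_cast ble_t hg
      rw [abs_of_nonpos (by linarith)]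
      push_cast
      linarith
    · refine ⟨_, _, _, _, rfl, fun S h1 h2 => ?_⟩
      have m1 : ((S2 - 960 : ℕ) : ℝ) ≤ (max (S2 - 960) (960 - S1) : ℕ) := by
        exact_mod_cast le_max_left _ _
      have m2 : ((960 - S1 : ℕ) : ℝ) ≤ (max (S2 - 960) (960 - S1) : ℕ) := by
        exact_mod_cast le_max_right _ _
      have m3 := cast_sub_le S2 960
      have m4 := cast_sub_le 960 S1
      push_cast at m3 m4
      rw [abs_le]
      constructor
      · push_cast at m1 m2 ⊢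
        linarith
      · push_cast at m1 m2 ⊢
        linarith

/-! ### The ends of the rectangle outside of `[100, 200]` -/

theorem aff_le {a b S1 S2 S M : ℝ} (h1 : a + b * S1 ≤ M) (h2 : a + b * S2 ≤ M) (g1 : S1 ≤ S)
    (g2 : S ≤ S2) : a + b * S ≤ M := by
  rcases le_total 0 b with h | h <;> nlinarith

theorem aff_abs_le {a b c S1 S2 S M : ℝ} (hc : 0 ≤ c) (h1 : a + b * S1 + c * |S1 - 960| ≤ M)
    (h2 : a + b * S2 + c * |S2 - 960| ≤ M) (g1 : S1 ≤ S) (g2 : S ≤ S2) :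
    a + b * S + c * |S - 960| ≤ M := by
  rcases eq_or_lt_of_le (g1.trans g2) with h | h
  · have : S = S1 := by linarith
    rw [this]
    exact h1
  · set t := (S - S1) / (S2 - S1) with ht
    have t0 : 0 ≤ t := div_nonneg (by linarith) (by linarith)
    have t1 : t ≤ 1 := by
      rw [ht, div_le_one (by linarith)]
      linarith
    have e : S = (1 - t) * S1 + t * S2 := by
      have : t * (S2 - S1) = S - S1 := by
        rw [ht]
        have : S2 - S1 ≠ 0 := by linarith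
        field_simp
      linarith
    have k1 := mul_le_mul_of_nonneg_left h1 (by linarith : 0 ≤ 1 - t)
    have k2 := mul_le_mul_of_nonneg_left h2 t0
    have k3 : |S - 960| ≤ (1 - t) * |S1 - 960| + t * |S2 - 960| := by
      have e2 : S - 960 = (1 - t) * (S1 - 960) + t * (S2 - 960) := by
        rw [e]
        ring
      rw [e2]
      refine (abs_add_le _ _).trans ?_
      rw [abs_mul, abs_mul, abs_of_nonneg t0, abs_of_nonneg (by linarith : 0 ≤ 1 - t)]
    have k4 := mul_le_mul_of_nonneg_left k3 hc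
    rw [e] at k4 ⊢
    nlinarith

theorem MR_ok {KO KO2 S1 Sc S2 J0 vp vn xp xn sp sn : ℕ} (hJ : J0 ≤ 120) (hK : KO ≤ KO2)
    (hK2 : 200 ≤ KO2) (hK3 : KO2 ≤ 300) (h1 : S1 ≤ Sc) (h2 : Sc ≤ S2) (h3 : S2 ≤ 1920) {S : ℝ}
    (g1 : (S1 : ℝ) ≤ S) (g2 : S ≤ S2) : FW KO2 S ≤ ((vp : ℝ) - vn) + ((xp : ℝ) - xn) * (KO2 - KO) +
      ((sp : ℝ) - sn) * (S - Sc) + MR KO KO2 S1 Sc S2 J0 vp vn xp xn sp sn + 110080 := by
  unfold MR
  simp only [add_eq', sub_eq', mul_eq', mx'_eq]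
  obtain ⟨Gn1, Gp1, e1, v1⟩ := TG_ok (300 - KO2) J0 S2 (fun Gn Gp =>
      Gn + vn + xn * (KO2 - KO) + sn * (S2 - Sc) - (Gp + vp + xp * (KO2 - KO) + sp * (S2 - Sc)))
  obtain ⟨Gn2, Gp2, e2, v2⟩ := TG_ok (300 - KO2) J0 S1 (fun Gn Gp =>
      Gn + vn + xn * (KO2 - KO) + sp * (Sc - S1) - (Gp + vp + xp * (KO2 - KO) + sn * (Sc - S1)))
  rw [e1, e2]
  have rw0 : ((300 - KO2 : ℕ) : ℝ) = 300 - KO2 := by
    push_cast [hK3]
    ring
  have rS2 : (S2 : ℝ) ≤ 1920 := by exact_mod_cast h3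
  have rS1 : (0 : ℝ) ≤ S1 := by positivity
  have rs1 : (S1 : ℝ) ≤ Sc := by exact_mod_cast h1
  have rs2 : (Sc : ℝ) ≤ S2 := by exact_mod_cast h2
  have lo := TG_lo (by omega) hJ v1 (s := S) (by linarith) (by linarith)
  rw [rw0, show (300 : ℝ) - KO2 + 100 = 400 - KO2 by ring, FW_refl] at lo
  have m1 : ((Gn1 + vn + xn * (KO2 - KO) + sn * (S2 - Sc) -
      (Gp1 + vp + xp * (KO2 - KO) + sp * (S2 - Sc)) : ℕ) : ℝ) ≤ (max (Gn1 + vn + xn * (KO2 - KO) +
        sn * (S2 - Sc) - (Gp1 + vp + xp * (KO2 - KO) + sp * (S2 - Sc)))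
        (Gn2 + vn + xn * (KO2 - KO) + sp * (Sc - S1) - (Gp2 + vp + xp * (KO2 - KO) +
          sn * (Sc - S1))) : ℕ) := by
    exact_mod_cast le_max_left _ _
  have m2 : ((Gn2 + vn + xn * (KO2 - KO) + sp * (Sc - S1) - (Gp2 + vp + xp * (KO2 - KO) +
          sn * (Sc - S1)) : ℕ) : ℝ) ≤ (max (Gn1 + vn + xn * (KO2 - KO) +
        sn * (S2 - Sc) - (Gp1 + vp + xp * (KO2 - KO) + sp * (S2 - Sc)))
        (Gn2 + vn + xn * (KO2 - KO) + sp * (Sc - S1) - (Gp2 + vp + xp * (KO2 - KO) +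
          sn * (Sc - S1))) : ℕ) := by
    exact_mod_cast le_max_right _ _
  have m3 := (cast_sub_le _ _).trans m1
  have m4 := (cast_sub_le _ _).trans m2
  set M := ((max (Gn1 + vn + xn * (KO2 - KO) +
        sn * (S2 - Sc) - (Gp1 + vp + xp * (KO2 - KO) + sp * (S2 - Sc)))
        (Gn2 + vn + xn * (KO2 - KO) + sp * (Sc - S1) - (Gp2 + vp + xp * (KO2 - KO) +
          sn * (Sc - S1))) : ℕ) : ℝ) with hM
  push_cast [hK, h1, h2] at m3 m4
  have v3 : (Gp1 : ℝ) - Gn1 - ((Gp2 : ℝ) - Gn2) =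
      sgJ J0 * tt (300 - KO2) J0 * ((S2 : ℝ) - S1) := by
    rw [v1, v2]
    ring
  set β := sgJ J0 * (tt (300 - KO2) J0 : ℝ) with hβ
  have key := aff_le (a := (Gn1 : ℝ) - Gp1 + β * S2 - ((vp : ℝ) - vn) - ((xp : ℝ) - xn) * (KO2 - KO) +
    ((sp : ℝ) - sn) * Sc) (b := -β - ((sp : ℝ) - sn)) (S1 := S1) (S2 := S2) (S := S) (M := M)
    (by linarith) (by linarith) g1 g2
  linarith

theorem ML_ok {KO1 KO S1 Sc S2 J0 vp vn xp xn sp sn : ℕ} (hJ : J0 ≤ 120) (hK : KO1 ≤ KO)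
    (hK2 : KO1 ≤ 100) (h1 : S1 ≤ Sc) (h2 : Sc ≤ S2) (h3 : S2 ≤ 1920) {S : ℝ}
    (g1 : (S1 : ℝ) ≤ S) (g2 : S ≤ S2) : FW KO1 S ≤ ((vp : ℝ) - vn) + ((xp : ℝ) - xn) * (KO1 - KO) +
      ((sp : ℝ) - sn) * (S - Sc) + ML KO1 KO S1 Sc S2 J0 vp vn xp xn sp sn + 110080 := by
  unfold ML
  simp only [add_eq', sub_eq', mul_eq', mx'_eq]
  obtain ⟨Gn1, Gp1, e1, v1⟩ := TG_ok (100 - KO1) J0 S2 (fun Gn Gp =>
      Gn + 3294199 * ds' S2 960 + vn + xp * (KO - KO1) + sn * (S2 - Sc) -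
        (Gp + vp + xn * (KO - KO1) + sp * (S2 - Sc)))
  obtain ⟨Gn2, Gp2, e2, v2⟩ := TG_ok (100 - KO1) J0 S1 (fun Gn Gp =>
      Gn + 3294199 * ds' S1 960 + vn + xp * (KO - KO1) + sp * (Sc - S1) -
        (Gp + vp + xn * (KO - KO1) + sn * (Sc - S1)))
  rw [e1, e2]
  have rw0 : ((100 - KO1 : ℕ) : ℝ) = 100 - KO1 := by
    push_cast [hK2]
    ring
  have rS2 : (S2 : ℝ) ≤ 1920 := by exact_mod_cast h3
  have rS1 : (0 : ℝ) ≤ S1 := by positivity
  have rs1 : (S1 : ℝ) ≤ Sc := by exact_mod_cast h1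
  have rs2 : (Sc : ℝ) ≤ S2 := by exact_mod_cast h2
  have lo := TG_lo (by omega) hJ v1 (s := S) (by linarith) (by linarith)
  rw [rw0, show (100 : ℝ) - KO1 + 100 = 200 - KO1 by ring, FW_neg] at lo
  have m1 : ((Gn1 + 3294199 * ds' S2 960 + vn + xp * (KO - KO1) + sn * (S2 - Sc) -
        (Gp1 + vp + xn * (KO - KO1) + sp * (S2 - Sc)) : ℕ) : ℝ) ≤
      (max (Gn1 + 3294199 * ds' S2 960 + vn + xp * (KO - KO1) + sn * (S2 - Sc) -
        (Gp1 + vp + xn * (KO - KO1) + sp * (S2 - Sc)))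
        (Gn2 + 3294199 * ds' S1 960 + vn + xp * (KO - KO1) + sp * (Sc - S1) -
        (Gp2 + vp + xn * (KO - KO1) + sn * (Sc - S1))) : ℕ) := by
    exact_mod_cast le_max_left _ _
  have m2 : ((Gn2 + 3294199 * ds' S1 960 + vn + xp * (KO - KO1) + sp * (Sc - S1) -
        (Gp2 + vp + xn * (KO - KO1) + sn * (Sc - S1)) : ℕ) : ℝ) ≤
      (max (Gn1 + 3294199 * ds' S2 960 + vn + xp * (KO - KO1) + sn * (S2 - Sc) -
        (Gp1 + vp + xn * (KO - KO1) + sp * (S2 - Sc)))
        (Gn2 + 3294199 * ds' S1 960 + vn + xp * (KO - KO1) + sp * (Sc - S1) -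
        (Gp2 + vp + xn * (KO - KO1) + sn * (Sc - S1))) : ℕ) := by
    exact_mod_cast le_max_right _ _
  have m3 := (cast_sub_le _ _).trans m1
  have m4 := (cast_sub_le _ _).trans m2
  set M := ((max (Gn1 + 3294199 * ds' S2 960 + vn + xp * (KO - KO1) + sn * (S2 - Sc) -
        (Gp1 + vp + xn * (KO - KO1) + sp * (S2 - Sc)))
        (Gn2 + 3294199 * ds' S1 960 + vn + xp * (KO - KO1) + sp * (Sc - S1) -
        (Gp2 + vp + xn * (KO - KO1) + sn * (Sc - S1))) : ℕ) : ℝ) with hM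
  push_cast [hK, h1, h2, ds'_eq] at m3 m4
  have v3 : (Gp1 : ℝ) - Gn1 - ((Gp2 : ℝ) - Gn2) =
      sgJ J0 * tt (100 - KO1) J0 * ((S2 : ℝ) - S1) := by
    rw [v1, v2]
    ring
  set β := sgJ J0 * (tt (100 - KO1) J0 : ℝ) with hβ
  have hp := pi_hi
  have ha : 1048576 * Real.pi * |S - 960| ≤ 3294199 * |S - 960| :=
    mul_le_mul_of_nonneg_right hp (abs_nonneg _)
  have key := aff_abs_le (a := (Gn1 : ℝ) - Gp1 + β * S2 - ((vp : ℝ) - vn) -
    ((xp : ℝ) - xn) * (KO1 - KO) +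
    ((sp : ℝ) - sn) * Sc) (b := -β - ((sp : ℝ) - sn)) (c := 3294199) (S1 := S1) (S2 := S2) (S := S)
    (M := M) (by norm_num) (by linarith) (by linarith) g1 g2
  linarith

/-! ### Convexity outside of `[100, 200]` -/

theorem conv_right {K K' S θ : ℝ} (h0 : 200 ≤ K) (h1 : K ≤ 300) (h2 : 200 ≤ K') (h3 : K' ≤ 300)
    (t0 : 0 ≤ θ) (t1 : θ ≤ 1) :
    FW (K + θ * (K' - K)) S ≤ (1 - θ) * FW K S + θ * FW K' S := by
  have h := FW_concK (a := 1 - θ) (b := θ) (K := 400 - K) (K' := 400 - K') (S := S) (by linarith)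
    (by linarith) (by linarith) (by linarith) (by linarith) t0 (by ring)
  rw [show (1 - θ) * (400 - K) + θ * (400 - K') = 400 - (K + θ * (K' - K)) by ring, FW_refl,
    FW_refl, FW_refl] at h
  linarith

theorem conv_left {K K' S θ : ℝ} (h0 : 0 ≤ K) (h1 : K ≤ 100) (h2 : 0 ≤ K') (h3 : K' ≤ 100)
    (t0 : 0 ≤ θ) (t1 : θ ≤ 1) :
    FW (K + θ * (K' - K)) S ≤ (1 - θ) * FW K S + θ * FW K' S := by
  have h := FW_concK (a := 1 - θ) (b := θ) (K := 200 - K) (K' := 200 - K') (S := S) (by linarith)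
    (by linarith) (by linarith) (by linarith) (by linarith) t0 (by ring)
  rw [show (1 - θ) * (200 - K) + θ * (200 - K') = 200 - (K + θ * (K' - K)) by ring, FW_neg,
    FW_neg, FW_neg] at h
  linarith

theorem UpA.right {KO1 KO KO2 S1 Sc S2 vp vn xp xn sp sn e e' : ℕ} (h : Rct KO1 KO KO2 S1 Sc S2)
    (hA : UpA KO1 KO KO2 S1 Sc S2 vp vn xp xn sp sn e) (h1 : KO1 ≤ 200) (h2 : 200 < KO2)
    (he : e ≤ e') (hm : MR KO KO2 S1 Sc S2 ((Sc + 8) / 16) vp vn xp xn sp sn ≤ e') {K S : ℝ}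
    (g0 : 100 ≤ K) (g1 : (KO1 : ℝ) ≤ K) (g2 : K ≤ KO2) (g3 : (S1 : ℝ) ≤ S) (g4 : S ≤ S2) :
    FW K S ≤ ((vp : ℝ) - vn) + ((xp : ℝ) - xn) * (K - KO) + ((sp : ℝ) - sn) * (S - Sc) + e' +
      110080 := by
  have re : (e : ℝ) ≤ e' := by exact_mod_cast he
  have rm : ((MR KO KO2 S1 Sc S2 ((Sc + 8) / 16) vp vn xp xn sp sn : ℕ) : ℝ) ≤ e' := by
    exact_mod_cast hm
  rcases le_total K 200 with hK | hK
  · have := hA K S g1 g2 g3 g4 g0 hK
    linarith
  · have r2 : (200 : ℝ) < KO2 := by exact_mod_cast h2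
    have r3 : (KO2 : ℝ) ≤ 300 := by exact_mod_cast h.f
    have r1 : (KO1 : ℝ) ≤ 200 := by exact_mod_cast h1
    have a1 := hA 200 S r1 r2.le g3 g4 (by norm_num) le_rfl
    have he := h.e
    have hc := h.c
    have a2 := MR_ok (KO := KO) (KO2 := KO2) (S1 := S1) (Sc := Sc) (S2 := S2)
      (J0 := (Sc + 8) / 16) (vp := vp) (vn := vn) (xp := xp) (xn := xn) (sp := sp) (sn := sn)
      (by have := h.c2; omega) h.b h2.le h.f h.c h.c2 h.e g3 g4
    set θ := (K - 200) / (KO2 - 200) with hθ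
    have d : (0 : ℝ) < KO2 - 200 := by linarith
    have θ0 : 0 ≤ θ := div_nonneg (by linarith) d.le
    have θ1 : θ ≤ 1 := by
      rw [hθ, div_le_one d]
      linarith
    have θd : θ * (KO2 - 200) = K - 200 := by
      rw [hθ]
      field_simp
    have c := conv_right (K := 200) (K' := KO2) (S := S) (θ := θ) (by norm_num) (by norm_num)
      r2.le r3 θ0 θ1
    rw [θd, show (200 : ℝ) + (K - 200) = K by ring] at c
    have b1 := mul_le_mul_of_nonneg_left a1 (by linarith : 0 ≤ 1 - θ)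
    have b2 := mul_le_mul_of_nonneg_left a2 θ0
    have b3 := mul_le_mul_of_nonneg_left re (by linarith : 0 ≤ 1 - θ)
    have b4 := mul_le_mul_of_nonneg_left rm θ0
    have e5 : ((xp : ℝ) - xn) * (K - KO) = (1 - θ) * (((xp : ℝ) - xn) * (200 - KO)) +
        θ * (((xp : ℝ) - xn) * (KO2 - KO)) := by
      linear_combination (-((xp : ℝ) - xn)) * θd
    rw [e5]
    refine c.trans ((add_le_add b1 b2).trans ?_)
    linarith only [b3, b4]

theorem UpA.left {KO1 KO KO2 S1 Sc S2 vp vn xp xn sp sn e e' : ℕ} (h : Rct KO1 KO KO2 S1 Sc S2)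
    (hA : UpA KO1 KO KO2 S1 Sc S2 vp vn xp xn sp sn e) (h1 : KO1 < 100) (h2 : 100 ≤ KO2)
    (he : e ≤ e') (hm : ML KO1 KO S1 Sc S2 ((Sc + 8) / 16) vp vn xp xn sp sn ≤ e') {K S : ℝ}
    (g0 : K ≤ 200) (g1 : (KO1 : ℝ) ≤ K) (g2 : K ≤ KO2) (g3 : (S1 : ℝ) ≤ S) (g4 : S ≤ S2) :
    FW K S ≤ ((vp : ℝ) - vn) + ((xp : ℝ) - xn) * (K - KO) + ((sp : ℝ) - sn) * (S - Sc) + e' +
      110080 := by
  have re : (e : ℝ) ≤ e' := by exact_mod_cast he
  have rm : ((ML KO1 KO S1 Sc S2 ((Sc + 8) / 16) vp vn xp xn sp sn : ℕ) : ℝ) ≤ e' := by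
    exact_mod_cast hm
  rcases le_total 100 K with hK | hK
  · have := hA K S g1 g2 g3 g4 hK g0
    linarith
  · have r2 : (KO1 : ℝ) < 100 := by exact_mod_cast h1
    have r3 : (0 : ℝ) ≤ KO1 := by positivity
    have r1 : (100 : ℝ) ≤ KO2 := by exact_mod_cast h2
    have a1 := hA 100 S r2.le r1 g3 g4 le_rfl (by norm_num)
    have a2 := ML_ok (KO := KO) (KO1 := KO1) (S1 := S1) (Sc := Sc) (S2 := S2)
      (J0 := (Sc + 8) / 16) (vp := vp) (vn := vn) (xp := xp) (xn := xn) (sp := sp) (sn := sn)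
      (by have := h.c2; have := h.e; omega) h.a h1.le h.c h.c2 h.e g3 g4
    set θ := (K - KO1) / (100 - KO1) with hθ
    have d : (0 : ℝ) < 100 - KO1 := by linarith
    have θ0 : 0 ≤ θ := div_nonneg (by linarith) d.le
    have θ1 : θ ≤ 1 := by
      rw [hθ, div_le_one d]
      linarith
    have θd : θ * (100 - KO1) = K - KO1 := by
      rw [hθ]
      field_simp
    have c := conv_left (K := KO1) (K' := 100) (S := S) (θ := θ) r3 r2.le
      (by norm_num) (by norm_num) θ0 θ1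
    rw [θd, show (KO1 : ℝ) + (K - KO1) = K by ring] at c
    have b1 := mul_le_mul_of_nonneg_left a2 (by linarith : 0 ≤ 1 - θ)
    have b2 := mul_le_mul_of_nonneg_left a1 θ0
    have b3 := mul_le_mul_of_nonneg_left rm (by linarith : 0 ≤ 1 - θ)
    have b4 := mul_le_mul_of_nonneg_left re θ0
    have e5 : ((xp : ℝ) - xn) * (K - KO) = (1 - θ) * (((xp : ℝ) - xn) * (KO1 - KO)) +
        θ * (((xp : ℝ) - xn) * (100 - KO)) := by
      linear_combination (-((xp : ℝ) - xn)) * θd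
    rw [e5]
    refine c.trans ((add_le_add b1 b2).trans ?_)
    linarith only [b3, b4]

/-- **The linear bounds of `-Rf`.** -/
theorem FT_ok {α : Type} {KO1 KO KO2 S1 Sc S2 : ℕ}
    (k : Nat → Nat → Nat → Nat → Nat → Nat → Nat → α) (z : α) (h : Rct KO1 KO KO2 S1 Sc S2) :
    FT KO1 KO KO2 S1 Sc S2 k z = z ∨ ∃ vp vn xp xn sp sn e : ℕ,
      FT KO1 KO KO2 S1 Sc S2 k z = k vp vn xp xn sp sn e ∧
        UpG FW KO1 KO KO2 S1 Sc S2 vp vn xp xn sp sn e 110080 := by
  have ha := h.a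
  have hb := h.b
  have hc := h.c
  have hc2 := h.c2
  have hf := h.f
  have he := h.e
  have rKO1 : (0 : ℝ) ≤ KO1 := by positivity
  have rKO2 : (KO2 : ℝ) ≤ 300 := by exact_mod_cast hf
  unfold FT
  refine cN_split (P := fun r => r = z ∨ ∃ vp vn xp xn sp sn e : ℕ, r = k vp vn xp xn sp sn e ∧
    UpG FW KO1 KO KO2 S1 Sc S2 vp vn xp xn sp sn e 110080) (fun hg => ?_) (fun hg => ?_)
  · -- right
    have hg := ble_t hg
    have r1 : (200 : ℝ) ≤ KO1 := by exact_mod_cast hg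
    have r2 : (KO1 : ℝ) ≤ KO2 := by exact_mod_cast ha.trans hb
    refine FB_ok FW k z h (w1 := 300 - KO1) (w2 := 300 - KO2) (by omega) (by omega) ?_ ?_ ?_
    · intro S θ t0 t1
      exact conv_right (by linarith) (by linarith) (by linarith) (by linarith) t0 t1
    · intro S
      have e : ((300 - KO1 : ℕ) : ℝ) + 100 = 400 - KO1 := by
        push_cast [show KO1 ≤ 300 by omega]
        ring
      rw [e, FW_refl]
      linarith
    · intro S
      have e : ((300 - KO2 : ℕ) : ℝ) + 100 = 400 - KO2 := by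
        push_cast [hf]
        ring
      rw [e, FW_refl]
      linarith
  · have hg := ble_f hg
    refine cN_split (P := fun r => r = z ∨ ∃ vp vn xp xn sp sn e : ℕ, r = k vp vn xp xn sp sn e ∧
      UpG FW KO1 KO KO2 S1 Sc S2 vp vn xp xn sp sn e 110080) (fun hg2 => ?_) (fun hg2 => ?_)
    · have hg2 := ble_t hg2
      have rg2 : (KO2 : ℝ) ≤ 100 := by exact_mod_cast hg2
      refine cN_split (P := fun r => r = z ∨ ∃ vp vn xp xn sp sn e : ℕ,
        r = k vp vn xp xn sp sn e ∧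
        UpG FW KO1 KO KO2 S1 Sc S2 vp vn xp xn sp sn e 110080) (fun hg3 => ?_) (fun hg3 => ?_)
      · have hg3 := ble_t hg3
        obtain ⟨a, b, c, d, e1, hab⟩ := AB_ok (S1 := S1) (Sc := Sc) (S2 := S2) (fun a b c d =>
          k (Nat.mul 1647100 a) (Nat.mul 1647100 b) 0 0 (Nat.mul 1647100 c)
          (Nat.mul 1647100 d) 0)
        right
        refine ⟨_, _, _, _, _, _, _, e1, ?_⟩
        intro K S g1 g2 g3 g4
        have hK : K = 100 := by
          have : (100 : ℝ) ≤ KO1 := by exact_mod_cast hg3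
          linarith
        rw [hK, FW_100]
        have h7 := hab S g3 g4
        have h8 : 524288 * Real.pi * |S - 960| ≤ 1647100 * |S - 960| :=
          mul_le_mul_of_nonneg_right pi_hi2 (abs_nonneg _)
        simp only [mul_eq']
        push_cast
        linarith
      · -- left
        have hg3 := ble_f hg3
        have r2 : (KO1 : ℝ) ≤ KO2 := by exact_mod_cast ha.trans hb
        have key := FB_ok (fun K S => FW K S - 1048576 * Real.pi * |S - 960|)
          (fun vp vn xp xn sp sn e => AB S1 Sc S2 (fun a b c d =>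
            k (Nat.add vp (Nat.mul 3294199 a)) (Nat.add vn (Nat.mul 3294199 b)) xp xn
              (Nat.add sp (Nat.mul 3294199 c)) (Nat.add sn (Nat.mul 3294199 d)) e)) z h
          (w1 := 100 - KO1) (w2 := 100 - KO2) (by omega) (by omega) ?_ ?_ ?_
        · rcases key with key | ⟨vp, vn, xp, xn, sp, sn, e, e1, hu⟩
          · exact Or.inl key
          · right
            obtain ⟨a, b, c, d, e2, hab⟩ := AB_ok (S1 := S1) (Sc := Sc) (S2 := S2)
              (fun a b c d =>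
                k (Nat.add vp (Nat.mul 3294199 a)) (Nat.add vn (Nat.mul 3294199 b)) xp xn
                (Nat.add sp (Nat.mul 3294199 c)) (Nat.add sn (Nat.mul 3294199 d)) e)
            refine ⟨_, _, _, _, _, _, _, e1.trans e2, ?_⟩
            intro K S g1 g2 g3 g4
            have h6 := hu K S g1 g2 g3 g4
            have h7 := hab S g3 g4
            have h8 : 1048576 * Real.pi * |S - 960| ≤ 3294199 * |S - 960| :=
              mul_le_mul_of_nonneg_right pi_hi (abs_nonneg _)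
            simp only [mul_eq', add_eq']
            push_cast
            linarith
        · intro S θ t0 t1
          have := conv_left (K := KO1) (K' := KO2) (S := S) (θ := θ) rKO1 (by linarith)
            (by linarith) rg2 t0 t1
          linarith
        · intro S
          have e : ((100 - KO1 : ℕ) : ℝ) + 100 = 200 - KO1 := by
            push_cast [show KO1 ≤ 100 by omega]
            ring
          rw [e, FW_neg]
          linarith
        · intro S
          have e : ((100 - KO2 : ℕ) : ℝ) + 100 = 200 - KO2 := by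
            push_cast [hg2]
            ring
          rw [e, FW_neg]
          linarith
    · have hg2 := ble_f hg2
      rcases FA_ok (fun vp vn xp xn sp sn e =>
        cN (Nat.ble KO2 200)
          (cN (Nat.ble 100 KO1) (k vp vn xp xn sp sn e)
            (k vp vn xp xn sp sn (mx' e (ML KO1 KO S1 Sc S2 (Nat.div (Nat.add Sc 8) 16)
              vp vn xp xn sp sn))))
          (cN (Nat.ble 100 KO1)
            (k vp vn xp xn sp sn (mx' e (MR KO KO2 S1 Sc S2 (Nat.div (Nat.add Sc 8) 16)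
              vp vn xp xn sp sn)))
            (k vp vn xp xn sp sn
              (mx' (mx' e (MR KO KO2 S1 Sc S2 (Nat.div (Nat.add Sc 8) 16) vp vn xp xn sp sn))
                (ML KO1 KO S1 Sc S2 (Nat.div (Nat.add Sc 8) 16) vp vn xp xn sp sn))))) z h
        with key | ⟨vp, vn, xp, xn, sp, sn, e, e1, hu⟩
      · exact Or.inl key
      · right
        rw [e1]
        simp only [add_eq', div_eq', mx'_eq]
        have hgR : (KO1 : ℝ) ≤ 200 := by exact_mod_cast hg.le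
        refine cN_split (P := fun r => ∃ vp vn xp xn sp sn e : ℕ,
          r = k vp vn xp xn sp sn e ∧
          UpG FW KO1 KO KO2 S1 Sc S2 vp vn xp xn sp sn e 110080) (fun hg3 => ?_) (fun hg3 => ?_)
        · have hg3 := ble_t hg3
          have r3 : (KO2 : ℝ) ≤ 200 := by exact_mod_cast hg3
          refine cN_split (P := fun r => ∃ vp vn xp xn sp sn e : ℕ,
            r = k vp vn xp xn sp sn e ∧
            UpG FW KO1 KO KO2 S1 Sc S2 vp vn xp xn sp sn e 110080) (fun hg4 => ?_) (fun hg4 => ?_)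
          · have hg4 : (100 : ℝ) ≤ KO1 := by exact_mod_cast ble_t hg4
            refine ⟨_, _, _, _, _, _, _, rfl, fun K S g1 g2 g3 g4 => ?_⟩
            exact hu K S g1 g2 g3 g4 (by linarith) (by linarith)
          · have hg4 := ble_f hg4
            refine ⟨_, _, _, _, _, _, _, rfl, fun K S g1 g2 g3 g4 => ?_⟩
            exact hu.left h hg4 hg2.le (le_max_left _ _) (le_max_right _ _) (by linarith) g1 g2 g3
              g4
        · have hg3 := ble_f hg3
          refine cN_split (P := fun r => ∃ vp vn xp xn sp sn e : ℕ,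
            r = k vp vn xp xn sp sn e ∧
            UpG FW KO1 KO KO2 S1 Sc S2 vp vn xp xn sp sn e 110080) (fun hg4 => ?_) (fun hg4 => ?_)
          · have hg4 : (100 : ℝ) ≤ KO1 := by exact_mod_cast ble_t hg4
            refine ⟨_, _, _, _, _, _, _, rfl, fun K S g1 g2 g3 g4 => ?_⟩
            exact hu.right h hg.le hg3 (le_max_left _ _) (le_max_right _ _) (by linarith) g1 g2 g3
              g4
          · have hg4 := ble_f hg4
            refine ⟨_, _, _, _, _, _, _, rfl, fun K S g1 g2 g3 g4 => ?_⟩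
            rcases le_total K 200 with hK | hK
            · exact hu.left h hg4 hg2.le ((le_max_left _ _).trans (le_max_left _ _))
                (le_max_right _ _) hK g1 g2 g3 g4
            · exact hu.right h hg.le hg3 ((le_max_left _ _).trans (le_max_left _ _))
                ((le_max_right _ _).trans (le_max_left _ _)) (by linarith) g1 g2 g3 g4

end Pool.Agent.S5.K
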