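import Pool.Agent.S5.K.Prg
import Pool.Agent.S5.Tan
import Pool.Agent.S3.Ks1

/-!
# Closed nodes: the function `-Rf` in the coordinates of the programs
-/

set_option autoImplicit false

namespace Pool.Agent.S5.K

open Pool.Agent.H63.VC3 Pool.Agent.S3 Complex Set Pool.Agent.S5.Tb Pool.Agent.S5.Num

/-- `-Rf` in the coordinates `K = 200 x + 100`, `S = 3200 s + 960`. -/
noncomputable def FW (K S : ℝ) : ℝ :=
  -Rf ((((K - 100) / 200 : ℝ) : ℂ) + (((S - 960) / 3200 : ℝ) : ℂ) * I) * 3355443200

theorem FW_refl (K S : ℝ) : FW (400 - K) S = -FW K S := by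
  unfold FW
  rw [show (400 - K - 100) / 200 = 1 - (K - 100) / 200 by ring, Rf_one_sub_line]
  ring

theorem FW_neg (K S : ℝ) : FW (200 - K) S = -FW K S + 1048576 * Real.pi * |S - 960| := by
  unfold FW
  rw [show (200 - K - 100) / 200 = -((K - 100) / 200) by ring, Rf_neg_line, abs_div,
    abs_of_pos (show (0 : ℝ) < 3200 by norm_num)]
  ring

theorem FW_sym (K S : ℝ) : FW K (1920 - S) = FW K S := by
  unfold FW
  rw [show (1920 - S - 960) / 3200 = -((S - 960) / 3200) by ring, Rf_line_neg]

theorem FW_100 (S : ℝ) : FW 100 S = 524288 * Real.pi * |S - 960| := by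
  have h := FW_neg 100 S
  rw [show (200 : ℝ) - 100 = 100 by norm_num] at h
  linarith

theorem FW_conv {K : ℝ} (h0 : 100 ≤ K) (h1 : K ≤ 200) : ConvexOn ℝ univ (FW K) := by
  have h := neg_Rf_convex (x := (K - 100) / 200) (by linarith) (by linarith)
  refine ⟨convex_univ, ?_⟩
  intro s _ t _ a b ha hb hab
  have k := h.2 (mem_univ ((s - 960) / 3200)) (mem_univ ((t - 960) / 3200)) ha hb hab
  simp only [smul_eq_mul] at k ⊢
  unfold FW
  have e : (a * s + b * t - 960) / 3200 = a * ((s - 960) / 3200) + b * ((t - 960) / 3200) := by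
    linear_combination (960 / 3200) * hab
  rw [e]
  nlinarith

/-- Convexity in `S`, in coordinates. -/
theorem FW_convS {K : ℝ} (h0 : 100 ≤ K) (h1 : K ≤ 200) {a b s t : ℝ} (ha : 0 ≤ a) (hb : 0 ≤ b)
    (hab : a + b = 1) : FW K (a * s + b * t) ≤ a * FW K s + b * FW K t :=
  (FW_conv h0 h1).2 (mem_univ s) (mem_univ t) ha hb hab

theorem FW_tanK {K K0 : ℝ} (S : ℝ) (h0 : 100 ≤ K) (h1 : K ≤ 200) (h2 : 100 < K0) (h3 : K0 ≤ 200) :
    FW K S ≤ FW K0 S - 16777216 * Lg ((S - 960) / 3200) ((K0 - 100) / 200) * (K - K0) := by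
  have h := Rf_tangent (s := (S - 960) / 3200) (x := (K - 100) / 200) (x0 := (K0 - 100) / 200)
    (by linarith) (by linarith) (by linarith) (by linarith)
  unfold FW
  have e : (K - 100) / 200 - (K0 - 100) / 200 = (K - K0) / 200 := by ring
  rw [e] at h
  nlinarith

/-- Concavity in `K` on `[100, 200]`. -/
theorem FW_concK {a b K K' S : ℝ} (h0 : 100 ≤ K) (h1 : K ≤ 200) (h2 : 100 ≤ K') (h3 : K' ≤ 200)
    (ha : 0 ≤ a) (hb : 0 ≤ b) (hab : a + b = 1) :
    a * FW K S + b * FW K' S ≤ FW (a * K + b * K') S := by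
  rcases eq_or_lt_of_le ha with h | ha'
  · subst h
    have : b = 1 := by linarith
    subst this
    simp
  rcases eq_or_lt_of_le hb with h | hb'
  · subst h
    have : a = 1 := by linarith
    subst this
    simp
  by_cases hc : a * K + b * K' = 100
  · have e1 : K = 100 := by
      have : b * (K' - 100) = -(a * (K - 100)) := by linear_combination hc - 100 * hab
      have h4 : 0 ≤ b * (K' - 100) := mul_nonneg hb (by linarith)
      have h5 : 0 ≤ a * (K - 100) := mul_nonneg ha (by linarith)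
      have h6 : a * (K - 100) = 0 := by linarith
      rcases mul_eq_zero.1 h6 with h7 | h7 <;> linarith
    have e2 : K' = 100 := by
      have h6 : b * (K' - 100) = 0 := by
        subst e1
        linear_combination hc - 100 * hab
      rcases mul_eq_zero.1 h6 with h7 | h7 <;> linarith
    subst e1 e2
    rw [hc]
    apply le_of_eq
    linear_combination (FW 100 S) * hab
  have hK0 : 100 < a * K + b * K' := by
    rcases lt_or_eq_of_le (show 100 ≤ a * K + b * K' by nlinarith) with h | h
    · exact h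
    · exact absurd h.symm hc
  have hK1 : a * K + b * K' ≤ 200 := by nlinarith
  have k1 := FW_tanK S h0 h1 hK0 hK1
  have k2 := FW_tanK S h2 h3 hK0 hK1
  set m := a * K + b * K' with hm
  set L := Lg ((S - 960) / 3200) ((m - 100) / 200) with hL
  have g1 := mul_le_mul_of_nonneg_left k1 ha
  have g2 := mul_le_mul_of_nonneg_left k2 hb
  have e : a * (FW m S - 16777216 * L * (K - m)) + b * (FW m S - 16777216 * L * (K' - m)) =
      FW m S := by
    have : a * (K - m) + b * (K' - m) = 0 := by linear_combination (-m) * hab - hm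
    linear_combination (FW m S) * hab - 16777216 * L * this
  linarith

/-! ### The table -/

theorem hh_zero_im {j : ℕ} (hj : 0 < j) : (hh (pt 0 j)).im = Real.pi / 2 := by
  have hs : 0 < Real.sinh (Real.pi * (j / 200)) := by
    rw [Real.sinh_pos_iff]
    positivity
  have e : 2 * sin (Real.pi * pt 0 j) = ((2 * Real.sinh (Real.pi * (j / 200)) : ℝ) : ℂ) * I := by
    have e1 : Real.pi * pt 0 j = ((Real.pi * (j / 200) : ℝ) : ℂ) * I := by
      unfold pt
      push_cast
      ring
    rw [e1, sin_mul_I, ← ofReal_sinh]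
    push_cast
    ring
  unfold hh
  rw [e, log_im, arg_real_mul _ (by positivity), arg_I]

theorem tq_zero : tq 0 60 = 0 := by decide

theorem tt_zero : tt 0 60 = 0 := by decide

theorem dsj_le {J : ℕ} (hJ : J ≤ 120) : ds' J 60 ≤ 60 := by
  unfold ds'
  simp only [Nat.add_eq, Nat.sub_eq]
  omega

theorem dsj_ge {J : ℕ} (h : 60 ≤ J) : ds' J 60 = J - 60 := by
  unfold ds'
  simp only [Nat.add_eq, Nat.sub_eq]
  omega

theorem dsj_lt {J : ℕ} (h : J < 60) : ds' J 60 = 60 - J := by
  unfold ds'
  simp only [Nat.add_eq, Nat.sub_eq]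
  omega

theorem FW_grid (w J : ℕ) : FW (w + 100) (16 * J) = -Rf (pt w (ds' J 60)) * 3355443200 := by
  unfold FW pt
  rw [show ((w : ℝ) + 100 - 100) / 200 = (w : ℝ) / 200 by ring]
  rcases Nat.lt_or_ge J 60 with h | h
  · rw [dsj_lt h]
    have e : ((16 : ℝ) * J - 960) / 3200 = -(((60 - J : ℕ) : ℝ) / 200) := by
      push_cast [h.le]
      ring
    rw [e, Rf_line_neg]
  · rw [dsj_ge h]
    have e : ((16 : ℝ) * J - 960) / 3200 = ((J - 60 : ℕ) : ℝ) / 200 := by
      push_cast [h]
      ring
    rw [e]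

theorem tq_cast (w J : ℕ) : ((tq w J : ℕ) : ℝ) = 3200 * (qE (ent6 w (ds' J 60)) : ℝ) := by
  unfold tq
  simp only [Nat.mul_eq]
  push_cast
  ring

theorem tb_q {w J : ℕ} (hw : w ≤ 100) (hJ : J ≤ 120) :
    |FW (w + 100) (16 * J) - tq w J| ≤ 102400 := by
  by_cases h : 0 < w + ds' J 60
  · have k := (ent6_ok w (ds' J 60) hw (dsj_le hJ) h).q
    rw [FW_grid, tq_cast, abs_le] at *
    constructor <;> linarith [k.1, k.2]
  · have h0 : w = 0 := by omega
    have h1 : J = 60 := by
      have : ds' J 60 = 0 := by omega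
      unfold ds' at this
      simp only [Nat.add_eq, Nat.sub_eq] at this
      omega
    subst h0 h1
    rw [tq_zero]
    have e : FW ((0 : ℕ) + 100) (16 * (60 : ℕ)) = 0 := by
      rw [show (((0 : ℕ) : ℝ) + 100) = 100 by norm_num, FW_100]
      norm_num
    rw [e]
    norm_num

theorem tb_l {w J : ℕ} (h0 : 0 < w) (hw : w ≤ 100) (hJ : J ≤ 120) :
    |(Lg ((16 * J - 960) / 3200) (((w : ℝ) + 100 - 100) / 200) + 8) * 1048576 - tl w J| ≤ 4 := by
  have k := (ent6_ok w (ds' J 60) hw (dsj_le hJ) (by omega)).l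
  unfold tl
  rw [show ((w : ℝ) + 100 - 100) / 200 = (w : ℝ) / 200 by ring]
  rcases Nat.lt_or_ge J 60 with h | h
  · rw [dsj_lt h] at k ⊢
    have e : ((16 : ℝ) * J - 960) / 3200 = -(((60 - J : ℕ) : ℝ) / 200) := by
      push_cast [h.le]
      ring
    rw [e, Lg_neg_im]
    exact k
  · rw [dsj_ge h] at k ⊢
    have e : ((16 : ℝ) * J - 960) / 3200 = ((J - 60 : ℕ) : ℝ) / 200 := by
      push_cast [h]
      ring
    rw [e]
    exact k

/-- The tangent lines in `S`. -/
theorem FW_tanS {K : ℝ} (h0 : 100 < K) (h1 : K ≤ 200) (S S0 : ℝ) :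
    FW K S0 + 1048576 * (hh ((((K - 100) / 200 : ℝ) : ℂ) + (((S0 - 960) / 3200 : ℝ) : ℂ) * I)).im *
      (S - S0) ≤ FW K S := by
  have hx0 : 0 < (K - 100) / 200 := by linarith
  have hx1 : (K - 100) / 200 ≤ 1 / 2 := by linarith
  have hc := neg_Rf_convex hx0.le hx1
  have hd := neg_Rf_hasDerivAt_im hx0 (by linarith) ((S0 - 960) / 3200)
  set x := (K - 100) / 200 with hx
  set s := (S - 960) / 3200 with hs
  set s0 := (S0 - 960) / 3200 with hs0
  have key : -Rf ((x : ℂ) + s0 * I) + (hh ((x : ℂ) + s0 * I)).im * (s - s0) ≤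
      -Rf ((x : ℂ) + s * I) := by
    rcases lt_trichotomy s0 s with h | h | h
    · have k := hc.le_slope_of_hasDerivAt (mem_univ s0) (mem_univ s) h hd
      rw [slope_def_field, le_div_iff₀ (by linarith)] at k
      linarith
    · rw [h]
      simp
    · have k := hc.slope_le_of_hasDerivAt (mem_univ s) (mem_univ s0) h hd
      rw [slope_def_field, div_le_iff₀ (by linarith)] at k
      linarith
  unfold FW
  rw [← hx, ← hs, ← hs0]
  have e : s - s0 = (S - S0) / 3200 := by
    rw [hs, hs0]
    ring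
  rw [e] at key
  nlinarith

theorem FW_tanS0 (S : ℝ) (J : ℕ) : (60 ≤ J → FW 100 (16 * J) + 524288 * Real.pi * (S - 16 * J) ≤
    FW 100 S) ∧ (J ≤ 60 → FW 100 (16 * J) - 524288 * Real.pi * (S - 16 * J) ≤ FW 100 S) := by
  rw [FW_100, FW_100]
  have hpi := Real.pi_pos
  constructor
  · intro h
    have h' : (60 : ℝ) ≤ J := by exact_mod_cast h
    rw [abs_of_nonneg (by linarith : (0 : ℝ) ≤ 16 * J - 960)]
    nlinarith [le_abs_self (S - 960)]
  · intro h
    have h' : (J : ℝ) ≤ 60 := by exact_mod_cast h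
    rw [abs_of_nonpos (by linarith : (16 : ℝ) * J - 960 ≤ 0)]
    nlinarith [neg_abs_le (S - 960)]

theorem tb_lo {w J : ℕ} (hw : w ≤ 100) (hJ : J ≤ 120) (S : ℝ) :
    (60 ≤ J → (tq w J : ℝ) - 102400 + tt w J * (S - 16 * J) - 4 * |S - 16 * J| ≤ FW (w + 100) S) ∧
    (J < 60 → (tq w J : ℝ) - 102400 - tt w J * (S - 16 * J) - 4 * |S - 16 * J| ≤
      FW (w + 100) S) := by
  have hq := abs_le.1 (tb_q hw hJ)
  rcases Nat.eq_zero_or_pos w with h0 | h0
  · subst h0
    have e0 : (((0 : ℕ) : ℝ) + 100) = 100 := by norm_num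
    rw [e0] at hq ⊢
    by_cases hj : J = 60
    · subst hj
      rw [tq_zero, tt_zero]
      refine ⟨fun _ => ?_, fun h => absurd h (by norm_num)⟩
      have h1 : 0 ≤ FW 100 S := by
        rw [FW_100]
        positivity
      have h2 := abs_nonneg (S - 16 * ((60 : ℕ) : ℝ))
      push_cast at *
      linarith
    · have hp : 0 < ds' J 60 := by
        unfold ds'
        simp only [Nat.add_eq, Nat.sub_eq]
        omega
      have k := (ent6_ok 0 (ds' J 60) (by norm_num) (dsj_le hJ) (by omega)).t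
      rw [hh_zero_im hp] at k
      have k' : |Real.pi / 2 * 1048576 - (tt 0 J : ℝ)| ≤ 4 := k
      obtain ⟨k1, k2⟩ := abs_le.1 k'
      obtain ⟨t1, t2⟩ := FW_tanS0 S J
      constructor
      · intro h
        have h3 := t1 h
        have h4 : |(524288 * Real.pi - tt 0 J) * (S - 16 * J)| ≤ 4 * |S - 16 * J| := by
          rw [abs_mul]
          apply mul_le_mul_of_nonneg_right _ (abs_nonneg _)
          rw [abs_le]
          constructor <;> linarith
        have h5 := abs_le.1 h4
        nlinarith [h5.1, h5.2]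
      · intro h
        have h3 := t2 h.le
        have h4 : |(524288 * Real.pi - tt 0 J) * (S - 16 * J)| ≤ 4 * |S - 16 * J| := by
          rw [abs_mul]
          apply mul_le_mul_of_nonneg_right _ (abs_nonneg _)
          rw [abs_le]
          constructor <;> linarith
        have h5 := abs_le.1 h4
        nlinarith [h5.1, h5.2]
  · have hw0 : (0 : ℝ) < w := by exact_mod_cast h0
    have hw1 : (w : ℝ) ≤ 100 := by exact_mod_cast hw
    have k := (ent6_ok w (ds' J 60) hw (dsj_le hJ) (by omega)).t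
    have kt := FW_tanS (K := (w : ℝ) + 100) (by linarith) (by linarith) S (16 * J)
    have e : (((w : ℝ) + 100 - 100) / 200) = (w : ℝ) / 200 := by ring
    rw [e] at kt
    set T := (hh ((((w : ℝ) / 200 : ℝ) : ℂ) + (((16 * (J : ℝ) - 960) / 3200 : ℝ) : ℂ) * I)).im
      with hT
    constructor
    · intro h
      have e2 : pt w (ds' J 60) = (((w : ℝ) / 200 : ℝ) : ℂ) +
          (((16 * (J : ℝ) - 960) / 3200 : ℝ) : ℂ) * I := by
        unfold pt
        rw [dsj_ge h]
        have e : ((16 : ℝ) * J - 960) / 3200 = ((J - 60 : ℕ) : ℝ) / 200 := by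
          push_cast [h]
          ring
        rw [e]
      rw [e2, ← hT] at k
      have k' : |T * 1048576 - (tt w J : ℝ)| ≤ 4 := k
      have h4 : |(T * 1048576 - tt w J) * (S - 16 * J)| ≤ 4 * |S - 16 * J| := by
        rw [abs_mul]
        exact mul_le_mul_of_nonneg_right k' (abs_nonneg _)
      have h5 := abs_le.1 h4
      nlinarith [h5.1, h5.2]
    · intro h
      have e2 : (starRingEnd ℂ) (pt w (ds' J 60)) = (((w : ℝ) / 200 : ℝ) : ℂ) +
          (((16 * (J : ℝ) - 960) / 3200 : ℝ) : ℂ) * I := by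
        unfold pt
        rw [dsj_lt h]
        have e : ((16 : ℝ) * J - 960) / 3200 = -(((60 - J : ℕ) : ℝ) / 200) := by
          push_cast [h.le]
          ring
        rw [e, map_add, map_mul, conj_ofReal, conj_ofReal, conj_I]
        push_cast
        ring
      have e3 : (hh (pt w (ds' J 60))).im = -T := by
        rw [hT, ← e2, hh_conj _ (by
          unfold pt
          simp
          linarith) (by
          unfold pt
          simp
          linarith)]
        simp
      rw [e3] at k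
      have k' : |-T * 1048576 - (tt w J : ℝ)| ≤ 4 := k
      have h4 : |(-T * 1048576 - tt w J) * (S - 16 * J)| ≤ 4 * |S - 16 * J| := by
        rw [abs_mul]
        exact mul_le_mul_of_nonneg_right k' (abs_nonneg _)
      have h5 := abs_le.1 h4
      nlinarith [h5.1, h5.2]

end Pool.Agent.S5.K
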