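import Pool.Agent.S5.I.NumSnd

/-!
# Integer programs in continuation passing style

`bd z k`: evaluate the integer `z`, then `k z`. `leI`, `ltI`: comparisons. `upI a b`: `a / b` rounded
up. `sqU n k`: an upper bound of the square root. `sqL n k`: a lower bound.
-/

set_option autoImplicit false

namespace Pool.Agent.S5.K

open Pool.Agent.S5.Num

/-- Evaluation of an integer before it is used. -/
def bd {α : Type} (z : ℤ) (k : ℤ → α) : α :=
  match z with
  | Int.ofNat n => fN (fun n => k (Int.ofNat n)) n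
  | Int.negSucc n => fN (fun n => k (Int.negSucc n)) n

theorem bd_eq {α : Type} (z : ℤ) (k : ℤ → α) : bd z k = k z := by
  rcases z with n | n
  · exact fN_eq (fun n => k (Int.ofNat n)) n
  · exact fN_eq (fun n => k (Int.negSucc n)) n

/-- `a ≤ b`. -/
def leI (a b : ℤ) : Bool :=
  match Int.sub b a with
  | Int.ofNat _ => true
  | Int.negSucc _ => false

theorem leI_ok {a b : ℤ} (h : leI a b = true) : a ≤ b := by
  unfold leI at h
  have h2 : Int.sub b a = b - a := rfl
  rw [h2] at h
  rcases hz : b - a with n | n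
  · have : (0 : ℤ) ≤ b - a := by
      rw [hz]
      exact Int.natCast_nonneg n
    omega
  · rw [hz] at h
    exact absurd h (by simp)

/-- `a < b`. -/
def ltI (a b : ℤ) : Bool := leI (Int.add a 1) b

theorem ltI_ok {a b : ℤ} (h : ltI a b = true) : a < b := by
  have h1 := leI_ok h
  have h2 : Int.add a 1 = a + 1 := rfl
  rw [h2] at h1
  omega

/-- The absolute value. -/
def abI (z : ℤ) : ℤ :=
  match z with
  | Int.ofNat n => Int.ofNat n
  | Int.negSucc n => Int.ofNat (Nat.succ n)

theorem abI_eq (z : ℤ) : abI z = |z| := by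
  rcases z with n | n
  · exact (abs_of_nonneg (Int.natCast_nonneg n)).symm
  · have h : abI (Int.negSucc n) = ((n + 1 : ℕ) : ℤ) := rfl
    rw [h, abs_of_neg (Int.negSucc_lt_zero n), Int.negSucc_eq]
    push_cast
    ring

/-- The larger one of two integers. -/
def mxI (a b : ℤ) : ℤ := cond (leI a b) b a

theorem le_mxI_left (a b : ℤ) : a ≤ mxI a b := by
  unfold mxI
  rcases h : leI a b
  · exact le_rfl
  · exact leI_ok h

theorem le_mxI_right (a b : ℤ) : b ≤ mxI a b := by
  unfold mxI
  rcases h : leI a b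
  · by_contra h1
    push Not at h1
    have h2 : leI a b = true := by
      unfold leI
      have h3 : Int.sub b a = b - a := rfl
      rw [h3]
      rcases hz : b - a with n | n
      · rfl
      · exfalso
        have : (cond false b a : ℤ) = a := rfl
        rw [this] at h1
        have h4 := Int.negSucc_lt_zero n
        rw [← hz] at h4
        unfold leI at h
        rw [h3, hz] at h
        omega
    rw [h] at h2
    exact absurd h2 (by simp)
  · exact le_rfl

/-- `a / b` rounded up (to be used with `0 < b`). -/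
def upI (a b : ℤ) : ℤ := Int.add (Int.ediv a b) 1

theorem upI_ok {a b : ℤ} (hb : 0 < b) : a ≤ upI a b * b := by
  unfold upI
  have h2 : Int.add (Int.ediv a b) 1 = a / b + 1 := rfl
  rw [h2]
  exact (Int.lt_ediv_add_one_mul_self a hb).le

theorem upI_okR {a b : ℤ} (hb : 0 < b) : (a : ℝ) ≤ (upI a b : ℝ) * b := by
  exact_mod_cast upI_ok hb

/-- Newton's iteration. -/
def nwt (n : ℕ) : ℕ → ℕ → ℕ :=
  Nat.rec (fun g => g) (fun _ ih g => fN ih (Nat.div (Nat.add g (Nat.div n g)) 2))

/-- Approximation of the square root (from above). -/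
def rt (n : ℕ) : ℕ := nwt n 6 (Nat.pow 2 (Nat.add (Nat.div (Nat.log2 n) 2) 1))

/-- An upper bound of the square root of `z`. -/
def sqU (z : ℤ) (k : ℤ → Bool) : Bool :=
  bd z (fun z => bd (Int.ofNat (Nat.succ (rt (Int.toNat z)))) (fun m =>
    cond (leI z (Int.mul m m)) (k m) false))

theorem sqU_ok {z : ℤ} {k : ℤ → Bool} (h : sqU z k = true) :
    ∃ m : ℤ, 0 ≤ m ∧ z ≤ m * m ∧ k m = true := by
  unfold sqU at h
  rw [bd_eq, bd_eq] at h
  rcases hc : leI z (Int.mul (Int.ofNat (Nat.succ (rt (Int.toNat z))))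
    (Int.ofNat (Nat.succ (rt (Int.toNat z))))) with _ | _
  · rw [hc] at h
    exact absurd h (by simp)
  · rw [hc] at h
    exact ⟨_, Int.natCast_nonneg _, leI_ok hc, h⟩

/-- A lower bound of the square root of `z`. -/
def sqL (z : ℤ) (k : ℤ → Bool) : Bool :=
  bd z (fun z => bd (Int.ofNat (Nat.pred (rt (Int.toNat z)))) (fun m =>
    cond (leI (Int.mul m m) z) (k m) false))

theorem sqL_ok {z : ℤ} {k : ℤ → Bool} (h : sqL z k = true) :
    ∃ m : ℤ, 0 ≤ m ∧ m * m ≤ z ∧ k m = true := by
  unfold sqL at h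
  rw [bd_eq, bd_eq] at h
  rcases hc : leI (Int.mul (Int.ofNat (Nat.pred (rt (Int.toNat z))))
    (Int.ofNat (Nat.pred (rt (Int.toNat z))))) z with _ | _
  · rw [hc] at h
    exact absurd h (by simp)
  · rw [hc] at h
    exact ⟨_, Int.natCast_nonneg _, leI_ok hc, h⟩

theorem cond_ok {a b : Bool} (h : cond a b false = true) : a = true ∧ b = true := by
  cases a
  · exact absurd h (by simp)
  · exact ⟨rfl, h⟩

theorem iadd (a b : ℤ) : Int.add a b = a + b := rfl

theorem isub (a b : ℤ) : Int.sub a b = a - b := rfl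

theorem imul (a b : ℤ) : Int.mul a b = a * b := rfl

theorem iediv (a b : ℤ) : Int.ediv a b = a / b := rfl

theorem ineg (a : ℤ) : Int.neg a = -a := rfl

theorem iofNat (n : ℕ) : Int.ofNat n = (n : ℤ) := rfl

/-- The first `let` of a program. -/
theorem bd_ok {z : ℤ} {k : ℤ → Bool} (h : bd z k = true) : ∃ w, w = z ∧ k w = true :=
  ⟨z, rfl, by rw [← bd_eq z k]; exact h⟩

end Pool.Agent.S5.K
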