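import Pool.Agent.S5.K.Defs
import Pool.Agent.S5.I.LowU

/-!
# Closed nodes: the test for low edges on a cell of the parameters

`loC s s' c = true` and `CdOK c ya yb la lb` prove the fields `Ta` and `Tb` of the node.
-/

set_option autoImplicit false

namespace Pool.Agent.S5.K

open Complex Pool.Agent.H63.VC3 Pool.Agent.S3

/-- Bound of `1000 |Im y|` from `e1 ≤ 3200 Im y + 800 ≤ e2`. -/
def loB (e1 e2 : ℕ) : ℕ := max ((5 * (e2 - 800) + 15) / 16) ((5 * (800 - e1) + 15) / 16)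

/-- Lower bound of `1000 Re lam`. -/
def loL (l r : ℕ) : ℤ := ((l : ℤ) - r - 8388608) * 1000 / 1048576

/-- Upper bound of `1000 Re lam`. -/
def loU (l r : ℕ) : ℤ := ((l : ℤ) + r - 8388608) * 1000 / 1048576 + 1

/-- The data of the test for low edges. -/
def loD (c : Cd) : CD := ⟨(8000 - 5 * c.x2) / 16, (8000 - 5 * c.x1 + 15) / 16, loB c.e1 c.e2,
  loL c.l1 c.r1, loU c.l1 c.r1, (8000 - 5 * c.x4) / 16, (8000 - 5 * c.x3 + 15) / 16, loB c.e3 c.e4,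
  loL c.l3 c.r3, loU c.l3 c.r3⟩

/-- The test for low edges (both slots exist). -/
def loC (s s' : Bool) (c : Cd) : Bool := (loD c).tst s s'

theorem loB_ok {e1 e2 : ℕ} {t : ℝ} (h1 : (e1 : ℝ) ≤ t * 3200 + 800) (h2 : t * 3200 + 800 ≤ e2) :
    |t| ≤ (loB e1 e2 : ℝ) / 1000 := by
  have k1 : (5 * ((e2 : ℝ) - 800)) / 16 ≤ ((5 * (e2 - 800) + 15) / 16 : ℕ) := by
    have h : 5 * (e2 - 800) ≤ (5 * (e2 - 800) + 15) / 16 * 16 := by omega
    have h' : (5 * ((e2 - 800 : ℕ) : ℝ)) ≤ ((5 * (e2 - 800) + 15) / 16 : ℕ) * 16 := by exact_mod_cast h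
    have h3 : (e2 : ℝ) - 800 ≤ ((e2 - 800 : ℕ) : ℝ) := by
      have h4 : e2 ≤ (e2 - 800) + 800 := by omega
      have h5 : (e2 : ℝ) ≤ ((e2 - 800 : ℕ) : ℝ) + 800 := by exact_mod_cast h4
      linarith
    linarith
  have k2 : (5 * (800 - (e1 : ℝ))) / 16 ≤ ((5 * (800 - e1) + 15) / 16 : ℕ) := by
    have h : 5 * (800 - e1) ≤ (5 * (800 - e1) + 15) / 16 * 16 := by omega
    have h' : (5 * ((800 - e1 : ℕ) : ℝ)) ≤ ((5 * (800 - e1) + 15) / 16 : ℕ) * 16 := by exact_mod_cast h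
    have h3 : 800 - (e1 : ℝ) ≤ ((800 - e1 : ℕ) : ℝ) := by
      have h4 : 800 ≤ (800 - e1) + e1 := by omega
      have h5 : (800 : ℝ) ≤ ((800 - e1 : ℕ) : ℝ) + e1 := by exact_mod_cast h4
      linarith
    linarith
  have k4 : (((5 * (e2 - 800) + 15) / 16 : ℕ) : ℝ) ≤ (loB e1 e2 : ℕ) := by
    exact_mod_cast le_max_left ((5 * (e2 - 800) + 15) / 16) ((5 * (800 - e1) + 15) / 16)
  have k5 : (((5 * (800 - e1) + 15) / 16 : ℕ) : ℝ) ≤ (loB e1 e2 : ℕ) := by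
    exact_mod_cast le_max_right ((5 * (e2 - 800) + 15) / 16) ((5 * (800 - e1) + 15) / 16)
  rw [abs_le]
  constructor <;> linarith

theorem loL_ok {l r : ℕ} {t : ℝ} (h : |t * 1048576 + 8388608 - l| ≤ r) :
    (loL l r : ℝ) / 1000 ≤ t ∧ t ≤ (loU l r : ℝ) / 1000 := by
  obtain ⟨h1, h2⟩ := abs_le.1 h
  constructor
  · have k : ((l : ℤ) - r - 8388608) * 1000 / 1048576 * 1048576 ≤ ((l : ℤ) - r - 8388608) * 1000 :=
      Int.ediv_mul_le _ (by norm_num)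
    have k' : (loL l r : ℝ) * 1048576 ≤ ((l : ℝ) - r - 8388608) * 1000 := by
      unfold loL
      exact_mod_cast k
    linarith
  · have k := (Int.lt_ediv_add_one_mul_self (((l : ℤ) + r - 8388608) * 1000)
      (show (0 : ℤ) < 1048576 by norm_num)).le
    have k' : ((l : ℝ) + r - 8388608) * 1000 ≤ (loU l r : ℝ) * 1048576 := by
      unfold loU
      exact_mod_cast k
    linarith

theorem lo_X {x1 x2 : ℕ} {t : ℝ} (h1 : (x1 : ℝ) ≤ t * 3200) (h2 : t * 3200 ≤ x2)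
    (h0 : 40 ≤ (8000 - 5 * x2) / 16) : (((8000 - 5 * x2) / 16 : ℕ) : ℝ) / 1000 ≤ 1 / 2 - t ∧
      1 / 2 - t ≤ (((8000 - 5 * x1 + 15) / 16 : ℕ) : ℝ) / 1000 := by
  constructor
  · have h : (8000 - 5 * x2) / 16 * 16 + 5 * x2 ≤ 8000 := by omega
    have h' : (((8000 - 5 * x2) / 16 : ℕ) : ℝ) * 16 + 5 * x2 ≤ 8000 := by exact_mod_cast h
    linarith
  · have h : 8000 ≤ (8000 - 5 * x1 + 15) / 16 * 16 + 5 * x1 := by omega
    have h' : (8000 : ℝ) ≤ (((8000 - 5 * x1 + 15) / 16 : ℕ) : ℝ) * 16 + 5 * x1 := by exact_mod_cast h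
    linarith

/-- The node is in the boxes. -/
theorem loD_in {s s' : Bool} {c : Cd} (h : loC s s' c = true) {ya yb la lb : ℂ}
    (hc : CdOK c ya yb la lb) : (loD c).In ya yb la.re lb.re := by
  unfold loC CD.tst CD.t at h
  simp only [Bool.and_eq_true, decide_eq_true_eq] at h
  obtain ⟨⟨⟨⟨⟨⟨⟨⟨h1, h2⟩, h3⟩, h4⟩, h5⟩, h6⟩, h7⟩, h8⟩, h9⟩ := h
  have a1 := lo_X hc.x1 hc.x2 h1
  have a2 := lo_X hc.x3 hc.x4 h4
  have b1 := loB_ok hc.e1 hc.e2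
  have b2 := loB_ok hc.e3 hc.e4
  have e1 := loL_ok hc.l1
  have e2 := loL_ok hc.l3
  refine ⟨⟨?_, ?_, ?_⟩, ⟨?_, ?_, ?_⟩, e1.1, e1.2, e2.1, e2.2⟩
  · rw [sub_re, show (1 / 2 : ℂ).re = 1 / 2 by norm_num]
    exact a1.1
  · rw [sub_re, show (1 / 2 : ℂ).re = 1 / 2 by norm_num]
    exact a1.2
  · rw [sub_im, show (1 / 2 : ℂ).im = 0 by norm_num, zero_sub, abs_neg]
    exact b1
  · rw [sub_re, show (1 / 2 : ℂ).re = 1 / 2 by norm_num]
    exact a2.1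
  · rw [sub_re, show (1 / 2 : ℂ).re = 1 / 2 by norm_num]
    exact a2.2
  · rw [sub_im, show (1 / 2 : ℂ).im = 0 by norm_num, zero_sub, abs_neg]
    exact b2

/-- **The fields `Ta` and `Tb` on a cell.** -/
theorem loC_ok {c : Cd} {n : Nt} {sa sb : Slt} (h : loC sa.S sb.S c = true)
    (hc : CdOK c sa.ys sb.ys sa.lam sb.lam) (hla : sa.lam = lcl sa.ys sb.ys)
    (hlb : sb.lam = lcl sb.ys sa.ys) (ha : sa.ex = true) (hb : sb.ex = true) :
    (∀ (a b : ℂ) (wa wb : ℝ) (pb : Pc), sa.ex = true → (sb.ex = true → pb.frcT) →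
      sa.In .lo a wa → sb.In pb b wb → 0 ≤ (a + b).re →
      Ecl sa.ys sb.ys a b + sa.e n .lo a wa + sb.e n pb b wb < 0) ∧
    (∀ (a b : ℂ) (wa wb : ℝ) (pa : Pc), sb.ex = true → (sa.ex = true → pa.frcT) →
      sa.In pa a wa → sb.In .lo b wb → 0 ≤ (a + b).re →
      Ecl sa.ys sb.ys a b + sa.e n pa a wa + sb.e n .lo b wb < 0) :=
  low_cl h hla hlb ha hb (loD_in h hc)

end Pool.Agent.S5.K
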