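import Pool.Agent.S5.K.RWa
import Pool.Agent.S5.K.Lo
import Pool.Agent.S5.I.VOK

/-!
# Closed nodes: the rows which are needed at a cell
-/

set_option autoImplicit false

namespace Pool.Agent.S5.K

open Pool.Agent.H63.VC3 Pool.Agent.S3 Complex Set Pool.Agent.S5.Tb Pool.Agent.S5.Num


/-- The pieces (as bits) which are needed for a slot, `kk`: the bits of the far pieces. -/
def MA (kk e1 e2 : Nat) : Nat :=
  Nat.add (Nat.add (Nat.add 341 kk) (cN (Nat.ble 800 e2) 40264704 0)) (cN (Nat.ble e1 800)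
    26843136 0)

/-- All bits of `M` below `n` (as the first piece) with the bits of `B` (as the second piece) are in the
mask; the pairs of two flats are not needed. -/
def fnL (M B Bf mask : Nat) (n : Nat) : Bool :=
  @Nat.rec (fun _ => Bool) true (fun n ih => cN (Nat.beq (Nat.mod (Nat.shiftRight M n) 2) 0) ih
    (fN (fun b => cN (Nat.beq (Nat.land (Nat.shiftRight mask (Nat.mul 32 n)) b) b) ih false) (cN
    (Nat.ble n 4) Bf B))) n

/-- The bits of the far pieces of a slot. -/
def kkN (x : Nt) : Nat :=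
  Nat.add (cN x.e 0 (cN (Nat.ble x.a 4) 67108864 0)) (cN (Nat.beq x.a 3) 268435456 (cN (Nat.beq
    x.a 4) (cN x.e 0 268435456) 0))

/-- The test of a leaf of the parameter tree of an inner node. -/
def finN (kA kB : Nat) (sA sB : Bool) (c : Cd) (mask : Nat) : Bool :=
  fN (fun B => cN (fnL (MA kA c.e1 c.e2) B (Nat.sub B 21) mask 30) (loC sA sB c) false) (MA kB
    c.e3 c.e4)

/-- The test of a leaf of the parameter tree of an end. -/
def finE (kA : Nat) (c : Cd) (mask : Nat) : Bool :=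
  fnL (MA kA c.e1 c.e2) 1 0 mask 30

/-- The program of a record of an inner node. -/
noncomputable def procN (hkA dkA hkB dkB : Nat) (c : Cd) (mask code : Nat)
    (K : Nat → Nat → Bool) : Bool :=
  cN (Nat.ble 320 c.e1) (cN (Nat.ble c.e2 1280) (cN (Nat.ble 320 c.e3) (cN (Nat.ble c.e4 1280)
    (cN (Nat.ble 1 c.ia)
      (rowsN hkA dkA hkB dkB c.ia c.ja c.ib c.jb c.l1 c.l2 c.l3 c.l4 c.r1 c.r2 c.r3 c.r4
        c.x1 c.x2 c.x3 c.x4 c.e1 c.e2 c.e3 c.e4 K mask code) false) false) false) false) false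

/-- The program of a record of an end. -/
noncomputable def procE (hkA dkA : Nat) (c : Cd) (mask code : Nat)
    (K : Nat → Nat → Bool) : Bool :=
  cN (Nat.ble 320 c.e1) (cN (Nat.ble c.e2 1280)
      (rowsE hkA dkA c.ia c.ja c.l1 c.l2 c.r1 c.r2 c.x1 c.x2 c.e1 c.e2 K mask code) false) false

/-! ### Soundness -/

theorem land_beq {m b q : ℕ} (h : Nat.beq (Nat.land m b) b = true) (hq : b.testBit q = true) :
    m.testBit q = true := by
  have h1 : m &&& b = b := Nat.eq_of_beq_eq_true h
  have h2 : (m &&& b).testBit q = true := by rw [h1]; exact hq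
  rw [Nat.testBit_and, Bool.and_eq_true] at h2
  exact h2.1

theorem fnL_ok {M B Bf mask : ℕ} (n : ℕ) (h : fnL M B Bf mask n = true) : ∀ p : ℕ, p < n →
    M.testBit p = true → ∀ q : ℕ, (if p ≤ 4 then Bf else B).testBit q = true →
      mask.testBit (32 * p + q) = true := by
  induction n with
  | zero =>
    intro p hp
    exact absurd hp (by omega)
  | succ n ih =>
    have h' : cN (Nat.beq (Nat.mod (Nat.shiftRight M n) 2) 0) (fnL M B Bf mask n)
      (fN (fun b => cN (Nat.beq (Nat.land (Nat.shiftRight mask (Nat.mul 32 n)) b) b)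
        (fnL M B Bf mask n) false) (cN (Nat.ble n 4) Bf B)) = true := h
    revert h'
    rw [fN_eq]
    refine cN_split (P := fun r => r = true → _) (fun g1 h1 => ?_) (fun g1 => ?_)
    · intro p hp hM
      rcases Nat.lt_succ_iff_lt_or_eq.1 hp with hp | hp
      · exact ih h1 p hp hM
      · exfalso
        subst hp
        have : Nat.mod (Nat.shiftRight M p) 2 = 0 := Nat.eq_of_beq_eq_true g1
        have h3 : M >>> p % 2 = 0 := this
        rw [Nat.testBit_eq_decide_div_mod_eq, decide_eq_true_eq] at hM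
        rw [Nat.shiftRight_eq_div_pow] at h3
        omega
    · refine cN_split (P := fun r => r = true → _) (fun g2 h2 => ?_) (fun _ hf => absurd hf (by simp))
      intro p hp hM q hq
      rcases Nat.lt_succ_iff_lt_or_eq.1 hp with hp | hp
      · exact ih h2 p hp hM q hq
      · subst hp
        have e : cN (Nat.ble p 4) Bf B = if p ≤ 4 then Bf else B := by
          refine cN_split (P := fun r => r = _) (fun g => ?_) (fun g => ?_)
          · rw [if_pos (ble_t g)]
          · rw [if_neg (by have := ble_f g; omega)]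
        rw [e] at g2
        have h5 := land_beq g2 hq
        have h6 : (mask >>> (32 * p)).testBit q = true := h5
        rwa [Nat.testBit_shiftRight] at h6

/-- The four values of the bits of the far pieces. -/
def KV (kk : ℕ) : Prop := kk = 0 ∨ kk = 67108864 ∨ kk = 268435456 ∨ kk = 335544320

theorem kkN_val (x : Nt) : KV (kkN x) := by
  unfold kkN KV
  cases x.e <;> cases Nat.ble x.a 4 <;> cases Nat.beq x.a 3 <;> cases Nat.beq x.a 4 <;>
    simp [cN]

theorem kkN_re {x : Nt} (h : x.e = false ∧ x.a ≤ 4) : (kkN x).testBit 26 = true := by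
  unfold kkN
  obtain ⟨h1, h2⟩ := h
  rw [h1, Nat.ble_eq_true_of_le h2]
  cases Nat.beq x.a 3 <;> cases Nat.beq x.a 4 <;> decide

theorem kkN_rz {x : Nt} (h : x.a = 3 ∨ x = ⟨4, false⟩) : (kkN x).testBit 28 = true := by
  unfold kkN
  rcases h with h | h
  · rw [h]
    cases x.e <;> decide
  · rw [h]
    decide

theorem MA_std {kk e1 e2 p : ℕ} (hk : KV kk) (hp : p = 0 ∨ p = 2 ∨ p = 4 ∨ p = 6 ∨ p = 8) :
    (MA kk e1 e2).testBit p = true := by
  unfold MA
  rcases hk with rfl | rfl | rfl | rfl <;> cases Nat.ble 800 e2 <;> cases Nat.ble e1 800 <;>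
    rcases hp with rfl | rfl | rfl | rfl | rfl <;> decide

theorem MA_pos {kk e1 e2 p : ℕ} (hk : KV kk) (he : 800 ≤ e2) (hp : p = 10 ∨ p = 14 ∨ p = 18 ∨
    p = 22 ∨ p = 13 ∨ p = 17 ∨ p = 21 ∨ p = 25) : (MA kk e1 e2).testBit p = true := by
  unfold MA
  rw [Nat.ble_eq_true_of_le he]
  rcases hk with rfl | rfl | rfl | rfl <;> cases Nat.ble e1 800 <;>
    rcases hp with rfl | rfl | rfl | rfl | rfl | rfl | rfl | rfl <;> decide

theorem MA_neg {kk e1 e2 p : ℕ} (hk : KV kk) (he : e1 ≤ 800) (hp : p = 11 ∨ p = 15 ∨ p = 19 ∨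
    p = 23 ∨ p = 12 ∨ p = 16 ∨ p = 20 ∨ p = 24) : (MA kk e1 e2).testBit p = true := by
  unfold MA
  rw [Nat.ble_eq_true_of_le he]
  rcases hk with rfl | rfl | rfl | rfl <;> cases Nat.ble 800 e2 <;>
    rcases hp with rfl | rfl | rfl | rfl | rfl | rfl | rfl | rfl <;> decide

theorem MA_far {kk e1 e2 p : ℕ} (hk : KV kk) (hp : p = 26 ∨ p = 28) (h : kk.testBit p = true) :
    (MA kk e1 e2).testBit p = true := by
  unfold MA
  rcases hk with rfl | rfl | rfl | rfl <;> rcases hp with rfl | rfl <;> cases Nat.ble e1 800 <;>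
    cases Nat.ble 800 e2 <;> first | decide | exact absurd h (by decide)

/-- A flat. -/
def Pc.isF (pc : Pc) : Prop := pc = .F ∨ pc = .H ∨ pc = .G

/-- Every point of a piece has an admissible number. -/
theorem piece_id {s : Slt} {e1 e2 : ℕ} (he1 : (e1 : ℝ) ≤ s.ys.im * 3200 + 800)
    (he2 : s.ys.im * 3200 + 800 ≤ e2) (hz : 3 / 8 ≤ s.z1) {pc : Pc} (hf : pc.free) {y : ℂ} {w : ℝ}
    (hy : s.InE pc y w) : ∃ p : ℕ, p < 30 ∧ (MA (kkN s.x) e1 e2).testBit p = true ∧
      nm (p / 2) = pc ∧ InS p s.ys.im y w ∧ (p ≤ 4 ↔ Pc.isF pc) := by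
  obtain ⟨h1, h2, h3⟩ := hy
  have hk := kkN_val s.x
  -- the sides
  have cap : ∀ m : ℕ, m = 5 ∨ m = 7 ∨ m = 9 ∨ m = 11 → (nm m).In (3 / 20) s.ys.im y w →
      0 ≤ y.im * s.ys.im → ∃ p : ℕ, p < 30 ∧ (MA (kkN s.x) e1 e2).testBit p = true ∧
      nm (p / 2) = nm m ∧ InS p s.ys.im y w ∧ 4 < p := by
    intro m hm hin hc
    have key : ∀ p : ℕ, p / 2 = m → (p % 2 = 0 → 0 ≤ y.im) → (p % 2 = 1 → y.im ≤ 0) →
        (MA (kkN s.x) e1 e2).testBit p = true → ∃ p : ℕ, p < 30 ∧
        (MA (kkN s.x) e1 e2).testBit p = true ∧ nm (p / 2) = nm m ∧ InS p s.ys.im y w ∧ 4 < p := by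
      intro p hp k1 k2 k3
      refine ⟨p, by omega, k3, by rw [hp], ⟨by rw [hp]; exact hin, fun _ _ => ⟨k1, k2⟩,
        fun h => ?_⟩, by omega⟩
      omega
    rcases le_total 0 y.im with g | g
    · by_cases g0 : 0 ≤ s.ys.im
      · have he : 800 ≤ e2 := by exact_mod_cast (by linarith : (800 : ℝ) ≤ e2)
        exact key (2 * m) (by omega) (fun _ => g) (fun h => by omega) (MA_pos hk he (by omega))
      · have g0 : s.ys.im < 0 := not_le.1 g0
        have he : e1 ≤ 800 := by exact_mod_cast (by linarith : (e1 : ℝ) ≤ 800)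
        have gy : y.im = 0 := by
          by_contra hne
          have : 0 < y.im := lt_of_le_of_ne g (Ne.symm hne)
          nlinarith
        exact key (2 * m + 1) (by omega) (fun h => by omega) (fun _ => gy.le)
          (MA_neg hk he (by omega))
    · by_cases g0 : s.ys.im ≤ 0
      · have he : e1 ≤ 800 := by exact_mod_cast (by linarith : (e1 : ℝ) ≤ 800)
        exact key (2 * m + 1) (by omega) (fun h => by omega) (fun _ => g)
          (MA_neg hk he (by omega))
      · have g0 : 0 < s.ys.im := not_le.1 g0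
        have he : 800 ≤ e2 := by exact_mod_cast (by linarith : (800 : ℝ) ≤ e2)
        have gy : y.im = 0 := by
          by_contra hne
          have : y.im < 0 := lt_of_le_of_ne g hne
          nlinarith
        exact key (2 * m) (by omega) (fun _ => gy.ge) (fun h => by omega) (MA_pos hk he (by omega))
  have sml : ∀ m : ℕ, m = 6 ∨ m = 8 ∨ m = 10 ∨ m = 12 → (nm m).In (3 / 20) s.ys.im y w →
      y.im * s.ys.im ≤ 0 → ∃ p : ℕ, p < 30 ∧ (MA (kkN s.x) e1 e2).testBit p = true ∧
      nm (p / 2) = nm m ∧ InS p s.ys.im y w ∧ 4 < p := by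
    intro m hm hin hc
    have key : ∀ p : ℕ, p / 2 = m → (p % 2 = 0 → 0 ≤ y.im) → (p % 2 = 1 → y.im ≤ 0) →
        (MA (kkN s.x) e1 e2).testBit p = true → ∃ p : ℕ, p < 30 ∧
        (MA (kkN s.x) e1 e2).testBit p = true ∧ nm (p / 2) = nm m ∧ InS p s.ys.im y w ∧ 4 < p := by
      intro p hp k1 k2 k3
      refine ⟨p, by omega, k3, by rw [hp], ⟨by rw [hp]; exact hin, fun _ _ => ⟨k1, k2⟩,
        fun h => ?_⟩, by omega⟩
      omega
    rcases le_total 0 y.im with g | g
    · by_cases g0 : s.ys.im ≤ 0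
      · have he : e1 ≤ 800 := by exact_mod_cast (by linarith : (e1 : ℝ) ≤ 800)
        exact key (2 * m) (by omega) (fun _ => g) (fun h => by omega) (MA_neg hk he (by omega))
      · have g0 : 0 < s.ys.im := not_le.1 g0
        have he : 800 ≤ e2 := by exact_mod_cast (by linarith : (800 : ℝ) ≤ e2)
        have gy : y.im = 0 := by
          by_contra hne
          have : 0 < y.im := lt_of_le_of_ne g (Ne.symm hne)
          nlinarith
        exact key (2 * m + 1) (by omega) (fun h => by omega) (fun _ => gy.le)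
          (MA_pos hk he (by omega))
    · by_cases g0 : 0 ≤ s.ys.im
      · have he : 800 ≤ e2 := by exact_mod_cast (by linarith : (800 : ℝ) ≤ e2)
        exact key (2 * m + 1) (by omega) (fun h => by omega) (fun _ => g)
          (MA_pos hk he (by omega))
      · have g0 : s.ys.im < 0 := not_le.1 g0
        have he : e1 ≤ 800 := by exact_mod_cast (by linarith : (e1 : ℝ) ≤ 800)
        have gy : y.im = 0 := by
          by_contra hne
          have : y.im < 0 := lt_of_le_of_ne g hne
          nlinarith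
        exact key (2 * m) (by omega) (fun _ => gy.ge) (fun h => by omega) (MA_neg hk he (by omega))
  have big : (∃ p : ℕ, p < 30 ∧ (MA (kkN s.x) e1 e2).testBit p = true ∧
      nm (p / 2) = pc ∧ InS p s.ys.im y w ∧ 4 < p) → ¬ Pc.isF pc →
      ∃ p : ℕ, p < 30 ∧ (MA (kkN s.x) e1 e2).testBit p = true ∧
      nm (p / 2) = pc ∧ InS p s.ys.im y w ∧ (p ≤ 4 ↔ Pc.isF pc) := by
    rintro ⟨p, k1, k2, k3, k4, k5⟩ hn
    exact ⟨p, k1, k2, k3, k4, ⟨fun h => by omega, fun h => absurd h hn⟩⟩
  have std : ∀ m : ℕ, m ≤ 4 → nm m = pc → (m ≤ 2 ↔ Pc.isF pc) →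
      ∃ p : ℕ, p < 30 ∧ (MA (kkN s.x) e1 e2).testBit p = true ∧
      nm (p / 2) = pc ∧ InS p s.ys.im y w ∧ (p ≤ 4 ↔ Pc.isF pc) := by
    intro m hm e hfl
    refine ⟨2 * m, by omega, MA_std hk (by omega), by rw [← e]; congr 1; omega,
      ⟨by rw [show 2 * m / 2 = m by omega, e]; exact h1, fun h => by omega, fun h => by omega⟩, ?_⟩
    rw [← hfl]
    omega
  rcases hf with hf | hf | hf
  · cases pc with
    | F => exact std 0 (by norm_num) rfl (by simp [Pc.isF])
    | H => exact std 1 (by norm_num) rfl (by simp [Pc.isF])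
    | G => exact std 2 (by norm_num) rfl (by simp [Pc.isF])
    | L => exact std 3 (by norm_num) rfl (by simp [Pc.isF])
    | R => exact std 4 (by norm_num) rfl (by simp [Pc.isF])
    | T => exact big (cap 5 (by norm_num) h1 h1.2.2.1) (by simp [Pc.isF])
    | t => exact big (sml 6 (by norm_num) h1 h1.2.2.1) (by simp [Pc.isF])
    | U => exact big (cap 7 (by norm_num) h1 h1.2.2.1) (by simp [Pc.isF])
    | u => exact big (sml 8 (by norm_num) h1 h1.2.2.1) (by simp [Pc.isF])
    | P => exact big (cap 9 (by norm_num) h1 h1.2.2.2) (by simp [Pc.isF])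
    | p => exact big (sml 10 (by norm_num) h1 h1.2.2.2) (by simp [Pc.isF])
    | Q => exact big (cap 11 (by norm_num) h1 h1.2.2.2) (by simp [Pc.isF])
    | q => exact big (sml 12 (by norm_num) h1 h1.2.2.2) (by simp [Pc.isF])
    | lo => exact absurd hf (by simp [Pc.std])
    | re f => exact absurd hf (by simp [Pc.std])
    | rz f => exact absurd hf (by simp [Pc.std])
  · subst hf
    refine ⟨26, by norm_num, MA_far hk (by norm_num) (kkN_re (h3 (Or.inl rfl))), rfl,
      ⟨h1, fun _ h => by omega, fun h => by omega⟩, ?_⟩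
    simp [Pc.isF]
  · subst hf
    obtain ⟨k1, k2⟩ := h2 (Or.inl rfl)
    refine ⟨28, by norm_num, MA_far hk (by norm_num) (kkN_rz k1), rfl,
      ⟨h1, fun _ h => by omega, fun _ => hz.trans k2⟩, ?_⟩
    simp [Pc.isF]

end Pool.Agent.S5.K
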