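import Pool.Agent.S5.K.Cls

/-!
# Closed nodes: the packed tables of the potentials
-/

set_option autoImplicit false

namespace Pool.Agent.S5.K

/-- The packed tables agree with the potentials. -/
def tbB (S : Bool) (n x : Nt) (hk dk : ℕ) : Bool :=
  (List.range 15).all fun m =>
    decide (r0 S n x (nm m) - r0 S x n (nm m).mir + 64 = (hC hk m : ℤ)) &&
      decide (d0 S n x (nm m) - d0 S x n (nm m).mir + 1 = (dC dk m : ℤ)) && decide (dC dk m ≤ 2)

theorem nm_ge {m : ℕ} (h : 14 ≤ m) : nm m = .rz .far := by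
  obtain ⟨k, rfl⟩ := Nat.exists_eq_add_of_le h
  rw [Nat.add_comm]
  rfl

theorem tbB_ok {S : Bool} {n x : Nt} {hk dk : ℕ} (h : tbB S n x hk dk = true) :
    TbO S n x hk dk := by
  unfold tbB at h
  rw [List.all_eq_true] at h
  intro m
  have hm : nm m = nm (min m 14) := by
    rcases le_total m 14 with g | g
    · rw [min_eq_left g]
    · rw [min_eq_right g, nm_ge g, nm_ge le_rfl]
  have h1 := h (min m 14) (List.mem_range.2 (by omega))
  rw [← hm] at h1
  simp only [Bool.and_eq_true, decide_eq_true_eq] at h1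
  obtain ⟨⟨h1, h2⟩, h3⟩ := h1
  have h1' : ((r0 S n x (nm m) - r0 S x n (nm m).mir : ℤ) : ℝ) + 64 =
      ((hC hk (min m 14) : ℕ) : ℝ) := by exact_mod_cast h1
  have h2' : ((d0 S n x (nm m) - d0 S x n (nm m).mir : ℤ) : ℝ) + 1 =
      ((dC dk (min m 14) : ℕ) : ℝ) := by exact_mod_cast h2
  refine ⟨?_, ?_, h3⟩
  · unfold hT
    rw [← h1']
    ring
  · unfold dT
    rw [← h2']
    ring

end Pool.Agent.S5.K
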