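import Pool.Agent.S5.Ctx
import Pool.Agent.S5.K.Tbl
import Pool.Agent.S5.K.K0

/-!
# Closed nodes: from the certificates to the statement of the inner nodes

`Ent`: the kinds, types and regions of the two slots of an inner node with two half twists; `chkN_ent`: a
certificate proves the statement `Ent.OK`. `covN`: a list of entries covers all pairs of neighbours.
-/

set_option autoImplicit false

namespace Pool.Agent.S5

open Complex
open Pool.Agent.S5.E (Vt vL vR)
open Pool.Agent.S5.E.B2 (InR)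
open Pool.Agent.S5.G (kp)
open Pool.Agent.S3
open Pool.Agent.H63.VC3

namespace K

theorem GoN.swap {n : Nt} {sa sb : Slt} (h : GoN n sa sb) : GoN n sb sa where
  ia := h.ib
  ib := h.ia
  U := by
    intro a b wa wb pa pb fa fb ia ib hn
    have := h.U b a wb wa pb pa fb fa ib ia (fun k => hn ⟨k.2, k.1⟩)
    rw [Ecl_comm sa.ys sb.ys b a]
    linarith
  Ta := by
    intro a b wa wb pb h1 h2 h3 h4 h5
    have := h.Tb b a wb wa pb h1 h2 h4 h3 (by rwa [add_comm])
    rw [Ecl_comm sa.ys sb.ys b a]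
    linarith
  Tb := by
    intro a b wa wb pb h1 h2 h3 h4 h5
    have := h.Ta b a wb wa pb h1 h2 h4 h3 (by rwa [add_comm])
    rw [Ecl_comm sa.ys sb.ys b a]
    linarith

theorem Nd2.swap {bl br k E ya yb la lb : ℂ} (h : Nd2 bl br k E ya yb la lb) :
    Nd2 br bl k E yb ya lb la where
  al := h.ar
  ar := h.al
  bl0 := h.br0
  br0 := h.bl0
  kre := h.kre
  karg := h.karg
  Eim := h.Eim
  kE := by rw [h.kE]; ring
  EE := by
    have := h.EE
    linear_combination this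
  Va := h.Vb
  Vb := h.Va
  ya0 := h.yb0
  ya1 := h.yb1
  yb0 := h.ya0
  yb1 := h.ya1
  hla := h.hlb
  hlb := h.hla
  sla := h.slb
  slb := h.sla

/-! ### The types -/

/-- The type of the neighbour. -/
def nt (J : Vt) : Nt := ⟨min J.a 6, J.o.isNone⟩

theorem nt_vR {R : ℕ} {a : ℕ → ℕ} {S : ℕ → Bool} {i : ℕ} (hi : i < R) :
    ntG R a i = nt (vR a S i) := by
  unfold ntG nt E.vR
  congr 1
  · show min (a i) 6 = min (min (a i) 8) 6
    omega
  · by_cases hc : i = 0
    · rw [if_pos hc]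
      exact decide_eq_true (Or.inl hc)
    · rw [if_neg hc]
      exact decide_eq_false (by omega)

theorem nt_vL {R : ℕ} {a : ℕ → ℕ} {S : ℕ → Bool} {i : ℕ} :
    ntG R a (i + 1) = nt (vL R a S (i + 1)) := by
  unfold ntG nt E.vL
  congr 1
  · show min (a (i + 1)) 6 = min (min (a (i + 1)) 8) 6
    omega
  · by_cases hc : i + 1 = R
    · rw [if_pos hc]
      exact decide_eq_true (Or.inr hc)
    · rw [if_neg hc]
      exact decide_eq_false (by omega)

/-- The region of a slot. -/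
def PolR (s : Bool) (r : E.B2.Rg) (b : ℂ) : Prop := Pol s r.k0 r.k1 r.t0 r.t1 b

/-- The statement for the types `J`, `K` of the neighbours in the regions `rJ`, `rK`. -/
def PairOK (J K : Vt) (rJ rK : E.B2.Rg) : Prop :=
  ∀ (sa sb : Slt) (bl br k E : ℂ), sa.ex = true → sb.ex = true → sa.S = J.s → sb.S = K.s →
    sa.x = nt J → sb.x = nt K → 3 / 8 ≤ sa.z1 → 3 / 8 ≤ sb.z1 →
    Nd2 bl br k E sa.ys sb.ys sa.lam sb.lam → PolR J.s rJ bl → PolR K.s rK br →
    GoN ⟨2, false⟩ sa sb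

theorem PairOK.swap {J K : Vt} {rJ rK : E.B2.Rg} (h : PairOK J K rJ rK) : PairOK K J rK rJ :=
  fun sa sb bl br k E h1 h2 h3 h4 h5 h6 z1 z2 nd p q =>
    (h sb sa br bl k E h2 h1 h4 h3 h6 h5 z2 z1 nd.swap q p).swap

/-- The kinds, the types and the regions of two slots. -/
structure Ent where
  sA : Bool
  nA : Nt
  rA : E.B2.Rg
  sB : Bool
  nB : Nt
  rB : E.B2.Rg

/-- The statement holds for the slots. -/
def Ent.OK (e : Ent) : Prop :=
  ∀ (sa sb : Slt) (bl br k E : ℂ), sa.ex = true → sb.ex = true → sa.S = e.sA → sb.S = e.sB →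
    sa.x = e.nA → sb.x = e.nB → 3 / 8 ≤ sa.z1 → 3 / 8 ≤ sb.z1 →
    Nd2 bl br k E sa.ys sb.ys sa.lam sb.lam → PolR e.sA e.rA bl → PolR e.sB e.rB br →
    GoN ⟨2, false⟩ sa sb

/-- No cell is excluded. -/
def disF : Nat → Nat → Nat → Nat → Nat → Nat → Nat → Nat → Bool := fun _ _ _ _ _ _ _ _ => false

/-- The test of the constants of an entry. -/
def entT (e : Ent) (hkA dkA hkB dkB kA kB : Nat) : Bool :=
  Nat.beq kA (kkN e.nA) && (Nat.beq kB (kkN e.nB) && (tbB e.sA ⟨2, false⟩ e.nA hkA dkA &&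
    tbB e.sB ⟨2, false⟩ e.nB hkB dkB))

/-- **An entry from its certificate.** -/
theorem chkN_ent {e : Ent} {hkA dkA hkB dkB kA kB code : ℕ}
    (h1 : entT e hkA dkA hkB dkB kA kB = true)
    (h : chkN disF e.sA e.sB hkA dkA hkB dkB kA kB e.rA.k0 e.rA.k1 e.rA.t0 e.rA.t1 e.rB.k0 e.rB.k1
      e.rB.t0 e.rB.t1 code = true) : e.OK := by
  unfold entT at h1
  simp only [Bool.and_eq_true] at h1
  obtain ⟨a1, a2, a3, a4⟩ := h1
  have a1 := Nat.eq_of_beq_eq_true a1
  have a2 := Nat.eq_of_beq_eq_true a2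
  intro sa sb bl br k E xa xb ea eb fa fb za zb nd pa pb
  rw [a1, a2, ← ea, ← eb, ← fa, ← fb] at h
  rw [← ea, ← fa] at a3
  rw [← eb, ← fb] at a4
  rw [← ea] at pa
  rw [← eb] at pb
  exact chkN_ok h nd (fun _ _ _ _ _ _ _ _ hd => absurd hd (by simp [disF])) pa pb (tbB_ok a3)
    (tbB_ok a4) xa xb za zb

/-! ### The cover -/

/-- The region `r` is contained in `r'`. -/
def sbR (r r' : E.B2.Rg) : Bool :=
  Nat.ble r'.k0 r.k0 && (Nat.ble r.k1 r'.k1 && (Nat.ble r'.t0 r.t0 && Nat.ble r.t1 r'.t1))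

theorem sbR_ok {s : Bool} {r r' : E.B2.Rg} (h : sbR r r' = true) {b : ℂ} (hb : PolR s r b) :
    PolR s r' b := by
  unfold sbR at h
  simp only [Bool.and_eq_true] at h
  obtain ⟨h1, h2, h3, h4⟩ := h
  exact Pol.mono hb (Nat.le_of_ble_eq_true h1) (Nat.le_of_ble_eq_true h2)
    (Nat.le_of_ble_eq_true h3) (Nat.le_of_ble_eq_true h4)

/-- The entry covers the types `J`, `K` in the regions `rJ`, `rK`. -/
def Ent.cov (e : Ent) (J K : Vt) (rJ rK : E.B2.Rg) : Bool :=
  decide (e.sA = J.s) && (decide (e.sB = K.s) && (decide (e.nA = nt J) && (decide (e.nB = nt K) &&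
    (sbR rJ e.rA && sbR rK e.rB))))

theorem Ent.cov_ok {e : Ent} {J K : Vt} {rJ rK : E.B2.Rg} (h : e.cov J K rJ rK = true) (he : e.OK) :
    PairOK J K rJ rK := by
  unfold Ent.cov at h
  simp only [Bool.and_eq_true, decide_eq_true_eq] at h
  obtain ⟨h1, h2, h3, h4, h5, h6⟩ := h
  intro sa sb bl br k E xa xb ea eb fa fb za zb nd pa pb
  rw [← h1] at pa
  rw [← h2] at pb
  exact he sa sb bl br k E xa xb (ea.trans h1.symm) (eb.trans h2.symm) (fa.trans h3.symm)
    (fb.trans h4.symm) za zb nd (sbR_ok h5 pa) (sbR_ok h6 pb)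

/-- The list `l` covers all pairs; `W J I K`: the region of the vertex `J` next to the inner node `I` with
two half twists whose other neighbour is `K`. -/
def covN (W : Vt → Vt → Vt → E.B2.Rg) (l : List Ent) : Bool :=
  [false, true].all fun s => [false, true].all fun t =>
    (E.types s).all fun J => (E.types t).all fun K =>
      (!(⟨2, s, some t⟩ : Vt).ok || (!J.ok || (!K.ok ||
        (!E.adm ⟨2, s, some t⟩ J K || !E.adm ⟨2, t, some s⟩ K J)))) ||
        l.any fun e => e.cov J K (W J ⟨2, s, some t⟩ K) (W K ⟨2, t, some s⟩ J) ||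
          e.cov K J (W K ⟨2, t, some s⟩ J) (W J ⟨2, s, some t⟩ K)

theorem covN_ok {W : Vt → Vt → Vt → E.B2.Rg} {l : List Ent} (h : covN W l = true)
    (hl : ∀ e ∈ l, e.OK) {J K : Vt} (hI : (⟨2, J.s, some K.s⟩ : Vt).ok = true)
    (hJ : J.ok = true) (hK : K.ok = true)
    (h1 : E.adm ⟨2, J.s, some K.s⟩ J K = true) (h2 : E.adm ⟨2, K.s, some J.s⟩ K J = true) :
    PairOK J K (W J ⟨2, J.s, some K.s⟩ K) (W K ⟨2, K.s, some J.s⟩ J) := by
  have hb : ∀ s : Bool, s ∈ [false, true] := by decide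
  unfold covN at h
  have k := List.all_eq_true.1 (List.all_eq_true.1 (List.all_eq_true.1
    (List.all_eq_true.1 h J.s (hb _)) K.s (hb _)) J (E.mem_types hJ)) K (E.mem_types hK)
  rw [hI, hJ, hK, h1, h2] at k
  simp only [Bool.not_true, Bool.false_or, List.any_eq_true, Bool.or_eq_true] at k
  obtain ⟨e, he, k | k⟩ := k
  · exact e.cov_ok k (hl e he)
  · exact (e.cov_ok k (hl e he)).swap

/-- The regions of the table `W` are correct. -/
def TabW (T : Vt → Vt → E.B2.Rg) (W : Vt → Vt → Vt → E.B2.Rg) : Prop :=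
  ∀ (R : ℕ) (a : ℕ → ℕ) (S : ℕ → Bool) (z ql qr : ℕ → ℂ) (zF : Fin (R + 1) → ℂ),
    Pre T R a S z ql qr zF → ∀ i, i + 1 < R → a (i + 1) = 2 →
      InR (W (vR a S i) (vL R a S (i + 1)) (vL R a S (i + 2))) (cos (z i)).re (-(cos (z i)).im) ∧
      InR (W (vL R a S (i + 2)) (vR a S (i + 1)) (vR a S i)) (cos (z (i + 2))).re
        (-(cos (z (i + 2))).im)

theorem TabW_self (T : Vt → Vt → E.B2.Rg) : TabW T fun J I _ => T J I :=
  fun _ _ _ _ _ _ _ h _ hi _ => ⟨h.rl (by omega), h.rr hi⟩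

end K

/-! ### The context -/

namespace Pre

open K

variable {T : Vt → Vt → E.B2.Rg} {R : ℕ} {a : ℕ → ℕ} {S : ℕ → Bool} {z ql qr : ℕ → ℂ}
  {zF : Fin (R + 1) → ℂ} {r : ℕ → ℤ} {KK : Cn R}

/-- The slots of an inner node with two half twists. -/
theorem nd2 (_h : Pre T R a S z ql qr zF) (hg : HG R a S (flO R a S) z ql qr r KK) {i : ℕ}
    (hi : i + 1 < R) (ha : a (i + 1) = 2) :
    Nd2 (kp (S i) (cos (z i))) (kp (S (i + 1)) (cos (z (i + 2)))) (cos (z (i + 1)))
      (nE (ql (i + 1)) (qr (i + 1))) (slL R a S z ql (i + 1)).ys (slR R a S z qr (i + 1)).ys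
      (slL R a S z ql (i + 1)).lam (slR R a S z qr (i + 1)).lam := by
  have := hg.nd2 (i := i + 1) (by omega) hi ha
  rw [Nat.add_sub_cancel] at this
  exact this

/-- The region of the left slot. -/
theorem polN_l (h : Pre T R a S z ql qr zF) (hg : HG R a S (flO R a S) z ql qr r KK) {i : ℕ}
    (hi : i < R) : PolR (S i) (T (vR a S i) (vL R a S (i + 1))) (kp (S i) (cos (z i))) :=
  pol_of_inR (S i) (h.rl hi) (hg.crt.cosz i (by omega)).1

/-- The region of the right slot. -/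
theorem polN_r (h : Pre T R a S z ql qr zF) (hg : HG R a S (flO R a S) z ql qr r KK) {i : ℕ}
    (hi : i < R) : PolR (S i) (T (vL R a S (i + 1)) (vR a S i)) (kp (S i) (cos (z (i + 1)))) :=
  pol_of_inR (S i) (h.rr hi) (hg.crt.cosz (i + 1) (by omega)).1

/-- **The statement at an inner node with two half twists.** -/
theorem goN (h : Pre T R a S z ql qr zF) (hg : HG R a S (flO R a S) z ql qr r KK) {i : ℕ}
    (hi : i + 1 < R) (ha : a (i + 1) = 2) {rJ rK : E.B2.Rg}
    (hp : PairOK (vR a S i) (vL R a S (i + 2)) rJ rK)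
    (hl : PolR (S i) rJ (kp (S i) (cos (z i))))
    (hr : PolR (S (i + 1)) rK (kp (S (i + 1)) (cos (z (i + 2))))) :
    GoN (ntG R a (i + 1)) (slL R a S z ql (i + 1)) (slR R a S z qr (i + 1)) := by
  have e : ntG R a (i + 1) = ⟨2, false⟩ := by
    unfold ntG
    rw [ha, decide_eq_false (by omega)]
    rfl
  rw [e]
  exact hp _ _ _ _ _ _ rfl (by rw [Ctx.slR_mk hi]) rfl (by rw [Ctx.slR_mk hi]; rfl)
    (nt_vR (by omega)) (by rw [Ctx.slR_mk hi]; exact nt_vL)
    (by rw [Ctx.slL_mk]; exact z1O_ge R a S i)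
    (by rw [Ctx.slR_mk hi]; exact z1O_ge R a S (i + 1 + 1))
    (h.nd2 hg hi ha) hl hr

end Pre

namespace K

/-- **The statement at all inner nodes with two half twists.** -/
theorem goN_all {T : Vt → Vt → E.B2.Rg} {W : Vt → Vt → Vt → E.B2.Rg} (hW : TabW T W) {l : List Ent}
    (hc : covN W l = true) (hl : ∀ e ∈ l, e.OK) {R : ℕ} {a : ℕ → ℕ} {S : ℕ → Bool}
    {z ql qr : ℕ → ℂ} {zF : Fin (R + 1) → ℂ} {r : ℕ → ℤ} {KK : Cn R}
    (h : Pre T R a S z ql qr zF) (hg : HG R a S (flO R a S) z ql qr r KK) {i : ℕ}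
    (hi : i + 1 < R) (ha : a (i + 1) = 2) :
    GoN (ntG R a (i + 1)) (slL R a S z ql (i + 1)) (slR R a S z qr (i + 1)) := by
  have hJ := h.ok_r (i := i) (by omega)
  have hI := h.ok_l (i := i) (by omega)
  have hK := h.ok_l (i := i + 1) hi
  have h1 := h.adm_l hi
  have h2 := h.adm_r hi
  have e1 : vL R a S (i + 1) = ⟨2, S i, some (S (i + 1))⟩ := by
    rw [Pre.vL_inner hi, ha]
    rfl
  have e2 : vR a S (i + 1) = ⟨2, S (i + 1), some (S i)⟩ := by
    rw [Pre.vR_inner, ha]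
    rfl
  obtain ⟨w1, w2⟩ := hW R a S z ql qr zF h i hi ha
  rw [e1] at h1 hI w1
  rw [e2] at h2 w2
  exact h.goN hg hi ha (covN_ok hc hl hI hJ hK h1 h2)
    (pol_of_inR (S i) w1 (hg.crt.cosz i (by omega)).1)
    (pol_of_inR (S (i + 1)) w2 (hg.crt.cosz (i + 2) (by omega)).1)

end K

end Pool.Agent.S5
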