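import Pool.Agent.S5.I.LowB

/-!
# Low edges at the end with two half twists, a slightly larger range
-/

set_option autoImplicit false

namespace Pool.Agent.S5

open Pool.Agent.H63.VC3 Pool.Agent.S3 Complex

/-- **A low edge at the end with two half twists.** -/
theorem Ecl_low_end' {as : ℂ} (ha : 245 / 1000 ≤ as.re) (ha1 : as.re ≤ 345 / 1000)
    (hi : |as.im| ≤ 27 / 200) (hl : |(lcl as (1 / 2)).re| ≤ 3 / 4) {a : ℝ}
    (h0 : -(1 / 2) ≤ a) (h1 : a ≤ -(1 / 4)) :
    Ecl as (1 / 2) a (1 / 2) + (lcl as (1 / 2)).re * (a - 3 / 10) < 0 := by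
  have e1 : (1 / 2 - as).re = 1 / 2 - as.re := by simp
  have e2 : (1 / 2 - as).im = -as.im := by simp
  have w1 := Bn_lin (z := 1 / 2 - as) (a := 31 / 200) (b := 51 / 200) (B := 27 / 200)
    (u := 106 / 1000) (v := 107 / 1000) (by norm_num) (by norm_num) (by rw [e1]; linarith)
    (by rw [e1]; linarith) (by rw [e2, abs_neg]; exact hi)
    (by have := Lbv_031.1; unfold kz; norm_num at this ⊢; linarith)
    (by have := Lbv_051.1; unfold kz; norm_num at this ⊢; linarith)
  rw [e1] at w1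
  have hb : 106 / 1000 ≤ Bn (1 / 2 - as) := by
    nlinarith
  have h := Ecl_ofReal as (1 / 2) a (1 / 2)
  have e3 : (((1 / 2 : ℝ)) : ℂ) = 1 / 2 := by push_cast; rfl
  have e4 : (1 / 2 : ℂ).re = 1 / 2 := by simp
  rw [e3, e4, sub_self, mul_zero, Lb_zero, Wcl_end] at h
  have e5 : Lb (1 / 2 - a) = -Lb (a + 1 / 2) := by
    rw [← Lb_one_sub]
    congr 1
    ring
  rw [h, e5]
  have h2 := Lb_nonneg (x := a + 1 / 2) (by linarith) (by linarith)
  obtain ⟨l1, l2⟩ := abs_le.1 hl
  have k1 : -((lcl as (1 / 2)).re * (3 / 10 - as.re)) ≤ 3 / 4 * (55 / 1000) := by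
    rcases le_total (3 / 10) as.re with h | h <;> nlinarith
  linarith

end Pool.Agent.S5
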