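import Pool.Agent.S5.K.Gen
import Pool.Agent.S5.K.CkE
import Pool.Agent.S5.K.LowE2

/-!
# Closed nodes: from the certificates to the statement of the ends
-/

set_option autoImplicit false

namespace Pool.Agent.S5

open Complex
open Pool.Agent.S5.G (kp)

namespace K

open Pool.Agent.S5.Num
open Pool.Agent.S5.E (Vt vL vR)
open Pool.Agent.S5.E.B2 (InR)

/-- What a certificate of an end proves; `s` is the slot. -/
structure GoE (n : Nt) (s : Slt) : Prop where
  ib : |s.ys.im| ≤ 3 / 20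
  U : ∀ (b : ℂ) (w : ℝ) (pb : Pc), pb.free → s.In pb b w → ¬ Pc.isF pb →
    Ecl (1 / 2) s.ys (1 / 2) b + s.e n pb b w < 0
  T : ∀ (b : ℂ) (w : ℝ), s.In .lo b w → Ecl (1 / 2) s.ys (1 / 2) b + s.e n .lo b w < 0

/-! ### The certificates -/

/-- The test of a leaf; the tests of `x1 .. l1` are for small indices. -/
def finE' (kA : Nat) (c : Cd) (mask : Nat) : Bool :=
  cN (Nat.ble 368 c.e1) (cN (Nat.ble c.e2 1232) (cN (Nat.ble 784 c.x1) (cN (Nat.ble c.x2 1104)
    (cN (Nat.ble (Nat.add c.l1 c.r1) 9175040) (cN (Nat.ble (Nat.add 7602176 c.r1) c.l1)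
      (finE kA c mask) false) false) false) false) false) false

theorem lo_end {s : Slt} {n : Nt} (hx : s.ex = true) (hl : s.lam = lcl s.ys (1 / 2))
    (h1 : 245 / 1000 ≤ s.ys.re) (h2 : s.ys.re ≤ 345 / 1000) (h3 : |s.ys.im| ≤ 27 / 200)
    (h4 : |s.lam.re| ≤ 3 / 4) (b : ℂ) (w : ℝ) (hb : s.In .lo b w) :
    Ecl (1 / 2) s.ys (1 / 2) b + s.e n .lo b w < 0 := by
  have hb' : s.InE .lo b w := by
    unfold Slt.In at hb
    rwa [if_pos hx] at hb
  obtain ⟨⟨w0, b1, b2, b3⟩, -, -⟩ := hb'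
  rw [hl] at h4
  have hbr : b = ((b.re : ℝ) : ℂ) := Complex.ext rfl (by rw [ofReal_im]; exact b1)
  have k := Ecl_low_end' h1 h2 h3 h4 b2 b3
  have e1 : s.e n .lo b w = (lcl s.ys (1 / 2)).re * (b.re - 3 / 10) := by
    unfold Slt.e
    rw [if_pos hx]
    unfold slE
    have t1 : hT s.S n s.x .lo = 0 := by
      unfold hT
      have : r0 s.S n s.x .lo - r0 s.S s.x n (Pc.mir .lo) = 0 := rfl
      rw [this]
      norm_num
    have t2 : dT s.S n s.x .lo = 0 := by
      unfold dT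
      have : d0 s.S n s.x .lo - d0 s.S s.x n (Pc.mir .lo) = 0 := rfl
      rw [this]
      norm_num
    have t3 : Pc.lo.eff b = 3 / 10 := by
      unfold Pc.eff
      rw [if_neg (by simp [Pc.box]), if_pos rfl]
    rw [t1, t2, t3, w0, hl, mul_re, sub_im, b1]
    have t4 : ((3 : ℂ) / 10).im = 0 := by norm_num
    have t5 : (b - 3 / 10 : ℂ).re = b.re - 3 / 10 := by
      rw [sub_re]
      norm_num
    rw [t4, t5]
    ring
  rw [e1, Ecl_comm s.ys (1 / 2) b (1 / 2)]
  rw [← hbr] at k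
  exact k

theorem finE_ok {s : Slt} {c : Cd} {m : ℕ} {n : Nt} (h : finE' (kkN s.x) c m = true)
    (hc : CdOK c s.ys (1 / 2) s.lam 0)
    (hv : ∀ id, m.testBit id = true → RoE s.S n s.x s.lam s.ys id)
    (hl : s.lam = lcl s.ys (1 / 2)) (hx : s.ex = true) (hz : 3 / 8 ≤ s.z1) : GoE n s := by
  revert h
  unfold finE'
  refine cN_split (P := fun r => r = true → _) (fun g1 => ?_) (fun _ hf => absurd hf (by simp))
  refine cN_split (P := fun r => r = true → _) (fun g2 => ?_) (fun _ hf => absurd hf (by simp))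
  refine cN_split (P := fun r => r = true → _) (fun g3 => ?_) (fun _ hf => absurd hf (by simp))
  refine cN_split (P := fun r => r = true → _) (fun g4 => ?_) (fun _ hf => absurd hf (by simp))
  refine cN_split (P := fun r => r = true → _) (fun g5 => ?_) (fun _ hf => absurd hf (by simp))
  refine cN_split (P := fun r => r = true → _) (fun g6 g7 => ?_) (fun _ hf => absurd hf (by simp))
  have g1' : (368 : ℝ) ≤ c.e1 := by exact_mod_cast Nat.le_of_ble_eq_true g1
  have g2' : (c.e2 : ℝ) ≤ 1232 := by exact_mod_cast Nat.le_of_ble_eq_true g2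
  have g3' : (784 : ℝ) ≤ c.x1 := by exact_mod_cast Nat.le_of_ble_eq_true g3
  have g4' : (c.x2 : ℝ) ≤ 1104 := by exact_mod_cast Nat.le_of_ble_eq_true g4
  have g5' : (c.l1 : ℝ) + c.r1 ≤ 9175040 := by exact_mod_cast Nat.le_of_ble_eq_true g5
  have g6' : 7602176 + (c.r1 : ℝ) ≤ c.l1 := by exact_mod_cast Nat.le_of_ble_eq_true g6
  have ni : |s.ys.im| ≤ 27 / 200 :=
    abs_le.2 ⟨by linarith [hc.e1, hc.e2], by linarith [hc.e1, hc.e2]⟩
  have nl : |s.lam.re| ≤ 3 / 4 := by
    obtain ⟨q1, q2⟩ := abs_le.1 hc.l1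
    exact abs_le.2 ⟨by linarith, by linarith⟩
  refine ⟨ni.trans (by norm_num), ?_, fun b w hb =>
    lo_end hx hl (by linarith [hc.x1]) (by linarith [hc.x2]) ni nl b w hb⟩
  intro b w pb fb ib hn
  have ib' : s.InE pb b w := by
    have := ib
    unfold Slt.In at this
    rwa [if_pos hx] at this
  obtain ⟨p, p1, p2, p3, p4, p5⟩ := piece_id hc.e1 hc.e2 hz fb ib'
  unfold finE at g7
  have hp4 : ¬ p ≤ 4 := fun h => hn (p5.1 h)
  have hid := fnL_ok 30 g7 p p1 p2 0 (by rw [if_neg hp4]; decide)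
  have key := hv _ hid
  unfold RoE at key
  have e1 : (32 * p + 0) / 32 = p := by omega
  rw [e1, p3] at key
  have key := key b w p4
  unfold Slt.e
  rw [if_pos hx, Ecl_comm s.ys (1 / 2) b (1 / 2)]
  exact key

theorem procE_ok {s : Slt} {n : Nt} {hk dk : ℕ} (hT : TbO s.S n s.x hk dk) {b k : ℂ}
    (nd : NdE b k s.ys s.lam) (c : Cd) (m code : ℕ) (K : ℕ → ℕ → Bool)
    (h : procE hk dk c m code K = true) :
    ∃ m' code', K m' code' = true ∧ (CdOK c s.ys (1 / 2) s.lam 0 →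
      (∀ id, m.testBit id = true → RoE s.S n s.x s.lam s.ys id) →
        ∀ id, m'.testBit id = true → RoE s.S n s.x s.lam s.ys id) := by
  unfold procE at h
  revert h
  refine cN_split (P := fun r => r = true → _) (fun g1 => ?_) (fun _ hf => absurd hf (by simp))
  refine cN_split (P := fun r => r = true → _) (fun g2 h => ?_) (fun _ hf => absurd hf (by simp))
  by_cases hh : CdOK c s.ys (1 / 2) s.lam 0 ∧
      ∀ id, m.testBit id = true → RoE s.S n s.x s.lam s.ys id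
  · obtain ⟨hc, hv⟩ := hh
    obtain ⟨m', c', h1, h2⟩ := rowsE_ok nd.sl hT nd.y0 nd.y1 hc.l1 hc.l2 hc.x1 hc.x2 hc.e1 hc.e2
      (im_le (ble_t g1) (ble_t g2) hc.e1 hc.e2) h hv
    exact ⟨m', c', h1, fun _ _ => h2⟩
  · obtain ⟨m', c', h1⟩ := rowsE_ex h
    exact ⟨m', c', h1, fun k1 k2 => absurd ⟨k1, k2⟩ hh⟩

/-- **The test of a certificate of an end.** -/
noncomputable def chkE (s : Bool) (hk dk kA k0 k1 t0 t1 code : Nat) : Bool :=
  chk (fun k0 k1 t0 t1 _ _ _ _ c => ckE s k0 k1 t0 t1 c) (procE hk dk) (finE' kA) disF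
    k0 k1 t0 t1 0 0 0 0 0 code

/-- The kind, the type and the region of the slot of an end. -/
structure EnE where
  s : Bool
  n : Nt
  r : E.B2.Rg

/-- The statement holds for the slot. -/
def EnE.OK (e : EnE) : Prop :=
  ∀ (s : Slt) (b k : ℂ), s.ex = true → s.S = e.s → s.x = e.n → 3 / 8 ≤ s.z1 →
    NdE b k s.ys s.lam → PolR e.s e.r b → GoE ⟨2, true⟩ s

/-- The test of the constants of an entry. -/
def enET (e : EnE) (hk dk kA : Nat) : Bool :=
  Nat.beq kA (kkN e.n) && tbB e.s ⟨2, true⟩ e.n hk dk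

/-- **An entry from its certificate.** -/
theorem chkE_ent {e : EnE} {hk dk kA code : ℕ} (h1 : enET e hk dk kA = true)
    (h : chkE e.s hk dk kA e.r.k0 e.r.k1 e.r.t0 e.r.t1 code = true) : e.OK := by
  unfold enET at h1
  rw [Bool.and_eq_true] at h1
  obtain ⟨a1, a3⟩ := h1
  have a1 := Nat.eq_of_beq_eq_true a1
  intro s b k xs es fs zs nd pb
  rw [a1, ← es, ← fs] at h
  rw [← es] at pb
  rw [← es, ← fs] at a3
  exact chk_ok (C := fun c => CdOK c s.ys (1 / 2) s.lam 0)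
    (V := fun m => ∀ id, m.testBit id = true → RoE s.S ⟨2, true⟩ s.x s.lam s.ys id)
    (Q := fun _ _ _ _ => True) (spl_pol s.S b) spl_true
    (fun _ _ _ _ _ _ _ _ _ hc p _ => ckE_ok hc nd p)
    (procE_ok (tbB_ok a3) nd)
    (fun c m hf hc hv => finE_ok hf hc hv nd.sl xs zs)
    (fun _ _ _ _ _ _ _ _ hd => absurd hd (by simp [disF])) h
    (fun id hid => absurd hid (by simp)) pb trivial

/-- The list `l` covers all neighbours of the ends with two half twists. -/
def covE (T : Vt → Vt → E.B2.Rg) (l : List EnE) : Bool :=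
  [false, true].all fun s => (E.types s).all fun J =>
    (!J.ok || !(⟨2, s, none⟩ : Vt).ok) ||
      l.any fun e => decide (e.s = s) && (decide (e.n = nt J) && sbR (T J ⟨2, s, none⟩) e.r)

theorem covE_ok {T : Vt → Vt → E.B2.Rg} {l : List EnE} (h : covE T l = true) (hl : ∀ e ∈ l, e.OK)
    {J : Vt} (hJ : J.ok = true) (h2 : (⟨2, J.s, none⟩ : Vt).ok = true) (s : Slt) (b k : ℂ)
    (xs : s.ex = true) (es : s.S = J.s) (fs : s.x = nt J) (zs : 3 / 8 ≤ s.z1)
    (nd : NdE b k s.ys s.lam)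
    (pb : PolR J.s (T J ⟨2, J.s, none⟩) b) : GoE ⟨2, true⟩ s := by
  have hb : ∀ s : Bool, s ∈ [false, true] := by decide
  unfold covE at h
  have k := List.all_eq_true.1 (List.all_eq_true.1 h J.s (hb _)) J (E.mem_types hJ)
  rw [hJ, h2] at k
  simp only [Bool.not_true, Bool.false_or, List.any_eq_true, Bool.and_eq_true,
    decide_eq_true_eq] at k
  obtain ⟨e, he, k1, k2, k3⟩ := k
  rw [← k1] at pb k3
  exact hl e he s b _ xs (es.trans k1.symm) (fs.trans k2.symm) zs nd (sbR_ok k3 pb)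

/-- **The statement at the first node, with two half twists.** -/
theorem goE_zero {T : Vt → Vt → E.B2.Rg} {l : List EnE} (hc : covE T l = true) (hl : ∀ e ∈ l, e.OK)
    {R : ℕ} {a : ℕ → ℕ} {S : ℕ → Bool} {z ql qr : ℕ → ℂ} {zF : Fin (R + 1) → ℂ} {r : ℕ → ℤ}
    {KK : Cn R} (h : Pre T R a S z ql qr zF) (hg : HG R a S (flO R a S) z ql qr r KK)
    (ha : a 0 = 2) : GoE (ntG R a 0) (slR R a S z qr 0) := by
  have hR : 0 < R := hg.crt.hR
  have hJ := h.ok_l (i := 0) hR
  have hI := h.ok_r (i := 0) hR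
  have e1 : vR a S 0 = ⟨2, S 0, none⟩ := by
    unfold E.vR
    rw [ha, if_pos rfl]
    rfl
  have e : ntG R a 0 = ⟨2, true⟩ := by
    unfold ntG
    rw [ha]
    rfl
  have hp := h.polN_r hg (i := 0) hR
  rw [e1] at hI hp
  rw [e]
  exact covE_ok hc hl hJ hI _ _ _ (by rw [Ctx.slR_mk hR]) (by rw [Ctx.slR_mk hR]; rfl)
    (by rw [Ctx.slR_mk hR]; exact nt_vL)
    (by rw [Ctx.slR_mk hR]; exact z1O_ge R a S (0 + 1)) (hg.ndE_zero ha) hp

/-- **The statement at the last node, with two half twists.** -/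
theorem goE_last {T : Vt → Vt → E.B2.Rg} {l : List EnE} (hc : covE T l = true) (hl : ∀ e ∈ l, e.OK)
    {R : ℕ} {a : ℕ → ℕ} {S : ℕ → Bool} {z ql qr : ℕ → ℂ} {zF : Fin (R + 1) → ℂ} {r : ℕ → ℤ}
    {KK : Cn R} (h : Pre T R a S z ql qr zF) (hg : HG R a S (flO R a S) z ql qr r KK) {i : ℕ}
    (hi : i + 1 = R) (ha : a (i + 1) = 2) : GoE (ntG R a (i + 1)) (slL R a S z ql (i + 1)) := by
  have hR : i < R := by omega
  have hJ := h.ok_r (i := i) hR
  have hI := h.ok_l (i := i) hR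
  have e1 : vL R a S (i + 1) = ⟨2, S i, none⟩ := by
    unfold E.vL
    rw [ha, if_pos hi]
    rfl
  have e : ntG R a (i + 1) = ⟨2, true⟩ := by
    unfold ntG
    rw [ha, decide_eq_true (Or.inr hi)]
    rfl
  have hp := h.polN_l hg (i := i) hR
  have nd := hg.ndE_last (by rw [← hi]; exact ha)
  have e3 : R = i + 1 := hi.symm
  rw [e1] at hI hp
  rw [e]
  refine covE_ok hc hl hJ hI _ (kp (S i) (cos (z i))) (cos (z (i + 1))) rfl rfl (nt_vR hR)
    (by rw [Ctx.slL_mk]; exact z1O_ge R a S i) ?_ hp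
  subst e3
  rw [Nat.add_sub_cancel] at nd
  exact nd

end K

end Pool.Agent.S5
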