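import Pool.Agent.S5.K.BBb

/-!
# Closed nodes: the rows in the coordinates of the programs
-/

set_option autoImplicit false

namespace Pool.Agent.S5.K

open Pool.Agent.H63.VC3 Pool.Agent.S3 Complex Set Pool.Agent.S5.Tb Pool.Agent.S5.Num

/-- The point with the coordinates `X`, `S`. -/
noncomputable def yX (X S : ℝ) : ℂ := (((X - 50) / 200 : ℝ) : ℂ) + (((S - 960) / 3200 : ℝ) : ℂ) * I

theorem yX_re (X S : ℝ) : (yX X S).re = (X - 50) / 200 := by simp [yX]

theorem yX_im (X S : ℝ) : (yX X S).im = (S - 960) / 3200 := by simp [yX]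

theorem yX_eq (y : ℂ) : yX (200 * y.re + 50) (3200 * y.im + 960) = y := by
  apply Complex.ext
  · rw [yX_re]
    ring
  · rw [yX_im]
    ring

theorem Rf_half_yX (X S : ℝ) : -Rf (1 / 2 - yX X S) * 3355443200 = FW (250 - X) S := by
  unfold FW
  have e : (1 : ℂ) / 2 - yX X S = (((250 - X - 100) / 200 : ℝ) : ℂ) +
      ((-((S - 960) / 3200) : ℝ) : ℂ) * I := by
    apply Complex.ext
    · rw [sub_re, yX_re]
      simp
      ring
    · rw [sub_im, yX_im]
      simp
  rw [e, Rf_line_neg]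

theorem Rf_add_yX (X S Y T : ℝ) : -Rf (yX X S + yX Y T) * 3355443200 =
    FW (X + Y) (S + T - 960) := by
  unfold FW
  have e : yX X S + yX Y T = (((X + Y - 100) / 200 : ℝ) : ℂ) +
      (((S + T - 960 - 960) / 3200 : ℝ) : ℂ) * I := by
    apply Complex.ext
    · rw [add_re, yX_re, yX_re]
      simp
      ring
    · rw [add_im, yX_im, yX_im]
      simp
      ring
  rw [e]

/-- The growth in the coordinates. -/
theorem Gcl_yX (X S Y T : ℝ) : Gcl (yX X S) (yX Y T) * 3355443200 =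
    2 * FW (250 - X) S + 2 * FW (250 - Y) T + FW (X + Y) (S + T - 960) +
      1048576 * Real.pi / 200 * ((X - Y) * (S - T)) - 524288 * Real.pi * (S + T - 1920) := by
  rw [← Rf_half_yX, ← Rf_half_yX, ← Rf_add_yX]
  unfold Gcl gC qC
  rw [Rf_half_add, Rf_half_add]
  have e : (((-1 : ℤ) : ℂ) * Real.pi * I * ((yX X S - yX Y T) ^ 2 / 2 +
      (1 - yX X S - yX Y T) / 2)).re = Real.pi * (((X - Y) / 200) * ((S - T) / 3200)) -
        Real.pi * ((S + T - 1920) / 6400) := by
    simp only [Int.cast_neg, Int.cast_one, neg_mul, one_mul, neg_re, mul_re, ofReal_re, ofReal_im,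
      I_re, I_im, add_re, add_im, div_ofNat_re, div_ofNat_im, pow_two, sub_re, sub_im, one_re,
      one_im, yX_re, yX_im, mul_im]
    ring
  rw [e]
  ring

/-- The remainder of the share. -/
noncomputable def TA (ys : ℂ) (X S : ℝ) : ℝ :=
  Td (1 / 2 - ys) (1 / 2 - yX X S) * 3355443200 - FW (250 - X) S

/-- The part of a slot of a row. -/
theorem slot_eq {cf h dd m : ℕ} {S : Bool} {n x : Nt} {lam ys : ℂ} {IA SA X Z w : ℝ} {fz : Bool}
    (hh' : hT S n x (nm m) = ((h : ℝ) - 64) / 100) (hd : dT S n x (nm m) = (dd : ℝ) - 1)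
    (hf : fz = (nm m).box) (hw : w / 2 = if fz = true then Real.pi * |(yX X Z).im| else 0) :
    (slE S n x (nm m) lam ys (yX X Z) w - (lam * (yX X Z - yX IA SA)).re) * 3355443200 +
        cf * FW (250 - X) Z =
      GS cf (lam.re * 1048576 + 8388608) (lam.im * 1048576 + 8388608) IA SA fz h dd (TA ys) X Z := by
  unfold slE GS TA
  rw [hh', hd, hw]
  have hlo : nm m ≠ .lo := by
    unfold nm
    split <;> simp
  cases hb : (nm m).box
  · rw [hf, hb]
    have e : (nm m).eff (yX X Z) = yX X Z := by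
      unfold Pc.eff
      rw [hb, if_neg (by simp), if_neg hlo]
    rw [e, if_neg (by simp), if_neg (by simp), sub_self, mul_zero, zero_re]
    have e2 : (lam * (yX X Z - yX IA SA)).re = lam.re * ((X - IA) / 200) -
        lam.im * ((Z - SA) / 3200) := by
      rw [mul_re, sub_re, sub_im, yX_re, yX_re, yX_im, yX_im]
      ring
    rw [e2]
    ring
  · rw [hf, hb]
    have e : (nm m).eff (yX X Z) = ((yX X Z).re : ℂ) := by
      unfold Pc.eff
      rw [hb, if_pos rfl]
    rw [e, if_pos rfl, if_pos rfl, yX_im]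
    have e2 : (lam * (yX X Z - ((yX X Z).re : ℂ))).re - (lam * (yX X Z - yX IA SA)).re =
        -(lam.re * ((X - IA) / 200)) + lam.im * ((960 - SA) / 3200) := by
      simp only [mul_re, sub_re, sub_im, ofReal_re, ofReal_im, yX_re, yX_im]
      ring
    have e3 : |(Z - 960) / 3200| = |Z - 960| / 3200 := by
      rw [abs_div, abs_of_pos (show (0 : ℝ) < 3200 by norm_num)]
    rw [e3]
    linear_combination 3355443200 * e2

/-- **The row of an inner node.** -/
theorem row_eq {ya yb la lb : ℂ} (hla : la = lcl ya yb) (hlb : lb = lcl yb ya) {h1 h2 d1 d2 m1 m2 : ℕ}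
    {sA sB : Bool} {n xA xB : Nt} {IA JA IB JB X S Y T w w' : ℝ} {f1 f2 : Bool}
    (a1 : hT sA n xA (nm m1) = ((h1 : ℝ) - 64) / 100) (a2 : dT sA n xA (nm m1) = (d1 : ℝ) - 1)
    (a3 : f1 = (nm m1).box) (a4 : w / 2 = if f1 = true then Real.pi * |(yX X S).im| else 0)
    (b1 : hT sB n xB (nm m2) = ((h2 : ℝ) - 64) / 100) (b2 : dT sB n xB (nm m2) = (d2 : ℝ) - 1)
    (b3 : f2 = (nm m2).box) (b4 : w' / 2 = if f2 = true then Real.pi * |(yX Y T).im| else 0) :
    (Ecl ya yb (yX X S) (yX Y T) + slE sA n xA (nm m1) la ya (yX X S) w +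
        slE sB n xB (nm m2) lb yb (yX Y T) w') * 3355443200 =
      Ro false
        (GS 2 (la.re * 1048576 + 8388608) (la.im * 1048576 + 8388608) IA JA f1 h1 d1 (TA ya))
        (GS 2 (lb.re * 1048576 + 8388608) (lb.im * 1048576 + 8388608) IB JB f2 h2 d2 (TA yb))
        X S Y T - (Gcl (yX IA JA) (yX IB JB) - Ecl ya yb (yX IA JA) (yX IB JB)) * 3355443200 := by
  have k1 := Gcl_eq ya yb (yX X S) (yX Y T)
  have k2 := Gcl_eq ya yb (yX IA JA) (yX IB JB)
  rw [← hla, ← hlb] at k1 k2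
  have k3 := Gcl_yX X S Y T
  have e1 := slot_eq (cf := 2) (lam := la) (ys := ya) (IA := IA) (SA := JA) (X := X) (Z := S)
    a1 a2 a3 a4
  have e2 := slot_eq (cf := 2) (lam := lb) (ys := yb) (IA := IB) (SA := JB) (X := Y) (Z := T)
    b1 b2 b3 b4
  have l1 : ∀ l u v z : ℂ, (l * (u - z)).re - (l * (v - z)).re = (l * (u - v)).re := by
    intro l u v z
    rw [← sub_re]
    congr 1
    ring
  have m1' := l1 la (yX X S) (yX IA JA) ya
  have m2' := l1 lb (yX Y T) (yX IB JB) yb
  unfold Ro Fc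
  rw [if_neg (by simp), ← e1, ← e2]
  push_cast
  linear_combination 3355443200 * k2 - 3355443200 * k1 + k3 - 3355443200 * m1' - 3355443200 * m2'

/-- **The row of an end.** -/
theorem row_eqE {ya la : ℂ} (hla : la = lcl ya (1 / 2)) {h1 d1 m1 : ℕ}
    {sA : Bool} {n xA : Nt} {IA JA X S w : ℝ} {f1 : Bool}
    (a1 : hT sA n xA (nm m1) = ((h1 : ℝ) - 64) / 100) (a2 : dT sA n xA (nm m1) = (d1 : ℝ) - 1)
    (a3 : f1 = (nm m1).box) (a4 : w / 2 = if f1 = true then Real.pi * |(yX X S).im| else 0) :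
    (Ecl ya (1 / 2) (yX X S) (1 / 2) + slE sA n xA (nm m1) la ya (yX X S) w) * 3355443200 =
      Ro true
        (GS 1 (la.re * 1048576 + 8388608) (la.im * 1048576 + 8388608) IA JA f1 h1 d1 (TA ya))
        (fun _ _ => 0)
        X S 150 960 - (Gcl (yX IA JA) (1 / 2) - Ecl ya (1 / 2) (yX IA JA) (1 / 2)) *
          3355443200 := by
  have hb : (1 : ℂ) / 2 = yX 150 960 := by
    apply Complex.ext
    · rw [yX_re]
      norm_num
    · rw [yX_im]
      norm_num
  have k1 := Gcl_eq ya (1 / 2) (yX X S) (1 / 2)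
  have k2 := Gcl_eq ya (1 / 2) (yX IA JA) (1 / 2)
  rw [← hla] at k1 k2
  have k3 := Gcl_yX X S 150 960
  rw [← hb] at k3
  have f1' : FW (250 - 150) 960 = 0 := by
    rw [show (250 : ℝ) - 150 = 100 by norm_num, FW_100]
    norm_num
  have f2' : FW (X + 150) (S + 960 - 960) = -FW (250 - X) S := by
    rw [show X + 150 = 400 - (250 - X) by ring, FW_refl]
    congr 2
    ring
  rw [f1', f2'] at k3
  have e1 := slot_eq (cf := 1) (lam := la) (ys := ya) (IA := IA) (SA := JA) (X := X) (Z := S)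
    a1 a2 a3 a4
  have l1 : ∀ l u v z : ℂ, (l * (u - z)).re - (l * (v - z)).re = (l * (u - v)).re := by
    intro l u v z
    rw [← sub_re]
    congr 1
    ring
  have m1' := l1 la (yX X S) (yX IA JA) ya
  have z1 : (lcl (1 / 2) ya * ((1 : ℂ) / 2 - 1 / 2)).re = 0 := by
    rw [sub_self, mul_zero, zero_re]
  rw [z1] at k1 k2
  unfold Ro Fc
  rw [if_pos rfl, ← e1]
  push_cast
  linear_combination 3355443200 * k2 - 3355443200 * k1 + k3 - 3355443200 * m1'

end Pool.Agent.S5.K
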