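import Pool.Agent.S5.K.MSa

/-!
# Closed nodes: the constants of a cell
-/

set_option autoImplicit false

namespace Pool.Agent.S5.K

open Pool.Agent.H63.VC3 Pool.Agent.S3 Complex Set Pool.Agent.S5.Tb Pool.Agent.S5.Num

theorem kC_ok {ia ja ib jb x1 x2 x3 x4 e1 e2 e3 e4 : ℕ} {k : ℕ → Bool}
    (h : kC ia ja ib jb x1 x2 x3 x4 e1 e2 e3 e4 k = true) (hi : 1 ≤ ia + ib) (hia : ia ≤ 99)
    (hib : ib ≤ 99) {ya yb : ℂ}
    (ya0 : 0 < ya.re) (ya1 : ya.re < 1 / 2) (yb0 : 0 < yb.re) (yb1 : yb.re < 1 / 2)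
    (hx1 : (x1 : ℝ) ≤ ya.re * 3200) (hx2 : ya.re * 3200 ≤ x2)
    (hx3 : (x3 : ℝ) ≤ yb.re * 3200) (hx4 : yb.re * 3200 ≤ x4)
    (he1 : (e1 : ℝ) ≤ ya.im * 3200 + 800) (he2 : ya.im * 3200 + 800 ≤ e2)
    (he3 : (e3 : ℝ) ≤ yb.im * 3200 + 800) (he4 : yb.im * 3200 + 800 ≤ e4) :
    ∃ kc : ℕ, k kc = true ∧
      Seg (ya + yb) (yX (ia + 50) (160 + 16 * ja) + yX (ib + 50) (160 + 16 * jb)) ((kc : ℝ) / 16) := by
  revert h
  unfold kC
  rw [fN_eq, fN_eq, fN_eq, fN_eq, fN_eq, fN_eq]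
  simp only [mn'_eq, mx'_eq, add_eq', sub_eq', mul_eq', div_eq']
  set xl := min x1 (16 * ia) + min x3 (16 * ib) with hxl
  set xh := max x2 (16 * ia) + max x4 (16 * ib) with hxh
  set lo := min e1 (16 * ja) + min e3 (16 * jb) with hlo
  set hi' := max e2 (16 * ja) + max e4 (16 * jb) with hhi
  set wi := min xl (3200 - xh) / 16 with hwi
  set sj := min 60 ((lo - 1600 + (1600 - hi')) / 16) with hsj
  refine cN_split (P := fun r => r = true → _) (fun g1 => ?_) (fun _ hf => absurd hf (by simp))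
  refine cN_split (P := fun r => r = true → _) (fun g2 => ?_) (fun _ hf => absurd hf (by simp))
  intro hk
  have g1 := ble_t g1
  have g2 := ble_t g2
  refine ⟨_, hk, ?_⟩
  have a0r : (yX ((ia : ℝ) + 50) (160 + 16 * ja)).re = ia / 200 := by
    rw [yX_re]
    ring
  have a0i : (yX ((ia : ℝ) + 50) (160 + 16 * ja)).im = (ja - 50) / 200 := by
    rw [yX_im]
    ring
  have b0r : (yX ((ib : ℝ) + 50) (160 + 16 * jb)).re = ib / 200 := by
    rw [yX_re]
    ring
  have b0i : (yX ((ib : ℝ) + 50) (160 + 16 * jb)).im = (jb - 50) / 200 := by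
    rw [yX_im]
    ring
  have c1 : (ia : ℝ) ≤ 99 := by exact_mod_cast hia
  have c2 : (ib : ℝ) ≤ 99 := by exact_mod_cast hib
  have c3 : (1 : ℝ) ≤ (ia : ℝ) + ib := by exact_mod_cast hi
  have m1 : ((min x1 (16 * ia) : ℕ) : ℝ) ≤ x1 := by exact_mod_cast min_le_left _ _
  have m2 : ((min x1 (16 * ia) : ℕ) : ℝ) ≤ 16 * ia := by exact_mod_cast min_le_right x1 (16 * ia)
  have m3 : ((min x3 (16 * ib) : ℕ) : ℝ) ≤ x3 := by exact_mod_cast min_le_left _ _
  have m4 : ((min x3 (16 * ib) : ℕ) : ℝ) ≤ 16 * ib := by exact_mod_cast min_le_right x3 (16 * ib)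
  have m5 : (x2 : ℝ) ≤ ((max x2 (16 * ia) : ℕ) : ℝ) := by exact_mod_cast le_max_left _ _
  have m6 : (16 : ℝ) * ia ≤ ((max x2 (16 * ia) : ℕ) : ℝ) := by
    exact_mod_cast le_max_right x2 (16 * ia)
  have m7 : (x4 : ℝ) ≤ ((max x4 (16 * ib) : ℕ) : ℝ) := by exact_mod_cast le_max_left _ _
  have m8 : (16 : ℝ) * ib ≤ ((max x4 (16 * ib) : ℕ) : ℝ) := by
    exact_mod_cast le_max_right x4 (16 * ib)
  have exl : (xl : ℝ) = ((min x1 (16 * ia) : ℕ) : ℝ) + ((min x3 (16 * ib) : ℕ) : ℝ) := by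
    rw [hxl]
    push_cast
    ring
  have exh : (xh : ℝ) = ((max x2 (16 * ia) : ℕ) : ℝ) + ((max x4 (16 * ib) : ℕ) : ℝ) := by
    rw [hxh]
    push_cast
    ring
  have u1 : xl ≤ 16 * ia + 16 * ib := add_le_add (min_le_right _ _) (min_le_right _ _)
  have u2 : 16 * ia + 16 * ib ≤ xh := add_le_add (le_max_right _ _) (le_max_right _ _)
  have q1 : wi * 16 ≤ min xl (3200 - xh) := Nat.div_mul_le_self _ _
  have q2 : min xl (3200 - xh) ≤ xl := min_le_left _ _
  have q3 : min xl (3200 - xh) ≤ 3200 - xh := min_le_right _ _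
  have q4 : sj ≤ 60 := min_le_left _ _
  have q5 : sj ≤ (lo - 1600 + (1600 - hi')) / 16 := min_le_right _ _
  have q6 : (lo - 1600 + (1600 - hi')) / 16 * 16 ≤ lo - 1600 + (1600 - hi') := Nat.div_mul_le_self _ _
  have q7 : lo ≤ e1 + e3 := add_le_add (min_le_left _ _) (min_le_left _ _)
  have q8 : lo ≤ 16 * ja + 16 * jb := add_le_add (min_le_right _ _) (min_le_right _ _)
  have q9 : e2 + e4 ≤ hi' := add_le_add (le_max_left _ _) (le_max_left _ _)
  have q10 : 16 * ja + 16 * jb ≤ hi' := add_le_add (le_max_right _ _) (le_max_right _ _)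
  have w1 : wi * 16 ≤ xl := q1.trans q2
  have w2 : wi * 16 ≤ 3200 - xh := q1.trans q3
  have w3 : sj * 16 ≤ lo - 1600 + (1600 - hi') := (Nat.mul_le_mul_right 16 q5).trans q6
  clear_value xl xh lo hi' wi sj
  clear hlo hhi hwi hsj hxl hxh q1 q2 q3 q5 q6
  have l2n : wi * 16 + xh ≤ 3200 := by
    clear m1 m2 m3 m4 m5 m6 m7 m8 exl exh w3 q4 q7 q8 q9 q10
    omega
  have l1 : (wi : ℝ) * 16 ≤ xl := by exact_mod_cast w1
  have l2 : (wi : ℝ) * 16 + xh ≤ 3200 := by exact_mod_cast l2n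
  have s1 : wi ≤ 100 := by
    clear m1 m2 m3 m4 m5 m6 m7 m8 exl exh
    omega
  have s3 : 0 < wi + sj := by
    clear m1 m2 m3 m4 m5 m6 m7 m8 exl exh
    omega
  apply seg_ok s1 q4 s3
  · rw [add_re]; linarith only [exl, m3, m1, l1, hx3, hx1]
  · rw [add_re]; linarith only [exh, m7, m5, l2, hx4, hx2]
  · rw [add_re]; linarith only [yb0, ya0]
  · rw [add_re]; linarith only [yb1, ya1]
  · rw [add_re, a0r, b0r]; linarith only [exl, m4, m2, l1]
  · rw [add_re, a0r, b0r]; linarith only [exh, m8, m6, l2]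
  · rw [add_re, a0r, b0r]; linarith only [c3, ya1, ya0]
  · rw [add_re, a0r, b0r]; linarith only [c2, c1, ya1, ya0]
  · rw [add_im, add_im, a0i, b0i]
    clear m1 m2 m3 m4 m5 m6 m7 m8 exl exh l1 l2 l2n s1 s3 w1 w2 u1 u2 a0r a0i b0r b0i
    rcases Nat.lt_or_ge 1600 lo with c | c
    · left
      have c' : 1600 ≤ hi' := by omega
      rw [Nat.sub_eq_zero_of_le c', add_zero] at w3
      have w4 : sj * 16 + 1600 ≤ lo := by omega
      have d1' : (sj : ℝ) * 16 + 1600 ≤ e1 + e3 := by exact_mod_cast w4.trans q7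
      have d2' : (sj : ℝ) * 16 + 1600 ≤ 16 * ja + 16 * jb := by exact_mod_cast w4.trans q8
      constructor <;> linarith
    · rcases Nat.lt_or_ge hi' 1600 with c' | c'
      · right
        left
        rw [Nat.sub_eq_zero_of_le c, zero_add] at w3
        have w4 : sj * 16 + hi' ≤ 1600 := by omega
        have d1' : (sj : ℝ) * 16 + (e2 + e4) ≤ 1600 := by
          exact_mod_cast (Nat.add_le_add_left q9 _).trans w4
        have d2' : (sj : ℝ) * 16 + (16 * ja + 16 * jb) ≤ 1600 := by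
          exact_mod_cast (Nat.add_le_add_left q10 _).trans w4
        constructor <;> linarith
      · right
        right
        omega

theorem Seg.Td_W {p q : ℂ} {k : ℕ} (h : Seg p q ((k : ℝ) / 16)) {DX DS : ℝ}
    (h1 : |(q - p).re| * 3200 ≤ DX) (h2 : |(q - p).im| * 3200 ≤ DS) :
    |Td p q| * 3355443200 ≤ 1024 / 100 * (k * (DX ^ 2 + DS ^ 2)) := by
  have hd2 : ‖q - p‖ ^ 2 ≤ (DX ^ 2 + DS ^ 2) / 3200 ^ 2 := by
    rw [← normSq_eq_norm_sq, normSq_apply]
    have u1 : (q - p).re * (q - p).re ≤ (DX / 3200) ^ 2 := by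
      rw [← sq, ← sq_abs]
      exact pow_le_pow_left₀ (abs_nonneg _) (by linarith only [h1]) 2
    have u2 : (q - p).im * (q - p).im ≤ (DS / 3200) ^ 2 := by
      rw [← sq, ← sq_abs]
      exact pow_le_pow_left₀ (abs_nonneg _) (by linarith only [h2]) 2
    have e : (DX ^ 2 + DS ^ 2) / 3200 ^ 2 = (DX / 3200) ^ 2 + (DS / 3200) ^ 2 := by ring
    rw [e]
    linarith only [u2, u1]
  have h1 := h.Td_le
  have h2 := mul_le_mul_of_nonneg_left hd2 (by positivity : 0 ≤ (k : ℝ) / 16 / 2)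
  have h3 := h1.trans h2
  have h4 := mul_le_mul_of_nonneg_right h3 (by norm_num : (0 : ℝ) ≤ 3355443200)
  refine h4.trans (le_of_eq ?_)
  ring

/-- The value of the coupling at the reference point. -/
theorem FW_cp {ia ja ib jb : ℕ} (hi : 1 ≤ ia + ib) (hia : ia ≤ 99) (hib : ib ≤ 99)
    (hj : ds' (ja + jb) 100 ≤ 60) {q : ℕ}
    (hq : q = 3200 * qE (ent6 (min (ia + ib) (200 - (ia + ib))) (ds' (ja + jb) 100))) :
    |FW ((ia : ℝ) + ib + 100) (16 * (ja + jb) - 640) - (if ia + ib ≤ 100 then (q : ℝ) else -q)| ≤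
      102400 := by
  have hj' : 40 ≤ ja + jb ∧ ja + jb ≤ 160 := by
    have h1 : ((ds' (ja + jb) 100 : ℕ) : ℝ) ≤ 60 := by exact_mod_cast hj
    rw [ds'_eq, abs_le] at h1
    push_cast at h1
    constructor
    · exact_mod_cast (by linarith only [h1.1] : (40 : ℝ) ≤ ja + jb)
    · exact_mod_cast (by linarith only [h1.2] : (ja : ℝ) + jb ≤ 160)
  have hs : ds' (ja + jb - 40) 60 = ds' (ja + jb) 100 := by
    have h1 := ds'_eq (ja + jb - 40) 60
    have h2 := ds'_eq (ja + jb) 100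
    have e : (((ja + jb - 40 : ℕ) : ℝ) - (60 : ℕ)) = ((ja + jb : ℕ) : ℝ) - (100 : ℕ) := by
      push_cast [hj'.1]
      ring
    rw [e, ← h2] at h1
    exact_mod_cast h1
  have hS : (16 : ℝ) * ((ja + jb - 40 : ℕ) : ℝ) = 16 * (ja + jb) - 640 := by
    push_cast [hj'.1]
    ring
  split_ifs with h
  · have := tb_q (w := ia + ib) (J := ja + jb - 40) h (by omega)
    rw [hS] at this
    push_cast at this
    rw [show (q : ℝ) = (tq (ia + ib) (ja + jb - 40) : ℕ) by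
      rw [hq, tq_cast, hs, show min (ia + ib) (200 - (ia + ib)) = ia + ib by omega]
      push_cast
      ring]
    exact this
  · have := tb_q (w := 200 - (ia + ib)) (J := ja + jb - 40) (by omega) (by omega)
    rw [hS] at this
    have e1 : ((200 - (ia + ib) : ℕ) : ℝ) + 100 = 400 - ((ia : ℝ) + ib + 100) := by
      push_cast [show ia + ib ≤ 200 by omega]
      ring
    rw [e1, FW_refl] at this
    rw [show (q : ℝ) = (tq (200 - (ia + ib)) (ja + jb - 40) : ℕ) by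
      rw [hq, tq_cast, hs, show min (ia + ib) (200 - (ia + ib)) = 200 - (ia + ib) by omega]
      push_cast
      ring]
    rw [show FW ((ia : ℝ) + ib + 100) (16 * (ja + jb) - 640) -
      -((tq (200 - (ia + ib)) (ja + jb - 40) : ℕ) : ℝ) =
      -(-FW ((ia : ℝ) + ib + 100) (16 * (ja + jb) - 640) -
        ((tq (200 - (ia + ib)) (ja + jb - 40) : ℕ) : ℝ)) by ring, abs_neg]
    exact this

theorem c2_bd : |(263536 : ℝ) - 1048576 * Real.pi / 200 * 16| ≤ 1 / 5 := by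
  have q1 := Real.pi_gt_d20
  have q2 := Real.pi_lt_d20
  rw [abs_le]
  constructor <;> linarith

theorem c1_bd : |(26353600 : ℝ) - 524288 * Real.pi * 16| ≤ 11 := by
  have q1 := Real.pi_gt_d20
  have q2 := Real.pi_lt_d20
  rw [abs_le]
  constructor <;> linarith

/-- **The constant of an inner node.** -/
theorem K0_ok {ia ja ib jb qA qB kA kB kc dXa dSa dXb dSb q e0 K0p K0n : ℕ} {ya yb : ℂ}
    (hi : 1 ≤ ia + ib) (hia : ia ≤ 99) (hib : ib ≤ 99) (hja : ja ≤ 100) (hjb : jb ≤ 100)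
    (hj : ds' (ja + jb) 100 ≤ 60)
    (hqA : |FW (200 - ia) (160 + 16 * ja) - qA| ≤ 102400)
    (hqB : |FW (200 - ib) (160 + 16 * jb) - qB| ≤ 102400)
    (xa : |ya.re * 3200 - 16 * ia| ≤ dXa) (sa : |ya.im * 3200 + 800 - 16 * ja| ≤ dSa)
    (xb : |yb.re * 3200 - 16 * ib| ≤ dXb) (sb : |yb.im * 3200 + 800 - 16 * jb| ≤ dSb)
    (ta : |Td (1 / 2 - ya) (1 / 2 - yX (ia + 50) (160 + 16 * ja))| * 3355443200 ≤
      1024 / 100 * (kA * (dXa ^ 2 + dSa ^ 2)))
    (tb : |Td (1 / 2 - yb) (1 / 2 - yX (ib + 50) (160 + 16 * jb))| * 3355443200 ≤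
      1024 / 100 * (kB * (dXb ^ 2 + dSb ^ 2)))
    (hs : Seg (ya + yb) (yX (ia + 50) (160 + 16 * ja) + yX (ib + 50) (160 + 16 * jb)) ((kc : ℝ) / 16))
    (hq : q = 3200 * qE (ent6 (min (ia + ib) (200 - (ia + ib))) (ds' (ja + jb) 100)))
    (he : e0 = 2048 * (kA * (dXa * dXa + dSa * dSa) + kB * (dXb * dXb + dSb * dSb)) / 100 +
      1024 * (kc * ((dXa + dXb) * (dXa + dXb) + (dSa + dSb) * (dSa + dSb))) / 100 + 2097154 +
        1030 * ((dXa + dXb) * (dSa + dSb)))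
    (hp : K0p = 2 * qA + 2 * qB + (if ia + ib ≤ 100 then q else 0) +
      263536 * (ia * ja + ib * jb) + 2635360000)
    (hn : K0n = (if ia + ib ≤ 100 then 0 else q) + 263536 * (ia * jb + ib * ja) +
      26353600 * (ja + jb) + e0) :
    (K0p : ℝ) - K0n + 1560000 ≤
      (Gcl (yX (ia + 50) (160 + 16 * ja)) (yX (ib + 50) (160 + 16 * jb)) -
        Ecl ya yb (yX (ia + 50) (160 + 16 * ja)) (yX (ib + 50) (160 + 16 * jb))) * 3355443200 := by
  set a0 := yX ((ia : ℝ) + 50) (160 + 16 * ja) with ha0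
  set b0 := yX ((ib : ℝ) + 50) (160 + 16 * jb) with hb0
  have a0r : a0.re = ia / 200 := by
    rw [ha0, yX_re]
    ring
  have a0i : a0.im = (ja - 50) / 200 := by
    rw [ha0, yX_im]
    ring
  have b0r : b0.re = ib / 200 := by
    rw [hb0, yX_re]
    ring
  have b0i : b0.im = (jb - 50) / 200 := by
    rw [hb0, yX_im]
    ring
  have hG : Gcl a0 b0 * 3355443200 = 2 * FW (200 - ia) (160 + 16 * ja) +
      2 * FW (200 - ib) (160 + 16 * jb) + FW ((ia : ℝ) + ib + 100) (16 * (ja + jb) - 640) +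
        1048576 * Real.pi / 200 * 16 * (((ia : ℝ) - ib) * (ja - jb)) -
          524288 * Real.pi * 16 * ((ja : ℝ) + jb - 100) := by
    have := Gcl_yX ((ia : ℝ) + 50) (160 + 16 * ja) ((ib : ℝ) + 50) (160 + 16 * jb)
    rw [← ha0, ← hb0] at this
    rw [this, show (250 : ℝ) - (ia + 50) = 200 - ia by ring,
      show (250 : ℝ) - (ib + 50) = 200 - ib by ring,
      show (ia : ℝ) + 50 + (ib + 50) = ia + ib + 100 by ring,
      show (160 : ℝ) + 16 * ja + (160 + 16 * jb) - 960 = 16 * (ja + jb) - 640 by ring]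
    ring
  have hcp := FW_cp hi hia hib hj hq
  have d1 : |(a0 - ya).re| * 3200 ≤ dXa := by
    rw [sub_re, a0r, abs_sub_comm]
    refine le_trans (le_of_eq ?_) xa
    rw [← abs_of_pos (show (0 : ℝ) < 3200 by norm_num), ← abs_mul,
      abs_of_pos (show (0 : ℝ) < 3200 by norm_num)]
    congr 1
    ring
  have d2 : |(a0 - ya).im| * 3200 ≤ dSa := by
    rw [sub_im, a0i, abs_sub_comm]
    refine le_trans (le_of_eq ?_) sa
    rw [← abs_of_pos (show (0 : ℝ) < 3200 by norm_num), ← abs_mul,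
      abs_of_pos (show (0 : ℝ) < 3200 by norm_num)]
    congr 1
    ring
  have d3 : |(b0 - yb).re| * 3200 ≤ dXb := by
    rw [sub_re, b0r, abs_sub_comm]
    refine le_trans (le_of_eq ?_) xb
    rw [← abs_of_pos (show (0 : ℝ) < 3200 by norm_num), ← abs_mul,
      abs_of_pos (show (0 : ℝ) < 3200 by norm_num)]
    congr 1
    ring
  have d4 : |(b0 - yb).im| * 3200 ≤ dSb := by
    rw [sub_im, b0i, abs_sub_comm]
    refine le_trans (le_of_eq ?_) sb
    rw [← abs_of_pos (show (0 : ℝ) < 3200 by norm_num), ← abs_mul,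
      abs_of_pos (show (0 : ℝ) < 3200 by norm_num)]
    congr 1
    ring
  have tc : |Td (ya + yb) (a0 + b0)| * 3355443200 ≤
      1024 / 100 * (kc * (((dXa : ℝ) + dXb) ^ 2 + ((dSa : ℝ) + dSb) ^ 2)) := by
    have e : a0 + b0 - (ya + yb) = (a0 - ya) + (b0 - yb) := by ring
    apply hs.Td_W
    · rw [e, add_re]
      refine (mul_le_mul_of_nonneg_right (abs_add_le _ _) (by norm_num)).trans ?_
      linarith only [d3, d1]
    · rw [e, add_im]
      refine (mul_le_mul_of_nonneg_right (abs_add_le _ _) (by norm_num)).trans ?_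
      linarith only [d4, d2]
  have tp : |Real.pi * (((a0 - ya) - (b0 - yb)).re * ((a0 - ya) - (b0 - yb)).im)| * 3355443200 ≤
      1030 * (((dXa : ℝ) + dXb) * ((dSa : ℝ) + dSb)) := by
    have u1 : |((a0 - ya) - (b0 - yb)).re| * 3200 ≤ (dXa : ℝ) + dXb := by
      rw [sub_re]
      refine (mul_le_mul_of_nonneg_right (abs_sub _ _) (by norm_num)).trans ?_
      linarith only [d3, d1]
    have u2 : |((a0 - ya) - (b0 - yb)).im| * 3200 ≤ (dSa : ℝ) + dSb := by
      rw [sub_im]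
      refine (mul_le_mul_of_nonneg_right (abs_sub _ _) (by norm_num)).trans ?_
      linarith only [d4, d2]
    rw [abs_mul, abs_mul, abs_of_pos Real.pi_pos]
    have u3 := mul_le_mul u1 u2 (by positivity) (by positivity)
    have u4 : Real.pi * 32768 ≤ 103000 := by
      have := Real.pi_lt_d20
      linarith only [this]
    have u5 : 0 ≤ |((a0 - ya) - (b0 - yb)).re| * 3200 * (|((a0 - ya) - (b0 - yb)).im| * 3200) := by
      positivity
    have u6 := mul_le_mul_of_nonneg_right u4 u5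
    linarith only [u6, u3]
  have hE : |Ecl ya yb a0 b0| * 3355443200 ≤
      2 * (1024 / 100 * (kA * ((dXa : ℝ) ^ 2 + (dSa : ℝ) ^ 2))) +
      2 * (1024 / 100 * (kB * ((dXb : ℝ) ^ 2 + (dSb : ℝ) ^ 2))) +
      1024 / 100 * (kc * (((dXa : ℝ) + dXb) ^ 2 + ((dSa : ℝ) + dSb) ^ 2)) +
      1030 * (((dXa : ℝ) + dXb) * ((dSa : ℝ) + dSb)) := by
    have h1 : |Ecl ya yb a0 b0| ≤ 2 * |Td (1 / 2 - ya) (1 / 2 - a0)| +
        2 * |Td (1 / 2 - yb) (1 / 2 - b0)| + |Td (ya + yb) (a0 + b0)| +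
        |Real.pi * (((a0 - ya) - (b0 - yb)).re * ((a0 - ya) - (b0 - yb)).im)| := by
      unfold Ecl
      refine (abs_add_le _ _).trans (add_le_add ?_ le_rfl)
      refine (abs_add_le _ _).trans (add_le_add ?_ le_rfl)
      refine (abs_add_le _ _).trans (add_le_add ?_ ?_)
      · rw [abs_mul, abs_of_pos (show (0 : ℝ) < 2 by norm_num)]
      · rw [abs_mul, abs_of_pos (show (0 : ℝ) < 2 by norm_num)]
    have h2 := mul_le_mul_of_nonneg_right h1 (by norm_num : (0 : ℝ) ≤ 3355443200)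
    linarith only [tp, tc, tb, ta, h2]
  have f1 : 2048 / 100 * ((kA : ℝ) * ((dXa : ℝ) ^ 2 + (dSa : ℝ) ^ 2) +
      kB * ((dXb : ℝ) ^ 2 + (dSb : ℝ) ^ 2)) - 1 ≤
      ((2048 * (kA * (dXa * dXa + dSa * dSa) + kB * (dXb * dXb + dSb * dSb)) / 100 : ℕ) : ℝ) := by
    have h7 := Nat.lt_div_mul_add (show 0 < 100 by norm_num)
      (a := 2048 * (kA * (dXa * dXa + dSa * dSa) + kB * (dXb * dXb + dSb * dSb)))
    have h8 : ((2048 * (kA * (dXa * dXa + dSa * dSa) + kB * (dXb * dXb + dSb * dSb)) : ℕ) : ℝ) <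
      ((2048 * (kA * (dXa * dXa + dSa * dSa) + kB * (dXb * dXb + dSb * dSb)) / 100 : ℕ) : ℝ) * 100
        + 100 := by exact_mod_cast h7
    rw [Nat.cast_mul] at h8
    push_cast at h8 ⊢
    linarith only [h8]
  have f2 : 1024 / 100 * ((kc : ℝ) * (((dXa : ℝ) + dXb) ^ 2 + ((dSa : ℝ) + dSb) ^ 2)) - 1 ≤
      ((1024 * (kc * ((dXa + dXb) * (dXa + dXb) + (dSa + dSb) * (dSa + dSb))) / 100 : ℕ) : ℝ) := by
    have h7 := Nat.lt_div_mul_add (show 0 < 100 by norm_num)
      (a := 1024 * (kc * ((dXa + dXb) * (dXa + dXb) + (dSa + dSb) * (dSa + dSb))))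
    have h8 : ((1024 * (kc * ((dXa + dXb) * (dXa + dXb) + (dSa + dSb) * (dSa + dSb))) : ℕ) : ℝ) <
      ((1024 * (kc * ((dXa + dXb) * (dXa + dXb) + (dSa + dSb) * (dSa + dSb))) / 100 : ℕ) : ℝ) * 100
        + 100 := by exact_mod_cast h7
    rw [Nat.cast_mul] at h8
    push_cast at h8 ⊢
    linarith only [h8]
  set F1 := (2048 * (kA * (dXa * dXa + dSa * dSa) + kB * (dXb * dXb + dSb * dSb)) / 100 : ℕ)
  set F2 := (1024 * (kc * ((dXa + dXb) * (dXa + dXb) + (dSa + dSb) * (dSa + dSb))) / 100 : ℕ)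
  have ee : (e0 : ℝ) = F1 + F2 + 2097154 + 1030 * (((dXa : ℝ) + dXb) * ((dSa : ℝ) + dSb)) := by
    rw [he]
    push_cast
    ring
  have i99 : (ia : ℝ) ≤ 99 := by exact_mod_cast hia
  have i99' : (ib : ℝ) ≤ 99 := by exact_mod_cast hib
  have j99 : (ja : ℝ) ≤ 100 := by exact_mod_cast hja
  have j99' : (jb : ℝ) ≤ 100 := by exact_mod_cast hjb
  have i0 : (0 : ℝ) ≤ ia := by positivity
  have i0' : (0 : ℝ) ≤ ib := by positivity
  have j0 : (0 : ℝ) ≤ ja := by positivity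
  have j0' : (0 : ℝ) ≤ jb := by positivity
  have g1 : |((263536 : ℝ) - 1048576 * Real.pi / 200 * 16) * (((ia : ℝ) - ib) * (ja - jb))| ≤ 1980 := by
    rw [abs_mul, abs_mul]
    have u1 : |(ia : ℝ) - ib| ≤ 99 := by rw [abs_le]; constructor <;> linarith
    have u2 : |(ja : ℝ) - jb| ≤ 100 := by rw [abs_le]; constructor <;> linarith
    have u3 := mul_le_mul u1 u2 (abs_nonneg _) (by norm_num)
    have u4 := mul_le_mul c2_bd u3 (by positivity) (by norm_num)
    linarith only [u4]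
  have g2 : |((26353600 : ℝ) - 524288 * Real.pi * 16) * ((ja : ℝ) + jb - 100)| ≤ 1100 := by
    rw [abs_mul]
    have u1 : |(ja : ℝ) + jb - 100| ≤ 100 := by rw [abs_le]; constructor <;> linarith
    have u4 := mul_le_mul c1_bd u1 (by positivity) (by norm_num)
    linarith only [u4]
  have g1' := abs_le.1 g1
  have g2' := abs_le.1 g2
  have hE' := le_abs_self (Ecl ya yb a0 b0)
  have hE2 := mul_le_mul_of_nonneg_right hE' (by norm_num : (0 : ℝ) ≤ 3355443200)
  have qa := abs_le.1 hqA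
  have qb := abs_le.1 hqB
  have qc := abs_le.1 hcp
  have hKp : (K0p : ℝ) - K0n = 2 * qA + 2 * qB + (if ia + ib ≤ 100 then (q : ℝ) else -q) +
      263536 * (((ia : ℝ) - ib) * (ja - jb)) - 26353600 * ((ja : ℝ) + jb - 100) - e0 := by
    rw [hp, hn]
    split_ifs
    · push_cast
      ring
    · push_cast
      ring
  rw [hKp, ee]
  linarith only [hG, f2, f1, qc.1, qb.1, qa.1, hE2, hE, g2'.1, g1'.2]

/-- **The constant of an end.** -/
theorem K0e_ok {ia ja qA kA dXa dSa e0 K0p K0n : ℕ} {ya : ℂ} (hia : ia ≤ 99) (hja : ja ≤ 100)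
    (hqA : |FW (200 - ia) (160 + 16 * ja) - qA| ≤ 102400)
    (xa : |ya.re * 3200 - 16 * ia| ≤ dXa) (sa : |ya.im * 3200 + 800 - 16 * ja| ≤ dSa)
    (ta : |Td (1 / 2 - ya) (1 / 2 - yX (ia + 50) (160 + 16 * ja))| * 3355443200 ≤
      1024 / 100 * (kA * (dXa ^ 2 + dSa ^ 2)))
    (he : e0 = 1024 * (kA * (dXa * dXa + dSa * dSa)) / 100 + 2097153 + 1030 * (dXa * dSa))
    (hp : K0p = qA + 263536 * (ia * ja + 5000) + 2635360000)
    (hn : K0n = 263536 * (50 * ia + 100 * ja) + 26353600 * (ja + 50) + e0) :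
    (K0p : ℝ) - K0n + 1560000 ≤
      (Gcl (yX (ia + 50) (160 + 16 * ja)) (1 / 2) -
        Ecl ya (1 / 2) (yX (ia + 50) (160 + 16 * ja)) (1 / 2)) * 3355443200 := by
  set a0 := yX ((ia : ℝ) + 50) (160 + 16 * ja) with ha0
  have a0r : a0.re = ia / 200 := by
    rw [ha0, yX_re]
    ring
  have a0i : a0.im = (ja - 50) / 200 := by
    rw [ha0, yX_im]
    ring
  have hb : (1 : ℂ) / 2 = yX 150 960 := by
    apply Complex.ext
    · rw [yX_re]
      norm_num
    · rw [yX_im]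
      norm_num
  have hG : Gcl a0 (1 / 2) * 3355443200 = FW (200 - ia) (160 + 16 * ja) +
        1048576 * Real.pi / 200 * 16 * (((ia : ℝ) - 100) * (ja - 50)) -
          524288 * Real.pi * 16 * ((ja : ℝ) - 50) := by
    have := Gcl_yX ((ia : ℝ) + 50) (160 + 16 * ja) 150 960
    rw [← ha0, ← hb] at this
    have f1' : FW (250 - 150) 960 = 0 := by
      rw [show (250 : ℝ) - 150 = 100 by norm_num, FW_100]
      norm_num
    have f2' : FW ((ia : ℝ) + 50 + 150) (160 + 16 * ja + 960 - 960) =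
        -FW (200 - ia) (160 + 16 * ja) := by
      rw [show (ia : ℝ) + 50 + 150 = 400 - (200 - ia) by ring, FW_refl]
      congr 2
      ring
    rw [this, f1', f2', show (250 : ℝ) - (ia + 50) = 200 - ia by ring]
    ring
  have d1 : |(a0 - ya).re| * 3200 ≤ dXa := by
    rw [sub_re, a0r, abs_sub_comm]
    refine le_trans (le_of_eq ?_) xa
    rw [← abs_of_pos (show (0 : ℝ) < 3200 by norm_num), ← abs_mul,
      abs_of_pos (show (0 : ℝ) < 3200 by norm_num)]
    congr 1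
    ring
  have d2 : |(a0 - ya).im| * 3200 ≤ dSa := by
    rw [sub_im, a0i, abs_sub_comm]
    refine le_trans (le_of_eq ?_) sa
    rw [← abs_of_pos (show (0 : ℝ) < 3200 by norm_num), ← abs_mul,
      abs_of_pos (show (0 : ℝ) < 3200 by norm_num)]
    congr 1
    ring
  have tp : |Real.pi * ((a0 - ya).re * (a0 - ya).im)| * 3355443200 ≤
      1030 * ((dXa : ℝ) * (dSa : ℝ)) := by
    rw [abs_mul, abs_mul, abs_of_pos Real.pi_pos]
    have u3 := mul_le_mul d1 d2 (by positivity) (by positivity)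
    have u4 : Real.pi * 32768 ≤ 103000 := by
      have := Real.pi_lt_d20
      linarith only [this]
    have u5 : 0 ≤ |(a0 - ya).re| * 3200 * (|(a0 - ya).im| * 3200) := by
      positivity
    have u6 := mul_le_mul_of_nonneg_right u4 u5
    linarith only [u6, u3]
  have hEe : Ecl ya (1 / 2) a0 (1 / 2) = Td (1 / 2 - ya) (1 / 2 - a0) +
      Real.pi * ((a0 - ya).re * (a0 - ya).im) := by
    have h1 : Td (ya + 1 / 2) (a0 + 1 / 2) = -Td (1 / 2 - ya) (1 / 2 - a0) := by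
      have e1 : ya + 1 / 2 = 1 - (1 / 2 - ya) := by ring
      have e2 : a0 + 1 / 2 = 1 - (1 / 2 - a0) := by ring
      rw [e1, e2]
      unfold Td
      rw [Rf_one_sub, Rf_one_sub, hh_one_sub]
      have e3 : 1 - (1 / 2 - a0) - (1 - (1 / 2 - ya)) = -((1 : ℂ) / 2 - a0 - (1 / 2 - ya)) := by ring
      rw [e3, mul_neg, neg_re]
      ring
    unfold Ecl
    rw [h1, Td_self, sub_self, sub_zero]
    ring
  have hE : |Ecl ya (1 / 2) a0 (1 / 2)| * 3355443200 ≤
      1024 / 100 * (kA * ((dXa : ℝ) ^ 2 + (dSa : ℝ) ^ 2)) + 1030 * ((dXa : ℝ) * (dSa : ℝ)) := by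
    rw [hEe]
    have h2 := mul_le_mul_of_nonneg_right (abs_add_le (Td (1 / 2 - ya) (1 / 2 - a0))
      (Real.pi * ((a0 - ya).re * (a0 - ya).im))) (by norm_num : (0 : ℝ) ≤ 3355443200)
    linarith only [tp, ta, h2]
  have f1 : 1024 / 100 * ((kA : ℝ) * ((dXa : ℝ) ^ 2 + (dSa : ℝ) ^ 2)) - 1 ≤
      ((1024 * (kA * (dXa * dXa + dSa * dSa)) / 100 : ℕ) : ℝ) := by
    have h7 := Nat.lt_div_mul_add (show 0 < 100 by norm_num)
      (a := 1024 * (kA * (dXa * dXa + dSa * dSa)))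
    have h8 : ((1024 * (kA * (dXa * dXa + dSa * dSa)) : ℕ) : ℝ) <
      ((1024 * (kA * (dXa * dXa + dSa * dSa)) / 100 : ℕ) : ℝ) * 100 + 100 := by exact_mod_cast h7
    rw [Nat.cast_mul] at h8
    push_cast at h8 ⊢
    linarith only [h8]
  set F1 := (1024 * (kA * (dXa * dXa + dSa * dSa)) / 100 : ℕ)
  have ee : (e0 : ℝ) = F1 + 2097153 + 1030 * ((dXa : ℝ) * (dSa : ℝ)) := by
    rw [he]
    push_cast
    ring
  have i99 : (ia : ℝ) ≤ 99 := by exact_mod_cast hia
  have j99 : (ja : ℝ) ≤ 100 := by exact_mod_cast hja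
  have i0 : (0 : ℝ) ≤ ia := by positivity
  have j0 : (0 : ℝ) ≤ ja := by positivity
  have g1 : |((263536 : ℝ) - 1048576 * Real.pi / 200 * 16) * (((ia : ℝ) - 100) * (ja - 50))| ≤
      1000 := by
    rw [abs_mul, abs_mul]
    have u1 : |(ia : ℝ) - 100| ≤ 100 := by rw [abs_le]; constructor <;> linarith
    have u2 : |(ja : ℝ) - 50| ≤ 50 := by rw [abs_le]; constructor <;> linarith
    have u3 := mul_le_mul u1 u2 (abs_nonneg _) (by norm_num)
    have u4 := mul_le_mul c2_bd u3 (by positivity) (by norm_num)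
    linarith only [u4]
  have g2 : |((26353600 : ℝ) - 524288 * Real.pi * 16) * ((ja : ℝ) - 50)| ≤ 550 := by
    rw [abs_mul]
    have u1 : |(ja : ℝ) - 50| ≤ 50 := by rw [abs_le]; constructor <;> linarith
    have u4 := mul_le_mul c1_bd u1 (by positivity) (by norm_num)
    linarith only [u4]
  have g1' := abs_le.1 g1
  have g2' := abs_le.1 g2
  have hE' := le_abs_self (Ecl ya (1 / 2) a0 (1 / 2))
  have hE2 := mul_le_mul_of_nonneg_right hE' (by norm_num : (0 : ℝ) ≤ 3355443200)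
  have qa := abs_le.1 hqA
  have hKp : (K0p : ℝ) - K0n = qA + 263536 * (((ia : ℝ) - 100) * (ja - 50)) -
      26353600 * ((ja : ℝ) - 50) - e0 := by
    rw [hp, hn]
    push_cast
    ring
  rw [hKp, ee]
  linarith only [hG, f1, qa.1, hE2, hE, g2'.1, g1'.2]

end Pool.Agent.S5.K
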