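import Pool.Agent.S5.K.STb

/-!
# Closed nodes: the test of a leaf
-/

set_option autoImplicit false
set_option maxRecDepth 4000

namespace Pool.Agent.S5.K

open Pool.Agent.H63.VC3 Pool.Agent.S3 Complex Set Pool.Agent.S5.Tb Pool.Agent.S5.Num

/-- The coupling. -/
noncomputable def Fc (en : Bool) (K S : ℝ) : ℝ := if en = true then 0 else FW K S

theorem CP_el {α : Type} {P : α → Prop} {en : Bool} {KO1 KO KO2 S1 Sc S2 : ℕ}
    {k : ℕ → ℕ → ℕ → ℕ → ℕ → ℕ → ℕ → α} {z : α} (h : Rct KO1 KO KO2 S1 Sc S2) (hz : P z)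
    (H : ∀ vp vn xp xn sp sn e : ℕ, UpG (Fc en) KO1 KO KO2 S1 Sc S2 vp vn xp xn sp sn e 110080 →
      P (k vp vn xp xn sp sn e)) : P (CP en KO1 KO KO2 S1 Sc S2 k z) := by
  unfold CP
  refine cN_split (P := P) (fun he => ?_) (fun he => ?_)
  · apply H
    intro K S _ _ _ _
    unfold Fc
    rw [if_pos he]
    push_cast
    norm_num
  · have e : Fc en = FW := by
      funext K S
      unfold Fc
      rw [if_neg (by rw [he]; simp)]
    rw [e] at H
    rcases FT_ok k z h with h1 | ⟨vp, vn, xp, xn, sp, sn, e, e1, hu⟩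
    · rw [h1]
      exact hz
    · rw [e1]
      exact H _ _ _ _ _ _ _ hu

theorem abs_mul_bd {a u r : ℝ} (h : |u| ≤ r) : a * u ≤ |a| * r :=
  (le_abs_self _).trans (by
    rw [abs_mul]
    exact mul_le_mul_of_nonneg_left h (abs_nonneg _))

/-- The sum of the linear bounds. -/
theorem leaf_real {GA GB C X S Y T Xa Sa Xb Sb rxa rsa rxb rsb va xa sa ea vb xb sb eb vc xc sc ec
    K εA εB CQ C1 : ℝ}
    (hA : GA ≤ va + xa * (X - Xa) + sa * (S - Sa) + ea + εA)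
    (hB : GB ≤ vb + xb * (Y - Xb) + sb * (T - Sb) + eb + εB)
    (hC : C ≤ vc + xc * (X + Y - (Xa + Xb)) + sc * (S + T - (Sa + Sb)) + ec + 110080)
    (u1 : |X - Xa| ≤ rxa) (u2 : |S - Sa| ≤ rsa) (u3 : |Y - Xb| ≤ rxb) (u4 : |T - Sb| ≤ rsb)
    (q1 : |16471 - CQ| ≤ 1 / 100) (q2 : |1647100 - C1| ≤ 1)
    (b1 : |X - Y| ≤ 150) (b2 : |S - T| ≤ 960) (b3 : |S + T - 1920| ≤ 960)
    (h : va + vb + vc + 16471 * ((Xa - Xb) * (Sa - Sb)) - 1647100 * (Sa + Sb - 1920) + ea + eb +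
      ec + 16471 * ((rxa + rxb) * (rsa + rsb)) + |xa + xc + 16471 * (Sa - Sb)| * rxa +
      |xb + xc - 16471 * (Sa - Sb)| * rxb + |sa + sc + 16471 * (Xa - Xb) - 1647100| * rsa +
      |sb + sc - 16471 * (Xa - Xb) - 1647100| * rsb < K) :
    GA + GB + C + CQ * ((X - Y) * (S - T)) - C1 * (S + T - 1920) <
      K + εA + εB + 112480 := by
  have m1 := abs_mul_bd (a := xa + xc + 16471 * (Sa - Sb)) u1
  have m2 := abs_mul_bd (a := xb + xc - 16471 * (Sa - Sb)) u3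
  have m3 := abs_mul_bd (a := sa + sc + 16471 * (Xa - Xb) - 1647100) u2
  have m4 := abs_mul_bd (a := sb + sc - 16471 * (Xa - Xb) - 1647100) u4
  have m5 : ((X - Xa) - (Y - Xb)) * ((S - Sa) - (T - Sb)) ≤ (rxa + rxb) * (rsa + rsb) := by
    refine (le_abs_self _).trans ?_
    rw [abs_mul]
    apply mul_le_mul _ _ (abs_nonneg _) _
    · exact (abs_sub _ _).trans (add_le_add u1 u3)
    · exact (abs_sub _ _).trans (add_le_add u2 u4)
    · exact add_nonneg ((abs_nonneg _).trans u1) ((abs_nonneg _).trans u3)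
  have m6 : CQ * ((X - Y) * (S - T)) ≤ 16471 * ((X - Y) * (S - T)) + 1440 := by
    have h7 : |(16471 - CQ) * ((X - Y) * (S - T))| ≤ 1 / 100 * (150 * 960) := by
      rw [abs_mul, abs_mul]
      apply mul_le_mul q1 _ (by positivity) (by norm_num)
      exact mul_le_mul b1 b2 (abs_nonneg _) (by norm_num)
    have := (abs_le.1 h7).1
    linarith
  have m7 : -(C1 * (S + T - 1920)) ≤ -(1647100 * (S + T - 1920)) + 960 := by
    have h7 : |(1647100 - C1) * (S + T - 1920)| ≤ 1 * 960 := by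
      rw [abs_mul]
      exact mul_le_mul q2 b3 (abs_nonneg _) (by norm_num)
    have := (abs_le.1 h7).1
    have := (abs_le.1 h7).2
    linarith
  have e : 16471 * ((X - Y) * (S - T)) = 16471 * ((Xa - Xb) * (Sa - Sb)) +
      16471 * ((Xa - Xb) * ((S - Sa) - (T - Sb))) + 16471 * ((Sa - Sb) * ((X - Xa) - (Y - Xb))) +
      16471 * (((X - Xa) - (Y - Xb)) * ((S - Sa) - (T - Sb))) := by ring
  rw [e] at m6
  linarith only [m1, m2, m3, m4, m5, m6, m7, hA, hB, hC, h]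

theorem mid_bd {a b m : ℕ} (h : a ≤ b) (hm : m = (a + b) / 2) {x : ℝ} (h1 : (a : ℝ) ≤ x)
    (h2 : x ≤ b) : |x - m| ≤ ((b - m : ℕ) : ℝ) := by
  have e : ((b - m : ℕ) : ℝ) = (b : ℝ) - m := by
    push_cast [show m ≤ b by omega]
    ring
  have h3 : 2 * (m : ℝ) ≤ a + b := by exact_mod_cast (by omega : 2 * m ≤ a + b)
  rw [e, abs_le]
  constructor <;> linarith

/-- The row at a point. -/
noncomputable def Ro (en : Bool) (GA GB : ℝ → ℝ → ℝ) (X S Y T : ℝ) : ℝ :=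
  GA X S + GB Y T + Fc en (X + Y) (S + T - 960) +
    1048576 * Real.pi / 200 * ((X - Y) * (S - T)) - 524288 * Real.pi * (S + T - 1920)

theorem LF_ok {en : Bool} {K0p K0n : ℕ} {A B : LB} {X1 X2 S1 S2 Y1 Y2 T1 T2 : ℕ}
    {GA GB : ℝ → ℝ → ℝ} {εA εB : ℝ} (h : LF en K0p K0n A B X1 X2 S1 S2 Y1 Y2 T1 T2 = true)
    (hRa : Rcs X1 X2 S1 S2) (hRb : Rcs Y1 Y2 T1 T2) (hA : OKL GA X1 X2 S1 S2 εA A)
    (hB : OKL GB Y1 Y2 T1 T2 εB B) {X S Y T : ℝ} (x1 : (X1 : ℝ) ≤ X) (x2 : X ≤ X2)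
    (s1 : (S1 : ℝ) ≤ S) (s2 : S ≤ S2) (y1 : (Y1 : ℝ) ≤ Y) (y2 : Y ≤ Y2) (t1 : (T1 : ℝ) ≤ T)
    (t2 : T ≤ T2) : Ro en GA GB X S Y T < (K0p : ℝ) - K0n + εA + εB + 112480 := by
  rcases hA with hA | ⟨avp, avn, axp, axn, asp, asn, ae, eA, hA⟩
  · rw [hA] at h
    exact absurd h (by simp [LF])
  rcases hB with hB | ⟨bvp, bvn, bxp, bxn, bsp, bsn, be, eB, hB⟩
  · rw [hB, eA] at h
    exact absurd h (by simp [LF])
  rw [eA, eB] at h
  unfold LF at h
  simp only [fN_eq, add_eq', sub_eq', div_eq'] at h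
  set Xa := (X1 + X2) / 2 with hXa
  set Xb := (Y1 + Y2) / 2 with hXb
  set Sa := (S1 + S2) / 2 with hSa
  set Sb := (T1 + T2) / 2 with hSb
  revert h
  obtain ⟨a1, a2, a3, a4, a5⟩ := hRa
  obtain ⟨b1, b2, b3, b4, b5⟩ := hRb
  refine CP_el (P := fun r => r = true → _) ?_ (fun h => absurd h (by simp)) ?_
  · constructor <;> omega
  · intro cvp cvn cxp cxn csp csn ce hC h
    unfold LT at h
    simp only [add_eq', mul_eq'] at h
    have h := ble_t h
    have hr : ((avp : ℝ) + bvp + cvp + 16471 * (Xa * Sa + Xb * Sb) + 3162432000 + ae + be + ce +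
      16471 * ((((X2 - Xa : ℕ) : ℝ) + ((Y2 - Xb : ℕ) : ℝ)) *
        (((S2 - Sa : ℕ) : ℝ) + ((T2 - Sb : ℕ) : ℝ))) + K0n +
      |(axp : ℝ) + cxp + 16471 * Sa - (axn + cxn + 16471 * Sb)| * ((X2 - Xa : ℕ) : ℝ) +
      |(bxp : ℝ) + cxp + 16471 * Sb - (bxn + cxn + 16471 * Sa)| * ((Y2 - Xb : ℕ) : ℝ) +
      |(asp : ℝ) + csp + 16471 * Xa - (asn + csn + 16471 * Xb + 1647100)| *
        ((S2 - Sa : ℕ) : ℝ) +
      |(bsp : ℝ) + csp + 16471 * Xb - (bsn + csn + 16471 * Xa + 1647100)| *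
        ((T2 - Sb : ℕ) : ℝ)) < avn + bvn + cvn + 16471 * (Xa * Sb + Xb * Sa) +
          1647100 * (Sa + Sb) + K0p := by
      have h2 := Nat.lt_of_succ_le h
      have h3 := (Nat.cast_lt (α := ℝ)).2 h2
      push_cast [ds'_eq] at h3
      exact h3
    have hX := mid_bd a1 hXa x1 x2
    have hS := mid_bd a3 hSa s1 s2
    have hY := mid_bd b1 hXb y1 y2
    have hT := mid_bd b3 hSb t1 t2
    have kA := hA X S x1 x2 s1 s2
    have kB := hB Y T y1 y2 t1 t2
    rw [← hXa, ← hSa] at kA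
    rw [← hXb, ← hSb] at kB
    have e1 : ((S1 + T1 - 960 : ℕ) : ℝ) = (S1 : ℝ) + T1 - 960 := by
      push_cast [show 960 ≤ S1 + T1 by omega]
      ring
    have e2 : ((S2 + T2 - 960 : ℕ) : ℝ) = (S2 : ℝ) + T2 - 960 := by
      push_cast [show 960 ≤ S2 + T2 by omega]
      ring
    have e3 : ((Sa + Sb - 960 : ℕ) : ℝ) = (Sa : ℝ) + Sb - 960 := by
      push_cast [show 960 ≤ Sa + Sb by omega]
      ring
    have kC := hC (X + Y) (S + T - 960) (by push_cast; linarith) (by push_cast; linarith)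
      (by rw [e1]; linarith) (by rw [e2]; linarith)
    rw [e3] at kC
    push_cast at kC
    have r1 : (0 : ℝ) ≤ X1 := by positivity
    have r2 : (X2 : ℝ) ≤ 150 := by exact_mod_cast a2
    have r3 : (480 : ℝ) ≤ S1 := by exact_mod_cast a4
    have r4 : (S2 : ℝ) ≤ 1440 := by exact_mod_cast a5
    have r5 : (0 : ℝ) ≤ Y1 := by positivity
    have r6 : (Y2 : ℝ) ≤ 150 := by exact_mod_cast b2
    have r7 : (480 : ℝ) ≤ T1 := by exact_mod_cast b4
    have r8 : (T2 : ℝ) ≤ 1440 := by exact_mod_cast b5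
    have q1 := Real.pi_gt_d20
    have q2 := Real.pi_lt_d20
    unfold Ro
    exact (leaf_real (K := (K0p : ℝ) - K0n) kA kB (by
      have e : S + T - 960 - ((Sa : ℝ) + Sb - 960) = S + T - ((Sa : ℝ) + Sb) := by ring
      rw [e] at kC
      exact kC) hX hS hY hT (by rw [abs_le]; constructor <;> linarith)
      (by rw [abs_le]; constructor <;> linarith) (by rw [abs_le]; constructor <;> linarith)
      (by rw [abs_le]; constructor <;> linarith) (by rw [abs_le]; constructor <;> linarith)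
      (by
        have f1 : (axp : ℝ) - axn + (cxp - cxn) + 16471 * ((Sa : ℝ) - Sb) =
          (axp : ℝ) + cxp + 16471 * Sa - (axn + cxn + 16471 * Sb) := by ring
        have f2 : (bxp : ℝ) - bxn + (cxp - cxn) - 16471 * ((Sa : ℝ) - Sb) =
          (bxp : ℝ) + cxp + 16471 * Sb - (bxn + cxn + 16471 * Sa) := by ring
        have f3 : (asp : ℝ) - asn + (csp - csn) + 16471 * ((Xa : ℝ) - Xb) - 1647100 =
          (asp : ℝ) + csp + 16471 * Xa - (asn + csn + 16471 * Xb + 1647100) := by ring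
        have f4 : (bsp : ℝ) - bsn + (csp - csn) - 16471 * ((Xa : ℝ) - Xb) - 1647100 =
          (bsp : ℝ) + csp + 16471 * Xb - (bsn + csn + 16471 * Xa + 1647100) := by ring
        rw [f1, f2, f3, f4]
        linarith only [hr]))

end Pool.Agent.S5.K
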