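import Pool.Agent.S5.K.K0
import Pool.Agent.S5.I.LowD
import Pool.Agent.S5.I.YXG

/-!
# Ends with two half twists: low edges

The slot of an end with two half twists has `exp (- 2 π i y) = - (1 + 2 i b)` and the slope
`log (2 i b)`. The test `loE q = true` of the region of the neighbour gives `6 / 25 ≤ Re y ≤ 69 / 200`,
`|Im y| ≤ 27 / 200` and `|Re lam| ≤ 3 / 4`.
-/

set_option autoImplicit false

namespace Pool.Agent.S5

open Complex Pool.Agent.H63.VC3 Pool.Agent.S3 Pool.Agent.S3.NI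
open Pool.Agent.S5.E (Vt kd aF nlF nrF nF vL vR types)
open Pool.Agent.S5.E.B2 (InR)

/-! ### The low edge -/

theorem Ecl_low_e2 {as : ℂ} (ha : 6 / 25 ≤ as.re) (ha1 : as.re ≤ 345 / 1000)
    (hi : |as.im| ≤ 27 / 200) (hl : |(lcl as (1 / 2)).re| ≤ 3 / 4) {a : ℝ}
    (h0 : -(1 / 2) ≤ a) (h1 : a ≤ -(1 / 4)) :
    Ecl as (1 / 2) a (1 / 2) + (lcl as (1 / 2)).re * (a - 3 / 10) < 0 := by
  have e1 : (1 / 2 - as).re = 1 / 2 - as.re := by simp
  have e2 : (1 / 2 - as).im = -as.im := by simp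
  have w1 := Bn_lin (z := 1 / 2 - as) (a := 31 / 200) (b := 13 / 50) (B := 27 / 200)
    (u := 106 / 1000) (v := 106 / 1000) (by norm_num) (by norm_num) (by rw [e1]; linarith)
    (by rw [e1]; linarith) (by rw [e2, abs_neg]; exact hi)
    (by have := Lbv_031.1; unfold kz; norm_num at this ⊢; linarith)
    (by have := Lbv_052.1; unfold kz; norm_num at this ⊢; linarith)
  rw [e1] at w1
  have hb : 106 / 1000 ≤ Bn (1 / 2 - as) := by
    nlinarith
  have h := Ecl_ofReal as (1 / 2) a (1 / 2)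
  have e3 : (((1 / 2 : ℝ)) : ℂ) = 1 / 2 := by push_cast; rfl
  have e4 : (1 / 2 : ℂ).re = 1 / 2 := by simp
  rw [e3, e4, sub_self, mul_zero, Lb_zero, Wcl_end] at h
  have e5 : Lb (1 / 2 - a) = -Lb (a + 1 / 2) := by
    rw [← Lb_one_sub]
    congr 1
    ring
  rw [h, e5]
  have h2 := Lb_nonneg (x := a + 1 / 2) (by linarith) (by linarith)
  obtain ⟨l1, l2⟩ := abs_le.1 hl
  have k1 : -((lcl as (1 / 2)).re * (3 / 10 - as.re)) ≤ 3 / 4 * (60 / 1000) := by
    rcases le_total (3 / 10) as.re with h | h <;> nlinarith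
  linarith

theorem VCl_Ta_e2 {n : Nt} {sa sb : Slt} (hl : sa.ex = true → sa.lam = lcl sa.ys (1 / 2))
    (hb : sb.ex = false) (hy : sb.ys = 1 / 2) (h0 : 6 / 25 ≤ sa.ys.re)
    (h1 : sa.ys.re ≤ 345 / 1000) (hi : |sa.ys.im| ≤ 27 / 200) (hm : |sa.lam.re| ≤ 3 / 4) :
    ∀ (a b : ℂ) (wa wb : ℝ) (pb : Pc), sa.ex = true → (sb.ex = true → pb.frcT) →
      sa.In .lo a wa → sb.In pb b wb → 0 ≤ (a + b).re →
      Ecl sa.ys sb.ys a b + sa.e n .lo a wa + sb.e n pb b wb < 0 := by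
  intro a b wa wb pb ha hf hA hB h2
  obtain ⟨e1, e2, h3, h4⟩ := Slt.e_lo ha (n := n) hA
  obtain ⟨g1, g2⟩ := Slt.e_no hb (n := n) hB
  have k := Ecl_low_e2 h0 h1 hi (by rw [← hl ha]; exact hm) h3 h4
  rw [e1, g1, g2, hy, hl ha]
  rw [← e2] at k
  linarith

theorem VCl_Tb_e2 {n : Nt} {sa sb : Slt} (hl : sb.ex = true → sb.lam = lcl sb.ys (1 / 2))
    (ha : sa.ex = false) (hy : sa.ys = 1 / 2) (h0 : 6 / 25 ≤ sb.ys.re)
    (h1 : sb.ys.re ≤ 345 / 1000) (hi : |sb.ys.im| ≤ 27 / 200) (hm : |sb.lam.re| ≤ 3 / 4) :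
    ∀ (a b : ℂ) (wa wb : ℝ) (pa : Pc), sb.ex = true → (sa.ex = true → pa.frcT) →
      sa.In pa a wa → sb.In .lo b wb → 0 ≤ (a + b).re →
      Ecl sa.ys sb.ys a b + sa.e n pa a wa + sb.e n .lo b wb < 0 := by
  intro a b wa wb pa hb hf hA hB h2
  have k := VCl_Ta_e2 (n := n) (sa := sb) (sb := sa) hl ha hy h0 h1 hi hm b a wb wa pa hb hf hB
    hA (by rw [add_comm]; exact h2)
  rw [Ecl_comm] at k
  linarith

namespace K

/-! ### The region of the neighbour -/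

/-- The test. -/
def loE (q : E.B2.Rg) : Bool := Nat.ble 400 q.k0 && (Nat.ble q.k1 1000 && (Nat.ble q.t1 1000 &&
  (Nat.ble q.t0 1000 && (
  Nat.ble (Nat.mul (Nat.mul q.k1 q.k1) (Nat.mul (Nat.sub (Nat.mul 2 q.t1) 125) (Nat.sub (Nat.mul 2 q.t1) 125)))
    (Nat.mul 1000000 (Nat.add 1000000 (Nat.mul q.t1 q.t1))) &&
  Nat.ble (Nat.mul 1000000 (Nat.add 1000000 (Nat.mul q.t0 q.t0)))
    (Nat.mul (Nat.mul q.k0 q.k0) (Nat.mul (Nat.add (Nat.mul 2 q.t0) 1330) (Nat.add (Nat.mul 2 q.t0) 1330)))))))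

theorem loA {x y t K : ℝ} (hx : 0 ≤ x) (hy : 0 ≤ y) (h : y ≤ t * x) (hK : x ^ 2 + y ^ 2 ≤ K ^ 2)
    (ht : 1 / 16 ≤ t → K ^ 2 * (2 * t - 1 / 8) ^ 2 ≤ 1 + t ^ 2) : 2 * y - 1 ≤ x / 8 := by
  rcases le_total t (1 / 16) with h1 | h1
  · nlinarith
  · have k := ht h1
    have t0 : 0 < t := by linarith
    have a1 : y ^ 2 ≤ (t * x) ^ 2 := pow_le_pow_left₀ hy h 2
    have a2 : y ^ 2 * (1 + t ^ 2) ≤ t ^ 2 * K ^ 2 := by nlinarith [mul_le_mul_of_nonneg_left hK (sq_nonneg t)]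
    have a3 : (y * (2 * t - 1 / 8)) ^ 2 * (1 + t ^ 2) ≤ t ^ 2 * (1 + t ^ 2) := by
      have b1 := mul_le_mul_of_nonneg_right a2 (sq_nonneg (2 * t - 1 / 8))
      have b2 := mul_le_mul_of_nonneg_left k (sq_nonneg t)
      nlinarith
    have a4 := le_of_mul_le_mul_right a3 (by positivity)
    have a5 := (abs_le_of_sq_le_sq' a4 t0.le).2
    have a6 : t * (2 * y - x / 8) ≤ t * 1 := by nlinarith
    have := le_of_mul_le_mul_left a6 t0
    linarith

theorem loB' {x y t K : ℝ} (hx : 0 ≤ x) (hy : 0 ≤ y) (h : t * x ≤ y) (hyx : y ≤ x) (t0 : 0 ≤ t) (t1 : t ≤ 1)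
    (hK : K ^ 2 ≤ x ^ 2 + y ^ 2) (ht : 1 + t ^ 2 ≤ K ^ 2 * (2 * t + 133 / 100) ^ 2) :
    -(133 / 100 * x) ≤ 2 * y - 1 := by
  have e : (2 * y + 133 / 100 * x) ^ 2 * (1 + t ^ 2) - (x ^ 2 + y ^ 2) * (2 * t + 133 / 100) ^ 2 =
      (y - t * x) * ((4 - (133 / 100) ^ 2) * (y + t * x) + 4 * (133 / 100) * (x - t * y)) := by ring
  have a1 : 0 ≤ x - t * y := by nlinarith
  have a2 : 0 ≤ (y - t * x) * ((4 - (133 / 100) ^ 2) * (y + t * x) + 4 * (133 / 100) * (x - t * y)) := by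
    apply mul_nonneg (by linarith)
    have : 0 ≤ t * x := by positivity
    nlinarith
  have a3 := mul_le_mul_of_nonneg_right hK (sq_nonneg (2 * t + 133 / 100))
  have a4 : 1 * (1 + t ^ 2) ≤ (2 * y + 133 / 100 * x) ^ 2 * (1 + t ^ 2) := by linarith
  have a5 := le_of_mul_le_mul_right a4 (by positivity)
  have a6 : (1 : ℝ) ≤ 2 * y + 133 / 100 * x := by
    by_contra hc
    push Not at hc
    have : 0 ≤ 2 * y + 133 / 100 * x := by positivity
    nlinarith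
  linarith

theorem sin_pi50 : Real.cos (Real.pi / 50) / 16 ≤ Real.sin (Real.pi / 50) := by
  have h1 := Real.pi_gt_d4
  have h2 := Real.pi_lt_d4
  have k := Real.sin_gt_sub_cube (x := Real.pi / 50) (by positivity)
  have c := Real.cos_le_one (Real.pi / 50)
  have k2 : (Real.pi / 50) ^ 3 ≤ (63 / 1000) ^ 3 := pow_le_pow_left₀ (by positivity) (by linarith) 3
  have k3 : (Real.pi / 50) ^ 3 / 6 ≤ (63 / 1000) ^ 3 / 6 := by linarith
  norm_num at k3
  linarith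

theorem sin_19 : 133 / 200 * Real.cos (19 * Real.pi / 100) ≤ Real.sin (19 * Real.pi / 100) := by
  have h1 := Real.pi_gt_d4
  have h2 := Real.pi_lt_d4
  set x := 19 * Real.pi / 100 with hx
  have x0 : (59688 / 100000 : ℝ) ≤ x := by rw [hx]; linarith
  have x1 : x ≤ 59692 / 100000 := by rw [hx]; linarith
  have xp : 0 ≤ x := by linarith
  have ha : |x| ≤ 1 := by rw [abs_of_nonneg xp]; linarith
  have s := Real.sin_gt_sub_cube (x := x) (by linarith)
  have c := (abs_le.1 (Real.cos_bound ha)).2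
  rw [abs_of_nonneg xp] at c
  have p2 : (59688 / 100000 : ℝ) ^ 2 ≤ x ^ 2 := pow_le_pow_left₀ (by norm_num) x0 2
  have p3 : x ^ 3 ≤ (59692 / 100000) ^ 3 := pow_le_pow_left₀ xp x1 3
  have p4 : x ^ 4 ≤ (59692 / 100000) ^ 4 := pow_le_pow_left₀ xp x1 4
  norm_num at p2 p3 p4
  linarith

/-- The critical point and the slope of the slot. -/
structure LoEb (y : ℂ) (l : ℝ) : Prop where
  x0 : 6 / 25 ≤ y.re
  x1 : y.re ≤ 345 / 1000
  i : |y.im| ≤ 27 / 200
  l : |l| ≤ 3 / 4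

theorem exp_npi (y : ℂ) : (exp (-(2 * Real.pi * I * y))).re = Real.exp (2 * Real.pi * y.im) * Real.cos (2 * Real.pi * y.re) ∧
    (exp (-(2 * Real.pi * I * y))).im = -(Real.exp (2 * Real.pi * y.im) * Real.sin (2 * Real.pi * y.re)) := by
  have r : (-(2 * Real.pi * I * y)).re = 2 * Real.pi * y.im := by simp
  have i : (-(2 * Real.pi * I * y)).im = -(2 * Real.pi * y.re) := by simp
  rw [exp_re, exp_im, r, i, Real.cos_neg, Real.sin_neg]
  exact ⟨rfl, by ring⟩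

theorem exp_big : (5 : ℝ) < Real.exp (4 * Real.pi * (27 / 200)) := by
  have h1 := Real.pi_gt_d4
  have k := Real.quadratic_le_exp_of_nonneg (x := 42405 / 100000) (by norm_num)
  have k2 : (1.5139 : ℝ) ≤ Real.exp (42405 / 100000) := by norm_num at k ⊢; linarith
  have k3 := pow_le_pow_left₀ (by norm_num) k2 4
  rw [← Real.exp_nat_mul] at k3
  refine lt_of_lt_of_le (by norm_num) (k3.trans (Real.exp_le_exp.2 ?_))
  push_cast
  linarith

theorem x_lo {E X x y : ℝ} (Ep : 0 < E) (rc : E * Real.cos (2 * Real.pi * X) = 2 * y - 1)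
    (rs : E * Real.sin (2 * Real.pi * X) = 2 * x) (x0 : 0 ≤ x) (A : 2 * y - 1 ≤ x / 8) (X0 : 0 < X) :
    6 / 25 ≤ X := by
  have hpi := Real.pi_pos
  by_contra hc
  push Not at hc
  have m1 : 2 * Real.pi * X < 2 * Real.pi * (6 / 25) := mul_lt_mul_of_pos_left hc (by positivity)
  have m0 : 0 < 2 * Real.pi * X := by positivity
  have k : 0 < Real.sin (2 * Real.pi * (6 / 25) - 2 * Real.pi * X) :=
    Real.sin_pos_of_pos_of_lt_pi (by linarith) (by linarith)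
  rw [Real.sin_sub, show 2 * Real.pi * (6 / 25) = Real.pi / 2 - Real.pi / 50 by ring, Real.sin_pi_div_two_sub,
    Real.cos_pi_div_two_sub] at k
  have k2 := mul_pos Ep k
  have c0 : 0 ≤ Real.cos (Real.pi / 50) :=
    Real.cos_nonneg_of_neg_pi_div_two_le_of_le (by linarith) (by linarith)
  have e : E * (Real.cos (Real.pi / 50) * Real.cos (2 * Real.pi * X) -
      Real.sin (Real.pi / 50) * Real.sin (2 * Real.pi * X)) =
      Real.cos (Real.pi / 50) * (2 * y - 1) - Real.sin (Real.pi / 50) * (2 * x) := by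
    rw [← rc, ← rs]
    ring
  rw [e] at k2
  have k3 := mul_le_mul_of_nonneg_left A c0
  have k4 := mul_le_mul_of_nonneg_right sin_pi50 x0
  linarith

theorem x_hi {E X x y : ℝ} (Ep : 0 < E) (rc : E * Real.cos (2 * Real.pi * X) = 2 * y - 1)
    (rs : E * Real.sin (2 * Real.pi * X) = 2 * x) (x0 : 0 ≤ x) (B : -(133 / 100 * x) ≤ 2 * y - 1) (X1 : X < 1 / 2) :
    X ≤ 345 / 1000 := by
  have hpi := Real.pi_pos
  by_contra hc
  push Not at hc
  have m1 : 2 * Real.pi * (345 / 1000) < 2 * Real.pi * X := mul_lt_mul_of_pos_left hc (by positivity)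
  have m0 : 2 * Real.pi * X < 2 * Real.pi * (1 / 2) := mul_lt_mul_of_pos_left X1 (by positivity)
  have k : 0 < Real.sin (2 * Real.pi * X - 2 * Real.pi * (69 / 200)) :=
    Real.sin_pos_of_pos_of_lt_pi (by linarith) (by linarith)
  rw [Real.sin_sub, show 2 * Real.pi * (69 / 200) = 19 * Real.pi / 100 + Real.pi / 2 by ring,
    Real.sin_add_pi_div_two, Real.cos_add_pi_div_two] at k
  have k2 := mul_pos Ep k
  have c0 : 0 ≤ Real.cos (19 * Real.pi / 100) :=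
    Real.cos_nonneg_of_neg_pi_div_two_le_of_le (by linarith) (by linarith)
  have e : E * (Real.sin (2 * Real.pi * X) * -Real.sin (19 * Real.pi / 100) -
      Real.cos (2 * Real.pi * X) * Real.cos (19 * Real.pi / 100)) =
      -(Real.sin (19 * Real.pi / 100) * (2 * x)) - Real.cos (19 * Real.pi / 100) * (2 * y - 1) := by
    rw [← rc, ← rs]
    ring
  rw [e] at k2
  have k3 := mul_le_mul_of_nonneg_left B c0
  have k4 := mul_le_mul_of_nonneg_right sin_19 x0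
  linarith

theorem i_lo {t x y : ℝ} (h : Real.exp (4 * Real.pi * t) = (2 * y - 1) ^ 2 + (2 * x) ^ 2) (hx : 8 / 100 ≤ x ^ 2) :
    -(27 / 200) ≤ t := by
  have hpi := Real.pi_pos
  have big := exp_big
  by_contra hc
  push Not at hc
  have m : 4 * Real.pi * t < 4 * Real.pi * -(27 / 200) := mul_lt_mul_of_pos_left hc (by positivity)
  have k : Real.exp (4 * Real.pi * t) ≤ Real.exp (-(4 * Real.pi * (27 / 200))) :=
    Real.exp_le_exp.2 (by linarith)
  rw [Real.exp_neg] at k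
  have k2 : (Real.exp (4 * Real.pi * (27 / 200)))⁻¹ ≤ 5⁻¹ := inv_anti₀ (by norm_num) big.le
  have k3 : (2 * x) ^ 2 = 4 * x ^ 2 := by ring
  have k4 := sq_nonneg (2 * y - 1)
  have k5 : ((5 : ℝ))⁻¹ = 1 / 5 := by norm_num
  rw [k5] at k2
  linarith

theorem i_hi {t x y : ℝ} (h : Real.exp (4 * Real.pi * t) = (2 * y - 1) ^ 2 + (2 * x) ^ 2) (hy : 0 ≤ y)
    (hx : x ^ 2 + y ^ 2 ≤ 1) : t ≤ 27 / 200 := by
  have hpi := Real.pi_pos
  have big := exp_big
  by_contra hc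
  push Not at hc
  have m : 4 * Real.pi * (27 / 200) < 4 * Real.pi * t := mul_lt_mul_of_pos_left hc (by positivity)
  have k : Real.exp (4 * Real.pi * (27 / 200)) ≤ Real.exp (4 * Real.pi * t) := Real.exp_le_exp.2 m.le
  have e : (2 * y - 1) ^ 2 + (2 * x) ^ 2 = 4 * (x ^ 2 + y ^ 2) - 4 * y + 1 := by ring
  linarith

theorem loE_num {q : E.B2.Rg} (h : loE q = true) : 400 ≤ (q.k0 : ℝ) ∧ (q.k1 : ℝ) ≤ 1000 ∧ (q.t1 : ℝ) ≤ 1000 ∧
    (q.t0 : ℝ) ≤ 1000 ∧
    (1 / 16 ≤ (q.t1 : ℝ) / 1000 → ((q.k1 : ℝ) / 1000) ^ 2 * (2 * ((q.t1 : ℝ) / 1000) - 1 / 8) ^ 2 ≤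
      1 + ((q.t1 : ℝ) / 1000) ^ 2) ∧
    1 + ((q.t0 : ℝ) / 1000) ^ 2 ≤ ((q.k0 : ℝ) / 1000) ^ 2 * (2 * ((q.t0 : ℝ) / 1000) + 133 / 100) ^ 2 := by
  unfold loE at h
  rw [Bool.and_eq_true, Bool.and_eq_true, Bool.and_eq_true, Bool.and_eq_true, Bool.and_eq_true] at h
  obtain ⟨h1, h2, h3, h4, h5, h6⟩ := h
  have g1 := YX.ble_cast h1
  have g2 := YX.ble_cast h2
  have g3 := YX.ble_cast h3
  have g4 := YX.ble_cast h4
  have g5 := YX.ble_cast h5
  have g6 := YX.ble_cast h6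
  rw [cast_mul', cast_mul', cast_mul', cast_mul', cast_add', cast_mul'] at g5
  rw [cast_mul', cast_mul', cast_mul', cast_mul', cast_add', cast_mul', cast_add', cast_mul'] at g6
  have c1 : ((1000000 : ℕ) : ℝ) = 1000000 := by norm_num
  have c2 : ((2 : ℕ) : ℝ) = 2 := by norm_num
  have c3 : ((1330 : ℕ) : ℝ) = 1330 := by norm_num
  have c4 : ((1000 : ℕ) : ℝ) = 1000 := by norm_num
  have c5 : ((400 : ℕ) : ℝ) = 400 := by norm_num
  have c6 : ((125 : ℕ) : ℝ) = 125 := by norm_num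
  rw [c1] at g5 g6
  rw [c2, c3] at g6
  rw [c4] at g2 g3 g4
  rw [c5] at g1
  have hsub : 2 * (q.t1 : ℝ) - 125 ≤ ((Nat.sub (Nat.mul 2 q.t1) 125 : ℕ) : ℝ) := by
    apply le_nsub
    rw [cast_mul', c2, c6]
  generalize ((Nat.sub (Nat.mul 2 q.t1) 125 : ℕ) : ℝ) = m at g5 hsub
  clear h1 h2 h3 h4 h5 h6 c1 c2 c3 c4 c5 c6
  refine ⟨g1, g2, g3, g4, ?_, ?_⟩
  · intro h16
    have c1 : 0 ≤ 2 * (q.t1 : ℝ) - 125 := by linarith
    have c2 := pow_le_pow_left₀ c1 hsub 2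
    have c3 := mul_le_mul_of_nonneg_left c2 (sq_nonneg (q.k1 : ℝ))
    have e1 : ((q.k1 : ℝ) / 1000) ^ 2 * (2 * ((q.t1 : ℝ) / 1000) - 1 / 8) ^ 2 =
        (q.k1 : ℝ) ^ 2 * (2 * q.t1 - 125) ^ 2 / 1000000000000 := by ring
    have e2 : 1 + ((q.t1 : ℝ) / 1000) ^ 2 = 1000000 * (1000000 + (q.t1 : ℝ) ^ 2) / 1000000000000 := by ring
    rw [e1, e2]
    exact div_le_div_of_nonneg_right (by linarith) (by norm_num)
  · have e1 : ((q.k0 : ℝ) / 1000) ^ 2 * (2 * ((q.t0 : ℝ) / 1000) + 133 / 100) ^ 2 =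
        (q.k0 : ℝ) ^ 2 * (2 * q.t0 + 1330) ^ 2 / 1000000000000 := by ring
    have e2 : 1 + ((q.t0 : ℝ) / 1000) ^ 2 = 1000000 * (1000000 + (q.t0 : ℝ) ^ 2) / 1000000000000 := by ring
    rw [e1, e2]
    exact div_le_div_of_nonneg_right (by linarith) (by norm_num)

theorem loE_ok {q : E.B2.Rg} (h : loE q = true) {b k y l : ℂ} (hr : InR q b.re b.im) (hd : NdE b k y l) :
    LoEb y l.re := by
  obtain ⟨g1, g2, g3, g4, g5, g6⟩ := loE_num h
  have n1 : (0 : ℝ) ≤ q.k1 := Nat.cast_nonneg _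
  have n2 : (0 : ℝ) ≤ q.t1 := Nat.cast_nonneg _
  have n3 : (0 : ℝ) ≤ q.t0 := Nat.cast_nonneg _
  have x0 := hr.x0
  have y0 := hr.y0
  have hb2 : b.re ^ 2 + b.im ^ 2 = ‖b‖ ^ 2 := by
    rw [Complex.sq_norm, Complex.normSq_apply]
    ring
  have lo := hr.lo
  have hi := hr.hi
  have a0 := hr.a0
  have a1 := hr.a1
  have yx : b.im ≤ b.re := a1.trans (by nlinarith)
  have A : 2 * b.im - 1 ≤ b.re / 8 := loA (t := (q.t1 : ℝ) / 1000) (K := (q.k1 : ℝ) / 1000) x0 y0 a1 hi g5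
  have B : -(133 / 100 * b.re) ≤ 2 * b.im - 1 :=
    loB' (t := (q.t0 : ℝ) / 1000) (K := (q.k0 : ℝ) / 1000) x0 y0 a0 yx (by positivity) (by linarith) lo g6
  have nlo : (4 / 10 : ℝ) ^ 2 ≤ ‖b‖ ^ 2 := by
    rw [← hb2]
    exact le_trans (pow_le_pow_left₀ (by norm_num) (by linarith) 2) lo
  have nhi : ‖b‖ ^ 2 ≤ 1 ^ 2 := by
    rw [← hb2]
    exact hi.trans (pow_le_pow_left₀ (by positivity) (by linarith) 2)
  have xp : 0 < b.re := by
    rcases x0.eq_or_lt with h | h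
    · have : b.im = 0 := le_antisymm (by rw [h]; exact yx) y0
      rw [← h, this] at hb2
      norm_num at nlo
      linarith
    · exact h
  -- the exponential
  have hV := hd.Vy
  have re1 := congrArg Complex.re hV
  have im1 := congrArg Complex.im hV
  obtain ⟨p1, p2⟩ := exp_npi y
  rw [add_re, p1] at re1
  rw [add_im, p2] at im1
  simp only [one_re, one_im, neg_re, neg_im, mul_re, mul_im, I_re, I_im, re_ofNat, im_ofNat, mul_zero, mul_one,
    zero_mul, sub_zero, zero_sub, add_zero, zero_add] at re1 im1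
  have hpi := Real.pi_pos
  set E := Real.exp (2 * Real.pi * y.im) with hE
  have Ep : 0 < E := Real.exp_pos _
  have rc : E * Real.cos (2 * Real.pi * y.re) = 2 * b.im - 1 := by linarith
  have rs : E * Real.sin (2 * Real.pi * y.re) = 2 * b.re := by linarith
  have E2 : E ^ 2 = (2 * b.im - 1) ^ 2 + (2 * b.re) ^ 2 := by
    rw [← rc, ← rs]
    have := Real.sin_sq_add_cos_sq (2 * Real.pi * y.re)
    nlinarith
  have E3 : E ^ 2 = Real.exp (4 * Real.pi * y.im) := by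
    rw [hE, ← Real.exp_nat_mul]
    congr 1
    push_cast
    ring
  have y0' := hd.y0
  have y1' := hd.y1
  have k3 : (8 / 100 : ℝ) ≤ b.re ^ 2 := by
    have : b.im ^ 2 ≤ b.re ^ 2 := pow_le_pow_left₀ y0 yx 2
    norm_num at nlo
    linarith
  have k4 : b.re ^ 2 + b.im ^ 2 ≤ 1 := by
    rw [hb2]
    linarith
  rw [E3] at E2
  refine ⟨x_lo Ep rc rs x0 A y0', x_hi Ep rc rs x0 B y1', abs_le.2 ⟨i_lo E2 k3, i_hi E2 y0 k4⟩, ?_⟩
  · have bn : 0 < ‖b‖ := norm_pos_iff.2 hd.b0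
    have kn : 0 < ‖k‖ := norm_pos_iff.2 (fun h => by have := hd.kre; rw [h] at this; exact lt_irrefl 0 this)
    have hk : 2 * ‖k‖ ^ 2 = ‖b‖ := by
      have := congrArg norm hd.kE
      rw [norm_mul, norm_mul, norm_pow, norm_neg, norm_I, one_mul] at this
      norm_num at this
      exact this
    have hl : l.re = 2 * Real.log ‖b‖ - 2 * Real.log ‖k‖ := by
      rw [hd.hl, mul_re, sub_re, log_re, log_re]
      simp
      ring
    have lk : Real.log ‖b‖ = Real.log 2 + 2 * Real.log ‖k‖ := by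
      rw [← hk, Real.log_mul (by norm_num) (pow_ne_zero 2 kn.ne'), Real.log_pow]
      push_cast
      ring
    have hl2 : l.re = Real.log (2 * ‖b‖) := by
      rw [hl, Real.log_mul (by norm_num) bn.ne']
      linarith
    have b1 : ‖b‖ ≤ 1 := (abs_le_of_sq_le_sq' nhi (by norm_num)).2
    have b0 : 4 / 10 ≤ ‖b‖ := (abs_le_of_sq_le_sq' nlo bn.le).2
    rw [hl2, abs_le]
    constructor
    · have := Real.one_sub_inv_le_log_of_pos (x := 2 * ‖b‖) (by positivity)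
      have k : (2 * ‖b‖)⁻¹ ≤ (8 / 10)⁻¹ := inv_anti₀ (by norm_num) (by linarith)
      have k5 : ((8 / 10 : ℝ))⁻¹ = 5 / 4 := by norm_num
      rw [k5] at k
      linarith
    · have k : Real.log (2 * ‖b‖) ≤ Real.log 2 := Real.log_le_log (by positivity) (by linarith)
      have := Real.log_two_lt_d9
      linarith

/-- The test of a table. -/
def loET (T : Vt → Vt → E.B2.Rg) : Bool :=
  (types false).all fun J => !J.ok || loE (T J ⟨2, false, none⟩)

theorem loET_ok {T : Vt → Vt → E.B2.Rg} (h : loET T = true) {J : Vt} (hJ : J.ok = true) (hs : J.s = false) :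
    loE (T J ⟨2, false, none⟩) = true := by
  have hm := E.mem_types hJ
  rw [hs] at hm
  have := List.all_eq_true.1 h _ hm
  rw [hJ] at this
  simpa using this

end K

open ComplexConjugate in
theorem conj_InR {q : E.B2.Rg} {c : ℂ} (h : InR q c.re (-c.im)) : InR q (conj c).re (conj c).im := by
  rw [conj_re, conj_im]
  exact h

namespace Ctx

variable {T : Vt → Vt → E.B2.Rg} {R : ℕ} {a : ℕ → ℕ} {S : ℕ → Bool} {r : ℕ → ℤ}
  {z ql qr : ℕ → ℂ} {zF : Fin (R + 1) → ℂ}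

/-- The first node has two half twists: the edge is an `A` edge. -/
theorem s_zero (h : Ctx T R a S r z ql qr zF) (h0 : a 0 = 2) : vR a S 0 = ⟨2, false, none⟩ ∧ S 0 = false := by
  have hR : 0 < R := h.hg.crt.hR
  have hJ := h.toPre.ok_r hR
  have e : vR a S 0 = ⟨2, S 0, none⟩ := by
    unfold E.vR
    rw [h0, if_pos rfl]
    rfl
  rw [e] at hJ ⊢
  cases hS : S 0
  · exact ⟨rfl, rfl⟩
  · rw [hS] at hJ
    exact absurd hJ (by decide)

/-- The last node has two half twists: the edge is an `A` edge. -/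
theorem s_last (h : Ctx T R a S r z ql qr zF) {i : ℕ} (hi : i + 1 = R) (h0 : a (i + 1) = 2) :
    vL R a S (i + 1) = ⟨2, false, none⟩ ∧ S i = false := by
  have hJ := h.toPre.ok_l (by omega : i < R)
  have e : vL R a S (i + 1) = ⟨2, S i, none⟩ := by
    unfold E.vL
    rw [h0, if_pos hi]
    rfl
  rw [e] at hJ ⊢
  cases hS : S i
  · exact ⟨rfl, rfl⟩
  · rw [hS] at hJ
    exact absurd hJ (by decide)

/-- The slot of the first node. -/
theorem loE_zero (hT : K.loET T = true) (h : Ctx T R a S r z ql qr zF) (h0 : a 0 = 2) :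
    K.LoEb (slR R a S z qr 0).ys (slR R a S z qr 0).lam.re := by
  have hR : 0 < R := h.hg.crt.hR
  obtain ⟨e, hS⟩ := h.s_zero h0
  have hr := h.toPre.rr hR
  have hn := h.hg.ndE_zero h0
  rw [hS, G.kp_false] at hn
  rw [e] at hr
  exact K.loE_ok (K.loET_ok hT (h.toPre.ok_l hR) (by show S 0 = false; exact hS)) (conj_InR hr) hn

/-- The slot of the last node. -/
theorem loE_last (hT : K.loET T = true) (h : Ctx T R a S r z ql qr zF) {i : ℕ} (hi : i + 1 = R)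
    (h0 : a (i + 1) = 2) : K.LoEb (slL R a S z ql (i + 1)).ys (slL R a S z ql (i + 1)).lam.re := by
  have hR : i < R := by omega
  obtain ⟨e, hS⟩ := h.s_last hi h0
  have hl := h.toPre.rl hR
  subst hi
  have hn := h.hg.ndE_last h0
  rw [Nat.add_sub_cancel, hS, G.kp_false] at hn
  rw [e] at hl
  exact K.loE_ok (K.loET_ok hT (h.toPre.ok_r hR) (by show S i = false; exact hS)) (conj_InR hl) hn

/-- **The fields `Ta` and `Tb` of the first node.** -/
theorem lo_e2l (hT : K.loET T = true) (h : Ctx T R a S r z ql qr zF) (h0 : a 0 = 2) (n : Nt) :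
    (∀ (x y : ℂ) (wa wb : ℝ) (pb : Pc), (slL R a S z ql 0).ex = true → ((slR R a S z qr 0).ex = true → pb.frcT) →
      (slL R a S z ql 0).In .lo x wa → (slR R a S z qr 0).In pb y wb → 0 ≤ (x + y).re →
      Ecl (slL R a S z ql 0).ys (slR R a S z qr 0).ys x y + (slL R a S z ql 0).e n .lo x wa +
        (slR R a S z qr 0).e n pb y wb < 0) ∧
    (∀ (x y : ℂ) (wa wb : ℝ) (pa : Pc), (slR R a S z qr 0).ex = true → ((slL R a S z ql 0).ex = true → pa.frcT) →
      (slL R a S z ql 0).In pa x wa → (slR R a S z qr 0).In .lo y wb → 0 ≤ (x + y).re →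
      Ecl (slL R a S z ql 0).ys (slR R a S z qr 0).ys x y + (slL R a S z ql 0).e n pa x wa +
        (slR R a S z qr 0).e n .lo y wb < 0) := by
  obtain ⟨x1, x2⟩ := h.slL_0
  have b := loE_zero hT h h0
  have hn := h.hg.ndE_zero h0
  exact ⟨VCl_no x1, VCl_Tb_e2 (fun _ => hn.sl) x1 x2 b.x0 b.x1 b.i b.l⟩

/-- **The fields `Ta` and `Tb` of the last node.** -/
theorem lo_e2r (hT : K.loET T = true) (h : Ctx T R a S r z ql qr zF) {i : ℕ} (hi : i + 1 = R)
    (h0 : a (i + 1) = 2) (n : Nt) :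
    (∀ (x y : ℂ) (wa wb : ℝ) (pb : Pc), (slL R a S z ql (i + 1)).ex = true →
      ((slR R a S z qr (i + 1)).ex = true → pb.frcT) →
      (slL R a S z ql (i + 1)).In .lo x wa → (slR R a S z qr (i + 1)).In pb y wb → 0 ≤ (x + y).re →
      Ecl (slL R a S z ql (i + 1)).ys (slR R a S z qr (i + 1)).ys x y + (slL R a S z ql (i + 1)).e n .lo x wa +
        (slR R a S z qr (i + 1)).e n pb y wb < 0) ∧
    (∀ (x y : ℂ) (wa wb : ℝ) (pa : Pc), (slR R a S z qr (i + 1)).ex = true →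
      ((slL R a S z ql (i + 1)).ex = true → pa.frcT) →
      (slL R a S z ql (i + 1)).In pa x wa → (slR R a S z qr (i + 1)).In .lo y wb → 0 ≤ (x + y).re →
      Ecl (slL R a S z ql (i + 1)).ys (slR R a S z qr (i + 1)).ys x y + (slL R a S z ql (i + 1)).e n pa x wa +
        (slR R a S z qr (i + 1)).e n .lo y wb < 0) := by
  obtain ⟨x1, x2⟩ := h.slR_R
  rw [← hi] at x1 x2
  have b := loE_last hT h hi h0
  subst hi
  have hn := h.hg.ndE_last h0
  refine ⟨VCl_Ta_e2 (fun _ => hn.sl) x1 x2 b.x0 b.x1 b.i b.l, ?_⟩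
  intro x y wa wb pa hb
  rw [x1] at hb
  exact absurd hb (by decide)

end Ctx

end Pool.Agent.S5
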