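import Pool.Agent.S5.K.IDa
import Pool.Agent.S5.K.Ana

/-!
# Closed nodes: the data of a slot
-/

set_option autoImplicit false

namespace Pool.Agent.S5.K

open Pool.Agent.H63.VC3 Pool.Agent.S3 Complex Set Pool.Agent.S5.Tb Pool.Agent.S5.Num

theorem seg_ok {p q : ℂ} {wi sj : ℕ} (hw : wi ≤ 100) (hs : sj ≤ 60) (h0 : 0 < wi + sj)
    (p1 : (wi : ℝ) / 200 ≤ p.re) (p2 : p.re ≤ 1 - wi / 200) (p3 : 0 < p.re) (p4 : p.re < 1)
    (q1 : (wi : ℝ) / 200 ≤ q.re) (q2 : q.re ≤ 1 - wi / 200) (q3 : 0 < q.re) (q4 : q.re < 1)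
    (hi : ((sj : ℝ) / 200 ≤ p.im ∧ (sj : ℝ) / 200 ≤ q.im) ∨
      (p.im ≤ -((sj : ℝ) / 200) ∧ q.im ≤ -((sj : ℝ) / 200)) ∨ sj = 0) :
    Seg p q ((kE (ent6 wi sj) : ℝ) / 16) := by
  intro t t0 t1
  have er : (p + t * (q - p)).re = (1 - t) * p.re + t * q.re := by
    simp
    ring
  have ei : (p + t * (q - p)).im = (1 - t) * p.im + t * q.im := by
    simp
    ring
  have t1' : 0 ≤ 1 - t := by linarith only [t1]
  set z := p + t * (q - p) with hz
  have hpi := Real.pi_pos
  have hw' : (wi : ℝ) ≤ 100 := by exact_mod_cast hw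
  have hw0 : (0 : ℝ) ≤ wi := by positivity
  have hs0 : (0 : ℝ) ≤ sj := by positivity
  have z1 : (wi : ℝ) / 200 ≤ z.re := by
    rw [er]
    (refine le_of_not_gt fun hng => ?_; linarith only [mul_nonneg (sub_nonneg.2 q1) (sub_nonneg.2 t0),
      mul_nonneg (sub_nonneg.2 p1) (sub_nonneg.2 t1), mul_pos (sub_pos.2 hng) (sub_pos.2 p4),
      mul_pos (sub_pos.2 hng) (sub_pos.2 p3)])
  have z2 : z.re ≤ 1 - wi / 200 := by
    rw [er]
    (refine le_of_not_gt fun hng => ?_; linarith only [mul_nonneg (sub_nonneg.2 q2) (sub_nonneg.2 t0),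
      mul_nonneg (sub_nonneg.2 p2) (sub_nonneg.2 t1), mul_pos (sub_pos.2 hng) (sub_pos.2 p4),
      mul_pos (sub_pos.2 hng) (sub_pos.2 p3)])
  have z3 : 0 < z.re := by
    rw [er]
    rcases eq_or_lt_of_le t0 with h | h
    · rw [← h]
      linarith only [p3]
    · linarith only [mul_pos (sub_pos.2 q3) (sub_pos.2 h),
        mul_nonneg (sub_nonneg.2 p3.le) (sub_nonneg.2 t1)]
  have z4 : z.re < 1 := by
    rw [er]
    rcases eq_or_lt_of_le t0 with h | h
    · rw [← h]
      linarith only [p4]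
    · linarith only [mul_pos (sub_pos.2 q4) (sub_pos.2 h),
        mul_nonneg (sub_nonneg.2 p4.le) (sub_nonneg.2 t1)]
  refine ⟨z3, z4, ?_⟩
  have hD0 : 0 < Real.sin (Real.pi * (wi / 200)) ^ 2 + Real.sinh (Real.pi * (sj / 200)) ^ 2 := by
    rcases Nat.eq_zero_or_pos wi with h | h
    · have hsj : 0 < sj := by omega
      have hsj' : (0 : ℝ) < sj := by exact_mod_cast hsj
      have : 0 < Real.sinh (Real.pi * (sj / 200)) := by
        rw [Real.sinh_pos_iff]
        positivity
      positivity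
    · have h' : (0 : ℝ) < wi := by exact_mod_cast h
      have : 0 < Real.sin (Real.pi * (wi / 200)) := by
        apply Real.sin_pos_of_pos_of_lt_pi (by positivity)
        linarith only [hpi, mul_nonneg (sub_nonneg.2 p2) (sub_nonneg.2 hpi.le),
          mul_nonneg (sub_nonneg.2 p1) (sub_nonneg.2 hpi.le)]
      positivity
  have hsin : Real.sin (Real.pi * (wi / 200)) ≤ Real.sin (Real.pi * z.re) := by
    rcases le_total z.re (1 / 2) with h | h
    · apply Real.sin_le_sin_of_le_of_le_pi_div_two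
      · nlinarith
      · (refine le_of_not_gt fun hng => ?_; linarith only [mul_nonneg (sub_nonneg.2 hpi.le) (sub_nonneg.2 h),
          mul_pos (sub_pos.2 hng) (sub_pos.2 p4), mul_pos (sub_pos.2 hng) (sub_pos.2 p3)])
      · linarith only [mul_nonneg (sub_nonneg.2 hpi.le) (sub_nonneg.2 z1)]
    · rw [← Real.sin_pi_sub (Real.pi * z.re)]
      apply Real.sin_le_sin_of_le_of_le_pi_div_two
      · nlinarith
      · (refine le_of_not_gt fun hng => ?_; linarith only [mul_nonneg (sub_nonneg.2 hpi.le) (sub_nonneg.2 h),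
          mul_pos (sub_pos.2 hng) (sub_pos.2 p4), mul_pos (sub_pos.2 hng) (sub_pos.2 p3)])
      · linarith only [mul_nonneg (sub_nonneg.2 hpi.le) (sub_nonneg.2 z2)]
  have hsin0 : 0 ≤ Real.sin (Real.pi * (wi / 200)) := by
    apply Real.sin_nonneg_of_nonneg_of_le_pi (by positivity)
    linarith only [hpi, mul_nonneg (sub_nonneg.2 p2) (sub_nonneg.2 hpi.le),
      mul_nonneg (sub_nonneg.2 p1) (sub_nonneg.2 hpi.le)]
  have hsinh : Real.sinh (Real.pi * (sj / 200)) ^ 2 ≤ Real.sinh (Real.pi * z.im) ^ 2 := by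
    have h1 : 0 ≤ Real.sinh (Real.pi * (sj / 200)) := by
      rw [Real.sinh_nonneg_iff]
      positivity
    rcases hi with ⟨h, h'⟩ | ⟨h, h'⟩ | h
    · have h2 : (sj : ℝ) / 200 ≤ z.im := by
        rw [ei]
        (refine le_of_not_gt fun hng => ?_; linarith only [mul_nonneg (sub_nonneg.2 t1) (sub_nonneg.2 h),
          mul_nonneg (sub_nonneg.2 t0) (sub_nonneg.2 h'), mul_pos (sub_pos.2 hng) (sub_pos.2 p4),
          mul_pos (sub_pos.2 hng) (sub_pos.2 p3)])
      have h3 : Real.sinh (Real.pi * (sj / 200)) ≤ Real.sinh (Real.pi * z.im) := by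
        apply Real.sinh_le_sinh.2
        linarith only [mul_nonneg (sub_nonneg.2 hpi.le) (sub_nonneg.2 h2)]
      exact pow_le_pow_left₀ h1 h3 2
    · have h2 : z.im ≤ -((sj : ℝ) / 200) := by
        rw [ei]
        (refine le_of_not_gt fun hng => ?_; linarith only [mul_nonneg (sub_nonneg.2 t1) (sub_nonneg.2 h),
          mul_nonneg (sub_nonneg.2 t0) (sub_nonneg.2 h'), mul_pos (sub_pos.2 hng) (sub_pos.2 p4),
          mul_pos (sub_pos.2 hng) (sub_pos.2 p3)])
      have h3 : Real.sinh (Real.pi * (sj / 200)) ≤ -Real.sinh (Real.pi * z.im) := by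
        rw [← Real.sinh_neg]
        apply Real.sinh_le_sinh.2
        linarith only [mul_nonneg (sub_nonneg.2 hpi.le) (sub_nonneg.2 h2)]
      have := pow_le_pow_left₀ h1 h3 2
      rwa [neg_sq] at this
    · rw [h]
      simp
      positivity
  have hk := (ent6_ok wi sj hw hs h0).k
  apply cot_bd (D := Real.sin (Real.pi * (wi / 200)) ^ 2 + Real.sinh (Real.pi * (sj / 200)) ^ 2)
  · have := pow_le_pow_left₀ hsin0 hsin 2
    linarith only [this, hsinh]
  · exact hD0
  · rw [div_pow]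
    linarith only [hk]
  · positivity

/-- The data of a slot. -/
structure SlO (cf ia ja lr li rr ri x1 x2 e1 e2 : ℕ) (A : SD) (q0 kk dX dS : ℕ) (ys : ℂ) :
    Prop where
  hia : ia ≤ 99
  hja : ja ≤ 100
  hx2 : x2 ≤ 1600
  q : |FW (200 - ia) (160 + 16 * ja) - q0| ≤ 102400
  hdX : |ys.re * 3200 - 16 * ia| ≤ dX
  hdS : |ys.im * 3200 + 800 - 16 * ja| ≤ dS
  td : |Td (1 / 2 - ys) (1 / 2 - yX (ia + 50) (160 + 16 * ja))| * 3355443200 ≤
    1024 / 100 * (kk * (dX ^ 2 + dS ^ 2))
  hA : ∃ g1 g2p g2n eg rg : ℕ, A = .mk cf ia ja lr li rr ri q0 g1 g2p g2n eg rg ∧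
    ∀ dd X1 X2 S1 S2 : ℕ, Rcs X1 X2 S1 S2 →
      ShB dd (ia + 50) (160 + 16 * ja) q0 g1 g2p g2n eg rg X1 X2 S1 S2 (TA ys)

theorem hh_base {w j : ℕ} (h0 : 0 < w) (hw : w ≤ 100) (hj : j ≤ 100) {g : ℕ}
    (hg : g = tt w (j + 10)) {p : ℂ} (hp : p = (((w : ℝ) / 200 : ℝ) : ℂ) +
      ((-(((j : ℝ) - 50) / 200) : ℝ) : ℂ) * I) :
    |(hh p).im * 1048576 - (if 50 ≤ j then -(g : ℝ) else g)| ≤ 4 := by
  have hw0 : (0 : ℝ) < w := by exact_mod_cast h0
  have hw1 : (w : ℝ) ≤ 100 := by exact_mod_cast hw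
  have k := (ent6_ok w (ds' (j + 10) 60) hw (dsj_le (by omega)) (by omega)).t
  have k' : |(hh (pt w (ds' (j + 10) 60))).im * 1048576 - (g : ℝ)| ≤ 4 := by
    rw [hg]
    exact k
  split_ifs with h
  · rw [dsj_ge (by omega)] at k'
    have e2 : p = (starRingEnd ℂ) (pt w (j + 10 - 60)) := by
      unfold pt
      have e : ((j + 10 - 60 : ℕ) : ℝ) / 200 = ((j : ℝ) - 50) / 200 := by
        rw [show j + 10 - 60 = j - 50 by omega]
        push_cast [h]
        ring
      rw [e, hp, map_add, map_mul, conj_ofReal, conj_ofReal, conj_I]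
      push_cast
      ring
    rw [e2, hh_conj _ (by
      unfold pt
      simp
      linarith only [h0]) (by
      unfold pt
      simp
      linarith only [hw1]), conj_im]
    have e3 : -(hh (pt w (j + 10 - 60))).im * 1048576 - -(g : ℝ) =
        -((hh (pt w (j + 10 - 60))).im * 1048576 - g) := by ring
    rw [e3, abs_neg]
    exact k'
  · rw [dsj_lt (by omega)] at k'
    have e2 : p = pt w (60 - (j + 10)) := by
      unfold pt
      have e : ((60 - (j + 10) : ℕ) : ℝ) / 200 = -(((j : ℝ) - 50) / 200) := by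
        rw [show 60 - (j + 10) = 50 - j by omega]
        push_cast [show j ≤ 50 by omega]
        ring
      rw [e, hp]
    rw [e2]
    exact k'

theorem hh_base_re {w j : ℕ} (h0 : 0 < w) (hw : w ≤ 100) (hj : j ≤ 100) {p : ℂ}
    (hp : p = (((w : ℝ) / 200 : ℝ) : ℂ) + ((-(((j : ℝ) - 50) / 200) : ℝ) : ℂ) * I) :
    |((hh p).re + 8) * 1048576 - tl w (j + 10)| ≤ 4 := by
  have k := tb_l (J := j + 10) h0 hw (by omega)
  rw [hp, hh_re', Lg_neg_im]
  have e1 : ((16 : ℝ) * ((j + 10 : ℕ) : ℝ) - 960) / 3200 = ((j : ℝ) - 50) / 200 := by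
    push_cast
    ring
  rw [e1, show ((w : ℝ) + 100 - 100) / 200 = (w : ℝ) / 200 by ring] at k
  exact k

theorem mkS_ok {cf ia ja lr li rr ri x1 x2 e1 e2 : ℕ} {k : SD → ℕ → ℕ → ℕ → ℕ → Bool}
    (h : mkS cf ia ja lr li rr ri x1 x2 e1 e2 k = true) {ys : ℂ} (y0 : 0 < ys.re)
    (y1 : ys.re < 1 / 2) (hx1 : (x1 : ℝ) ≤ ys.re * 3200) (hx2 : ys.re * 3200 ≤ x2)
    (he1 : (e1 : ℝ) ≤ ys.im * 3200 + 800) (he2 : ys.im * 3200 + 800 ≤ e2) :
    ∃ (A : SD) (q0 kk dX dS : ℕ), k A q0 kk dX dS = true ∧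
      SlO cf ia ja lr li rr ri x1 x2 e1 e2 A q0 kk dX dS ys := by
  revert h
  unfold mkS
  refine cN_split (P := fun r => r = true → _) (fun g1 => ?_) (fun _ hf => absurd hf (by simp))
  refine cN_split (P := fun r => r = true → _) (fun g2 => ?_) (fun _ hf => absurd hf (by simp))
  refine cN_split (P := fun r => r = true → _) (fun g3 => ?_) (fun _ hf => absurd hf (by simp))
  have g1 := ble_t g1
  have g2 := ble_t g2
  have g3 := ble_t g3
  unfold kS
  rw [fN_eq, fN_eq, fN_eq, fN_eq]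
  simp only [mn'_eq, mx'_eq, add_eq', sub_eq', mul_eq', div_eq']
  set wi := (1600 - max x2 (16 * ia)) / 16 with hwi
  set sj := min 60 ((min e1 (16 * ja) - 800 + (800 - max e2 (16 * ja))) / 16) with hsj
  refine cN_split (P := fun r => r = true → _) (fun g4 => ?_) (fun _ hf => absurd hf (by simp))
  have g4 := ble_t g4
  set kk := kE (ent6 wi sj) with hkk
  set dX := max (ds' x1 (16 * ia)) (ds' x2 (16 * ia)) with hdX
  set dS := max (ds' e1 (16 * ja)) (ds' e2 (16 * ja)) with hdS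
  set q0 := tq (100 - ia) (ja + 10) with hq0
  set gl := tl (100 - ia) (ja + 10) with hgl
  set gt := tt (100 - ia) (ja + 10) with hgt
  rw [fN_eq, fN_eq, fN_eq, fN_eq, fN_eq, fN_eq, fN_eq]
  set eg := Nat.succ (1024 * (kk * (dX * dX + dS * dS)) / 100) with heg
  set rg := Nat.succ (2048 * (kk * (dX + dS)) / 100) with hrg
  -- the real data
  have i99 : (ia : ℝ) ≤ 99 := by exact_mod_cast g1
  have i0 : (0 : ℝ) ≤ ia := by positivity
  have bX : |ys.re * 3200 - 16 * ia| ≤ dX := by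
    have m1 : ((ds' x1 (16 * ia) : ℕ) : ℝ) ≤ dX := by exact_mod_cast le_max_left _ _
    have m2 : ((ds' x2 (16 * ia) : ℕ) : ℝ) ≤ dX := by exact_mod_cast le_max_right _ _
    rw [ds'_eq] at m1 m2
    push_cast at m1 m2
    rw [abs_le]
    constructor
    · linarith only [neg_abs_le ((x1 : ℝ) - 16 * ia), m1, hx1]
    · linarith only [le_abs_self ((x2 : ℝ) - 16 * ia), m2, hx2]
  have bS : |ys.im * 3200 + 800 - 16 * ja| ≤ dS := by
    have m1 : ((ds' e1 (16 * ja) : ℕ) : ℝ) ≤ dS := by exact_mod_cast le_max_left _ _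
    have m2 : ((ds' e2 (16 * ja) : ℕ) : ℝ) ≤ dS := by exact_mod_cast le_max_right _ _
    rw [ds'_eq] at m1 m2
    push_cast at m1 m2
    rw [abs_le]
    constructor
    · linarith only [neg_abs_le ((e1 : ℝ) - 16 * ja), m1, he1]
    · linarith only [le_abs_self ((e2 : ℝ) - 16 * ja), m2, he2]
  set a0 := yX (ia + 50) (160 + 16 * ja) with ha0
  have a0r : a0.re = ia / 200 := by
    rw [ha0, yX_re]
    ring
  have a0i : a0.im = (ja - 50) / 200 := by
    rw [ha0, yX_im]
    ring
  have hseg : Seg (1 / 2 - ys) (1 / 2 - a0) ((kk : ℝ) / 16) := by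
    have hxm : ((max x2 (16 * ia) : ℕ) : ℝ) ≤ 1600 := by
      exact_mod_cast (by omega : max x2 (16 * ia) ≤ 1600)
    have hwr : (wi : ℝ) * 16 ≤ 1600 - (max x2 (16 * ia) : ℕ) := by
      have h1 : wi * 16 + max x2 (16 * ia) ≤ 1600 := by omega
      have : (wi : ℝ) * 16 + (max x2 (16 * ia) : ℕ) ≤ 1600 := by exact_mod_cast h1
      linarith only [this]
    have m1 : (x2 : ℝ) ≤ (max x2 (16 * ia) : ℕ) := by exact_mod_cast le_max_left _ _
    have m2 : (16 : ℝ) * ia ≤ (max x2 (16 * ia) : ℕ) := by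
      exact_mod_cast le_max_right x2 (16 * ia)
    have hr : ∀ y : ℂ, ((1 : ℂ) / 2 - y).re = 1 / 2 - y.re := fun y => by simp
    have hi : ∀ y : ℂ, ((1 : ℂ) / 2 - y).im = -y.im := fun y => by simp
    apply seg_ok (by omega) (by omega) (by omega)
    · rw [hr]; linarith only [m1, hwr, hx2]
    · rw [hr]
      have : (wi : ℝ) ≤ 100 := by exact_mod_cast (by omega : wi ≤ 100)
      linarith only [hwr, hxm, y0]
    · rw [hr]; linarith only [y1]
    · rw [hr]; linarith only [y0]
    · rw [hr, a0r]; linarith only [m2, hwr]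
    · rw [hr, a0r]
      have : (wi : ℝ) ≤ 100 := by exact_mod_cast (by omega : wi ≤ 100)
      linarith only [hwr, hxm, i99]
    · rw [hr, a0r]; linarith only [i99, y1, y0]
    · rw [hr, a0r]; linarith only [i99, y1, y0]
    · rw [hi, hi, a0i]
      rcases Nat.lt_or_ge 800 (min e1 (16 * ja)) with c | c
      · right
        left
        have c1 : sj * 16 + 800 ≤ e1 := by omega
        have c2 : sj * 16 + 800 ≤ 16 * ja := by omega
        have c1' : (sj : ℝ) * 16 + 800 ≤ e1 := by exact_mod_cast c1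
        have c2' : (sj : ℝ) * 16 + 800 ≤ 16 * ja := by exact_mod_cast c2
        constructor <;> linarith
      · rcases Nat.lt_or_ge (max e2 (16 * ja)) 800 with c' | c'
        · left
          have c1 : sj * 16 + e2 ≤ 800 := by omega
          have c2 : sj * 16 + 16 * ja ≤ 800 := by omega
          have c1' : (sj : ℝ) * 16 + e2 ≤ 800 := by exact_mod_cast c1
          have c2' : (sj : ℝ) * 16 + 16 * ja ≤ 800 := by exact_mod_cast c2
          constructor <;> linarith
        · right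
          right
          omega
  -- the distance
  have hn : ((1 : ℂ) / 2 - a0 - (1 / 2 - ys)) = ys - a0 := by ring
  have hre : |(ys - a0).re| ≤ dX / 3200 := by
    rw [sub_re, a0r]
    have : ys.re - ia / 200 = (ys.re * 3200 - 16 * ia) / 3200 := by ring
    rw [this, abs_div, abs_of_pos (show (0 : ℝ) < 3200 by norm_num)]
    exact div_le_div_of_nonneg_right bX (by norm_num)
  have him : |(ys - a0).im| ≤ dS / 3200 := by
    rw [sub_im, a0i]
    have : ys.im - (ja - 50) / 200 = (ys.im * 3200 + 800 - 16 * ja) / 3200 := by ring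
    rw [this, abs_div, abs_of_pos (show (0 : ℝ) < 3200 by norm_num)]
    exact div_le_div_of_nonneg_right bS (by norm_num)
  have hd2 : ‖ys - a0‖ ^ 2 ≤ ((dX : ℝ) ^ 2 + dS ^ 2) / 3200 ^ 2 := by
    rw [← normSq_eq_norm_sq, normSq_apply]
    have u1 : (ys - a0).re * (ys - a0).re ≤ (dX / 3200) ^ 2 := by
      rw [← sq, ← sq_abs]
      exact pow_le_pow_left₀ (abs_nonneg _) hre 2
    have u2 : (ys - a0).im * (ys - a0).im ≤ (dS / 3200) ^ 2 := by
      rw [← sq, ← sq_abs]
      exact pow_le_pow_left₀ (abs_nonneg _) him 2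
    have e : ((dX : ℝ) ^ 2 + dS ^ 2) / 3200 ^ 2 = (dX / 3200) ^ 2 + (dS / 3200) ^ 2 := by ring
    rw [e]
    linarith only [u2, u1]
  have hd1 : ‖ys - a0‖ ≤ ((dX : ℝ) + dS) / 3200 := by
    refine (norm_le_abs_re_add_abs_im _).trans ?_
    have e : ((dX : ℝ) + dS) / 3200 = dX / 3200 + dS / 3200 := by ring
    rw [e]
    exact add_le_add hre him
  have hkk0 : (0 : ℝ) ≤ kk := by positivity
  have hTd : |Td (1 / 2 - ys) (1 / 2 - a0)| * 3355443200 ≤
      1024 / 100 * ((kk : ℝ) * ((dX : ℝ) ^ 2 + dS ^ 2)) := by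
    have h1 := hseg.Td_le
    rw [hn] at h1
    have h2 := mul_le_mul_of_nonneg_left hd2 (by positivity : 0 ≤ (kk : ℝ) / 16 / 2)
    have h3 := h1.trans h2
    have h4 := mul_le_mul_of_nonneg_right h3 (by norm_num : (0 : ℝ) ≤ 3355443200)
    refine h4.trans (le_of_eq ?_)
    ring
  have hq : |FW (200 - ia) (160 + 16 * ja) - q0| ≤ 102400 := by
    have := tb_q (w := 100 - ia) (J := ja + 10) (by omega) (by omega)
    have e1 : ((100 - ia : ℕ) : ℝ) + 100 = 200 - ia := by
      push_cast [show ia ≤ 100 by omega]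
      ring
    have e2 : (16 : ℝ) * ((ja + 10 : ℕ) : ℝ) = 160 + 16 * ja := by
      push_cast
      ring
    rw [e1, e2] at this
    exact this
  -- the base point
  have hp0 : (1 : ℂ) / 2 - a0 = ((((100 - ia : ℕ) : ℝ) / 200 : ℝ) : ℂ) +
      ((-(((ja : ℝ) - 50) / 200) : ℝ) : ℂ) * I := by
    apply Complex.ext
    · rw [sub_re, a0r]
      push_cast [show ia ≤ 100 by omega]
      simp
      ring
    · rw [sub_im, a0i]
      simp
  have hbi := hh_base (w := 100 - ia) (j := ja) (by omega) (by omega) g2 hgt hp0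
  have hbr := hh_base_re (w := 100 - ia) (j := ja) (by omega) (by omega) g2 hp0
  rw [← hgl] at hbr
  have hTA : ∀ (g2p g2n : ℕ), ((g2p : ℝ) - g2n = if 50 ≤ ja then -(gt : ℝ) else gt) →
      ∀ dd X1 X2 S1 S2 : ℕ, Rcs X1 X2 S1 S2 →
        ShB dd (ia + 50) (160 + 16 * ja) q0 gl g2p g2n eg rg X1 X2 S1 S2 (TA ys) := by
    intro g2p g2n hg dd X1 X2 S1 S2 hR _ X S x1' x2' s1' s2'
    rw [← hg] at hbi
    obtain ⟨r1, r2, r3, r4, r5⟩ := hR
    have X0 : (0 : ℝ) ≤ X := le_trans (by positivity) x1'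
    have X9 : X ≤ 150 := x2'.trans (by exact_mod_cast r2)
    have S0 : (480 : ℝ) ≤ S := le_trans (by exact_mod_cast r4) s1'
    have S9 : S ≤ 1440 := s2'.trans (by exact_mod_cast r5)
    have j0 : (0 : ℝ) ≤ ja := by positivity
    have j9 : (ja : ℝ) ≤ 100 := by exact_mod_cast g2
    push_cast
    set q := (1 : ℂ) / 2 - yX X S with hq'
    set p := (1 : ℂ) / 2 - ys with hp
    set p0 := (1 : ℂ) / 2 - a0 with hp0'
    have e1 : TA ys X S = (Rf p0 + (hh p0 * (q - p0)).re) * 3355443200 +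
        (Td p p0 + ((hh p - hh p0) * (q - p0)).re) * 3355443200 := by
      unfold TA
      rw [← Rf_half_yX X S, ← hq', ← hp]
      unfold Td
      have : (hh p * (q - p)).re = (hh p * (p0 - p)).re + (hh p0 * (q - p0)).re +
          ((hh p - hh p0) * (q - p0)).re := by
        rw [← add_re, ← add_re]
        congr 1
        ring
      rw [this]
      ring
    have e2 : Rf p0 * 3355443200 = -FW (200 - ia) (160 + 16 * ja) := by
      have := Rf_half_yX ((ia : ℝ) + 50) (160 + 16 * ja)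
      rw [← ha0, ← hp0'] at this
      rw [show (200 : ℝ) - ia = 250 - (ia + 50) by ring, ← this]
      ring
    have e3 : q - p0 = (((-((X - (ia + 50)) / 200) : ℝ) : ℂ)) +
        ((-((S - (160 + 16 * ja)) / 3200) : ℝ) : ℂ) * I := by
      apply Complex.ext
      · rw [hq', hp0', ha0]
        simp only [sub_re, yX_re]
        simp
        ring
      · rw [hq', hp0', ha0]
        simp only [sub_im, yX_im]
        simp
        ring
    have e4 : (hh p0 * (q - p0)).re * 3355443200 = -(16777216 * (hh p0).re * (X - (ia + 50))) +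
        1048576 * (hh p0).im * (S - (160 + 16 * ja)) := by
      rw [e3]
      simp only [mul_re, add_re, add_im, ofReal_re, ofReal_im, I_re, I_im, mul_im]
      ring
    have b1 : |((hh p0).re + 8) * 1048576 - gl| * |X - (ia + 50)| ≤ 4 * 150 := by
      apply mul_le_mul hbr _ (abs_nonneg _) (by norm_num)
      rw [abs_le]
      constructor <;> linarith
    have b2 : |(hh p0).im * 1048576 - ((g2p : ℝ) - g2n)| * |S - (160 + 16 * ja)| ≤ 4 * 1280 := by
      apply mul_le_mul hbi _ (abs_nonneg _) (by norm_num)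
      rw [abs_le]
      constructor <;> linarith
    have nq : ‖q - p0‖ ≤ (16 * |X - (ia + 50)| + |S - (160 + 16 * ja)|) / 3200 := by
      refine (norm_le_abs_re_add_abs_im _).trans (le_of_eq ?_)
      have u1 : (q - p0).re = -((X - (ia + 50)) / 200) := by
        rw [e3]
        simp
      have u2 : (q - p0).im = -((S - (160 + 16 * ja)) / 3200) := by
        rw [e3]
        simp
      rw [u1, u2, abs_neg, abs_neg, abs_div, abs_div, abs_of_pos (show (0 : ℝ) < 200 by norm_num),
        abs_of_pos (show (0 : ℝ) < 3200 by norm_num)]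
      ring
    have b3 : |((hh p - hh p0) * (q - p0)).re| * 3355443200 ≤
        rg * (16 * |X - (ia + 50)| + |S - (160 + 16 * ja)|) := by
      have h1 := hseg.hh_le'
      rw [show p0 - p = ys - a0 by rw [hp0', hp]; ring] at h1
      have h2 := mul_le_mul_of_nonneg_left hd1 (by positivity : 0 ≤ (kk : ℝ) / 16)
      have h3 : ‖hh p - hh p0‖ ≤ (kk : ℝ) / 16 * (((dX : ℝ) + dS) / 3200) := by
        rw [norm_sub_rev]
        exact h1.trans h2
      have h4 : |((hh p - hh p0) * (q - p0)).re| ≤ (kk : ℝ) / 16 * (((dX : ℝ) + dS) / 3200) *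
          ((16 * |X - (ia + 50)| + |S - (160 + 16 * ja)|) / 3200) := by
        refine (abs_re_le_norm _).trans ?_
        rw [norm_mul]
        exact mul_le_mul h3 nq (norm_nonneg _) (by positivity)
      have h5 : 2048 * ((kk : ℝ) * (dX + dS)) / 100 ≤ rg := by
        have h7 := Nat.lt_div_mul_add (show 0 < 100 by norm_num) (a := 2048 * (kk * (dX + dS)))
        have h8 : 2048 * (kk * (dX + dS)) < rg * 100 := by
          rw [hrg, Nat.succ_eq_add_one, add_mul, one_mul]
          exact h7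
        have : (2048 : ℝ) * (kk * (dX + dS)) < rg * 100 := by exact_mod_cast h8
        linarith only [this]
      have h6 : 0 ≤ 16 * |X - (ia + 50)| + |S - (160 + 16 * ja)| := by positivity
      have h9 := mul_le_mul_of_nonneg_right h5 h6
      refine (mul_le_mul_of_nonneg_right h4 (by norm_num)).trans (le_trans (le_of_eq ?_) h9)
      ring
    have b4 : |Td p p0| * 3355443200 ≤ eg := by
      refine hTd.trans ?_
      have h7 := Nat.lt_div_mul_add (show 0 < 100 by norm_num)
        (a := 1024 * (kk * (dX * dX + dS * dS)))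
      have h8 : 1024 * (kk * (dX * dX + dS * dS)) < eg * 100 := by
        rw [heg, Nat.succ_eq_add_one, add_mul, one_mul]
        exact h7
      have : (1024 : ℝ) * (kk * (dX * dX + dS * dS)) < eg * 100 := by exact_mod_cast h8
      have e : (dX : ℝ) ^ 2 + (dS : ℝ) ^ 2 = dX * dX + dS * dS := by ring
      rw [e]
      linarith only [this]
    -- the sum
    have c0 := abs_le.1 hq
    have c1 : |(((hh p0).re + 8) * 1048576 - gl) * (X - (ia + 50))| ≤ 600 := by
      rw [abs_mul]
      linarith only [b1]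
    have c2 : |((hh p0).im * 1048576 - ((g2p : ℝ) - g2n)) * (S - (160 + 16 * ja))| ≤ 5120 := by
      rw [abs_mul]
      linarith only [b2]
    have c1' := abs_le.1 c1
    have c2' := abs_le.1 c2
    have c3 : |((hh p - hh p0) * (q - p0)).re * 3355443200| ≤
        rg * (16 * |X - (ia + 50)| + |S - (160 + 16 * ja)|) := by
      rw [abs_mul, abs_of_pos (show (0 : ℝ) < 3355443200 by norm_num)]
      exact b3
    have c4 : |Td p p0 * 3355443200| ≤ eg := by
      rw [abs_mul, abs_of_pos (show (0 : ℝ) < 3355443200 by norm_num)]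
      exact b4
    have c3' := abs_le.1 c3
    have c4' := abs_le.1 c4
    rw [e1, add_mul, add_mul, e2, e4, abs_le]
    constructor
    · linarith only [c4'.1, c3'.1, c2'.1, c1'.2, c0.2]
    · linarith only [c4'.2, c3'.2, c2'.2, c1'.1, c0.1]
  refine cN_split (P := fun r => r = true → _) (fun g5 hk => ?_) (fun g5 hk => ?_)
  · have g5 := ble_t g5
    refine ⟨_, _, _, _, _, hk, g1, g2, g3, hq, bX, bS, hTd, _, _, _, _, _, rfl, hTA _ _ ?_⟩
    rw [if_pos g5]
    push_cast
    ring_nf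
  · have g5 := ble_f g5
    refine ⟨_, _, _, _, _, hk, g1, g2, g3, hq, bX, bS, hTd, _, _, _, _, _, rfl, hTA _ _ ?_⟩
    rw [if_neg (by omega)]
    push_cast
    ring_nf

end Pool.Agent.S5.K
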