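import Pool.Agent.S5.K.Ba
import Pool.Agent.S5.K.An4

/-!
# The second order terms: program
-/

set_option autoImplicit false

namespace Pool.Agent.S5.K

open Complex Pool.Agent.S5.Num

/-- The product, rounded up. -/
def muN (a b : ℕ) : ℕ := Nat.succ (Nat.div (Nat.mul a b) 16777216)

/-- The quotient, rounded up. -/
def dvN (a b : ℕ) : ℕ := Nat.succ (Nat.div (Nat.mul a 16777216) b)

/-- The quotient by an integer, rounded up. -/
def upN (a b : ℕ) : ℕ := Nat.succ (Nat.div a b)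

/-- The unit. -/
noncomputable def sc (n : ℕ) : ℝ := (n : ℝ) / 16777216

theorem sc_nonneg (n : ℕ) : 0 ≤ sc n := by
  unfold sc
  positivity

theorem sc_add (a b : ℕ) : sc (Nat.add a b) = sc a + sc b := by
  unfold sc
  rw [Nat.add_eq]
  push_cast
  ring

theorem upN_ok (a : ℕ) {b : ℕ} (hb : 0 < b) : (a : ℝ) ≤ (upN a b : ℝ) * b := by
  unfold upN
  have h : a ≤ Nat.succ (Nat.div a b) * b := by
    have h1 := Nat.lt_mul_div_succ a hb
    have h2 : Nat.div a b = a / b := rfl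
    rw [h2, Nat.succ_eq_add_one, mul_comm]
    exact h1.le
  exact_mod_cast h

theorem sc_up (a : ℕ) {b : ℕ} (hb : 0 < b) : sc a ≤ sc (upN a b) * b := by
  have := upN_ok a hb
  unfold sc
  rw [div_mul_eq_mul_div, div_le_div_iff_of_pos_right (by norm_num)]
  exact this

theorem muN_ok (a b : ℕ) : sc a * sc b ≤ sc (muN a b) := by
  have h := upN_ok (Nat.mul a b) (b := 16777216) (by norm_num)
  have e : upN (Nat.mul a b) 16777216 = muN a b := rfl
  rw [e, Nat.mul_eq] at h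
  push_cast at h
  unfold sc
  rw [div_mul_div_comm, div_le_div_iff₀ (by norm_num) (by norm_num)]
  nlinarith

theorem dvN_ok (a : ℕ) {b : ℕ} (hb : 0 < b) : sc a ≤ sc (dvN a b) * sc b := by
  have h := upN_ok (Nat.mul a 16777216) hb
  have e : upN (Nat.mul a 16777216) b = dvN a b := rfl
  rw [e, Nat.mul_eq] at h
  push_cast at h
  unfold sc
  rw [div_mul_div_comm, div_le_div_iff₀ (by norm_num) (by norm_num)]
  nlinarith

/-- An upper bound of the square root of `z`. -/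
def sqN (z : ℤ) (k : ℕ → Bool) : Bool :=
  fN (fun n => fN (fun m => cond (Nat.ble n (Nat.mul m m)) (k m) false) (Nat.succ (rt n)))
    (Int.toNat z)

theorem sqN_ok {z : ℤ} {k : ℕ → Bool} (h : sqN z k = true) :
    ∃ m : ℕ, (z : ℝ) ≤ (m : ℝ) ^ 2 ∧ k m = true := by
  unfold sqN at h
  rw [fN_eq, fN_eq] at h
  obtain ⟨h1, h2⟩ := cond_ok h
  refine ⟨_, ?_, h2⟩
  have h3 := Nat.ble_eq.mp h1
  rw [Nat.mul_eq] at h3
  have h4 : z ≤ ((Int.toNat z : ℕ) : ℤ) := Int.self_le_toNat z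
  have h5 : ((Int.toNat z : ℕ) : ℝ) ≤ ((rt (Int.toNat z)).succ : ℝ) * ((rt (Int.toNat z)).succ : ℝ) := by
    exact_mod_cast h3
  have h6 : (z : ℝ) ≤ ((Int.toNat z : ℕ) : ℝ) := by exact_mod_cast h4
  rw [pow_two]
  linarith

/-- A lower bound of the square root of `z`. -/
def sqM (z : ℤ) (k : ℕ → Bool) : Bool :=
  fN (fun n => fN (fun m => cond (Nat.ble (Nat.mul m m) n) (k m) false) (Nat.pred (rt n)))
    (Int.toNat z)

theorem sqM_ok {z : ℤ} {k : ℕ → Bool} (h : sqM z k = true) (hz : 0 ≤ z) :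
    ∃ m : ℕ, (m : ℝ) ^ 2 ≤ (z : ℝ) ∧ k m = true := by
  unfold sqM at h
  rw [fN_eq, fN_eq] at h
  obtain ⟨h1, h2⟩ := cond_ok h
  refine ⟨_, ?_, h2⟩
  have h3 := Nat.ble_eq.mp h1
  rw [Nat.mul_eq] at h3
  have h4 : ((Int.toNat z : ℕ) : ℤ) = z := Int.toNat_of_nonneg hz
  have h5 : ((Nat.pred (rt (Int.toNat z)) : ℕ) : ℝ) * (Nat.pred (rt (Int.toNat z)) : ℕ) ≤
      ((Int.toNat z : ℕ) : ℝ) := by exact_mod_cast h3
  have h6 : ((Int.toNat z : ℕ) : ℝ) = (z : ℝ) := by exact_mod_cast h4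
  rw [pow_two]
  linarith

/-- Norms of the data of a base point. -/
structure ND where
  no : ℕ
  n1 : ℕ
  h : ℕ
  G : ℕ
  G1 : ℕ
  e2 : ℕ
  nE : ℕ
  p2 : ℕ
  ey : ℕ

/-- The norms. -/
def nrm (B : BD) (K : ND → Bool) : Bool :=
  sqN (B.ox * B.ox + B.oy * B.oy) (fun no =>
  sqN ((16777216 - B.ox) * (16777216 - B.ox) + B.oy * B.oy) (fun n1 =>
  sqN ((8388608 - B.ox) * (8388608 - B.ox) + B.oy * B.oy) (fun h =>
  sqN (B.gx * B.gx + B.gy * B.gy) (fun G =>
  sqN ((16777216 - B.gx) * (16777216 - B.gx) + B.gy * B.gy) (fun G1 =>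
  bd (B.ex * B.ex - B.ey * B.ey) (fun qx => bd (2 * (B.ex * B.ey)) (fun qy =>
  sqM ((qx - 281474976710656) * (qx - 281474976710656) + qy * qy) (fun e2 =>
  sqN ((qx + 281474976710656) * (qx + 281474976710656) + qy * qy) (fun p2 =>
  sqM (B.ex * B.ex + B.ey * B.ey) (fun nE =>
    K ⟨Nat.add no 64, Nat.add n1 64, Nat.add h 64, Nat.add G 64, Nat.add G1 64,
      Nat.div e2 16777216, nE, upN p2 16777216, Int.toNat (-B.ey)⟩))))))))))

theorem tc_le_of {x y : ℤ} {m : ℕ} (h : ((x * x + y * y : ℤ) : ℝ) ≤ (m : ℝ) ^ 2) :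
    ‖tc x y‖ ≤ sc m := by
  apply le_of_sq_le_sq _ (sc_nonneg m)
  rw [tc_normSq]
  unfold sc
  rw [div_pow, div_le_div_iff₀ (by norm_num) (by norm_num)]
  nlinarith

theorem tc_ge_of {x y : ℤ} {m : ℕ} (h : (m : ℝ) ^ 2 ≤ ((x * x + y * y : ℤ) : ℝ)) :
    sc m ≤ ‖tc x y‖ := by
  apply le_of_sq_le_sq _ (norm_nonneg _)
  rw [tc_normSq]
  unfold sc
  rw [div_pow, div_le_div_iff₀ (by norm_num) (by norm_num)]
  nlinarith

/-- The norms are right: `om` and `g` are the exact values. -/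
structure NOK (B : BD) (om g : ℂ) (n : ND) : Prop where
  no : ‖om‖ ≤ sc n.no
  n1 : ‖1 - om‖ ≤ sc n.n1
  h : ‖om - 1 / 2‖ ≤ sc n.h
  G : ‖g‖ ≤ sc n.G
  G1 : ‖1 - g‖ ≤ sc n.G1
  e2 : sc n.e2 ≤ ‖tc B.ex B.ey ^ 2 - 1‖
  nE : sc n.nE ≤ ‖tc B.ex B.ey‖
  p2 : ‖tc B.ex B.ey ^ 2 + 1‖ ≤ sc n.p2
  ey : sc n.ey = -(tc B.ex B.ey).im
  go : ‖om - tc B.ox B.oy‖ ≤ 1 / 262144
  gg : ‖g - tc B.gx B.gy‖ ≤ 1 / 262144

theorem nrm_ok {B : BD} {K : ND → Bool} (h : nrm B K = true) {V0 V1 : ℂ} (b : BOK V0 V1 B) :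
    ∃ n : ND, K n = true ∧ NOK B (tc B.lx B.ly / (tc B.lx B.ly + tc B.rx B.ry))
      ((tc B.ex B.ey ^ 2 + 1) / (tc B.ex B.ey ^ 2 - 1)) n := by
  unfold nrm at h
  obtain ⟨no, hno, h⟩ := sqN_ok h
  obtain ⟨n1, hn1, h⟩ := sqN_ok h
  obtain ⟨hh, hhh, h⟩ := sqN_ok h
  obtain ⟨G, hG, h⟩ := sqN_ok h
  obtain ⟨G1, hG1, h⟩ := sqN_ok h
  obtain ⟨qx, hqx, h⟩ := bd_ok h
  obtain ⟨qy, hqy, h⟩ := bd_ok h
  obtain ⟨e2, he2, h⟩ := sqM_ok h (by nlinarith [mul_self_nonneg (qx - 281474976710656), mul_self_nonneg qy])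
  obtain ⟨p2, hp2, h⟩ := sqN_ok h
  obtain ⟨nE, hnE, h⟩ := sqM_ok h (by nlinarith [mul_self_nonneg B.ex, mul_self_nonneg B.ey])
  refine ⟨_, h, ?_⟩
  set sg := tc B.lx B.ly + tc B.rx B.ry with hsg
  set om := tc B.lx B.ly / sg with hom
  set E0 := tc B.ex B.ey with hE0
  set g := (E0 ^ 2 + 1) / (E0 ^ 2 - 1) with hg
  have hsg0 : sg ≠ 0 := by
    intro h
    have := b.s0
    rw [← hsg, h, norm_zero] at this
    linarith
  have hq0 : E0 ^ 2 - 1 ≠ 0 := by
    intro h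
    have := b.q0
    rw [← hE0, h, norm_zero] at this
    linarith
  have d1 : ‖om - tc B.ox B.oy‖ ≤ 1 / 262144 := by
    have e : om - tc B.ox B.oy = -(tc B.ox B.oy * sg - tc B.lx B.ly) / sg := by
      rw [hom]
      field_simp
      ring
    rw [e, norm_div, norm_neg, div_le_iff₀ (norm_pos_iff.2 hsg0)]
    have := b.c6
    have := b.s0
    linarith
  have d2 : ‖g - tc B.gx B.gy‖ ≤ 1 / 262144 := by
    have e : g - tc B.gx B.gy = -(tc B.gx B.gy * (E0 ^ 2 - 1) - (E0 ^ 2 + 1)) / (E0 ^ 2 - 1) := by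
      rw [hg]
      field_simp
      ring
    rw [e, norm_div, norm_neg, div_le_iff₀ (norm_pos_iff.2 hq0)]
    have := b.c7
    have := b.q0
    linarith
  have s64 : ∀ m : ℕ, sc (Nat.add m 64) = sc m + 1 / 262144 := by
    intro m
    rw [sc_add]
    unfold sc
    norm_num
  have e2re : (E0 ^ 2).re = ((qx : ℤ) : ℝ) / 281474976710656 := by
    rw [hqx, hE0, pow_two, mul_re, tc_re, tc_im]
    push_cast
    ring
  have e2im : (E0 ^ 2).im = ((qy : ℤ) : ℝ) / 281474976710656 := by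
    rw [hqy, hE0, pow_two, mul_im, tc_re, tc_im]
    push_cast
    ring
  refine ⟨?_, ?_, ?_, ?_, ?_, ?_, ?_, ?_, ?_, d1, d2⟩
  · rw [s64]
    have := norm_add_le (om - tc B.ox B.oy) (tc B.ox B.oy)
    rw [sub_add_cancel] at this
    have := tc_le_of hno
    linarith
  · rw [s64]
    have e : (1 : ℂ) - tc B.ox B.oy = tc (16777216 - B.ox) (-B.oy) := by
      unfold tc
      push_cast
      ring
    have k1 : ‖(1 : ℂ) - tc B.ox B.oy‖ ≤ sc n1 := by
      rw [e]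
      apply tc_le_of
      rw [neg_mul_neg]
      exact hn1
    have := norm_sub_le (1 - tc B.ox B.oy) (om - tc B.ox B.oy)
    rw [show 1 - tc B.ox B.oy - (om - tc B.ox B.oy) = 1 - om by ring] at this
    linarith
  · rw [s64]
    have e : (1 / 2 : ℂ) - tc B.ox B.oy = tc (8388608 - B.ox) (-B.oy) := by
      unfold tc
      push_cast
      ring
    have k1 : ‖(1 / 2 : ℂ) - tc B.ox B.oy‖ ≤ sc hh := by
      rw [e]
      apply tc_le_of
      rw [neg_mul_neg]
      exact hhh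
    have := norm_sub_le (om - tc B.ox B.oy) (1 / 2 - tc B.ox B.oy)
    rw [show om - tc B.ox B.oy - (1 / 2 - tc B.ox B.oy) = om - 1 / 2 by ring] at this
    linarith
  · rw [s64]
    have := norm_add_le (g - tc B.gx B.gy) (tc B.gx B.gy)
    rw [sub_add_cancel] at this
    have := tc_le_of hG
    linarith
  · rw [s64]
    have e : (1 : ℂ) - tc B.gx B.gy = tc (16777216 - B.gx) (-B.gy) := by
      unfold tc
      push_cast
      ring
    have k1 : ‖(1 : ℂ) - tc B.gx B.gy‖ ≤ sc G1 := by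
      rw [e]
      apply tc_le_of
      rw [neg_mul_neg]
      exact hG1
    have := norm_sub_le (1 - tc B.gx B.gy) (g - tc B.gx B.gy)
    rw [show 1 - tc B.gx B.gy - (g - tc B.gx B.gy) = 1 - g by ring] at this
    linarith
  · -- e2
    have k1 : (e2 : ℝ) / 281474976710656 ≤ ‖E0 ^ 2 - 1‖ := by
      apply le_of_sq_le_sq _ (norm_nonneg _)
      rw [Complex.sq_norm, normSq_apply, sub_re, sub_im, e2re, e2im, one_re, one_im]
      rw [div_pow, div_le_iff₀ (by norm_num)]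
      push_cast at he2
      have e : (((qx : ℝ) / 281474976710656 - 1) * ((qx : ℝ) / 281474976710656 - 1) +
          ((qy : ℝ) / 281474976710656 - 0) * ((qy : ℝ) / 281474976710656 - 0)) *
            281474976710656 ^ 2 = ((qx : ℝ) - 281474976710656) * (qx - 281474976710656) + qy * qy := by
        ring
      rw [e]
      exact he2
    refine le_trans ?_ k1
    unfold sc
    have k2 : ((Nat.div e2 16777216 : ℕ) : ℝ) * 16777216 ≤ e2 := by
      have h2 : Nat.div e2 16777216 = e2 / 16777216 := rfl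
      rw [h2]
      exact_mod_cast Nat.div_mul_le_self e2 16777216
    rw [div_le_div_iff₀ (by norm_num) (by norm_num)]
    nlinarith
  · exact tc_ge_of hnE
  · have k1 : ‖E0 ^ 2 + 1‖ ≤ (p2 : ℝ) / 281474976710656 := by
      apply le_of_sq_le_sq _ (by positivity)
      rw [Complex.sq_norm, normSq_apply, add_re, add_im, e2re, e2im, one_re, one_im]
      rw [div_pow, le_div_iff₀ (by norm_num)]
      push_cast at hp2
      have e : (((qx : ℝ) / 281474976710656 + 1) * ((qx : ℝ) / 281474976710656 + 1) +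
          ((qy : ℝ) / 281474976710656 + 0) * ((qy : ℝ) / 281474976710656 + 0)) *
            281474976710656 ^ 2 = ((qx : ℝ) + 281474976710656) * (qx + 281474976710656) + qy * qy := by
        ring
      rw [e]
      exact hp2
    refine k1.trans ?_
    have k2 := upN_ok p2 (b := 16777216) (by norm_num)
    push_cast at k2
    unfold sc
    rw [div_le_div_iff₀ (by norm_num) (by norm_num)]
    nlinarith
  · unfold sc
    have k1 : ((Int.toNat (-B.ey) : ℕ) : ℤ) = -B.ey := Int.toNat_of_nonneg (by have := b.ey; omega)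
    have k2 : ((Int.toNat (-B.ey) : ℕ) : ℝ) = -(B.ey : ℝ) := by exact_mod_cast k1
    rw [k2, tc_im]
    ring

end Pool.Agent.S5.K
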