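import Pool.Agent.S5.I.TbX
import Pool.Agent.S5.I.NumDef
import Pool.Agent.S5.K.Defs

/-!
# Closed nodes: the programs of the rows

`X = 200 x + 50`, `S = 3200 s + 960`; values are in units of `1 / 3355443200`. A linear bound of a
function of `(K, S)` on a rectangle with centre `(KO, Sc)` is
`(vp - vn) + (xp - xn) (K - KO) + (sp - sn) (S - Sc) + e`.
-/

set_option autoImplicit false

namespace Pool.Agent.S5.K

open Pool.Agent.S5.Tb Pool.Agent.S5.Num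


/-- Choice. -/
@[reducible] def cN {α : Type} (c : Bool) (t f : α) : α := Bool.rec f t c

def mn' (a b : Nat) : Nat := cN (Nat.ble a b) a b

/-- The entries of the table, `w = 200 x`, `J = 200 s + 60`. -/
def tq (w J : Nat) : Nat :=
  Nat.mul 3200 (qE (ent6 w (ds' J 60)))
def tt (w J : Nat) : Nat := tE (ent6 w (ds' J 60))
def tl (w J : Nat) : Nat := lE (ent6 w (ds' J 60))

/-- A linear bound of `|S - 960|`. -/
def AB {α : Type} (S1 Sc S2 : Nat) (k : Nat → Nat → Nat → Nat → α) : α :=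
  cN (Nat.ble 960 S1) (k Sc 960 1 0) (cN (Nat.ble S2 960) (k 960 Sc 0 1) (k (mx' (Nat.sub S2 960)
    (Nat.sub 960 S1)) 0 0 0))

/-- Interpolation between two lines of the table. -/
def FA1 {α : Type} (KO1 KO KO2 KP M st rs q1 l1 q2 l2 : Nat)
    (k : Nat → Nat → Nat → Nat → Nat → Nat → Nat → α) (z : α) : α :=
  cN (Nat.ble q1 (Nat.add q2 (Nat.mul 1073741824 M))) (fN (fun ps => fN (fun lc => k (Nat.add
    (Nat.add (Nat.add q1 (Nat.mul ps st)) (Nat.mul 134217728 KO)) (Nat.mul 16 (Nat.mul lc KP)))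
    (Nat.add (Nat.add (Nat.mul 1073741824 st) (Nat.mul 16 (Nat.mul lc KO))) (Nat.mul 134217728
    KP)) 134217728 (Nat.mul 16 lc) ps 1073741824 (Nat.add M (Nat.mul 16 (Nat.mul (Nat.add
    (Nat.div (Nat.mul (ds' l1 l2) rs) M) 2) (mx' (Nat.sub KO2 KP) (Nat.sub KP KO1)))))) (Nat.div
    (Nat.add (Nat.mul (Nat.sub M st) l1) (Nat.mul st l2)) M)) (Nat.div (Nat.sub (Nat.add q2
    (Nat.mul 1073741824 M)) q1) M)) z

/-- `100 ≤ K ≤ 200`. -/
def FA {α : Type} (KO1 KO KO2 S1 Sc S2 : Nat)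
    (k : Nat → Nat → Nat → Nat → Nat → Nat → Nat → α) (z : α) : α :=
  fN (fun KP => fN (fun J1 => fN (fun J2 => cN (Nat.ble J2 J1) (k (Nat.add (Nat.add (tq (Nat.sub
    KP 100) J1) (Nat.mul 134217728 KO)) (Nat.mul 16 (Nat.mul (tl (Nat.sub KP 100) J1) KP)))
    (Nat.add (Nat.mul 16 (Nat.mul (tl (Nat.sub KP 100) J1) KO)) (Nat.mul 134217728 KP)) 134217728
    (Nat.mul 16 (tl (Nat.sub KP 100) J1)) 0 0 0) (FA1 KO1 KO KO2 KP (Nat.mul 16 (Nat.sub J2 J1))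
    (Nat.sub Sc (Nat.mul 16 J1)) (Nat.sub S2 Sc) (tq (Nat.sub KP 100) J1) (tl (Nat.sub KP 100)
    J1) (tq (Nat.sub KP 100) J2) (tl (Nat.sub KP 100) J2) k z)) (Nat.div (Nat.add S2 15) 16))
    (Nat.div S1 16)) (mx' 101 (mn' KO 200))

/-- The negative value (`Gn`, `Gp`) of the tangent line at `J0`, at `S`. -/
def TG {α : Type} (w J0 S : Nat) (k : Nat → Nat → α) : α :=
  cN (Nat.ble 60 J0) (k (Nat.mul (tt w J0) (Nat.mul 16 J0)) (Nat.add (tq w J0) (Nat.mul (tt w J0)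
    S))) (k (Nat.mul (tt w J0) S) (Nat.add (tq w J0) (Nat.mul (tt w J0) (Nat.mul 16 J0))))

/-- Chord between two values of `w`, `K - KO1 = (w1 - w) or (w - w1)`. -/
def FB {α : Type} (KO1 KO KO2 Sc S2 w1 w2 J0 : Nat)
    (k : Nat → Nat → Nat → Nat → Nat → Nat → Nat → α) (z : α) : α :=
  TG w1 J0 Sc (fun Gn1 Gp1 => cN (Nat.ble KO2 KO1) (cN (Nat.ble 60 J0) (k Gn1 Gp1 0 0 0 (tt w1
    J0) 0) (k Gn1 Gp1 0 0 (tt w1 J0) 0 0)) (TG w2 J0 Sc (fun Gn2 Gp2 => cN (Nat.ble (Nat.add Gn1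
    Gp2) (Nat.add (Nat.add Gp1 Gn2) (Nat.mul 1099511627776 (Nat.sub KO2 KO1)))) (fN (fun xs => fN
    (fun tm => fN (fun e => cN (Nat.ble 60 J0) (k (Nat.add Gn1 (Nat.mul xs (Nat.sub KO KO1)))
    (Nat.add Gp1 (Nat.mul 1099511627776 (Nat.sub KO KO1))) xs 1099511627776 0 tm e) (k (Nat.add
    Gn1 (Nat.mul xs (Nat.sub KO KO1))) (Nat.add Gp1 (Nat.mul 1099511627776 (Nat.sub KO KO1))) xs
    1099511627776 tm 0 e)) (Nat.add (Nat.sub KO2 KO1) (Nat.mul (Nat.add (Nat.div (ds' (tt w1 J0)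
    (tt w2 J0)) 2) 1) (Nat.sub S2 Sc)))) (Nat.div (Nat.add (tt w1 J0) (tt w2 J0)) 2)) (Nat.div
    (Nat.sub (Nat.add (Nat.add Gp1 Gn2) (Nat.mul 1099511627776 (Nat.sub KO2 KO1))) (Nat.add Gn1
    Gp2)) (Nat.sub KO2 KO1))) z)))

/-- The error at the right end, `K > 200`. -/
def MR (KO KO2 S1 Sc S2 J0 vp vn xp xn sp sn : Nat) : Nat :=
  mx' (TG (Nat.sub 300 KO2) J0 S2 (fun Gn Gp => Nat.sub (Nat.add (Nat.add (Nat.add Gn vn)
    (Nat.mul xn (Nat.sub KO2 KO))) (Nat.mul sn (Nat.sub S2 Sc))) (Nat.add (Nat.add (Nat.add Gp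
    vp) (Nat.mul xp (Nat.sub KO2 KO))) (Nat.mul sp (Nat.sub S2 Sc))))) (TG (Nat.sub 300 KO2) J0
    S1 (fun Gn Gp => Nat.sub (Nat.add (Nat.add (Nat.add Gn vn) (Nat.mul xn (Nat.sub KO2 KO)))
    (Nat.mul sp (Nat.sub Sc S1))) (Nat.add (Nat.add (Nat.add Gp vp) (Nat.mul xp (Nat.sub KO2
    KO))) (Nat.mul sn (Nat.sub Sc S1)))))

/-- The error at the left end, `K < 100`. -/
def ML (KO1 KO S1 Sc S2 J0 vp vn xp xn sp sn : Nat) : Nat :=
  mx' (TG (Nat.sub 100 KO1) J0 S2 (fun Gn Gp => Nat.sub (Nat.add (Nat.add (Nat.add (Nat.add Gn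
    (Nat.mul 3294199 (ds' S2 960))) vn) (Nat.mul xp (Nat.sub KO KO1))) (Nat.mul sn (Nat.sub S2
    Sc))) (Nat.add (Nat.add (Nat.add Gp vp) (Nat.mul xn (Nat.sub KO KO1))) (Nat.mul sp (Nat.sub
    S2 Sc))))) (TG (Nat.sub 100 KO1) J0 S1 (fun Gn Gp => Nat.sub (Nat.add (Nat.add (Nat.add
    (Nat.add Gn (Nat.mul 3294199 (ds' S1 960))) vn) (Nat.mul xp (Nat.sub KO KO1))) (Nat.mul sp
    (Nat.sub Sc S1))) (Nat.add (Nat.add (Nat.add Gp vp) (Nat.mul xn (Nat.sub KO KO1))) (Nat.mul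
    sn (Nat.sub Sc S1)))))

/-- A linear bound of `-Rf`. -/
def FT {α : Type} (KO1 KO KO2 S1 Sc S2 : Nat)
    (k : Nat → Nat → Nat → Nat → Nat → Nat → Nat → α) (z : α) : α :=
  cN (Nat.ble 200 KO1) (FB KO1 KO KO2 Sc S2 (Nat.sub 300 KO1) (Nat.sub 300 KO2) (Nat.div (Nat.add
    Sc 8) 16) k z) (cN (Nat.ble KO2 100) (cN (Nat.ble 100 KO1) (AB S1 Sc S2 (fun a b c d => k
    (Nat.mul 1647100 a) (Nat.mul 1647100 b) 0 0 (Nat.mul 1647100 c) (Nat.mul 1647100 d) 0)) (FB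
    KO1 KO KO2 Sc S2 (Nat.sub 100 KO1) (Nat.sub 100 KO2) (Nat.div (Nat.add Sc 8) 16) (fun vp vn
    xp xn sp sn e => AB S1 Sc S2 (fun a b c d => k (Nat.add vp (Nat.mul 3294199 a)) (Nat.add vn
    (Nat.mul 3294199 b)) xp xn (Nat.add sp (Nat.mul 3294199 c)) (Nat.add sn (Nat.mul 3294199 d))
    e)) z)) (FA KO1 KO KO2 S1 Sc S2 (fun vp vn xp xn sp sn e => cN (Nat.ble KO2 200) (cN (Nat.ble
    100 KO1) (k vp vn xp xn sp sn e) (k vp vn xp xn sp sn (mx' e (ML KO1 KO S1 Sc S2 (Nat.div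
    (Nat.add Sc 8) 16) vp vn xp xn sp sn)))) (cN (Nat.ble 100 KO1) (k vp vn xp xn sp sn (mx' e
    (MR KO KO2 S1 Sc S2 (Nat.div (Nat.add Sc 8) 16) vp vn xp xn sp sn))) (k vp vn xp xn sp sn
    (mx' (mx' e (MR KO KO2 S1 Sc S2 (Nat.div (Nat.add Sc 8) 16) vp vn xp xn sp sn)) (ML KO1 KO S1
    Sc S2 (Nat.div (Nat.add Sc 8) 16) vp vn xp xn sp sn))))) z))


/-! ### Slots -/

/-- A linear bound. -/
inductive LB where
  | bad
  | ok (vp vn xp xn sp sn e : Nat)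

/-- Data of a slot at a cell. -/
inductive SD where
  | mk (cf ia ja lr li rr ri q0 g1 g2p g2n eg rg : Nat)

/-- The plane, real part of the slope. -/
def PX {α : Type} (IA lr rr X1 X2 : Nat) (k : Nat → Nat → Nat → α) : α :=
  cN (Nat.ble IA X1) (k (Nat.add 134217728 (Nat.mul 16 rr)) (Nat.mul 16 lr) 0) (cN (Nat.ble X2
    IA) (k 134217728 (Nat.mul 16 (Nat.add lr rr)) 0) (k 134217728 (Nat.mul 16 lr) (Nat.mul 16
    (Nat.mul rr (mx' (Nat.sub X2 IA) (Nat.sub IA X1))))))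

/-- The plane, imaginary part of the slope. -/
def PS {α : Type} (SA li ri S1 S2 : Nat) (k : Nat → Nat → Nat → α) : α :=
  cN (Nat.ble SA S1) (k (Nat.add li ri) 8388608 0) (cN (Nat.ble S2 SA) (k li (Nat.add 8388608 ri)
    0) (k li 8388608 (Nat.mul ri (mx' (Nat.sub S2 SA) (Nat.sub SA S1)))))

/-- The linear terms of a slot which is frozen. -/
def SF {α : Type} (SA li ri S1 Sc : Nat) (k : Nat → Nat → Nat → Nat → Nat → α) : α :=
  PS SA li ri 960 960 (fun p n _ => cN (Nat.ble 960 S1) (k (Nat.add (Nat.add (Nat.mul p 960)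
    (Nat.mul n SA)) (Nat.mul 3294198 960)) (Nat.add (Nat.add (Nat.mul n 960) (Nat.mul p SA))
    (Nat.mul 3294198 Sc)) 0 3294198 0) (k (Nat.add (Nat.add (Nat.mul p 960) (Nat.mul n SA))
    (Nat.mul 3294198 Sc)) (Nat.add (Nat.add (Nat.mul n 960) (Nat.mul p SA)) (Nat.mul 3294198
    960)) 3294198 0 0))

/-- The linear terms of a slot which is not frozen. -/
def SN {α : Type} (SA li ri S1 Sc S2 : Nat) (k : Nat → Nat → Nat → Nat → Nat → α) : α :=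
  PS SA li ri S1 S2 (fun p n e => k (Nat.add (Nat.mul p Sc) (Nat.mul n SA)) (Nat.add (Nat.mul n
    Sc) (Nat.mul p SA)) p n e)

/-- The share: the function `d (F (1/2 - a0) ...)`, as (value, slope) pairs. -/
def SH {α : Type} (dd IA SA q0 g1 g2p g2n eg rg X1 Xm X2 S1 Sc S2 : Nat)
    (k : Nat → Nat → Nat → Nat → Nat → Nat → Nat → α) : α :=
  cN (Nat.beq dd 1) (k 0 0 0 0 0 0 0) (fN (fun P => fN (fun Q => fN (fun e => cN (Nat.beq dd 0)
    (k Q P (Nat.mul 16 g1) 134217728 g2n g2p e) (k P Q 134217728 (Nat.mul 16 g1) g2p g2n e))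
    (Nat.add eg (Nat.mul rg (Nat.add (Nat.mul 16 (mx' (ds' X1 IA) (ds' X2 IA))) (mx' (ds' S1 SA)
    (ds' S2 SA)))))) (Nat.add (Nat.add (Nat.add (Nat.add q0 (Nat.mul 16 (Nat.mul g1 Xm)))
    (Nat.mul 134217728 IA)) (Nat.mul g2n Sc)) (Nat.mul g2p SA))) (Nat.add (Nat.add (Nat.add
    (Nat.mul 134217728 Xm) (Nat.mul 16 (Nat.mul g1 IA))) (Nat.mul g2p Sc)) (Nat.mul g2n SA)))

/-- The term of a slot. -/
def ST1 (cf ia ja lr li rr ri q0 g1 g2p g2n eg rg : Nat) (fz : Bool) (h dd X1 X2 S1 S2 : Nat) : LB :=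
  fN (fun Xm => fN (fun Sc => fN (fun cf => fN (fun IA => fN (fun SA => FT (Nat.sub 250 X2)
    (Nat.sub 250 Xm) (Nat.sub 250 X1) S1 Sc S2 (fun vp vn xp xn sp sn e => PX IA lr rr X1 X2 (fun
    xp' xn' e' => SH dd IA SA q0 g1 g2p g2n eg rg X1 Xm X2 S1 Sc S2 (fun hvp hvn hxp hxn hsp hsn
    he => cN fz (SF SA li ri S1 Sc (fun svp svn ssp ssn se => .ok (Nat.add (Nat.add (Nat.add
    (Nat.add (Nat.add (Nat.mul cf vp) (Nat.mul xp' Xm)) (Nat.mul xn' IA)) hvp) svp) 2147483648)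
    (Nat.add (Nat.add (Nat.add (Nat.add (Nat.add (Nat.mul cf vn) (Nat.mul xn' Xm)) (Nat.mul xp'
    IA)) hvn) svn) (Nat.mul 33554432 h)) (Nat.add (Nat.add (Nat.mul cf xn) xp') hxp) (Nat.add
    (Nat.add (Nat.mul cf xp) xn') hxn) (Nat.add (Nat.add (Nat.mul cf sp) hsp) ssp) (Nat.add
    (Nat.add (Nat.mul cf sn) hsn) ssn) (Nat.add (Nat.add (Nat.add (Nat.mul cf e) e') he) se)))
    (SN SA li ri S1 Sc S2 (fun svp svn ssp ssn se => .ok (Nat.add (Nat.add (Nat.add (Nat.add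
    (Nat.add (Nat.mul cf vp) (Nat.mul xp' Xm)) (Nat.mul xn' IA)) hvp) svp) 2147483648) (Nat.add
    (Nat.add (Nat.add (Nat.add (Nat.add (Nat.mul cf vn) (Nat.mul xn' Xm)) (Nat.mul xp' IA)) hvn)
    svn) (Nat.mul 33554432 h)) (Nat.add (Nat.add (Nat.mul cf xn) xp') hxp) (Nat.add (Nat.add
    (Nat.mul cf xp) xn') hxn) (Nat.add (Nat.add (Nat.mul cf sp) hsp) ssp) (Nat.add (Nat.add
    (Nat.mul cf sn) hsn) ssn) (Nat.add (Nat.add (Nat.add (Nat.mul cf e) e') he) se)))))) .bad)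
    (Nat.add 160 (Nat.mul 16 ja))) (Nat.add ia 50)) (Nat.sub (Nat.add cf dd) 1)) (Nat.div
    (Nat.add S1 S2) 2)) (Nat.div (Nat.add X1 X2) 2)

noncomputable def ST (s : SD) (fz : Bool) (h dd X1 X2 S1 S2 : Nat) : LB :=
  @SD.rec (fun _ => LB) (fun cf ia ja lr li rr ri q0 g1 g2p g2n eg rg =>
    ST1 cf ia ja lr li rr ri q0 g1 g2p g2n eg rg fz h dd X1 X2 S1 S2) s

/-- The test of a leaf. -/
def LT (K0p K0n : Nat) (avp avn axp axn asp asn ae bvp bvn bxp bxn bsp bsn be : Nat)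
    (cvp cvn cxp cxn csp csn ce : Nat) (Xa Sa Xb Sb rxa rsa rxb rsb : Nat) : Bool :=
  Nat.ble (Nat.succ (Nat.add (Nat.add (Nat.add (Nat.add (Nat.add (Nat.add (Nat.add (Nat.add
    (Nat.add (Nat.add (Nat.add (Nat.add (Nat.add avp bvp) cvp) (Nat.mul 16471 (Nat.add (Nat.mul
    Xa Sa) (Nat.mul Xb Sb)))) 3162432000) ae) be) ce) (Nat.mul 16471 (Nat.mul (Nat.add rxa rxb)
    (Nat.add rsa rsb)))) K0n) (Nat.mul (ds' (Nat.add (Nat.add axp cxp) (Nat.mul 16471 Sa))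
    (Nat.add (Nat.add axn cxn) (Nat.mul 16471 Sb))) rxa)) (Nat.mul (ds' (Nat.add (Nat.add bxp
    cxp) (Nat.mul 16471 Sb)) (Nat.add (Nat.add bxn cxn) (Nat.mul 16471 Sa))) rxb)) (Nat.mul (ds'
    (Nat.add (Nat.add asp csp) (Nat.mul 16471 Xa)) (Nat.add (Nat.add (Nat.add asn csn) (Nat.mul
    16471 Xb)) 1647100)) rsa)) (Nat.mul (ds' (Nat.add (Nat.add bsp csp) (Nat.mul 16471 Xb))
    (Nat.add (Nat.add (Nat.add bsn csn) (Nat.mul 16471 Xa)) 1647100)) rsb))) (Nat.add (Nat.add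
    (Nat.add (Nat.add (Nat.add avn bvn) cvn) (Nat.mul 16471 (Nat.add (Nat.mul Xa Sb) (Nat.mul Xb
    Sa)))) (Nat.mul 1647100 (Nat.add Sa Sb))) K0p)

/-- The coupling, absent at the ends. -/
def CP {α : Type} (en : Bool) (KO1 KO KO2 S1 Sc S2 : Nat)
    (k : Nat → Nat → Nat → Nat → Nat → Nat → Nat → α) (z : α) : α :=
  cN en (k 0 0 0 0 0 0 0) (FT KO1 KO KO2 S1 Sc S2 k z)

/-- A leaf of a row. -/
noncomputable def LF (en : Bool) (K0p K0n : Nat) (A B : LB) (X1 X2 S1 S2 Y1 Y2 T1 T2 : Nat) : Bool :=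
  @LB.rec (fun _ => Bool) false (fun avp avn axp axn asp asn ae => @LB.rec (fun _ => Bool) false
    (fun bvp bvn bxp bxn bsp bsn be => fN (fun Xa => fN (fun Xb => fN (fun Sa => fN (fun Sb => CP
    en (Nat.add X1 Y1) (Nat.add Xa Xb) (Nat.add X2 Y2) (Nat.sub (Nat.add S1 T1) 960) (Nat.sub
    (Nat.add Sa Sb) 960) (Nat.sub (Nat.add S2 T2) 960) (fun cvp cvn cxp cxn csp csn ce => LT K0p
    K0n avp avn axp axn asp asn ae bvp bvn bxp bxn bsp bsn be cvp cvn cxp cxn csp csn ce Xa Sa Xb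
    Sb (Nat.sub X2 Xa) (Nat.sub S2 Sa) (Nat.sub Y2 Xb) (Nat.sub T2 Sb)) false) (Nat.div (Nat.add
    T1 T2) 2)) (Nat.div (Nat.add S1 S2) 2)) (Nat.div (Nat.add Y1 Y2) 2)) (Nat.div (Nat.add X1 X2)
    2)) B) A

/-- The term of the other slot. -/
noncomputable def SB (en : Bool) (s : SD) (fz : Bool) (h dd X1 X2 S1 S2 : Nat) : LB :=
  cN en (.ok 0 0 0 0 0 0 0) (ST s fz h dd X1 X2 S1 S2)

/-- Branch and bound. -/
def bb (lf : Nat → Nat → Nat → Nat → Nat → Nat → Nat → Nat → Bool) (n : Nat) :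
    Nat → Nat → Nat → Nat → Nat → Nat → Nat → Nat → Nat → (Nat → Bool) → Bool :=
  @Nat.rec (fun _ => Nat → Nat → Nat → Nat → Nat → Nat → Nat → Nat → Nat → (Nat → Bool) → Bool)
    (fun _ _ _ _ _ _ _ _ _ _ => false) (fun _ ih X1 X2 S1 S2 Y1 Y2 T1 T2 c k => fN (fun d => fN
    (fun c' => cN (Nat.beq d 0) (cN (lf X1 X2 S1 S2 Y1 Y2 T1 T2) (k c') false) (cN (Nat.beq d 1)
    (fN (fun m => ih X1 m S1 S2 Y1 Y2 T1 T2 c' (fun c'' => ih m X2 S1 S2 Y1 Y2 T1 T2 c'' k))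
    (Nat.div (Nat.add X1 X2) 2)) (cN (Nat.beq d 2) (fN (fun m => ih X1 X2 S1 m Y1 Y2 T1 T2 c'
    (fun c'' => ih X1 X2 m S2 Y1 Y2 T1 T2 c'' k)) (Nat.div (Nat.add S1 S2) 2)) (cN (Nat.beq d 3)
    (fN (fun m => ih X1 X2 S1 S2 Y1 m T1 T2 c' (fun c'' => ih X1 X2 S1 S2 m Y2 T1 T2 c'' k))
    (Nat.div (Nat.add Y1 Y2) 2)) (fN (fun m => ih X1 X2 S1 S2 Y1 Y2 T1 m c' (fun c'' => ih X1 X2
    S1 S2 Y1 Y2 m T2 c'' k)) (Nat.div (Nat.add T1 T2) 2)))))) (Nat.div c 8)) (Nat.mod c 8)) n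

/-! ### Pieces -/

/-- The rectangle of the flat pieces and the legs. -/
def RF {α : Type} (f1 f2 m : Nat) (k : Bool → Nat → Nat → Nat → Nat → α) (z : α) : α :=
  cN (Nat.beq m 0) (k false 80 150 f1 f2)
    (cN (Nat.beq m 1) (k false 50 80 f1 f2)
      (cN (Nat.beq m 2) (k false 0 50 f1 f2)
        (cN (Nat.beq m 3) (k false 0 0 (mn' 960 f1) (mx' 960 f2))
          (cN (Nat.beq m 4) (k false 150 150 (mn' 960 f1) (mx' 960 f2))
            (cN (Nat.beq m 13) (k false 100 150 960 960)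
              (cN (Nat.beq m 14) (k false 125 150 960 960) z))))))

/-- The rectangle of the pieces of the box on the side `t` (`[a, b]`). -/
def RB {α : Type} (m t a b : Nat) (k : Bool → Nat → Nat → Nat → Nat → α) (z : α) : α :=
  cN (Nat.ble 13 m) z (cN (Nat.ble m 4) z
    (cN (Nat.ble m 6) (k true 50 150 t t)
      (cN (Nat.ble m 8) (k true 0 50 t t)
        (cN (Nat.ble m 10) (k true 0 0 a b) (k true 150 150 a b)))))

/-- The rectangle of the piece `p = 2 m + side`. -/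
def RP {α : Type} (e1 e2 p : Nat) (k : Nat → Bool → Nat → Nat → Nat → Nat → α) (z : α) : α :=
  fN (fun m => cN (Nat.ble 13 m) (RF 0 0 m (k m) z) (cN (Nat.ble m 4) (RF (mx' 480 (Nat.add e1
    160)) (mn' 1440 (Nat.add e2 160)) m (k m) z) (cN (Nat.beq (Nat.mod p 2) 0) (RB m 1440 960
    1440 (k m) z) (RB m 480 480 960 (k m) z)))) (Nat.div p 2)

/-- The piece of the other slot, which is a point at the ends. -/
def RQ {α : Type} (en : Bool) (e1 e2 p : Nat) (k : Nat → Bool → Nat → Nat → Nat → Nat → α)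
    (z : α) : α :=
  cN en (k 0 false 150 150 960 960) (RP e1 e2 p k z)

/-- The constants of the names: `h + 64` and `d + 1`. -/
def hC (hk m : Nat) : Nat :=
  Nat.mod (Nat.shiftRight hk (Nat.mul 8 m)) 128
def dC (dk m : Nat) : Nat :=
  Nat.mod (Nat.shiftRight dk (Nat.mul 2 m)) 4

/-- One row after the other. -/
noncomputable def rowsL (en : Bool) (hkA dkA hkB dkB K0p K0n : Nat) (A B : SD) (e1 e2 e3 e4 : Nat)
    (fin : Nat → Nat → Bool) (n : Nat) : Nat → Nat → Bool :=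
  @Nat.rec (fun _ => Nat → Nat → Bool) fin (fun _ ih mask c => fN (fun id => fN (fun c1 => RP e1
    e2 (Nat.div id 32) (fun ma fa X1 X2 S1 S2 => RQ en e3 e4 (Nat.mod id 32) (fun mb fb Y1 Y2 T1
    T2 => fN (fun ha => fN (fun hb => fN (fun da => fN (fun db => bb (fun X1 X2 S1 S2 Y1 Y2 T1 T2
    => LF en K0p K0n (ST A fa ha da X1 X2 S1 S2) (SB en B fb hb db Y1 Y2 T1 T2) X1 X2 S1 S2 Y1 Y2
    T1 T2) 24 X1 X2 S1 S2 Y1 Y2 T1 T2 c1 (fun c2 => ih (Nat.lor mask (Nat.shiftLeft 1 id)) c2))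
    (dC dkB mb)) (dC dkA ma)) (hC hkB mb)) (hC hkA ma)) false) false) (Nat.div c 1024)) (Nat.mod
    c 1024)) n

/-- `w ≤ |Re|`, `s ≤ |Im|` for the slot between the reference point and the critical point. -/
def kS (x2 ia e1 e2 ja : Nat) (k : Nat → Bool) : Bool :=
  fN (fun wi => fN (fun lo => fN (fun hi => fN (fun sj => cN (Nat.ble 1 (Nat.add wi sj)) (k (kE
    (ent6 wi sj))) false) (mn' 60 (Nat.div (Nat.add (Nat.sub lo 800) (Nat.sub 800 hi)) 16))) (mx'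
    e2 (Nat.mul 16 ja))) (mn' e1 (Nat.mul 16 ja))) (Nat.div (Nat.sub 1600 (mx' x2 (Nat.mul 16
    ia))) 16)

/-- The data of a slot. -/
def mkS (cf ia ja lr li rr ri x1 x2 e1 e2 : Nat) (k : SD → Nat → Nat → Nat → Nat → Bool) : Bool :=
  cN (Nat.ble ia 99) (cN (Nat.ble ja 100) (cN (Nat.ble x2 1600) (kS x2 ia e1 e2 ja (fun kk => fN
    (fun dX => fN (fun dS => fN (fun q0 => fN (fun g1 => fN (fun g2 => fN (fun eg => fN (fun rg
    => cN (Nat.ble 50 ja) (k (.mk cf ia ja lr li rr ri q0 g1 0 g2 eg rg) q0 kk dX dS) (k (.mk cf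
    ia ja lr li rr ri q0 g1 g2 0 eg rg) q0 kk dX dS)) (Nat.succ (Nat.div (Nat.mul 2048 (Nat.mul
    kk (Nat.add dX dS))) 100))) (Nat.succ (Nat.div (Nat.mul 1024 (Nat.mul kk (Nat.add (Nat.mul dX
    dX) (Nat.mul dS dS)))) 100))) (tt (Nat.sub 100 ia) (Nat.add ja 10))) (tl (Nat.sub 100 ia)
    (Nat.add ja 10))) (tq (Nat.sub 100 ia) (Nat.add ja 10))) (mx' (ds' e1 (Nat.mul 16 ja)) (ds'
    e2 (Nat.mul 16 ja)))) (mx' (ds' x1 (Nat.mul 16 ia)) (ds' x2 (Nat.mul 16 ia))))) false) false)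
    false


/-- The bound `k` for the sum of the slots. -/
def kC (ia ja ib jb x1 x2 x3 x4 e1 e2 e3 e4 : Nat) (k : Nat → Bool) : Bool :=
  fN (fun xl => fN (fun xh => fN (fun lo => fN (fun hi => fN (fun wi => fN (fun sj => cN (Nat.ble
    xh 3200) (cN (Nat.ble 1 (Nat.add wi sj)) (k (kE (ent6 wi sj))) false) false) (mn' 60 (Nat.div
    (Nat.add (Nat.sub lo 1600) (Nat.sub 1600 hi)) 16))) (Nat.div (mn' xl (Nat.sub 3200 xh)) 16))
    (Nat.add (mx' e2 (Nat.mul 16 ja)) (mx' e4 (Nat.mul 16 jb)))) (Nat.add (mn' e1 (Nat.mul 16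
    ja)) (mn' e3 (Nat.mul 16 jb)))) (Nat.add (mx' x2 (Nat.mul 16 ia)) (mx' x4 (Nat.mul 16 ib))))
    (Nat.add (mn' x1 (Nat.mul 16 ia)) (mn' x3 (Nat.mul 16 ib)))

/-- The rows at a cell of an inner node. -/
noncomputable def rowsN (hkA dkA hkB dkB ia ja ib jb l1 l2 l3 l4 r1 r2 r3 r4 x1 x2 x3 x4 e1 e2 e3 e4 : Nat)
    (fin : Nat → Nat → Bool) (mask code : Nat) : Bool :=
  mkS 2 ia ja l1 l2 r1 r2 x1 x2 e1 e2 (fun A qA kA dXa dSa => mkS 2 ib jb l3 l4 r3 r4 x3 x4 e3 e4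
    (fun B qB kB dXb dSb => kC ia ja ib jb x1 x2 x3 x4 e1 e2 e3 e4 (fun kc => cN (Nat.ble (ds'
    (Nat.add ja jb) 100) 60) (fN (fun q => fN (fun e0 => fN (fun K0p => fN (fun K0n => fN (fun n
    => rowsL false hkA dkA hkB dkB K0p K0n A B e1 e2 e3 e4 fin n mask (Nat.div code 4096))
    (Nat.mod code 4096)) (Nat.add (Nat.add (Nat.add (cN (Nat.ble (Nat.add ia ib) 100) 0 q)
    (Nat.mul 263536 (Nat.add (Nat.mul ia jb) (Nat.mul ib ja)))) (Nat.mul 26353600 (Nat.add ja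
    jb))) e0)) (Nat.add (Nat.add (Nat.add (Nat.add (Nat.mul 2 qA) (Nat.mul 2 qB)) (cN (Nat.ble
    (Nat.add ia ib) 100) q 0)) (Nat.mul 263536 (Nat.add (Nat.mul ia ja) (Nat.mul ib jb))))
    2635360000)) (Nat.add (Nat.add (Nat.add (Nat.div (Nat.mul 2048 (Nat.add (Nat.mul kA (Nat.add
    (Nat.mul dXa dXa) (Nat.mul dSa dSa))) (Nat.mul kB (Nat.add (Nat.mul dXb dXb) (Nat.mul dSb
    dSb))))) 100) (Nat.div (Nat.mul 1024 (Nat.mul kc (Nat.add (Nat.mul (Nat.add dXa dXb) (Nat.add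
    dXa dXb)) (Nat.mul (Nat.add dSa dSb) (Nat.add dSa dSb))))) 100)) 2097154) (Nat.mul 1030
    (Nat.mul (Nat.add dXa dXb) (Nat.add dSa dSb))))) (Nat.mul 3200 (qE (ent6 (mn' (Nat.add ia ib)
    (Nat.sub 200 (Nat.add ia ib))) (ds' (Nat.add ja jb) 100))))) false)))

/-- The rows at a cell of an end. -/
noncomputable def rowsE (hkA dkA ia ja l1 l2 r1 r2 x1 x2 e1 e2 : Nat)
    (fin : Nat → Nat → Bool) (mask code : Nat) : Bool :=
  mkS 1 ia ja l1 l2 r1 r2 x1 x2 e1 e2 (fun A qA kA dXa dSa => fN (fun e0 => fN (fun K0p => fN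
    (fun K0n => fN (fun n => rowsL true hkA dkA 0 0 K0p K0n A A e1 e2 0 0 fin n mask (Nat.div
    code 4096)) (Nat.mod code 4096)) (Nat.add (Nat.add (Nat.mul 263536 (Nat.add (Nat.mul 50 ia)
    (Nat.mul 100 ja))) (Nat.mul 26353600 (Nat.add ja 50))) e0)) (Nat.add (Nat.add qA (Nat.mul
    263536 (Nat.add (Nat.mul ia ja) 5000))) 2635360000)) (Nat.add (Nat.add (Nat.div (Nat.mul 1024
    (Nat.mul kA (Nat.add (Nat.mul dXa dXa) (Nat.mul dSa dSa)))) 100) 2097153) (Nat.mul 1030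
    (Nat.mul dXa dSa))))

end Pool.Agent.S5.K
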