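import Pool.Agent.S5.K.KNa

/-!
# Closed nodes: the rows of a cell
-/

set_option autoImplicit false

namespace Pool.Agent.S5.K

open Pool.Agent.H63.VC3 Pool.Agent.S3 Complex Set Pool.Agent.S5.Tb Pool.Agent.S5.Num

/-- The packed tables agree with the potentials. -/
def TbO (S : Bool) (n x : Nt) (hk dk : ℕ) : Prop :=
  ∀ m : ℕ, hT S n x (nm m) = ((hC hk (min m 14) : ℕ) - 64 : ℝ) / 100 ∧
    dT S n x (nm m) = ((dC dk (min m 14) : ℕ) : ℝ) - 1 ∧ dC dk (min m 14) ≤ 2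

/-- The row `id` of an inner node. -/
def RoN (sA sB : Bool) (n xA xB : Nt) (la lb ya yb : ℂ) (id : ℕ) : Prop :=
  ∀ (y z : ℂ) (w w' : ℝ), InS (id / 32) ya.im y w → InS (id % 32) yb.im z w' →
    Ecl ya yb y z + slE sA n xA (nm (id / 32 / 2)) la ya y w +
      slE sB n xB (nm (id % 32 / 2)) lb yb z w' < 0

/-- The row `id` of an end. -/
def RoE (sA : Bool) (n xA : Nt) (la ya : ℂ) (id : ℕ) : Prop :=
  ∀ (y : ℂ) (w : ℝ), InS (id / 32) ya.im y w →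
    Ecl ya (1 / 2) y (1 / 2) + slE sA n xA (nm (id / 32 / 2)) la ya y w < 0

theorem rowsL_ok {en : Bool} {hkA dkA hkB dkB K0p K0n : ℕ} {A B : SD} {e1 e2 e3 e4 : ℕ}
    {fin : ℕ → ℕ → Bool} {R : ℕ → Prop}
    (H : ∀ (id c1 : ℕ) (k : ℕ → Bool),
      RP e1 e2 (id / 32) (fun ma fa X1 X2 S1 S2 =>
        RQ en e3 e4 (id % 32) (fun mb fb Y1 Y2 T1 T2 =>
            bb (fun X1 X2 S1 S2 Y1 Y2 T1 T2 =>
              LF en K0p K0n (ST A fa (hC hkA ma) (dC dkA ma) X1 X2 S1 S2)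
                (SB en B fb (hC hkB mb) (dC dkB mb) Y1 Y2 T1 T2)
                X1 X2 S1 S2 Y1 Y2 T1 T2) 24 X1 X2 S1 S2 Y1 Y2 T1 T2 c1 k) false) false = true →
        R id ∧ ∃ c', k c' = true) (n : ℕ) :
    ∀ mask c : ℕ, rowsL en hkA dkA hkB dkB K0p K0n A B e1 e2 e3 e4 fin n mask c = true →
      (∀ id, mask.testBit id = true → R id) →
        ∃ mask' c' : ℕ, fin mask' c' = true ∧ ∀ id, mask'.testBit id = true → R id := by
  induction n with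
  | zero =>
    intro mask c h hm
    exact ⟨mask, c, h, hm⟩
  | succ n ih =>
    intro mask c h hm
    have h' : fN (fun id => fN (fun c1 =>
      RP e1 e2 (Nat.div id 32) (fun ma fa X1 X2 S1 S2 =>
        RQ en e3 e4 (Nat.mod id 32) (fun mb fb Y1 Y2 T1 T2 =>
          fN (fun ha => fN (fun hb => fN (fun da => fN (fun db =>
            bb (fun X1 X2 S1 S2 Y1 Y2 T1 T2 =>
              LF en K0p K0n (ST A fa ha da X1 X2 S1 S2) (SB en B fb hb db Y1 Y2 T1 T2)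
                X1 X2 S1 S2 Y1 Y2 T1 T2) 24 X1 X2 S1 S2 Y1 Y2 T1 T2 c1
              (fun c2 => rowsL en hkA dkA hkB dkB K0p K0n A B e1 e2 e3 e4 fin n
                (Nat.lor mask (Nat.shiftLeft 1 id)) c2))
            (dC dkB mb)) (dC dkA ma)) (hC hkB mb)) (hC hkA ma)) false) false)
      (Nat.div c 1024)) (Nat.mod c 1024) = true := h
    simp only [fN_eq] at h'
    obtain ⟨hr, c', hc⟩ := H _ _ _ h'
    refine ih _ _ hc (fun id hid => ?_)
    have e : (Nat.lor mask (Nat.shiftLeft 1 (Nat.mod c 1024))).testBit id =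
        (mask.testBit id || (1 <<< (Nat.mod c 1024)).testBit id) := Nat.testBit_or mask _ id
    rw [e, Bool.or_eq_true] at hid
    rcases hid with hid | hid
    · exact hm id hid
    · rw [Nat.one_shiftLeft, Nat.testBit_two_pow] at hid
      have : Nat.mod c 1024 = id := by simpa using hid
      rw [← this]
      exact hr

theorem min_nm {m : ℕ} {S : Bool} {n x : Nt} {hk dk : ℕ} (h : TbO S n x hk dk) (hm : m ≤ 14) :
    hT S n x (nm m) = ((hC hk m : ℕ) - 64 : ℝ) / 100 ∧ dT S n x (nm m) = ((dC dk m : ℕ) : ℝ) - 1 ∧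
      dC dk m ≤ 2 := by
  have := h m
  rwa [min_eq_left hm] at this

theorem RP_m {e1 e2 p : ℕ} {k : ℕ → Bool → ℕ → ℕ → ℕ → ℕ → Bool}
    (h : RP e1 e2 p k false = true) : p / 2 ≤ 14 := by
  by_contra hc
  revert h
  unfold RP RF
  rw [fN_eq]
  simp only [div_eq']
  refine cN_split (P := fun r => r = true → _) (fun g1 => ?_) (fun g1 => absurd (ble_f g1) (by omega))
  refine cN_split (P := fun r => r = true → _) (fun hm => absurd (Nat.eq_of_beq_eq_true hm)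
      (by omega)) (fun _ => ?_)
  refine cN_split (P := fun r => r = true → _) (fun hm => absurd (Nat.eq_of_beq_eq_true hm)
      (by omega)) (fun _ => ?_)
  refine cN_split (P := fun r => r = true → _) (fun hm => absurd (Nat.eq_of_beq_eq_true hm)
      (by omega)) (fun _ => ?_)
  refine cN_split (P := fun r => r = true → _) (fun hm => absurd (Nat.eq_of_beq_eq_true hm)
      (by omega)) (fun _ => ?_)
  refine cN_split (P := fun r => r = true → _) (fun hm => absurd (Nat.eq_of_beq_eq_true hm)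
      (by omega)) (fun _ => ?_)
  refine cN_split (P := fun r => r = true → _) (fun hm => absurd (Nat.eq_of_beq_eq_true hm)
      (by omega)) (fun _ => ?_)
  refine cN_split (P := fun r => r = true → _) (fun hm => absurd (Nat.eq_of_beq_eq_true hm)
      (by omega)) (fun _ hk => absurd hk (by simp))

/-- The slot is bounded on rectangles. -/
theorem ST_ok {cf ia ja lr li rr ri x1 x2 e1 e2 : ℕ} {A : SD} {q0 kk dX dS : ℕ} {ys la : ℂ}
    (hcf : 1 ≤ cf)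
    (h : SlO cf ia ja lr li rr ri x1 x2 e1 e2 A q0 kk dX dS ys) {fz : Bool} {hh' dd : ℕ} (hd : dd ≤ 2)
    (l1 : |la.re * 1048576 + 8388608 - lr| ≤ rr) (l2 : |la.im * 1048576 + 8388608 - li| ≤ ri)
    {X1 X2 S1 S2 : ℕ} (hR : Rcs X1 X2 S1 S2) :
    OKL (GS cf (la.re * 1048576 + 8388608) (la.im * 1048576 + 8388608) (ia + 50) (160 + 16 * ja) fz
      hh' dd (TA ys)) X1 X2 S1 S2 (((cf : ℝ) + dd - 1) * 110080 + 131072)
        (ST A fz hh' dd X1 X2 S1 S2) := by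
  obtain ⟨g1, g2p, g2n, eg, rg, e, H⟩ := h.hA
  rw [e]
  exact ST1_ok hR hcf hd l1 l2 (H dd X1 X2 S1 S2 hR)

/-- **The rows of an inner node.** -/
theorem rowN_ok {sA sB : Bool} {n xA xB : Nt} {la lb ya yb : ℂ} {hkA dkA hkB dkB K0p K0n : ℕ}
    {A B : SD} {ia ja ib jb l1 l2 l3 l4 r1 r2 r3 r4 x1 x2 x3 x4 e1 e2 e3 e4 q0 kk dX dS q0' kk' dX'
      dS' : ℕ}
    (hla : la = lcl ya yb) (hlb : lb = lcl yb ya)
    (hTA : TbO sA n xA hkA dkA) (hTB : TbO sB n xB hkB dkB)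
    (hA : SlO 2 ia ja l1 l2 r1 r2 x1 x2 e1 e2 A q0 kk dX dS ya)
    (hB : SlO 2 ib jb l3 l4 r3 r4 x3 x4 e3 e4 B q0' kk' dX' dS' yb)
    (c1 : |la.re * 1048576 + 8388608 - l1| ≤ r1) (c2 : |la.im * 1048576 + 8388608 - l2| ≤ r2)
    (c3 : |lb.re * 1048576 + 8388608 - l3| ≤ r3) (c4 : |lb.im * 1048576 + 8388608 - l4| ≤ r4)
    (hea : EtO e1 e2 ya.im) (heb : EtO e3 e4 yb.im)
    (hK : (K0p : ℝ) - K0n + 1560000 ≤
      (Gcl (yX (ia + 50) (160 + 16 * ja)) (yX (ib + 50) (160 + 16 * jb)) -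
        Ecl ya yb (yX (ia + 50) (160 + 16 * ja)) (yX (ib + 50) (160 + 16 * jb))) * 3355443200)
    (id c : ℕ) (k : ℕ → Bool)
    (h : RP e1 e2 (id / 32) (fun ma fa X1 X2 S1 S2 =>
        RQ false e3 e4 (id % 32) (fun mb fb Y1 Y2 T1 T2 =>
            bb (fun X1 X2 S1 S2 Y1 Y2 T1 T2 =>
              LF false K0p K0n (ST A fa (hC hkA ma) (dC dkA ma) X1 X2 S1 S2)
                (SB false B fb (hC hkB mb) (dC dkB mb) Y1 Y2 T1 T2)
                X1 X2 S1 S2 Y1 Y2 T1 T2) 24 X1 X2 S1 S2 Y1 Y2 T1 T2 c k) false) false = true) :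
    RoN sA sB n xA xB la lb ya yb id ∧ ∃ c', k c' = true := by
  have m1 := RP_m h
  obtain ⟨ma, fa, X1, X2, S1, S2, h, p1, p2, p3, p4⟩ := RP_ok hea h
  change RP e3 e4 (id % 32) (fun mb fb Y1 Y2 T1 T2 =>
            bb (fun X1 X2 S1 S2 Y1 Y2 T1 T2 =>
              LF false K0p K0n (ST A fa (hC hkA ma) (dC dkA ma) X1 X2 S1 S2)
                (SB false B fb (hC hkB mb) (dC dkB mb) Y1 Y2 T1 T2)
                X1 X2 S1 S2 Y1 Y2 T1 T2) 24 X1 X2 S1 S2 Y1 Y2 T1 T2 c k) false = true at h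
  have m2 := RP_m h
  obtain ⟨mb, fb, Y1, Y2, T1, T2, h, q1, q2, q3, q4⟩ := RP_ok heb h
  obtain ⟨a1, a2, a3⟩ := min_nm hTA (m := ma) (by omega)
  obtain ⟨b1, b2, b3⟩ := min_nm hTB (m := mb) (by omega)
  obtain ⟨hk, hb⟩ := bb_ok (P := fun X S Y T =>
    Ro false
        (GS 2 (la.re * 1048576 + 8388608) (la.im * 1048576 + 8388608) (ia + 50) (160 + 16 * ja) fa
          (hC hkA ma) (dC dkA ma) (TA ya))
        (GS 2 (lb.re * 1048576 + 8388608) (lb.im * 1048576 + 8388608) (ib + 50) (160 + 16 * jb) fb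
          (hC hkB mb) (dC dkB mb) (TA yb)) X S Y T < (K0p : ℝ) - K0n + 1560000)
    (fun X1 X2 S1 S2 Y1 Y2 T1 T2 hR1 hR2 hl X S Y T g1 g2 g3 g4 g5 g6 g7 g8 => by
      have kA := ST_ok (la := la) (by norm_num) hA (fz := fa) (hh' := hC hkA ma) a3 c1 c2 hR1
      have kB := ST_ok (la := lb) (by norm_num) hB (fz := fb) (hh' := hC hkB mb) b3 c3 c4 hR2
      have := LF_ok hl hR1 hR2 kA kB g1 g2 g3 g4 g5 g6 g7 g8
      have a3' : ((dC dkA ma : ℕ) : ℝ) ≤ 2 := by exact_mod_cast a3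
      have b3' : ((dC dkB mb : ℕ) : ℝ) ≤ 2 := by exact_mod_cast b3
      push_cast at this
      linarith) 24 X1 X2 S1 S2 Y1 Y2 T1 T2 c k p3 q3 h
  refine ⟨fun y z w w' hy hz => ?_, hk⟩
  obtain ⟨⟨i1, i2, i3, i4⟩, i5⟩ := p4 y w hy
  obtain ⟨⟨i6, i7, i8, i9⟩, i10⟩ := q4 z w' hz
  have key := hb (200 * y.re + 50) (3200 * y.im + 960) (200 * z.re + 50) (3200 * z.im + 960)
    i1 i2 i3 i4 i6 i7 i8 i9
  have e := row_eq hla hlb (IA := (ia : ℝ) + 50) (JA := 160 + 16 * ja) (IB := (ib : ℝ) + 50)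
    (JB := 160 + 16 * jb) (X := 200 * y.re + 50) (S := 3200 * y.im + 960) (Y := 200 * z.re + 50)
    (T := 3200 * z.im + 960) a1 a2 p2 (w := w) (by rw [yX_eq]; exact i5) b1 b2 q2 (w' := w')
    (by rw [yX_eq]; exact i10)
  rw [yX_eq, yX_eq] at e
  have key' := key.trans_le hK
  rw [← p1, ← q1]
  nlinarith only [key', e]

theorem RQ_true {α : Type} (e1 e2 p : ℕ) (k : ℕ → Bool → ℕ → ℕ → ℕ → ℕ → α) (z : α) :
    RQ true e1 e2 p k z = k 0 false 150 150 960 960 := by rw [RQ, cN_true]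

theorem RQ_false {α : Type} (e1 e2 p : ℕ) (k : ℕ → Bool → ℕ → ℕ → ℕ → ℕ → α) (z : α) :
    RQ false e1 e2 p k z = RP e1 e2 p k z := by rw [RQ, cN_false]

theorem SB_true (s : SD) (fz : Bool) (h dd X1 X2 S1 S2 : ℕ) :
    SB true s fz h dd X1 X2 S1 S2 = .ok 0 0 0 0 0 0 0 := by rw [SB, cN_true]

/-- **The rows of an end.** -/
theorem rowE_ok {sA : Bool} {n xA : Nt} {la ya : ℂ} {hkA dkA K0p K0n : ℕ}
    {A : SD} {ia ja l1 l2 r1 r2 x1 x2 e1 e2 q0 kk dX dS : ℕ}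
    (hla : la = lcl ya (1 / 2))
    (hTA : TbO sA n xA hkA dkA)
    (hA : SlO 1 ia ja l1 l2 r1 r2 x1 x2 e1 e2 A q0 kk dX dS ya)
    (c1 : |la.re * 1048576 + 8388608 - l1| ≤ r1) (c2 : |la.im * 1048576 + 8388608 - l2| ≤ r2)
    (hea : EtO e1 e2 ya.im)
    (hK : (K0p : ℝ) - K0n + 1560000 ≤
      (Gcl (yX (ia + 50) (160 + 16 * ja)) (1 / 2) -
        Ecl ya (1 / 2) (yX (ia + 50) (160 + 16 * ja)) (1 / 2)) * 3355443200)
    (id c : ℕ) (k : ℕ → Bool)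
    (h : RP e1 e2 (id / 32) (fun ma fa X1 X2 S1 S2 =>
        RQ true 0 0 (id % 32) (fun mb fb Y1 Y2 T1 T2 =>
            bb (fun X1 X2 S1 S2 Y1 Y2 T1 T2 =>
              LF true K0p K0n (ST A fa (hC hkA ma) (dC dkA ma) X1 X2 S1 S2)
                (SB true A fb (hC 0 mb) (dC 0 mb) Y1 Y2 T1 T2)
                X1 X2 S1 S2 Y1 Y2 T1 T2) 24 X1 X2 S1 S2 Y1 Y2 T1 T2 c k) false) false = true) :
    RoE sA n xA la ya id ∧ ∃ c', k c' = true := by
  have m1 := RP_m h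
  obtain ⟨ma, fa, X1, X2, S1, S2, h, p1, p2, p3, p4⟩ := RP_ok hea h
  simp only [RQ_true, SB_true] at h
  obtain ⟨a1, a2, a3⟩ := min_nm hTA (m := ma) (by omega)
  obtain ⟨hk, hb⟩ := bb_ok (P := fun X S Y T =>
    Ro true
        (GS 1 (la.re * 1048576 + 8388608) (la.im * 1048576 + 8388608) (ia + 50) (160 + 16 * ja) fa
          (hC hkA ma) (dC dkA ma) (TA ya))
        (fun _ _ => 0) X S Y T < (K0p : ℝ) - K0n + 1560000)
    (fun X1 X2 S1 S2 Y1 Y2 T1 T2 hR1 hR2 hl X S Y T g1 g2 g3 g4 g5 g6 g7 g8 => by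
      have kA := ST_ok (la := la) le_rfl hA (fz := fa) (hh' := hC hkA ma) a3 c1 c2 hR1
      have kB : OKL (fun _ _ => 0) Y1 Y2 T1 T2 0 (.ok 0 0 0 0 0 0 0) := by
        right
        refine ⟨_, _, _, _, _, _, _, rfl, ?_⟩
        intro X S _ _ _ _
        simp
      have := LF_ok hl hR1 hR2 kA kB g1 g2 g3 g4 g5 g6 g7 g8
      have a3' : ((dC dkA ma : ℕ) : ℝ) ≤ 2 := by exact_mod_cast a3
      push_cast at this
      linarith) 24 X1 X2 S1 S2 150 150 960 960 c k p3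
        ⟨by norm_num, by norm_num, by norm_num, by norm_num, by norm_num⟩ h
  refine ⟨fun y w hy => ?_, hk⟩
  obtain ⟨⟨i1, i2, i3, i4⟩, i5⟩ := p4 y w hy
  have key := hb (200 * y.re + 50) (3200 * y.im + 960) 150 960
    i1 i2 i3 i4 (by norm_num) (by norm_num) (by norm_num) (by norm_num)
  have e := row_eqE hla (IA := (ia : ℝ) + 50) (JA := 160 + 16 * ja)
    (X := 200 * y.re + 50) (S := 3200 * y.im + 960) a1 a2 p2 (w := w) (by rw [yX_eq]; exact i5)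
  rw [yX_eq] at e
  have key' := key.trans_le hK
  rw [← p1]
  nlinarith only [key', e]

/-- **The program of an inner node.** -/
theorem rowsN_ok {sA sB : Bool} {n xA xB : Nt} {la lb ya yb : ℂ} {hkA dkA hkB dkB : ℕ}
    {ia ja ib jb l1 l2 l3 l4 r1 r2 r3 r4 x1 x2 x3 x4 e1 e2 e3 e4 : ℕ} {fin : ℕ → ℕ → Bool}
    {mask code : ℕ}
    (hla : la = lcl ya yb) (hlb : lb = lcl yb ya)
    (hTA : TbO sA n xA hkA dkA) (hTB : TbO sB n xB hkB dkB) (hi : 1 ≤ ia + ib)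
    (ya0 : 0 < ya.re) (ya1 : ya.re < 1 / 2) (yb0 : 0 < yb.re) (yb1 : yb.re < 1 / 2)
    (hc : CdOK ⟨ia, ja, ib, jb, l1, l2, l3, l4, r1, r2, r3, r4, x1, x2, x3, x4, e1, e2, e3, e4⟩
      ya yb la lb) (na : |ya.im| ≤ 3 / 20) (nb : |yb.im| ≤ 3 / 20)
    (h : rowsN hkA dkA hkB dkB ia ja ib jb l1 l2 l3 l4 r1 r2 r3 r4 x1 x2 x3 x4 e1 e2 e3 e4 fin
      mask code = true)
    (hm : ∀ id, mask.testBit id = true → RoN sA sB n xA xB la lb ya yb id) :
    ∃ mask' c' : ℕ, fin mask' c' = true ∧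
      ∀ id, mask'.testBit id = true → RoN sA sB n xA xB la lb ya yb id := by
  obtain ⟨c1, c2, c3, c4, c5, c6, c7, c8, c9, c10, c11, c12⟩ := hc
  unfold rowsN at h
  obtain ⟨A, qA, kA, dXa, dSa, h, hA⟩ := mkS_ok h ya0 ya1 c5 c6 c9 c10
  obtain ⟨B, qB, kB, dXb, dSb, h, hB⟩ := mkS_ok h yb0 yb1 c7 c8 c11 c12
  obtain ⟨kc, h, hs⟩ := kC_ok h hi hA.hia hB.hia ya0 ya1 yb0 yb1 c5 c6 c7 c8 c9 c10 c11 c12
  revert h
  refine cN_split (P := fun r => r = true → _) (fun g1 => ?_) (fun _ hf => absurd hf (by simp))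
  have g1 := ble_t g1
  intro h
  rw [fN_eq, fN_eq, fN_eq, fN_eq, fN_eq] at h
  simp only [mn'_eq, add_eq', sub_eq', mul_eq', div_eq'] at h g1
  have hcN : ∀ (a b : ℕ), cN (Nat.ble (ia + ib) 100) a b = if ia + ib ≤ 100 then a else b := by
    intro a b
    refine cN_split (P := fun r => r = _) (fun g => ?_) (fun g => ?_)
    · rw [if_pos (ble_t g)]
    · rw [if_neg (by have := ble_f g; omega)]
  rw [hcN, hcN] at h
  have hK := K0_ok hi hA.hia hB.hia hA.hja hB.hja g1 hA.q hB.q hA.hdX hA.hdS hB.hdX hB.hdS hA.td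
    hB.td hs rfl rfl rfl rfl
  exact rowsL_ok (fun id c k hh => rowN_ok hla hlb hTA hTB hA hB c1 c2 c3 c4 ⟨c9, c10, na⟩
    ⟨c11, c12, nb⟩ hK id c k hh) _ _ _ h hm

/-- **The program of an end.** -/
theorem rowsE_ok {sA : Bool} {n xA : Nt} {la ya : ℂ} {hkA dkA : ℕ}
    {ia ja l1 l2 r1 r2 x1 x2 e1 e2 : ℕ} {fin : ℕ → ℕ → Bool} {mask code : ℕ}
    (hla : la = lcl ya (1 / 2)) (hTA : TbO sA n xA hkA dkA)
    (ya0 : 0 < ya.re) (ya1 : ya.re < 1 / 2)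
    (c1 : |la.re * 1048576 + 8388608 - l1| ≤ r1) (c2 : |la.im * 1048576 + 8388608 - l2| ≤ r2)
    (c5 : (x1 : ℝ) ≤ ya.re * 3200) (c6 : ya.re * 3200 ≤ x2)
    (c9 : (e1 : ℝ) ≤ ya.im * 3200 + 800) (c10 : ya.im * 3200 + 800 ≤ e2)
    (na : |ya.im| ≤ 3 / 20)
    (h : rowsE hkA dkA ia ja l1 l2 r1 r2 x1 x2 e1 e2 fin mask code = true)
    (hm : ∀ id, mask.testBit id = true → RoE sA n xA la ya id) :
    ∃ mask' c' : ℕ, fin mask' c' = true ∧
      ∀ id, mask'.testBit id = true → RoE sA n xA la ya id := by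
  unfold rowsE at h
  obtain ⟨A, qA, kA, dXa, dSa, h, hA⟩ := mkS_ok h ya0 ya1 c5 c6 c9 c10
  rw [fN_eq, fN_eq, fN_eq, fN_eq] at h
  simp only [add_eq', mul_eq', div_eq'] at h
  have hK := K0e_ok hA.hia hA.hja hA.q hA.hdX hA.hdS hA.td rfl rfl rfl
  exact rowsL_ok (fun id c k hh => rowE_ok hla hTA hA c1 c2 ⟨c9, c10, na⟩ hK id c k hh) _ _ _ h hm

end Pool.Agent.S5.K
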