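import Pool.Agent.S5.K.FTc

/-!
# Closed nodes: the terms of the slots
-/

set_option autoImplicit false

namespace Pool.Agent.S5.K

open Pool.Agent.H63.VC3 Pool.Agent.S3 Complex Set Pool.Agent.S5.Tb Pool.Agent.S5.Num

/-- The rectangle of a slot. -/
structure Rcs (X1 X2 S1 S2 : ℕ) : Prop where
  x : X1 ≤ X2
  x2 : X2 ≤ 150
  s : S1 ≤ S2
  s1 : 480 ≤ S1
  s2 : S2 ≤ 1440

/-- A linear bound of a function of the slot, centre `((X1 + X2) / 2, (S1 + S2) / 2)`. -/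
def UpS (G : ℝ → ℝ → ℝ) (X1 X2 S1 S2 vp vn xp xn sp sn e : ℕ) (ε : ℝ) : Prop :=
  ∀ X S : ℝ, (X1 : ℝ) ≤ X → X ≤ X2 → (S1 : ℝ) ≤ S → S ≤ S2 →
    G X S ≤ ((vp : ℝ) - vn) + ((xp : ℝ) - xn) * (X - ((X1 + X2) / 2 : ℕ)) +
      ((sp : ℝ) - sn) * (S - ((S1 + S2) / 2 : ℕ)) + e + ε

/-- The plane, real part: `λ` is the real part of the slope in units `2^(-20)` with offset `2^23`. -/
theorem PX_ok {α : Type} {IA lr rr X1 X2 : ℕ} (k : ℕ → ℕ → ℕ → α) (l : ℝ)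
    (hl : |l - lr| ≤ rr) : ∃ p n e : ℕ, PX IA lr rr X1 X2 k = k p n e ∧
      ∀ X : ℝ, (X1 : ℝ) ≤ X → X ≤ X2 →
        -(16 * (l - 8388608) * (X - IA)) ≤ ((p : ℝ) - n) * (X - IA) + e := by
  obtain ⟨l1, l2⟩ := abs_le.1 hl
  unfold PX
  simp only [add_eq', sub_eq', mul_eq', mx'_eq]
  refine cN_split (P := fun r => ∃ p n e : ℕ, r = k p n e ∧ ∀ X : ℝ, (X1 : ℝ) ≤ X → X ≤ X2 →
        -(16 * (l - 8388608) * (X - IA)) ≤ ((p : ℝ) - n) * (X - IA) + e) (fun hg => ?_)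
    (fun _ => ?_)
  · refine ⟨_, _, _, rfl, fun X h1 h2 => ?_⟩
    have : (IA : ℝ) ≤ X1 := by exact_mod_cast ble_t hg
    push_cast
    nlinarith
  · refine cN_split (P := fun r => ∃ p n e : ℕ, r = k p n e ∧ ∀ X : ℝ, (X1 : ℝ) ≤ X → X ≤ X2 →
        -(16 * (l - 8388608) * (X - IA)) ≤ ((p : ℝ) - n) * (X - IA) + e) (fun hg => ?_)
      (fun _ => ?_)
    · refine ⟨_, _, _, rfl, fun X h1 h2 => ?_⟩
      have : (X2 : ℝ) ≤ IA := by exact_mod_cast ble_t hg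
      push_cast
      nlinarith
    · refine ⟨_, _, _, rfl, fun X h1 h2 => ?_⟩
      have m1 : ((X2 - IA : ℕ) : ℝ) ≤ (max (X2 - IA) (IA - X1) : ℕ) := by
        exact_mod_cast le_max_left _ _
      have m2 : ((IA - X1 : ℕ) : ℝ) ≤ (max (X2 - IA) (IA - X1) : ℕ) := by
        exact_mod_cast le_max_right _ _
      have m3 := (cast_sub_le X2 IA).trans m1
      have m4 := (cast_sub_le IA X1).trans m2
      set M := ((max (X2 - IA) (IA - X1) : ℕ) : ℝ) with hM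
      have h3 : |(l - lr) * (X - IA)| ≤ rr * M := by
        rw [abs_mul]
        apply mul_le_mul hl _ (abs_nonneg _) (by positivity)
        rw [abs_le]
        constructor <;> linarith
      have h4 := (abs_le.1 h3).1
      push_cast at hM ⊢
      rw [← hM]
      nlinarith

theorem PS_ok {α : Type} {SA li ri S1 S2 : ℕ} (k : ℕ → ℕ → ℕ → α) (l : ℝ)
    (hl : |l - li| ≤ ri) : ∃ p n e : ℕ, PS SA li ri S1 S2 k = k p n e ∧
      ∀ S : ℝ, (S1 : ℝ) ≤ S → S ≤ S2 →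
        (l - 8388608) * (S - SA) ≤ ((p : ℝ) - n) * (S - SA) + e := by
  obtain ⟨l1, l2⟩ := abs_le.1 hl
  unfold PS
  simp only [add_eq', sub_eq', mul_eq', mx'_eq]
  refine cN_split (P := fun r => ∃ p n e : ℕ, r = k p n e ∧ ∀ S : ℝ, (S1 : ℝ) ≤ S → S ≤ S2 →
        (l - 8388608) * (S - SA) ≤ ((p : ℝ) - n) * (S - SA) + e) (fun hg => ?_)
    (fun _ => ?_)
  · refine ⟨_, _, _, rfl, fun S h1 h2 => ?_⟩
    have : (SA : ℝ) ≤ S1 := by exact_mod_cast ble_t hg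
    push_cast
    nlinarith
  · refine cN_split (P := fun r => ∃ p n e : ℕ, r = k p n e ∧ ∀ S : ℝ, (S1 : ℝ) ≤ S → S ≤ S2 →
        (l - 8388608) * (S - SA) ≤ ((p : ℝ) - n) * (S - SA) + e) (fun hg => ?_)
      (fun _ => ?_)
    · refine ⟨_, _, _, rfl, fun S h1 h2 => ?_⟩
      have : (S2 : ℝ) ≤ SA := by exact_mod_cast ble_t hg
      push_cast
      nlinarith
    · refine ⟨_, _, _, rfl, fun S h1 h2 => ?_⟩
      have m1 : ((S2 - SA : ℕ) : ℝ) ≤ (max (S2 - SA) (SA - S1) : ℕ) := by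
        exact_mod_cast le_max_left _ _
      have m2 : ((SA - S1 : ℕ) : ℝ) ≤ (max (S2 - SA) (SA - S1) : ℕ) := by
        exact_mod_cast le_max_right _ _
      have m3 := (cast_sub_le S2 SA).trans m1
      have m4 := (cast_sub_le SA S1).trans m2
      set M := ((max (S2 - SA) (SA - S1) : ℕ) : ℝ) with hM
      have h3 : |(l - li) * (S - SA)| ≤ ri * M := by
        rw [abs_mul]
        apply mul_le_mul hl _ (abs_nonneg _) (by positivity)
        rw [abs_le]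
        constructor <;> linarith
      have h4 := (abs_le.1 h3).2
      push_cast at hM ⊢
      rw [← hM]
      nlinarith

theorem PS_pt {α : Type} {SA li ri : ℕ} (k : ℕ → ℕ → ℕ → α) (l : ℝ)
    (hl : |l - li| ≤ ri) : ∃ p n : ℕ, PS SA li ri 960 960 k = k p n 0 ∧
      (l - 8388608) * (960 - SA) ≤ ((p : ℝ) - n) * (960 - SA) := by
  obtain ⟨l1, l2⟩ := abs_le.1 hl
  unfold PS
  simp only [add_eq', sub_eq', mul_eq', mx'_eq]
  refine cN_split (P := fun r => ∃ p n : ℕ, r = k p n 0 ∧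
    (l - 8388608) * (960 - SA) ≤ ((p : ℝ) - n) * (960 - SA)) (fun hg => ?_) (fun hg0 => ?_)
  · refine ⟨_, _, rfl, ?_⟩
    have : (SA : ℝ) ≤ 960 := by exact_mod_cast ble_t hg
    push_cast
    nlinarith
  · refine cN_split (P := fun r => ∃ p n : ℕ, r = k p n 0 ∧
      (l - 8388608) * (960 - SA) ≤ ((p : ℝ) - n) * (960 - SA)) (fun hg => ?_) (fun hg => ?_)
    · refine ⟨_, _, rfl, ?_⟩
      have : (960 : ℝ) ≤ SA := by exact_mod_cast ble_t hg
      push_cast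
      nlinarith
    · exact absurd (ble_f hg) (by have := ble_f hg0; omega)

/-- The linear terms in `S` of a frozen slot. -/
theorem SF_ok {α : Type} {SA li ri S1 Sc : ℕ} (k : ℕ → ℕ → ℕ → ℕ → ℕ → α) (l : ℝ)
    (hl : |l - li| ≤ ri) : ∃ vp vn p n e : ℕ, SF SA li ri S1 Sc k = k vp vn p n e ∧
      ∀ S : ℝ, (S1 : ℝ) ≤ S → (l - 8388608) * (960 - SA) - 1048576 * Real.pi * |S - 960| ≤
        ((vp : ℝ) - vn) + ((p : ℝ) - n) * (S - Sc) + e := by
  unfold SF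
  obtain ⟨p, n, e1, h1⟩ := PS_pt (SA := SA) (li := li) (ri := ri)
    (fun p n _ =>
      cN (Nat.ble 960 S1) (k (Nat.add (Nat.add (Nat.mul p 960) (Nat.mul n SA)) (Nat.mul 3294198 960))
        (Nat.add (Nat.add (Nat.mul n 960) (Nat.mul p SA)) (Nat.mul 3294198 Sc)) 0 3294198 0)
      (k (Nat.add (Nat.add (Nat.mul p 960) (Nat.mul n SA)) (Nat.mul 3294198 Sc))
        (Nat.add (Nat.add (Nat.mul n 960) (Nat.mul p SA)) (Nat.mul 3294198 960)) 3294198 0 0)) l hl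
  rw [e1]
  simp only [add_eq', mul_eq']
  have hp := pi_lo
  refine cN_split (P := fun r => ∃ vp vn p n e : ℕ, r = k vp vn p n e ∧
      ∀ S : ℝ, (S1 : ℝ) ≤ S → (l - 8388608) * (960 - SA) - 1048576 * Real.pi * |S - 960| ≤
        ((vp : ℝ) - vn) + ((p : ℝ) - n) * (S - Sc) + e) (fun hg => ?_) (fun hg => ?_)
  · refine ⟨_, _, _, _, _, rfl, fun S h2 => ?_⟩
    have h3 := mul_le_mul_of_nonneg_right hp (abs_nonneg (S - 960))
    have h4 := le_abs_self (S - 960)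
    push_cast
    linarith
  · refine ⟨_, _, _, _, _, rfl, fun S h2 => ?_⟩
    have h3 := mul_le_mul_of_nonneg_right hp (abs_nonneg (S - 960))
    have h4 := neg_le_abs (S - 960)
    push_cast
    linarith

/-- The linear terms in `S` of a slot which is not frozen. -/
theorem SN_ok {α : Type} {SA li ri S1 Sc S2 : ℕ} (k : ℕ → ℕ → ℕ → ℕ → ℕ → α) (l : ℝ)
    (hl : |l - li| ≤ ri) : ∃ vp vn p n e : ℕ, SN SA li ri S1 Sc S2 k = k vp vn p n e ∧
      ∀ S : ℝ, (S1 : ℝ) ≤ S → S ≤ S2 → (l - 8388608) * (S - SA) ≤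
        ((vp : ℝ) - vn) + ((p : ℝ) - n) * (S - Sc) + e := by
  unfold SN
  obtain ⟨p, n, e, e1, h1⟩ := PS_ok (SA := SA) (li := li) (ri := ri) (S1 := S1) (S2 := S2)
    (fun p n e => k (Nat.add (Nat.mul p Sc) (Nat.mul n SA)) (Nat.add (Nat.mul n Sc) (Nat.mul p SA))
      p n e) l hl
  refine ⟨_, _, _, _, _, e1, fun S h2 h3 => ?_⟩
  have := h1 S h2 h3
  simp only [add_eq', mul_eq']
  push_cast
  linarith

/-! ### The share -/

/-- `d (F(1/2 - a) - (q0 + ...))` where the first term is counted elsewhere: `T` is the plane at the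
reference point and `D` the error of the base point. -/
theorem SH_ok {α : Type} {dd IA SA q0 g1 g2p g2n eg rg X1 Xm X2 S1 Sc S2 : ℕ}
    (k : ℕ → ℕ → ℕ → ℕ → ℕ → ℕ → ℕ → α) (hdd : dd ≤ 2) (T : ℝ → ℝ → ℝ)
    (hT : dd ≠ 1 → ∀ X S : ℝ, (X1 : ℝ) ≤ X → X ≤ X2 → (S1 : ℝ) ≤ S → S ≤ S2 →
      |T X S - (-(q0 : ℝ) - 16 * ((g1 : ℝ) - 8388608) * (X - IA) + ((g2p : ℝ) - g2n) * (S - SA))| ≤
        eg + rg * (16 * |X - IA| + |S - SA|) + 131072) :
    ∃ vp vn xp xn sp sn e : ℕ,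
      SH dd IA SA q0 g1 g2p g2n eg rg X1 Xm X2 S1 Sc S2 k = k vp vn xp xn sp sn e ∧
      ∀ X S : ℝ, (X1 : ℝ) ≤ X → X ≤ X2 → (S1 : ℝ) ≤ S → S ≤ S2 →
        ((dd : ℝ) - 1) * T X S ≤ ((vp : ℝ) - vn) + ((xp : ℝ) - xn) * (X - Xm) +
          ((sp : ℝ) - sn) * (S - Sc) + e + 131072 := by
  unfold SH
  simp only [fN_eq, add_eq', mul_eq', mx'_eq]
  refine cN_split (P := fun r => ∃ vp vn xp xn sp sn e : ℕ, r = k vp vn xp xn sp sn e ∧
    ∀ X S : ℝ, (X1 : ℝ) ≤ X → X ≤ X2 → (S1 : ℝ) ≤ S → S ≤ S2 →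
        ((dd : ℝ) - 1) * T X S ≤ ((vp : ℝ) - vn) + ((xp : ℝ) - xn) * (X - Xm) +
          ((sp : ℝ) - sn) * (S - Sc) + e + 131072) (fun hg => ?_) (fun hg => ?_)
  · refine ⟨_, _, _, _, _, _, _, rfl, fun X S h1 h2 h3 h4 => ?_⟩
    have : dd = 1 := Nat.eq_of_beq_eq_true hg
    rw [this]
    push_cast
    linarith
  · have hne : dd ≠ 1 := Nat.ne_of_beq_eq_false hg
    have hT' := hT hne
    have bd : ∀ X S : ℝ, (X1 : ℝ) ≤ X → X ≤ X2 → (S1 : ℝ) ≤ S → S ≤ S2 →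
        16 * |X - IA| + |S - SA| ≤ ((16 * max (ds' X1 IA) (ds' X2 IA) +
          max (ds' S1 SA) (ds' S2 SA) : ℕ) : ℝ) := by
      intro X S h1 h2 h3 h4
      have m1 : ((ds' X1 IA : ℕ) : ℝ) ≤ (max (ds' X1 IA) (ds' X2 IA) : ℕ) := by
        exact_mod_cast le_max_left _ _
      have m2 : ((ds' X2 IA : ℕ) : ℝ) ≤ (max (ds' X1 IA) (ds' X2 IA) : ℕ) := by
        exact_mod_cast le_max_right _ _
      have m3 : ((ds' S1 SA : ℕ) : ℝ) ≤ (max (ds' S1 SA) (ds' S2 SA) : ℕ) := by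
        exact_mod_cast le_max_left _ _
      have m4 : ((ds' S2 SA : ℕ) : ℝ) ≤ (max (ds' S1 SA) (ds' S2 SA) : ℕ) := by
        exact_mod_cast le_max_right _ _
      rw [ds'_eq] at m1 m2 m3 m4
      have n1 : |X - IA| ≤ (max (ds' X1 IA) (ds' X2 IA) : ℕ) := by
        rw [abs_le]
        constructor
        · linarith [neg_abs_le ((X1 : ℝ) - IA)]
        · linarith [le_abs_self ((X2 : ℝ) - IA)]
      have n2 : |S - SA| ≤ (max (ds' S1 SA) (ds' S2 SA) : ℕ) := by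
        rw [abs_le]
        constructor
        · linarith [neg_abs_le ((S1 : ℝ) - SA)]
        · linarith [le_abs_self ((S2 : ℝ) - SA)]
      push_cast at n1 n2 ⊢
      linarith
    set E := 16 * max (ds' X1 IA) (ds' X2 IA) + max (ds' S1 SA) (ds' S2 SA) with hE
    have key : ∀ X S : ℝ, (X1 : ℝ) ≤ X → X ≤ X2 → (S1 : ℝ) ≤ S → S ≤ S2 →
      |T X S - (-(q0 : ℝ) - 16 * ((g1 : ℝ) - 8388608) * (X - IA) + ((g2p : ℝ) - g2n) * (S - SA))| ≤
        eg + rg * E + 131072 := by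
      intro X S h1 h2 h3 h4
      refine (hT' X S h1 h2 h3 h4).trans ?_
      have := mul_le_mul_of_nonneg_left (bd X S h1 h2 h3 h4) (Nat.cast_nonneg rg : (0 : ℝ) ≤ rg)
      linarith
    refine cN_split (P := fun r => ∃ vp vn xp xn sp sn e : ℕ, r = k vp vn xp xn sp sn e ∧
      ∀ X S : ℝ, (X1 : ℝ) ≤ X → X ≤ X2 → (S1 : ℝ) ≤ S → S ≤ S2 →
        ((dd : ℝ) - 1) * T X S ≤ ((vp : ℝ) - vn) + ((xp : ℝ) - xn) * (X - Xm) +
          ((sp : ℝ) - sn) * (S - Sc) + e + 131072) (fun hg => ?_) (fun hg => ?_)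
    · refine ⟨_, _, _, _, _, _, _, rfl, fun X S h1 h2 h3 h4 => ?_⟩
      have : dd = 0 := Nat.eq_of_beq_eq_true hg
      have k1 := (abs_le.1 (key X S h1 h2 h3 h4)).1
      rw [this]
      push_cast
      linarith
    · refine ⟨_, _, _, _, _, _, _, rfl, fun X S h1 h2 h3 h4 => ?_⟩
      have h0 : dd ≠ 0 := Nat.ne_of_beq_eq_false hg
      have : dd = 2 := by omega
      have k1 := (abs_le.1 (key X S h1 h2 h3 h4)).2
      rw [this]
      push_cast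
      linarith

end Pool.Agent.S5.K
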