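import Pool.Agent.S5.K.STa

/-!
# Closed nodes: the term of a slot
-/

set_option autoImplicit false

namespace Pool.Agent.S5.K

open Pool.Agent.H63.VC3 Pool.Agent.S3 Complex Set Pool.Agent.S5.Tb Pool.Agent.S5.Num

theorem fN_el {α : Type} {P : α → Prop} {f : ℕ → α} {n : ℕ} (H : P (f n)) : P (fN f n) := by
  rw [fN_eq]
  exact H

theorem PX_el {α : Type} {P : α → Prop} {IA lr rr X1 X2 : ℕ} {k : ℕ → ℕ → ℕ → α} (l : ℝ)
    (hl : |l - lr| ≤ rr) (H : ∀ p n e : ℕ, (∀ X : ℝ, (X1 : ℝ) ≤ X → X ≤ X2 →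
        -(16 * (l - 8388608) * (X - IA)) ≤ ((p : ℝ) - n) * (X - IA) + e) → P (k p n e)) :
    P (PX IA lr rr X1 X2 k) := by
  obtain ⟨p, n, e, e1, h⟩ := PX_ok (IA := IA) (X1 := X1) (X2 := X2) k l hl
  rw [e1]
  exact H p n e h

theorem SF_el {α : Type} {P : α → Prop} {SA li ri S1 Sc : ℕ} {k : ℕ → ℕ → ℕ → ℕ → ℕ → α} (l : ℝ)
    (hl : |l - li| ≤ ri) (H : ∀ vp vn p n e : ℕ, (∀ S : ℝ, (S1 : ℝ) ≤ S →
      (l - 8388608) * (960 - SA) - 1048576 * Real.pi * |S - 960| ≤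
        ((vp : ℝ) - vn) + ((p : ℝ) - n) * (S - Sc) + e) → P (k vp vn p n e)) :
    P (SF SA li ri S1 Sc k) := by
  obtain ⟨vp, vn, p, n, e, e1, h⟩ := SF_ok (SA := SA) (S1 := S1) (Sc := Sc) k l hl
  rw [e1]
  exact H _ _ _ _ _ h

theorem SN_el {α : Type} {P : α → Prop} {SA li ri S1 Sc S2 : ℕ} {k : ℕ → ℕ → ℕ → ℕ → ℕ → α}
    (l : ℝ) (hl : |l - li| ≤ ri) (H : ∀ vp vn p n e : ℕ, (∀ S : ℝ, (S1 : ℝ) ≤ S → S ≤ S2 →
      (l - 8388608) * (S - SA) ≤ ((vp : ℝ) - vn) + ((p : ℝ) - n) * (S - Sc) + e) →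
        P (k vp vn p n e)) :
    P (SN SA li ri S1 Sc S2 k) := by
  obtain ⟨vp, vn, p, n, e, e1, h⟩ := SN_ok (SA := SA) (S1 := S1) (S2 := S2) (Sc := Sc) k l hl
  rw [e1]
  exact H _ _ _ _ _ h

/-- The estimate of the remainder of the share. -/
def ShB (dd IA SA q0 g1 g2p g2n eg rg X1 X2 S1 S2 : ℕ) (T : ℝ → ℝ → ℝ) : Prop :=
  dd ≠ 1 → ∀ X S : ℝ, (X1 : ℝ) ≤ X → X ≤ X2 → (S1 : ℝ) ≤ S → S ≤ S2 →
    |T X S - (-(q0 : ℝ) - 16 * ((g1 : ℝ) - 8388608) * (X - IA) + ((g2p : ℝ) - g2n) * (S - SA))| ≤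
      eg + rg * (16 * |X - IA| + |S - SA|) + 131072

theorem SH_el {α : Type} {P : α → Prop} {dd IA SA q0 g1 g2p g2n eg rg X1 Xm X2 S1 Sc S2 : ℕ}
    {k : ℕ → ℕ → ℕ → ℕ → ℕ → ℕ → ℕ → α} (hdd : dd ≤ 2) (T : ℝ → ℝ → ℝ)
    (hT : ShB dd IA SA q0 g1 g2p g2n eg rg X1 X2 S1 S2 T)
    (H : ∀ vp vn xp xn sp sn e : ℕ, (∀ X S : ℝ, (X1 : ℝ) ≤ X → X ≤ X2 → (S1 : ℝ) ≤ S → S ≤ S2 →
        ((dd : ℝ) - 1) * T X S ≤ ((vp : ℝ) - vn) + ((xp : ℝ) - xn) * (X - Xm) +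
          ((sp : ℝ) - sn) * (S - Sc) + e + 131072) → P (k vp vn xp xn sp sn e)) :
    P (SH dd IA SA q0 g1 g2p g2n eg rg X1 Xm X2 S1 Sc S2 k) := by
  obtain ⟨vp, vn, xp, xn, sp, sn, e, e1, h⟩ := SH_ok (q0 := q0) (g1 := g1) (g2p := g2p)
    (g2n := g2n) (eg := eg) (rg := rg) (Xm := Xm) (Sc := Sc) (X1 := X1) (X2 := X2) (S1 := S1)
    (S2 := S2) (IA := IA) (SA := SA) k hdd T hT
  rw [e1]
  exact H _ _ _ _ _ _ _ h

/-- The function of a slot. -/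
noncomputable def GS (cf : ℕ) (lr li IA SA : ℝ) (fz : Bool) (h dd : ℕ) (T : ℝ → ℝ → ℝ)
    (X S : ℝ) : ℝ :=
  ((cf : ℝ) + dd - 1) * FW (250 - X) S - 16 * (lr - 8388608) * (X - IA) +
    (if fz = true then (li - 8388608) * (960 - SA) - 1048576 * Real.pi * |S - 960| else
      (li - 8388608) * (S - SA)) - 33554432 * ((h : ℝ) - 64) + ((dd : ℝ) - 1) * T X S

/-- The result is a linear bound. -/
def OKL (G : ℝ → ℝ → ℝ) (X1 X2 S1 S2 : ℕ) (ε : ℝ) (r : LB) : Prop :=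
  r = .bad ∨ ∃ vp vn xp xn sp sn e : ℕ, r = .ok vp vn xp xn sp sn e ∧
    UpS G X1 X2 S1 S2 vp vn xp xn sp sn e ε

theorem Rcs.rct {X1 X2 S1 S2 : ℕ} (h : Rcs X1 X2 S1 S2) :
    Rct (250 - X2) (250 - (X1 + X2) / 2) (250 - X1) S1 ((S1 + S2) / 2) S2 := by
  obtain ⟨h1, h2, h3, h4, h5⟩ := h
  constructor <;> omega

theorem ST1_ok {cf ia ja lr li rr ri q0 g1 g2p g2n eg rg h dd X1 X2 S1 S2 : ℕ} {fz : Bool}
    (hR : Rcs X1 X2 S1 S2) (hcf : 1 ≤ cf) (hdd : dd ≤ 2) {a b : ℝ} (ha : |a - lr| ≤ rr)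
    (hb : |b - li| ≤ ri) {T : ℝ → ℝ → ℝ}
    (hT : ShB dd (ia + 50) (160 + 16 * ja) q0 g1 g2p g2n eg rg X1 X2 S1 S2 T) :
    OKL (GS cf a b (ia + 50) (160 + 16 * ja) fz h dd T) X1 X2 S1 S2
      (((cf : ℝ) + dd - 1) * 110080 + 131072)
      (ST1 cf ia ja lr li rr ri q0 g1 g2p g2n eg rg fz h dd X1 X2 S1 S2) := by
  unfold ST1
  refine fN_el (P := OKL _ _ _ _ _ _) (fN_el (P := OKL _ _ _ _ _ _) (fN_el (P := OKL _ _ _ _ _ _)
    (fN_el (P := OKL _ _ _ _ _ _) (fN_el (P := OKL _ _ _ _ _ _) ?_))))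
  simp only [add_eq', sub_eq', mul_eq', div_eq']
  set Xm := (X1 + X2) / 2 with hXm
  set Sc := (S1 + S2) / 2 with hSc
  have rcf : ((cf + dd - 1 : ℕ) : ℝ) = (cf : ℝ) + dd - 1 := by
    push_cast [show 1 ≤ cf + dd by omega]
    ring
  have rcf0 : (0 : ℝ) ≤ (cf : ℝ) + dd - 1 := by
    rw [← rcf]
    positivity
  rcases FT_ok (α := LB) (KO1 := 250 - X2) (KO := 250 - Xm) (KO2 := 250 - X1) (S1 := S1) (Sc := Sc)
    (S2 := S2) (fun vp vn xp xn sp sn e =>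
      PX (ia + 50) lr rr X1 X2 (fun xp' xn' e' =>
        SH dd (ia + 50) (160 + 16 * ja) q0 g1 g2p g2n eg rg X1 Xm X2 S1 Sc S2
          (fun hvp hvn hxp hxn hsp hsn he =>
          cN fz
            (SF (160 + 16 * ja) li ri S1 Sc (fun svp svn ssp ssn se =>
              .ok ((cf + dd - 1) * vp + xp' * Xm + xn' * (ia + 50) + hvp + svp + 2147483648)
                ((cf + dd - 1) * vn + xn' * Xm + xp' * (ia + 50) + hvn + svn + 33554432 * h)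
                ((cf + dd - 1) * xn + xp' + hxp) ((cf + dd - 1) * xp + xn' + hxn)
                ((cf + dd - 1) * sp + hsp + ssp) ((cf + dd - 1) * sn + hsn + ssn)
                ((cf + dd - 1) * e + e' + he + se)))
            (SN (160 + 16 * ja) li ri S1 Sc S2 (fun svp svn ssp ssn se =>
              .ok ((cf + dd - 1) * vp + xp' * Xm + xn' * (ia + 50) + hvp + svp + 2147483648)
                ((cf + dd - 1) * vn + xn' * Xm + xp' * (ia + 50) + hvn + svn + 33554432 * h)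
                ((cf + dd - 1) * xn + xp' + hxp) ((cf + dd - 1) * xp + xn' + hxn)
                ((cf + dd - 1) * sp + hsp + ssp) ((cf + dd - 1) * sn + hsn + ssn)
                ((cf + dd - 1) * e + e' + he + se)))))) .bad hR.rct with
    key | ⟨vp, vn, xp, xn, sp, sn, e, e1, hu⟩
  · left
    exact key
  · rw [e1]
    clear e1
    refine PX_el (P := OKL _ _ _ _ _ _) a ha (fun xp' xn' e' hx => ?_)
    refine SH_el (P := OKL _ _ _ _ _ _) hdd T hT (fun hvp hvn hxp hxn hsp hsn he hh => ?_)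
    have rK1 : ((250 - X2 : ℕ) : ℝ) = 250 - X2 := by
      have := hR.x2
      push_cast [show X2 ≤ 250 by omega]
      ring
    have rK2 : ((250 - X1 : ℕ) : ℝ) = 250 - X1 := by
      have := hR.x2
      have := hR.x
      push_cast [show X1 ≤ 250 by omega]
      ring
    have rK : ((250 - Xm : ℕ) : ℝ) = 250 - Xm := by
      have := hR.x2
      have := hR.x
      push_cast [show Xm ≤ 250 by omega]
      ring
    have F0 : ∀ X S : ℝ, (X1 : ℝ) ≤ X → X ≤ X2 → (S1 : ℝ) ≤ S → S ≤ S2 →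
        ((cf : ℝ) + dd - 1) * FW (250 - X) S ≤ ((cf : ℝ) + dd - 1) * (((vp : ℝ) - vn) +
          ((xp : ℝ) - xn) * (Xm - X) + ((sp : ℝ) - sn) * (S - Sc) + e + 110080) := by
      intro X S g1 g2 g3 g4
      apply mul_le_mul_of_nonneg_left _ rcf0
      have := hu (250 - X) S (by rw [rK1]; linarith) (by rw [rK2]; linarith) g3 g4
      rw [rK] at this
      linarith
    refine cN_split (P := OKL _ _ _ _ _ _) (fun hf => ?_) (fun hf => ?_)
    · refine SF_el (P := OKL _ _ _ _ _ _) b hb (fun svp svn ssp ssn se hs => ?_)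
      right
      refine ⟨_, _, _, _, _, _, _, rfl, fun X S g1 g2 g3 g4 => ?_⟩
      have k1 := F0 X S g1 g2 g3 g4
      have k2 := hx X g1 g2
      have k3 := hh X S g1 g2 g3 g4
      have k4 := hs S g3
      unfold GS
      rw [if_pos hf]
      push_cast [rcf] at k1 k2 k3 k4 ⊢
      linarith only [k1, k2, k3, k4]
    · refine SN_el (P := OKL _ _ _ _ _ _) b hb (fun svp svn ssp ssn se hs => ?_)
      right
      refine ⟨_, _, _, _, _, _, _, rfl, fun X S g1 g2 g3 g4 => ?_⟩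
      have k1 := F0 X S g1 g2 g3 g4
      have k2 := hx X g1 g2
      have k3 := hh X S g1 g2 g3 g4
      have k4 := hs S g3 g4
      unfold GS
      rw [if_neg (by rw [hf]; simp)]
      push_cast [rcf] at k1 k2 k3 k4 ⊢
      linarith only [k1, k2, k3, k4]

end Pool.Agent.S5.K
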