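import Pool.Agent.S5.K.Nr

/-!
# The second order terms: the bounds
-/

set_option autoImplicit false

namespace Pool.Agent.S5.K

open Complex Pool.Agent.S5.Num

/-- `let` for natural numbers. -/
def ln (n : ℕ) (k : ℕ → Bool) : Bool := fN k n

theorem ln_ok {n : ℕ} {k : ℕ → Bool} (h : ln n k = true) : ∃ w, w = n ∧ k w = true :=
  ⟨n, rfl, by rw [← fN_eq k n]; exact h⟩

/-- The iteration. -/
def itX (Q e2 : ℕ) (K : ℕ → Bool) (k : ℕ) : ℕ → Bool :=
  Nat.rec (fun X => K X) (fun _ ih X => cond (Nat.ble (Nat.succ X) 16777216)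
    (fN ih (dvN (Nat.add Q (dvN (muN X X) (Nat.sub 16777216 X))) e2)) false) k

theorem itX_succ (Q e2 : ℕ) (K : ℕ → Bool) (k X : ℕ) : itX Q e2 K (k + 1) X =
    cond (Nat.ble (Nat.succ X) 16777216)
      (fN (itX Q e2 K k) (dvN (Nat.add Q (dvN (muN X X) (Nat.sub 16777216 X))) e2)) false := by
  unfold itX
  with_reducible rfl

theorem Itr.trans {Q e2 X Y Z : ℝ} (h1 : Itr Q e2 X Y) (h2 : Itr Q e2 Y Z) : Itr Q e2 X Z :=
  fun r h h' => h2 r h (h1 r h h')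

theorem sc_sub {X : ℕ} (h : X ≤ 16777216) : sc (Nat.sub 16777216 X) = 1 - sc X := by
  unfold sc
  rw [Nat.sub_eq, Nat.cast_sub h]
  norm_num
  ring

theorem sc_lt {X : ℕ} (h : Nat.ble (Nat.succ X) 16777216 = true) : X < 16777216 ∧ sc X < 1 := by
  have h1 : X < 16777216 := Nat.ble_eq.mp h
  refine ⟨h1, ?_⟩
  unfold sc
  rw [div_lt_one (by norm_num)]
  exact_mod_cast h1

theorem sc_mul (a b : ℕ) : sc (Nat.mul a b) = a * sc b := by
  unfold sc
  rw [Nat.mul_eq]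
  push_cast
  ring

theorem sq_div_le {X : ℕ} (h : X < 16777216) (h1 : sc X < 1) :
    sc X ^ 2 / (1 - sc X) ≤ sc (dvN (muN X X) (Nat.sub 16777216 X)) := by
  have h2 := dvN_ok (muN X X) (b := Nat.sub 16777216 X) (by rw [Nat.sub_eq]; omega)
  rw [sc_sub h.le] at h2
  have h3 := muN_ok X X
  rw [div_le_iff₀ (by linarith), pow_two]
  linarith

theorem itX_ok {Q e2 : ℕ} (he : 0 < e2) {K : ℕ → Bool} {k X : ℕ} (h : itX Q e2 K k X = true) :
    ∃ Y, K Y = true ∧ Itr (sc Q) (sc e2) (sc X) (sc Y) := by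
  induction k generalizing X with
  | zero => exact ⟨X, h, Itr.refl _ _ _⟩
  | succ k ih =>
    rw [itX_succ] at h
    obtain ⟨h1, h2⟩ := cond_ok h
    rw [fN_eq] at h2
    obtain ⟨Y, hY, h3⟩ := ih h2
    obtain ⟨h4, h5⟩ := sc_lt h1
    refine ⟨Y, hY, Itr.trans ((Itr.refl _ _ _).step h5 ?_) h3⟩
    have h6 := dvN_ok (Nat.add Q (dvN (muN X X) (Nat.sub 16777216 X))) he
    rw [sc_add] at h6
    have h7 := sq_div_le h4 h5
    linarith

/-- The second order terms. -/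
def sec (n : ND) (um vm D : ℕ) (K : ℕ → ℕ → Bool) : Bool :=
  cond (Nat.ble D 8388608) (cond (Nat.ble (Nat.add um vm) 16777216)
  (ln (muN D D) (fun D2 =>
  ln (Nat.add 16777216 (upN D2 4)) (fun T =>
  ln (muN n.h (muN T D)) (fun hT =>
  cond (Nat.ble (Nat.succ hT) 16777216)
  (cond (Nat.ble (Nat.succ (muN (Nat.add 8388608 n.h) (Nat.add D (upN (Nat.mul 3 D2) 4)))) 16777216)
  (ln (dvN T (Nat.sub 16777216 hT)) (fun F =>
  ln (upN (muN (muN (muN (muN n.no n.n1) F) D) D) 2) (fun R1 =>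
  ln (Nat.add (Nat.add (muN n.n1 um) (muN n.no vm)) R1) (fun c =>
  cond (Nat.ble c 16777216)
  (ln (muN c c) (fun c2 =>
  ln (Nat.add (muN n.p2 (Nat.add c (upN (Nat.mul 3 c2) 4))) 128) (fun Q =>
  ln (Nat.div (Nat.mul n.nE n.ey) 16777216) (fun pd =>
  cond (Nat.ble 1 pd) (cond (Nat.ble 1 n.e2)
  (itX Q n.e2 (fun X => cond (Nat.ble (Nat.succ X) 16777216)
    (ln (muN X X) (fun X2 =>
    ln (dvN (muN X X2) (Nat.sub 16777216 X)) (fun X3 =>
    ln (Nat.add (Nat.add (Nat.add (Nat.add (upN (muN n.G (Nat.add c2 X2)) 2)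
      (upN (Nat.mul 2 (muN n.G (muN c c2))) 9)) (dvN X3 n.e2)) (upN X3 3)) (dvN 128 n.e2))
      (fun R2 => K R1 R2)))) false) 5 (dvN Q pd)) false) false))))
  false)))) false) false)))) false) false

theorem sec_ok {n : ND} {um vm D : ℕ} {K : ℕ → ℕ → Bool} (h : sec n um vm D K = true) {B : BD}
    {om g : ℂ} (nk : NOK B om g n) (hg : g * (tc B.ex B.ey ^ 2 - 1) = tc B.ex B.ey ^ 2 + 1)
    (hE : (tc B.ex B.ey).im < 0) : sc um + sc vm ≤ 1 ∧ ∃ R1 R2 : ℕ, K R1 R2 = true ∧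
      ∃ h M F χ Q X0 X : ℝ, Nb (tc B.ex B.ey) om g (sc D) h M F (sc R1) χ Q X0 X (sc n.e2)
        (sc n.G) (sc R2) (1 / 131072) ∧ sc n.n1 * sc um + sc n.no * sc vm + sc R1 ≤ χ := by
  unfold sec at h
  obtain ⟨h1, h⟩ := cond_ok h
  obtain ⟨h2, h⟩ := cond_ok h
  obtain ⟨D2, hD2, h⟩ := ln_ok h
  obtain ⟨T, hT, h⟩ := ln_ok h
  obtain ⟨hTD, hhT, h⟩ := ln_ok h
  obtain ⟨h3, h⟩ := cond_ok h
  obtain ⟨h4, h⟩ := cond_ok h
  obtain ⟨F, hF, h⟩ := ln_ok h
  obtain ⟨R1, hR1, h⟩ := ln_ok h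
  obtain ⟨c, hc, h⟩ := ln_ok h
  obtain ⟨h5, h⟩ := cond_ok h
  obtain ⟨c2, hc2, h⟩ := ln_ok h
  obtain ⟨Q, hQ, h⟩ := ln_ok h
  obtain ⟨pd, hpd, h⟩ := ln_ok h
  obtain ⟨h6, h⟩ := cond_ok h
  obtain ⟨h7, h⟩ := cond_ok h
  have he2 : 0 < n.e2 := Nat.ble_eq.mp h7
  have hpd0 : 0 < pd := Nat.ble_eq.mp h6
  obtain ⟨X, h, hIt⟩ := itX_ok he2 h
  obtain ⟨h8, h⟩ := cond_ok h
  obtain ⟨X2, hX2, h⟩ := ln_ok h
  obtain ⟨X3, hX3, h⟩ := ln_ok h
  obtain ⟨R2, hR2, h⟩ := ln_ok h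
  obtain ⟨x1, x2⟩ := sc_lt h8
  obtain ⟨t1, t2⟩ := sc_lt h3
  obtain ⟨_, t4⟩ := sc_lt h4
  have u1 : sc um + sc vm ≤ 1 := by
    rw [← sc_add]
    unfold sc
    rw [div_le_one (by norm_num)]
    exact_mod_cast Nat.ble_eq.mp h2
  refine ⟨u1, R1, R2, h, ?_⟩
  have nn : ∀ m, 0 ≤ sc m := sc_nonneg
  have s128 : sc 128 = 1 / 131072 := by
    unfold sc
    norm_num
  have sU : sc 16777216 = 1 := by
    unfold sc
    norm_num
  have sH : sc 8388608 = 1 / 2 := by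
    unfold sc
    norm_num
  -- D
  have d1 : sc D ≤ 1 / 2 := by
    rw [← sH]
    unfold sc
    rw [div_le_div_iff_of_pos_right (by norm_num)]
    exact_mod_cast Nat.ble_eq.mp h1
  have d2 : sc D ^ 2 ≤ sc D2 := by
    rw [hD2, pow_two]
    exact muN_ok D D
  have d3 : 1 + sc D ^ 2 / 4 ≤ sc T := by
    rw [hT, sc_add, sU]
    have := sc_up D2 (b := 4) (by norm_num)
    push_cast at this
    linarith
  have d4 : sc n.h * ((1 + sc D ^ 2 / 4) * sc D) ≤ sc hTD := by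
    rw [hhT]
    have g1 := muN_ok n.h (muN T D)
    have g2 := muN_ok T D
    have g3 : (1 + sc D ^ 2 / 4) * sc D ≤ sc (muN T D) :=
      (mul_le_mul_of_nonneg_right d3 (nn D)).trans g2
    exact (mul_le_mul_of_nonneg_left g3 (nn _)).trans g1
  have d5 : (1 / 2 + sc n.h) * (sc D + 3 / 4 * sc D ^ 2) < 1 := by
    refine lt_of_le_of_lt ?_ t4
    have g1 := muN_ok (Nat.add 8388608 n.h) (Nat.add D (upN (Nat.mul 3 D2) 4))
    rw [sc_add, sc_add, sH] at g1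
    refine le_trans ?_ g1
    apply mul_le_mul_of_nonneg_left _ (by linarith [nn n.h])
    have g2 := sc_up (Nat.mul 3 D2) (b := 4) (by norm_num)
    rw [sc_mul] at g2
    push_cast at g2
    linarith
  have d6 : 1 + sc D ^ 2 / 4 ≤ sc F * (1 - sc n.h * ((1 + sc D ^ 2 / 4) * sc D)) := by
    have g1 := dvN_ok T (b := Nat.sub 16777216 hTD) (by rw [Nat.sub_eq]; omega)
    rw [sc_sub t1.le, ← hF] at g1
    have g2 : sc F * (1 - sc hTD) ≤ sc F * (1 - sc n.h * ((1 + sc D ^ 2 / 4) * sc D)) :=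
      mul_le_mul_of_nonneg_left (by linarith) (nn F)
    linarith
  have hM : ‖om * (1 - om)‖ ≤ sc (muN n.no n.n1) := by
    rw [norm_mul]
    exact (mul_le_mul nk.no nk.n1 (norm_nonneg _) (nn _)).trans (muN_ok _ _)
  have d7 : sc (muN n.no n.n1) * sc F * sc D ^ 2 / 2 ≤ sc R1 := by
    rw [hR1]
    have g1 := muN_ok (muN n.no n.n1) F
    have g2 := muN_ok (muN (muN n.no n.n1) F) D
    have g3 := muN_ok (muN (muN (muN n.no n.n1) F) D) D
    have g4 := sc_up (muN (muN (muN (muN n.no n.n1) F) D) D) (b := 2) (by norm_num)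
    push_cast at g4
    have g5 := mul_le_mul_of_nonneg_right g1 (nn D)
    have g6 := mul_le_mul_of_nonneg_right (g5.trans g2) (nn D)
    have e : sc (muN n.no n.n1) * sc F * sc D ^ 2 / 2 =
        sc (muN n.no n.n1) * sc F * sc D * sc D / 2 := by ring
    rw [e]
    linarith
  have c1 : sc n.n1 * sc um + sc n.no * sc vm + sc R1 ≤ sc c := by
    rw [hc, sc_add, sc_add]
    have g1 := muN_ok n.n1 um
    have g2 := muN_ok n.no vm
    linarith
  have c3 : sc c ≤ 1 := by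
    rw [← sU]
    unfold sc
    rw [div_le_div_iff_of_pos_right (by norm_num)]
    exact_mod_cast Nat.ble_eq.mp h5
  have c4 : sc c ^ 2 ≤ sc c2 := by
    rw [hc2, pow_two]
    exact muN_ok c c
  have hQ2 : ‖tc B.ex B.ey ^ 2 + 1‖ * (sc c + 3 / 4 * sc c ^ 2) + 1 / 131072 ≤ sc Q := by
    rw [hQ, sc_add, s128]
    have g1 := muN_ok n.p2 (Nat.add c (upN (Nat.mul 3 c2) 4))
    rw [sc_add] at g1
    have g2 := sc_up (Nat.mul 3 c2) (b := 4) (by norm_num)
    rw [sc_mul] at g2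
    push_cast at g2
    have g3 : ‖tc B.ex B.ey ^ 2 + 1‖ * (sc c + 3 / 4 * sc c ^ 2) ≤
        sc n.p2 * (sc c + sc (upN (Nat.mul 3 c2) 4)) := by
      apply mul_le_mul nk.p2 _ _ (nn _)
      · linarith
      · have := nn c
        positivity
    linarith
  have hX0 : sc Q ≤ sc (dvN Q pd) * (‖tc B.ex B.ey‖ * (-(tc B.ex B.ey).im)) := by
    have g1 := dvN_ok Q hpd0
    refine g1.trans ?_
    apply mul_le_mul_of_nonneg_left _ (nn _)
    have g2 : ((pd : ℕ) : ℝ) * 16777216 ≤ (n.nE : ℝ) * n.ey := by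
      have h3 : Nat.div (Nat.mul n.nE n.ey) 16777216 = n.nE * n.ey / 16777216 := rfl
      rw [hpd, h3]
      exact_mod_cast Nat.div_mul_le_self (n.nE * n.ey) 16777216
    have g3 : sc pd ≤ sc n.nE * sc n.ey := by
      unfold sc
      rw [div_mul_div_comm, div_le_div_iff₀ (by norm_num) (by norm_num)]
      nlinarith
    refine g3.trans ?_
    rw [← nk.ey]
    exact mul_le_mul_of_nonneg_right nk.nE (nn _)
  have hX31 : sc X ^ 3 / (1 - sc X) ≤ sc X3 := by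
    have g1 := dvN_ok (muN X X2) (b := Nat.sub 16777216 X) (by rw [Nat.sub_eq]; omega)
    rw [sc_sub x1.le, ← hX3] at g1
    have g2 := muN_ok X X2
    have g3 := muN_ok X X
    rw [← hX2] at g3
    have g4 := mul_le_mul_of_nonneg_left g3 (nn X)
    rw [div_le_iff₀ (by linarith)]
    have e : sc X ^ 3 = sc X * (sc X * sc X) := by ring
    rw [e]
    linarith
  have he2r : 0 < sc n.e2 := by
    unfold sc
    have : (0 : ℝ) < n.e2 := by exact_mod_cast he2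
    positivity
  have hR22 : sc n.G / 2 * (sc c ^ 2 + sc X ^ 2) + 2 / 9 * sc n.G * sc c ^ 3 +
      sc X ^ 3 / (1 - sc X) / sc n.e2 + sc X ^ 3 / (3 * (1 - sc X)) + 1 / 131072 / sc n.e2 ≤
        sc R2 := by
    rw [hR2, sc_add, sc_add, sc_add, sc_add]
    have g1 : sc n.G / 2 * (sc c ^ 2 + sc X ^ 2) ≤ sc (upN (muN n.G (Nat.add c2 X2)) 2) := by
      have k1 := sc_up (muN n.G (Nat.add c2 X2)) (b := 2) (by norm_num)
      have k2 := muN_ok n.G (Nat.add c2 X2)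
      rw [sc_add] at k2
      push_cast at k1
      have k3 : sc X ^ 2 ≤ sc X2 := by
        rw [hX2, pow_two]
        exact muN_ok X X
      have k4 : sc n.G * (sc c ^ 2 + sc X ^ 2) ≤ sc n.G * (sc c2 + sc X2) :=
        mul_le_mul_of_nonneg_left (by linarith) (nn _)
      linarith
    have g2 : 2 / 9 * sc n.G * sc c ^ 3 ≤ sc (upN (Nat.mul 2 (muN n.G (muN c c2))) 9) := by
      have k1 := sc_up (Nat.mul 2 (muN n.G (muN c c2))) (b := 9) (by norm_num)
      rw [sc_mul] at k1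
      push_cast at k1
      have k2 := muN_ok n.G (muN c c2)
      have k3 := muN_ok c c2
      have k4 : sc c ^ 3 ≤ sc (muN c c2) := by
        refine le_trans ?_ k3
        have e : sc c ^ 3 = sc c * sc c ^ 2 := by ring
        rw [e]
        exact mul_le_mul_of_nonneg_left c4 (nn _)
      have k5 := mul_le_mul_of_nonneg_left k4 (nn n.G)
      linarith
    have g3 : sc X ^ 3 / (1 - sc X) / sc n.e2 ≤ sc (dvN X3 n.e2) := by
      have k1 := dvN_ok X3 he2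
      rw [div_le_iff₀ he2r]
      linarith
    have g4 : sc X ^ 3 / (3 * (1 - sc X)) ≤ sc (upN X3 3) := by
      have k1 := sc_up X3 (b := 3) (by norm_num)
      push_cast at k1
      have e : sc X ^ 3 / (3 * (1 - sc X)) = sc X ^ 3 / (1 - sc X) / 3 := by
        rw [div_div, mul_comm]
      rw [e]
      linarith
    have g5 : 1 / 131072 / sc n.e2 ≤ sc (dvN 128 n.e2) := by
      have k1 := dvN_ok 128 he2
      rw [s128] at k1
      rw [div_le_iff₀ he2r]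
      linarith
    linarith
  exact ⟨sc n.h, _, sc F, sc c, sc Q, _, sc X, ⟨d1, nk.h, hM, lt_of_le_of_lt d4 t2, d5, d6, d7, c3,
    hQ2, hX0, hIt, x2, he2r, nk.e2, hg, nk.G, hR22, hE⟩, c1⟩

end Pool.Agent.S5.K
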