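import Pool.Agent.S5.K.Sc

/-!
# The checks of a slot
-/

set_option autoImplicit false

namespace Pool.Agent.S5.K

open Complex Pool.Agent.S5.Num

/-- Rectangle of a complex number, units `2 ^ (-24)`. -/
structure Rc (u : ℂ) (x r y s : ℤ) : Prop where
  re : |u.re * 16777216 - x| ≤ r
  im : |u.im * 16777216 - y| ≤ s

/-- The linear form `α u + β v`. -/
def lnf (ax ay bx b2 ux ur uy us vx vr vy vs : ℤ) (K : ℤ → ℤ → ℤ → ℤ → Bool) : Bool :=
  bd (abI ax) (fun aa => bd (abI ay) (fun ab => bd (abI bx) (fun ba => bd (abI b2) (fun bb =>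
  bd (ax * ux - ay * uy + (bx * vx - b2 * vy)) (fun cx =>
  bd (aa * ur + ab * us + (ba * vr + bb * vs)) (fun rx =>
  bd (ax * uy + ay * ux + (bx * vy + b2 * vx)) (fun cy =>
  bd (ab * ur + aa * us + (bb * vr + ba * vs)) (fun ry => K cx rx cy ry))))))))

theorem lin2 {a x X r A : ℝ} (ha : a = A) (hx : |x - X| ≤ r) : |a * x - A * X| ≤ |A| * r := by
  rw [ha, ← mul_sub, abs_mul]
  exact mul_le_mul_of_nonneg_left hx (abs_nonneg A)

theorem lnf_ok {ax ay bx b2 ux ur uy us vx vr vy vs : ℤ} {K : ℤ → ℤ → ℤ → ℤ → Bool}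
    (h : lnf ax ay bx b2 ux ur uy us vx vr vy vs K = true) :
    ∃ cx rx cy ry : ℤ, K cx rx cy ry = true ∧ ∀ (α β u v : ℂ) (S : ℝ), α.re * S = ax →
      α.im * S = ay → β.re * S = bx → β.im * S = b2 → Rc u ux ur uy us → Rc v vx vr vy vs →
        |(α * u + β * v).re * (S * 16777216) - cx| ≤ rx ∧
        |(α * u + β * v).im * (S * 16777216) - cy| ≤ ry := by
  unfold lnf at h
  obtain ⟨aa, haa, h⟩ := bd_ok h
  obtain ⟨ab, hab, h⟩ := bd_ok h
  obtain ⟨ba, hba, h⟩ := bd_ok h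
  obtain ⟨bb, hbb, h⟩ := bd_ok h
  obtain ⟨cx, hcx, h⟩ := bd_ok h
  obtain ⟨rx, hrx, h⟩ := bd_ok h
  obtain ⟨cy, hcy, h⟩ := bd_ok h
  obtain ⟨ry, hry, h⟩ := bd_ok h
  refine ⟨cx, rx, cy, ry, h, ?_⟩
  intro α β u v S h1 h2 h3 h4 hu hv
  rw [abI_eq] at haa hab hba hbb
  have i1 := lin2 h1 hu.re
  have i2 := lin2 h2 hu.im
  have i3 := lin2 h3 hv.re
  have i4 := lin2 h4 hv.im
  have j1 := lin2 h1 hu.im
  have j2 := lin2 h2 hu.re
  have j3 := lin2 h3 hv.im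
  have j4 := lin2 h4 hv.re
  have e1 : (α * u + β * v).re * (S * 16777216) = α.re * S * (u.re * 16777216) -
      α.im * S * (u.im * 16777216) + (β.re * S * (v.re * 16777216) -
        β.im * S * (v.im * 16777216)) := by
    rw [add_re, mul_re, mul_re]
    ring
  have e2 : (α * u + β * v).im * (S * 16777216) = α.re * S * (u.im * 16777216) +
      α.im * S * (u.re * 16777216) + (β.re * S * (v.im * 16777216) +
        β.im * S * (v.re * 16777216)) := by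
    rw [add_im, mul_im, mul_im]
    ring
  rw [e1, e2, hcx, hrx, hcy, hry, haa, hab, hba, hbb]
  push_cast
  rw [abs_le] at i1 i2 i3 i4 j1 j2 j3 j4
  rw [abs_le, abs_le]
  refine ⟨⟨?_, ?_⟩, ⟨?_, ?_⟩⟩ <;> linarith [i1.1, i1.2, i2.1, i2.2, i3.1, i3.2, i4.1, i4.2, j1.1, j1.2, j2.1, j2.2, j3.1, j3.2, j4.1, j4.2]

/-- The check of the slope. -/
def sla (ox oy gx gy ux ur uy us vx vr vy vs : ℤ) (G1 R1 R2 : ℕ) (p q : ℤ) (l1 r1 l2 r2 : ℕ) :
    Bool :=
  bd (16777216 - ox) (fun px =>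
  bd (gx * px + gy * oy) (fun hx => bd (gy * px - gx * oy) (fun hy =>
  bd (gx * ox - gy * oy) (fun kx => bd (gx * oy + gy * ox) (fun ky =>
  lnf (562949953421312 - 16777216 * ox - hx) (-(16777216 * oy) - hy) (-(16777216 * px) - kx)
    (16777216 * oy - ky) ux ur uy us vx vr vy vs (fun cx rx cy ry =>
  bd (281474976710656 * Int.ofNat (Nat.add (Nat.add (muN G1 R1) R2) 2752) + 63050394783186944)
    (fun ρ =>
  cond (leI (abI ((p + 8388608 - Int.ofNat l1) * 4503599627370496 + cx) + (rx + ρ))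
    (4503599627370496 * Int.ofNat r1))
  (cond (leI (abI ((q + 8388608 - Int.ofNat l2) * 4503599627370496 + cy) + (ry + ρ))
    (4503599627370496 * Int.ofNat r2))
  (leI (abI (q * 4503599627370496 + cy) + (ry + ρ)) 14816842774048931840000) false) false)))))))

theorem sla_ok {ox oy gx gy ux ur uy us vx vr vy vs : ℤ} {G1 R1 R2 : ℕ} {p q : ℤ}
    {l1 r1 l2 r2 : ℕ} (h : sla ox oy gx gy ux ur uy us vx vr vy vs G1 R1 R2 p q l1 r1 l2 r2 = true)
    {la la0 u v w e om g τ : ℂ} (hu : Rc u ux ur uy us) (hv : Rc v vx vr vy vs)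
    (hw : ‖w - (om * u + (1 - om) * v)‖ ≤ sc R1) (he : ‖e - g * (u + v - w)‖ ≤ sc R2)
    (hG : ‖1 - g‖ ≤ sc G1) (ho : ‖om - tc ox oy‖ ≤ 1 / 262144) (hg : ‖g - tc gx gy‖ ≤ 1 / 262144)
    (h1 : ‖1 - om‖ ≤ 1) (h2 : ‖om‖ ≤ 1) (h3 : ‖tc gx gy‖ ≤ 1) (huv : ‖u‖ + ‖v‖ ≤ 1)
    (hp : |la0.re * 1048576 - p| ≤ 14) (hq : |la0.im * 1048576 - q| ≤ 14)
    (hla : |la.im| < Real.pi)
    (hex : exp la = exp (la0 + (2 * u - e - w)) * (1 + τ)) (hτ : ‖τ‖ ≤ 20 * (1 / 262144)) :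
    |la.re * 1048576 + 8388608 - l1| ≤ r1 ∧ |la.im * 1048576 + 8388608 - l2| ≤ r2 := by
  unfold sla at h
  obtain ⟨px, hpx, h⟩ := bd_ok h
  obtain ⟨hx, hhx, h⟩ := bd_ok h
  obtain ⟨hy, hhy, h⟩ := bd_ok h
  obtain ⟨kx, hkx, h⟩ := bd_ok h
  obtain ⟨ky, hky, h⟩ := bd_ok h
  obtain ⟨cx, rx, cy, ry, h, hl⟩ := lnf_ok h
  obtain ⟨ρ, hρ, h⟩ := bd_ok h
  obtain ⟨c1, h⟩ := cond_ok h
  obtain ⟨c2, c3⟩ := cond_ok h
  have g1 := leI_ok c1
  have g2 := leI_ok c2
  have g3 := leI_ok c3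
  rw [abI_eq] at g1 g2 g3
  rw [iofNat, iofNat] at g1 g2
  rw [iofNat] at hρ
  set A : ℂ := 2 - tc ox oy - tc gx gy * (1 - tc ox oy) with hA
  set B : ℂ := -(1 - tc ox oy) - tc gx gy * tc ox oy with hB
  obtain ⟨m1, m2⟩ := hl A B u v 281474976710656 (by
    rw [hA, hhx, hpx]
    simp only [sub_re, mul_re, sub_im, re_ofNat, im_ofNat, tc_re, tc_im, one_re, one_im]
    push_cast
    ring) (by
    rw [hA, hhy, hpx]
    simp only [sub_re, mul_im, sub_im, re_ofNat, im_ofNat, tc_re, tc_im, one_re, one_im]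
    push_cast
    ring) (by
    rw [hB, hkx, hpx]
    simp only [sub_re, mul_re, neg_re, sub_im, tc_re, tc_im, one_re, one_im]
    push_cast
    ring) (by
    rw [hB, hky]
    simp only [sub_re, mul_im, neg_im, sub_im, tc_re, tc_im, one_re, one_im]
    push_cast
    ring) hu hv
  -- the remainders
  have k0 := slot_la (la := la0 + (2 * u - e - w)) (la0 := la0) (τ := 0) hw he (by simp) hG ho hg
    h1 h2 h3 huv
  rw [← hA, ← hB] at k0
  set L := A * u + B * v with hL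
  have k1 : ‖(2 * u - e - w) - L‖ ≤ sc (muN G1 R1) + sc R2 + 3 * (1 / 262144) := by
    have := muN_ok G1 R1
    rw [show la0 + (2 * u - e - w) - la0 - L = (2 * u - e - w) - L by ring] at k0
    linarith
  have hρ2 : ((ρ : ℤ) : ℝ) = 4503599627370496 * ((sc (muN G1 R1) + sc R2 + 43 * (1 / 262144)) *
      1048576 + 14) := by
    rw [hρ]
    have e1 : sc (muN G1 R1) + sc R2 + 43 * (1 / 262144) =
        sc (Nat.add (Nat.add (muN G1 R1) R2) 2752) := by
      rw [sc_add, sc_add]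
      unfold sc
      norm_num
    rw [e1]
    unfold sc
    push_cast
    ring
  have n1 := abs_le.1 ((abs_re_le_norm ((2 * u - e - w) - L)).trans k1)
  have n2 := abs_le.1 ((abs_im_le_norm ((2 * u - e - w) - L)).trans k1)
  have m1' := abs_le.1 m1
  have m2' := abs_le.1 m2
  have hp' := abs_le.1 hp
  have hq' := abs_le.1 hq
  have g1' : |((p : ℝ) + 8388608 - l1) * 4503599627370496 + cx| + (rx + ρ) ≤
      4503599627370496 * r1 := by exact_mod_cast g1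
  have g2' : |((q : ℝ) + 8388608 - l2) * 4503599627370496 + cy| + (ry + ρ) ≤
      4503599627370496 * r2 := by exact_mod_cast g2
  have g3' : |(q : ℝ) * 4503599627370496 + cy| + (ry + ρ) ≤ 14816842774048931840000 := by
    exact_mod_cast g3
  rw [hρ2] at g1' g2' g3'
  rw [sub_re] at n1
  rw [sub_im] at n2
  -- the branch
  have hbr : |(la0 + (2 * u - e - w)).im| + 2 * (20 * (1 / 262144)) ≤ Real.pi := by
    have a1 : |(la0 + (2 * u - e - w)).im| ≤ 3290000 / 1048576 - 40 * (1 / 262144) := by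
      rw [add_im, abs_le]
      have b1 := abs_le.1 (le_refl |(q : ℝ) * 4503599627370496 + cy|)
      constructor <;> linarith [b1.1, b1.2, n2.1, n2.2, m2'.1, m2'.2, hq'.1, hq'.2]
    have := Real.pi_gt_d6
    linarith
  have k2 := exp_branch hex hτ (by norm_num) hla hbr
  have p1 := abs_le.1 ((abs_re_le_norm (la - (la0 + (2 * u - e - w)))).trans k2)
  have p2 := abs_le.1 ((abs_im_le_norm (la - (la0 + (2 * u - e - w)))).trans k2)
  rw [sub_re, add_re] at p1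
  rw [sub_im, add_im] at p2
  have b1 := abs_le.1 (le_refl |((p : ℝ) + 8388608 - l1) * 4503599627370496 + cx|)
  have b2 := abs_le.1 (le_refl |((q : ℝ) + 8388608 - l2) * 4503599627370496 + cy|)
  rw [abs_le, abs_le]
  refine ⟨⟨?_, ?_⟩, ⟨?_, ?_⟩⟩
  · linarith [b1.1, b1.2, n1.1, n1.2, m1'.1, m1'.2, hp'.1, hp'.2, p1.1, p1.2]
  · linarith [b1.1, b1.2, n1.1, n1.2, m1'.1, m1'.2, hp'.1, hp'.2, p1.1, p1.2]
  · linarith [b2.1, b2.2, n2.1, n2.2, m2'.1, m2'.2, hq'.1, hq'.2, p2.1, p2.2]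
  · linarith [b2.1, b2.2, n2.1, n2.2, m2'.1, m2'.2, hq'.1, hq'.2, p2.1, p2.2]

end Pool.Agent.S5.K
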