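import Pool.Agent.S5.K.GenE

/-!
# Closed nodes: division of the regions of an entry
-/

set_option autoImplicit false

namespace Pool.Agent.S5.K

variable {sA sB : Bool} {nA nB : Nt} {rA rB : E.B2.Rg} {k0 k1 t0 t1 m : ℕ}

/-- The region of the first slot is divided in the direction `k`. -/
theorem Ent.dk (h1 : Ent.OK ⟨sA, nA, ⟨k0, m, t0, t1, 0⟩, sB, nB, rB⟩)
    (h2 : Ent.OK ⟨sA, nA, ⟨m, k1, t0, t1, 0⟩, sB, nB, rB⟩) :
    Ent.OK ⟨sA, nA, ⟨k0, k1, t0, t1, 0⟩, sB, nB, rB⟩ := by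
  intro sa sb bl br k E xa xb ea eb fa fb za zb nd pa pb
  rcases (spl_pol sA bl).k _ _ _ _ m pa with pa | pa
  · exact h1 sa sb bl br k E xa xb ea eb fa fb za zb nd pa pb
  · exact h2 sa sb bl br k E xa xb ea eb fa fb za zb nd pa pb

/-- The region of the first slot is divided in the direction `t`. -/
theorem Ent.dt (h1 : Ent.OK ⟨sA, nA, ⟨k0, k1, t0, m, 0⟩, sB, nB, rB⟩)
    (h2 : Ent.OK ⟨sA, nA, ⟨k0, k1, m, t1, 0⟩, sB, nB, rB⟩) :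
    Ent.OK ⟨sA, nA, ⟨k0, k1, t0, t1, 0⟩, sB, nB, rB⟩ := by
  intro sa sb bl br k E xa xb ea eb fa fb za zb nd pa pb
  rcases (spl_pol sA bl).t _ _ _ _ m pa with pa | pa
  · exact h1 sa sb bl br k E xa xb ea eb fa fb za zb nd pa pb
  · exact h2 sa sb bl br k E xa xb ea eb fa fb za zb nd pa pb

/-- The region of the second slot is divided in the direction `k`. -/
theorem Ent.dk' (h1 : Ent.OK ⟨sA, nA, rA, sB, nB, ⟨k0, m, t0, t1, 0⟩⟩)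
    (h2 : Ent.OK ⟨sA, nA, rA, sB, nB, ⟨m, k1, t0, t1, 0⟩⟩) :
    Ent.OK ⟨sA, nA, rA, sB, nB, ⟨k0, k1, t0, t1, 0⟩⟩ := by
  intro sa sb bl br k E xa xb ea eb fa fb za zb nd pa pb
  rcases (spl_pol sB br).k _ _ _ _ m pb with pb | pb
  · exact h1 sa sb bl br k E xa xb ea eb fa fb za zb nd pa pb
  · exact h2 sa sb bl br k E xa xb ea eb fa fb za zb nd pa pb

/-- The region of the second slot is divided in the direction `t`. -/
theorem Ent.dt' (h1 : Ent.OK ⟨sA, nA, rA, sB, nB, ⟨k0, k1, t0, m, 0⟩⟩)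
    (h2 : Ent.OK ⟨sA, nA, rA, sB, nB, ⟨k0, k1, m, t1, 0⟩⟩) :
    Ent.OK ⟨sA, nA, rA, sB, nB, ⟨k0, k1, t0, t1, 0⟩⟩ := by
  intro sa sb bl br k E xa xb ea eb fa fb za zb nd pa pb
  rcases (spl_pol sB br).t _ _ _ _ m pb with pb | pb
  · exact h1 sa sb bl br k E xa xb ea eb fa fb za zb nd pa pb
  · exact h2 sa sb bl br k E xa xb ea eb fa fb za zb nd pa pb

variable {s : Bool} {n : Nt}

/-- The region of an end is divided in the direction `k`. -/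
theorem EnE.dk (h1 : EnE.OK ⟨s, n, ⟨k0, m, t0, t1, 0⟩⟩) (h2 : EnE.OK ⟨s, n, ⟨m, k1, t0, t1, 0⟩⟩) :
    EnE.OK ⟨s, n, ⟨k0, k1, t0, t1, 0⟩⟩ := by
  intro a b k x1 x2 x3 z nd p
  rcases (spl_pol s b).k _ _ _ _ m p with p | p
  · exact h1 a b k x1 x2 x3 z nd p
  · exact h2 a b k x1 x2 x3 z nd p

/-- The region of an end is divided in the direction `t`. -/
theorem EnE.dt (h1 : EnE.OK ⟨s, n, ⟨k0, k1, t0, m, 0⟩⟩) (h2 : EnE.OK ⟨s, n, ⟨k0, k1, m, t1, 0⟩⟩) :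
    EnE.OK ⟨s, n, ⟨k0, k1, t0, t1, 0⟩⟩ := by
  intro a b k x1 x2 x3 z nd p
  rcases (spl_pol s b).t _ _ _ _ m p with p | p
  · exact h1 a b k x1 x2 x3 z nd p
  · exact h2 a b k x1 x2 x3 z nd p

end Pool.Agent.S5.K
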