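import Pool.Agent.S5.K.Sl

/-!
# The checks of a slot: the critical point
-/

set_option autoImplicit false

namespace Pool.Agent.S5.K

open Complex Pool.Agent.S5.Num

/-- The check of the critical point. -/
def sly (ox oy gx gy wx wy ux ur uy us vx vr vy vs : ℤ) (um vm G R1 R2 ia ja x1 x2 e1 e2 : ℕ) :
    Bool :=
  bd (16777216 - ox) (fun px =>
  bd (281474976710656 + (gx * px + gy * oy)) (fun hx => bd (gy * px - gx * oy) (fun hy =>
  bd (gx * ox - gy * oy) (fun kx => bd (gx * oy + gy * ox) (fun ky =>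
  sqN (hx * hx + hy * hy) (fun nP => sqN (kx * kx + ky * ky) (fun nQ =>
  sqN (wx * wx + wy * wy) (fun Wn =>
  ln (Nat.add (Nat.add (muN G R1) R2) 128) (fun r =>
  ln (Nat.add (Nat.add (muN (upN nP 16777216) um) (muN (upN nQ 16777216) vm)) r) (fun S =>
  cond (Nat.ble S 16777216)
  (ln (muN S S) (fun S2 =>
  ln (Nat.add (upN S2 2) (upN (Nat.mul 2 (muN S S2)) 9)) (fun E =>
  ln (Nat.add (muN Wn (Nat.add S E)) 384) (fun N =>
  cond (Nat.ble (Nat.succ N) 16777216)
  (ln (Nat.add (Nat.add (muN Wn (Nat.add r E)) (upN (dvN (muN N N) (Nat.sub 16777216 N)) 2)) 384)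
    (fun rr =>
  lnf (wx * hx - wy * hy) (wx * hy + wy * hx) (wx * kx - wy * ky) (wx * ky + wy * kx)
    ux ur uy us vx vr vy vs (fun cx rx cy ry =>
  bd (4722366482869645213696 * Int.ofNat rr) (fun R =>
  bd (cy + (ry + R)) (fun yh => bd (cy - (ry + R)) (fun yl =>
  bd (cx + (rx + R)) (fun xh => bd (cx - (rx + R)) (fun xl =>
  bd (792281625142643375935439503360000 * Int.ofNat (Nat.mul 16 ia)) (fun A =>
  bd (792281625142643375935439503360000 * Int.ofNat (Nat.mul 16 ja)) (fun B =>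
  cond (leI (792281625142643375935439503360000 * Int.ofNat x1 + 5092958 * yh) A)
  (cond (leI (792281625142643375935439503360000 * Int.ofNat x1 + 5092959 * yh) A)
  (cond (leI A (792281625142643375935439503360000 * Int.ofNat x2 + 5092958 * yl))
  (cond (leI A (792281625142643375935439503360000 * Int.ofNat x2 + 5092959 * yl))
  (cond (leI (792281625142643375935439503360000 * Int.ofNat e1) (B + 5092958 * xl))
  (cond (leI (792281625142643375935439503360000 * Int.ofNat e1) (B + 5092959 * xl))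
  (cond (leI (B + 5092958 * xh) (792281625142643375935439503360000 * Int.ofNat e2))
  (leI (B + 5092959 * xh) (792281625142643375935439503360000 * Int.ofNat e2))
  false) false) false) false) false) false) false)))))))))) false)))) false))))))))))

/-- Constants between `k1` and `k2`. -/
theorem kap_le {k1 k2 κ h M : ℝ} (h1 : k1 ≤ κ) (h2 : κ ≤ k2) (a1 : k1 * h ≤ M) (a2 : k2 * h ≤ M) :
    κ * h ≤ M := by
  rcases le_total 0 h with g | g
  · exact (mul_le_mul_of_nonneg_right h2 g).trans a2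
  · exact (mul_le_mul_of_nonpos_right h1 g).trans a1

theorem sly_ok {ox oy gx gy wx wy ux ur uy us vx vr vy vs : ℤ}
    {um vm G R1 R2 ia ja x1 x2 e1 e2 : ℕ}
    (h : sly ox oy gx gy wx wy ux ur uy us vx vr vy vs um vm G R1 R2 ia ja x1 x2 e1 e2 = true)
    {y V0 C u v w e om g : ℂ} (hu : Rc u ux ur uy us) (hv : Rc v vx vr vy vs)
    (hw : ‖w - (om * u + (1 - om) * v)‖ ≤ sc R1) (he : ‖e - g * (u + v - w)‖ ≤ sc R2)
    (hG : ‖g‖ ≤ sc G) (ho : ‖om - tc ox oy‖ ≤ 1 / 262144) (hg : ‖g - tc gx gy‖ ≤ 1 / 262144)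
    (h1 : ‖1 - om‖ ≤ 1) (h2 : ‖om‖ ≤ 1) (h3 : ‖tc gx gy‖ ≤ 1) (hum : ‖u‖ ≤ sc um)
    (hvm : ‖v‖ ≤ sc vm) (huv : ‖u‖ + ‖v‖ ≤ 1)
    (hV0 : exp (-(2 * Real.pi * I * gp ia ja)) = V0)
    (hy : 1 + exp (-(2 * Real.pi * I * y)) = C * exp (u + e)) (hC : ‖C - (1 + V0)‖ ≤ 1 / 262144)
    (hW : ‖tc wx wy * V0 - C‖ ≤ 1 / 262144) (hV : 1 / 2 ≤ ‖V0‖)
    (h0 : 0 < y.re) (h01 : y.re < 1 / 2) (hia : ia ≤ 100) :
    (x1 : ℝ) ≤ y.re * 3200 ∧ y.re * 3200 ≤ x2 ∧ (e1 : ℝ) ≤ y.im * 3200 + 800 ∧
      y.im * 3200 + 800 ≤ e2 := by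
  unfold sly at h
  obtain ⟨px, hpx, h⟩ := bd_ok h
  obtain ⟨hx, hhx, h⟩ := bd_ok h
  obtain ⟨hy', hhy, h⟩ := bd_ok h
  obtain ⟨kx, hkx, h⟩ := bd_ok h
  obtain ⟨ky, hky, h⟩ := bd_ok h
  obtain ⟨nP, hnP, h⟩ := sqN_ok h
  obtain ⟨nQ, hnQ, h⟩ := sqN_ok h
  obtain ⟨Wn, hWn, h⟩ := sqN_ok h
  obtain ⟨r, hr, h⟩ := ln_ok h
  obtain ⟨S, hS, h⟩ := ln_ok h
  obtain ⟨c1, h⟩ := cond_ok h
  obtain ⟨S2, hS2, h⟩ := ln_ok h
  obtain ⟨E, hE, h⟩ := ln_ok h
  obtain ⟨N, hN, h⟩ := ln_ok h
  obtain ⟨c2, h⟩ := cond_ok h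
  obtain ⟨rr, hrr, h⟩ := ln_ok h
  obtain ⟨cx, rx, cy, ry, h, hl⟩ := lnf_ok h
  obtain ⟨R, hR, h⟩ := bd_ok h
  obtain ⟨yh, hyh, h⟩ := bd_ok h
  obtain ⟨yl, hyl, h⟩ := bd_ok h
  obtain ⟨xh, hxh, h⟩ := bd_ok h
  obtain ⟨xl, hxl, h⟩ := bd_ok h
  obtain ⟨A, hA, h⟩ := bd_ok h
  obtain ⟨B, hB, h⟩ := bd_ok h
  obtain ⟨q1, h⟩ := cond_ok h
  obtain ⟨q2, h⟩ := cond_ok h
  obtain ⟨q3, h⟩ := cond_ok h
  obtain ⟨q4, h⟩ := cond_ok h
  obtain ⟨q5, h⟩ := cond_ok h
  obtain ⟨q6, h⟩ := cond_ok h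
  obtain ⟨q7, q8⟩ := cond_ok h
  replace q1 := leI_ok q1
  replace q2 := leI_ok q2
  replace q3 := leI_ok q3
  replace q4 := leI_ok q4
  replace q5 := leI_ok q5
  replace q6 := leI_ok q6
  replace q7 := leI_ok q7
  replace q8 := leI_ok q8
  rw [iofNat] at q1 q2 q3 q4 q5 q6 q7 q8 hA hB hR
  have nn : ∀ m, 0 ≤ sc m := sc_nonneg
  have s128 : sc 128 = 2 * (1 / 262144) := by
    unfold sc
    norm_num
  have s384 : sc 384 = 6 * (1 / 262144) := by
    unfold sc
    norm_num
  -- `s`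
  set P' : ℂ := 1 + tc gx gy * (1 - tc ox oy) with hP'
  set Q' : ℂ := tc gx gy * tc ox oy with hQ'
  have k0 := slot_s hw he hG ho hg h1 h2 h3 huv
  rw [← hP', ← hQ'] at k0
  set L := P' * u + Q' * v with hL
  have hr1 : sc (muN G R1) + sc R2 + 2 * (1 / 262144) = sc r := by
    rw [hr, sc_add, sc_add, s128]
  have k1 : ‖u + e - L‖ ≤ sc r := by
    have := muN_ok G R1
    linarith only [this, hr1, k0]
  have P'1 : ‖P'‖ ≤ sc (upN nP 16777216) := by
    have a1 : ‖P'‖ ≤ (nP : ℝ) / 281474976710656 := by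
      apply le_of_sq_le_sq _ (by positivity)
      rw [Complex.sq_norm, normSq_apply]
      have e1 : P'.re = (hx : ℝ) / 281474976710656 := by
        rw [hP', hhx, hpx]
        simp only [add_re, mul_re, sub_re, sub_im, tc_re, tc_im, one_re, one_im]
        push_cast
        ring
      have e2 : P'.im = (hy' : ℝ) / 281474976710656 := by
        rw [hP', hhy, hpx]
        simp only [add_im, mul_im, sub_re, sub_im, tc_re, tc_im, one_re, one_im]
        push_cast
        ring
      rw [e1, e2, div_pow, div_mul_div_comm, div_mul_div_comm, ← add_div,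
        div_le_div_iff₀ (by norm_num) (by norm_num)]
      push_cast at hnP
      linarith only [hnP]
    refine a1.trans ?_
    have k2 := upN_ok nP (b := 16777216) (by norm_num)
    push_cast at k2
    unfold sc
    rw [div_le_div_iff₀ (by norm_num) (by norm_num)]
    linarith only [k2]
  have Q'1 : ‖Q'‖ ≤ sc (upN nQ 16777216) := by
    have a1 : ‖Q'‖ ≤ (nQ : ℝ) / 281474976710656 := by
      apply le_of_sq_le_sq _ (by positivity)
      rw [Complex.sq_norm, normSq_apply]
      have e1 : Q'.re = (kx : ℝ) / 281474976710656 := by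
        rw [hQ', hkx, mul_re, tc_re, tc_re, tc_im, tc_im]
        push_cast
        ring
      have e2 : Q'.im = (ky : ℝ) / 281474976710656 := by
        rw [hQ', hky, mul_im, tc_re, tc_re, tc_im, tc_im]
        push_cast
        ring
      rw [e1, e2, div_pow, div_mul_div_comm, div_mul_div_comm, ← add_div,
        div_le_div_iff₀ (by norm_num) (by norm_num)]
      push_cast at hnQ
      linarith only [hnQ]
    refine a1.trans ?_
    have k2 := upN_ok nQ (b := 16777216) (by norm_num)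
    push_cast at k2
    unfold sc
    rw [div_le_div_iff₀ (by norm_num) (by norm_num)]
    linarith only [k2]
  have hSn : ‖u + e‖ ≤ sc S := by
    rw [hS, sc_add, sc_add]
    have a1 := muN_ok (upN nP 16777216) um
    have a2 := muN_ok (upN nQ 16777216) vm
    have a3 : ‖P' * u‖ ≤ sc (upN nP 16777216) * sc um := by
      rw [norm_mul]
      exact mul_le_mul P'1 hum (norm_nonneg _) (nn _)
    have a4 : ‖Q' * v‖ ≤ sc (upN nQ 16777216) * sc vm := by
      rw [norm_mul]
      exact mul_le_mul Q'1 hvm (norm_nonneg _) (nn _)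
    have a5 : u + e = (u + e - L) + (P' * u + Q' * v) := by rw [hL]; ring
    rw [a5]
    refine (norm_add_le _ _).trans ?_
    have := norm_add_le (P' * u) (Q' * v)
    linarith only [this, a4, a3, a2, a1, k1]
  have hS1 : sc S ≤ 1 := by
    unfold sc
    rw [div_le_one (by norm_num)]
    exact_mod_cast Nat.ble_eq.mp c1
  have hEe : 1 / 2 * sc S ^ 2 + 2 / 9 * sc S ^ 3 ≤ sc E := by
    rw [hE, sc_add]
    have a1 := sc_up S2 (b := 2) (by norm_num)
    have a2 := sc_up (Nat.mul 2 (muN S S2)) (b := 9) (by norm_num)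
    rw [sc_mul] at a2
    push_cast at a1 a2
    have a3 := muN_ok S S
    rw [← hS2] at a3
    have a4 := muN_ok S S2
    have a5 := mul_le_mul_of_nonneg_left a3 (nn S)
    have e1 : sc S ^ 2 = sc S * sc S := by ring
    have e2 : sc S ^ 3 = sc S * (sc S * sc S) := by ring
    rw [e1, e2]
    linarith only [a5, a4, a3, a2, a1]
  have hWn1 : ‖tc wx wy‖ ≤ sc Wn := tc_le_of hWn
  have hN1 : sc Wn * (sc S + sc E) + 6 * (1 / 262144) ≤ sc N := by
    rw [hN, sc_add, s384]
    have := muN_ok Wn (Nat.add S E)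
    rw [sc_add] at this
    linarith only [this]
  obtain ⟨x3, x4⟩ := sc_lt c2
  have hia' : (ia : ℝ) ≤ 100 := by exact_mod_cast hia
  have hia0 : (0 : ℝ) ≤ ia := Nat.cast_nonneg _
  obtain ⟨z, hz1, hz2⟩ := slot_y hV0 hy hC hW hV hSn hS1 k1 hWn1 hEe hN1 x4 h0 h01
    (by rw [gp_re]; linarith only [hia']) (by rw [gp_re]; linarith only [hia'])
  have hz3 : ‖z - tc wx wy * L‖ ≤ sc rr := by
    refine hz2.trans ?_
    rw [hrr, sc_add, sc_add, s384]
    have a1 := muN_ok Wn (Nat.add r E)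
    rw [sc_add] at a1
    have a2 : sc N ^ 2 / (2 * (1 - sc N)) ≤ sc (upN (dvN (muN N N) (Nat.sub 16777216 N)) 2) := by
      have a3 := sq_div_le x3 x4
      have a4 := sc_up (dvN (muN N N) (Nat.sub 16777216 N)) (b := 2) (by norm_num)
      push_cast at a4
      have e1 : sc N ^ 2 / (2 * (1 - sc N)) = sc N ^ 2 / (1 - sc N) / 2 := by
        rw [div_div, mul_comm]
      rw [e1]
      linarith only [a4, a3]
    linarith only [a2, a1]
  obtain ⟨m1, m2⟩ := hl (tc wx wy * P') (tc wx wy * Q') u v 4722366482869645213696 (by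
    rw [hP', hhx, hhy, hpx]
    simp only [add_re, add_im, sub_re, mul_re, mul_im, sub_im, tc_re, tc_im, one_re, one_im]
    push_cast
    ring) (by
    rw [hP', hhx, hhy, hpx]
    simp only [add_re, add_im, sub_re, mul_re, mul_im, sub_im, tc_re, tc_im, one_re, one_im]
    push_cast
    ring) (by
    rw [hQ', hkx, hky]
    simp only [mul_re, mul_im, tc_re, tc_im]
    push_cast
    ring) (by
    rw [hQ', hkx, hky]
    simp only [mul_re, mul_im, tc_re, tc_im]
    push_cast
    ring) hu hv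
  have eL : tc wx wy * P' * u + tc wx wy * Q' * v = tc wx wy * L := by
    rw [hL]
    ring
  rw [eL] at m1 m2
  have n1 := abs_le.1 ((abs_re_le_norm (z - tc wx wy * L)).trans hz3)
  have n2 := abs_le.1 ((abs_im_le_norm (z - tc wx wy * L)).trans hz3)
  rw [sub_re] at n1
  rw [sub_im] at n2
  have m1' := abs_le.1 m1
  have m2' := abs_le.1 m2
  have hR' : ((R : ℤ) : ℝ) = 79228162514264337593543950336 * sc rr := by
    rw [hR]
    unfold sc
    push_cast
    ring
  -- bounds of `z` in units of `2 ^ (-96)`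
  have zr1 : (xl : ℝ) ≤ 79228162514264337593543950336 * z.re := by
    rw [hxl]
    push_cast
    rw [hR']
    linarith only [m1'.1, n1.1]
  have zr2 : 79228162514264337593543950336 * z.re ≤ (xh : ℝ) := by
    rw [hxh]
    push_cast
    rw [hR']
    linarith only [m1'.2, n1.2]
  have zi1 : (yl : ℝ) ≤ 79228162514264337593543950336 * z.im := by
    rw [hyl]
    push_cast
    rw [hR']
    linarith only [m2'.1, n2.1]
  have zi2 : 79228162514264337593543950336 * z.im ≤ (yh : ℝ) := by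
    rw [hyh]
    push_cast
    rw [hR']
    linarith only [m2'.2, n2.2]
  -- the constant
  have hpi := Real.pi_pos
  set κ : ℝ := 16000000 / Real.pi with hκ
  have κ1 : 5092958 ≤ κ := by
    rw [hκ, le_div_iff₀ hpi]
    have := Real.pi_lt_d20
    linarith only [this, h01, h0]
  have κ2 : κ ≤ 5092959 := by
    rw [hκ, div_le_iff₀ hpi]
    have := Real.pi_gt_d20
    linarith only [this, h01, h0]
  have κ0 : 0 ≤ κ := by linarith only [κ1, h01, h0]
  have yr : y.re * 32000000 = (ia : ℝ) * 160000 - κ * z.im := by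
    have e1 : y = gp ia ja + I / (2 * Real.pi) * z := by linear_combination hz1
    have e2 : y.re = (ia : ℝ) / 200 - z.im / (2 * Real.pi) := by
      rw [e1, add_re, gp_re]
      have e3 : I / (2 * (Real.pi : ℂ)) * z = (((2 * Real.pi)⁻¹ : ℝ) : ℂ) * (I * z) := by
        push_cast
        ring
      rw [e3, re_ofReal_mul, mul_re, I_re, I_im]
      ring
    rw [e2, hκ]
    field_simp
    ring
  have yi : (y.im * 3200 + 800) * 10000 = (ja : ℝ) * 160000 + κ * z.re := by
    have e1 : y = gp ia ja + I / (2 * Real.pi) * z := by linear_combination hz1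
    have e2 : y.im = ((ja : ℝ) - 50) / 200 + z.re / (2 * Real.pi) := by
      rw [e1, add_im, gp_im]
      have e3 : I / (2 * (Real.pi : ℂ)) * z = (((2 * Real.pi)⁻¹ : ℝ) : ℂ) * (I * z) := by
        push_cast
        ring
      rw [e3, im_ofReal_mul, mul_im, I_re, I_im]
      ring
    rw [e2, hκ]
    field_simp
    ring
  have q1' : 792281625142643375935439503360000 * (x1 : ℝ) + 5092958 * yh ≤ (A : ℝ) := by
    exact_mod_cast q1
  have q2' : 792281625142643375935439503360000 * (x1 : ℝ) + 5092959 * yh ≤ (A : ℝ) := by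
    exact_mod_cast q2
  have q3' : (A : ℝ) ≤ 792281625142643375935439503360000 * (x2 : ℝ) + 5092958 * yl := by
    exact_mod_cast q3
  have q4' : (A : ℝ) ≤ 792281625142643375935439503360000 * (x2 : ℝ) + 5092959 * yl := by
    exact_mod_cast q4
  have q5' : 792281625142643375935439503360000 * (e1 : ℝ) ≤ (B : ℝ) + 5092958 * xl := by
    exact_mod_cast q5
  have q6' : 792281625142643375935439503360000 * (e1 : ℝ) ≤ (B : ℝ) + 5092959 * xl := by
    exact_mod_cast q6
  have q7' : (B : ℝ) + 5092958 * xh ≤ 792281625142643375935439503360000 * (e2 : ℝ) := by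
    exact_mod_cast q7
  have q8' : (B : ℝ) + 5092959 * xh ≤ 792281625142643375935439503360000 * (e2 : ℝ) := by
    exact_mod_cast q8
  have hA' : (A : ℝ) = 792281625142643375935439503360000 * (16 * ia) := by
    rw [hA, Nat.mul_eq]
    push_cast
    ring
  have hB' : (B : ℝ) = 792281625142643375935439503360000 * (16 * ja) := by
    rw [hB, Nat.mul_eq]
    push_cast
    ring
  have w1 := kap_le κ1 κ2 (h := (yh : ℝ))
    (M := (A : ℝ) - 792281625142643375935439503360000 * x1) (by linarith only [q1']) (by linarith only [q2'])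
  have w2 := kap_le κ1 κ2 (h := -(yl : ℝ))
    (M := 792281625142643375935439503360000 * (x2 : ℝ) - A) (by linarith only [q3']) (by linarith only [q4'])
  have w3 := kap_le κ1 κ2 (h := -(xl : ℝ))
    (M := (B : ℝ) - 792281625142643375935439503360000 * e1) (by linarith only [q5']) (by linarith only [q6'])
  have w4 := kap_le κ1 κ2 (h := (xh : ℝ))
    (M := 792281625142643375935439503360000 * (e2 : ℝ) - B) (by linarith only [q7']) (by linarith only [q8'])
  have v1 := mul_le_mul_of_nonneg_left zi2 κ0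
  have v2 := mul_le_mul_of_nonneg_left zi1 κ0
  have v3 := mul_le_mul_of_nonneg_left zr1 κ0
  have v4 := mul_le_mul_of_nonneg_left zr2 κ0
  rw [hA'] at w1 w2
  rw [hB'] at w3 w4
  refine ⟨?_, ?_, ?_, ?_⟩
  · linarith only [v1, w1, yr]
  · linarith only [v2, w2, yr]
  · linarith only [v3, w3, yi]
  · linarith only [v4, w4, yi]

end Pool.Agent.S5.K
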